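import Mathlib

set_option autoImplicit false

namespace Pool.Agent.Lib.MP_05aa0e_al

open Finset

/-- Greedy colouring along a key. -/
theorem exists_coloring {P : Type*} [DecidableEq P] (conf : P → P → Prop) [DecidableRel conf]
    (hsymm : ∀ p q, conf p q → conf q p) (key : P → ℕ) (d : ℕ) (s : Finset P)
    (h : ∀ p ∈ s, (s.filter (fun q => q ≠ p ∧ conf p q ∧ key q ≤ key p)).card < d) :
    ∃ c : P → ℕ, (∀ p ∈ s, c p < d) ∧
      ∀ p ∈ s, ∀ q ∈ s, p ≠ q → c p = c q → ¬ conf p q := by
  induction s using Finset.induction_on_max_value key with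
  | empty => exact ⟨fun _ => 0, by simp, by simp⟩
  | insert a s has hmax ih =>
    obtain ⟨c, hc, hc'⟩ := ih (fun p hp => lt_of_le_of_lt (card_le_card (by
      intro q hq
      simp only [mem_filter, mem_insert] at hq ⊢
      exact ⟨Or.inr hq.1, hq.2⟩)) (h p (mem_insert_of_mem hp)))
    have h1 := h a (mem_insert_self _ _)
    have h2 : ((s.filter (fun q => conf a q)).image c).card < (range d).card := by
      rw [card_range]
      refine lt_of_le_of_lt card_image_le (lt_of_le_of_lt (card_le_card ?_) h1)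
      intro q hq
      simp only [mem_filter, mem_insert] at hq ⊢
      exact ⟨Or.inr hq.1, fun e => has (e ▸ hq.1), hq.2, hmax q hq.1⟩
    obtain ⟨e, he, he'⟩ := exists_mem_notMem_of_card_lt_card h2
    have hne : ∀ p ∈ s, p ≠ a := fun p hp e => has (e ▸ hp)
    refine ⟨Function.update c a e, ?_, ?_⟩
    · intro p hp
      rcases mem_insert.1 hp with rfl | hp
      · simpa using he
      · rw [Function.update_of_ne (hne _ hp)]; exact hc p hp
    · have key1 : ∀ q ∈ s, e = c q → ¬ conf a q := by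
        intro q hq heq hcf
        exact he' (mem_image.2 ⟨q, mem_filter.2 ⟨hq, hcf⟩, heq.symm⟩)
      intro p hp q hq hpq hcc
      rcases mem_insert.1 hp with hp1 | hp1 <;> rcases mem_insert.1 hq with hq1 | hq1
      · exact absurd (hp1.trans hq1.symm) hpq
      · rw [hp1, Function.update_self, Function.update_of_ne (hne _ hq1)] at hcc
        exact hp1 ▸ key1 q hq1 hcc
      · rw [hq1, Function.update_self, Function.update_of_ne (hne _ hp1)] at hcc
        exact fun hcf => key1 p hp1 hcc.symm (hsymm _ _ (hq1 ▸ hcf))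
      · rw [Function.update_of_ne (hne _ hp1),
          Function.update_of_ne (hne _ hq1)] at hcc
        exact hc' p hp1 q hq1 hpq hcc

/-- The step sequence of `h`. -/
def st (h : ℕ → ℕ) (i : ℕ) : Bool := decide (h (i + 1) ≠ h i)

/-- Almost additive functions such as `i ↦ ⌊i ρ⌋` with `0 ≤ ρ < 1`. -/
def Sturm (h : ℕ → ℕ) : Prop :=
  h 0 = 0 ∧ h 1 = 0 ∧ ∀ a b, h a + h b ≤ h (a + b) ∧ h (a + b) ≤ h a + h b + 1

theorem Sturm.step {h : ℕ → ℕ} (hh : Sturm h) (i : ℕ) :
    (st h i = false ∧ h (i + 1) = h i) ∨ (st h i = true ∧ h (i + 1) = h i + 1) := by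
  have := hh.2.2 i 1
  have h1 := hh.2.1
  by_cases e : h (i + 1) = h i
  · simp [st, e]
  · right; exact ⟨by simp [st, e], by omega⟩

/-- Antidiagonal chase. -/
theorem chase {A : Type*} [Zero A] (h : ℕ → ℕ) (hh : Sturm h) (F : ℕ → ℕ → A)
    (G : ℕ → Bool → ℕ → A)
    (hL : ∀ i j, F i j = G (i + 1) (st h (i + 1)) j)
    (hR : ∀ i j, F i j = G i (st h (j + 1)) (j + 1))
    (kL : ∀ i j, st h i = false → G i true j = 0)
    (kR : ∀ i j, (st h j = true ∨ j = 0) → G i false j = 0) :
    (∀ i j, F i j = 0) ∧ ∀ i u j, G i u j = 0 := by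
  have s0 : st h 0 = false := by simp [st, hh.1, hh.2.1]
  have up : ∀ j i, h (i + 1) + h (j + 1) = h (i + j + 2) → F i j = 0 := by
    intro j
    induction j with
    | zero =>
      intro i e
      rw [hL]
      rcases hh.step (i + 1) with ⟨e1, e2⟩ | ⟨e1, e2⟩
      · rw [e1]; exact kR _ _ (Or.inr rfl)
      · simp only [add_zero, zero_add, hh.2.1] at e
        have : h (i + 1 + 1) = h (i + 2) := rfl
        omega
    | succ j ih =>
      intro i e
      have e3 := (hh.2.2 (i + 1 + 1) (j + 1)).1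
      rw [show i + 1 + 1 + (j + 1) = i + (j + 1) + 2 by ring] at e3
      rw [hL]
      rcases hh.step (i + 1) with ⟨e1, e2⟩ | ⟨e1, e2⟩ <;>
        rcases hh.step (j + 1) with ⟨f1, f2⟩ | ⟨f1, f2⟩
      · rw [e1, ← f1, ← hR]
        exact ih _ (by rw [show i + 1 + j + 2 = i + (j + 1) + 2 by ring]; omega)
      · rw [e1]; exact kR _ _ (Or.inl f1)
      · omega
      · rw [e1, ← f1, ← hR]
        exact ih _ (by rw [show i + 1 + j + 2 = i + (j + 1) + 2 by ring]; omega)
  have down : ∀ i j, h (i + 1) + h (j + 1) < h (i + j + 2) → F i j = 0 := by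
    intro i
    induction i with
    | zero =>
      intro j e
      rw [hR]
      rcases hh.step (j + 1) with ⟨e1, e2⟩ | ⟨e1, e2⟩
      · simp only [zero_add, hh.2.1] at e
        have : h (j + 1 + 1) = h (j + 2) := rfl
        omega
      · rw [e1]; exact kL _ _ s0
    | succ i ih =>
      intro j e
      have e3 := (hh.2.2 (i + 1) (j + 1 + 1)).2
      rw [show i + 1 + (j + 1 + 1) = i + 1 + j + 2 by ring] at e3
      rw [hR]
      rcases hh.step (i + 1) with ⟨e1, e2⟩ | ⟨e1, e2⟩ <;>
        rcases hh.step (j + 1) with ⟨f1, f2⟩ | ⟨f1, f2⟩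
      · rw [f1, ← e1, ← hL]
        exact ih _ (by rw [show i + (j + 1) + 2 = i + 1 + j + 2 by ring]; omega)
      · rw [f1]; exact kL _ _ e1
      · omega
      · rw [f1, ← e1, ← hL]
        exact ih _ (by rw [show i + (j + 1) + 2 = i + 1 + j + 2 by ring]; omega)
  have hF : ∀ i j, F i j = 0 := fun i j => by
    have e3 := (hh.2.2 (i + 1) (j + 1)).1
    rw [show i + 1 + (j + 1) = i + j + 2 by ring] at e3
    rcases e3.lt_or_eq with e | e
    · exact down i j e
    · exact up j i e
  refine ⟨hF, fun i u j => ?_⟩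
  cases u
  · rcases j with _ | j
    · exact kR _ _ (Or.inr rfl)
    · rcases e : st h (j + 1)
      · rw [← e, ← hR, hF]
      · exact kR _ _ (Or.inl e)
  · rcases i with _ | i
    · exact kL _ _ s0
    · rcases e : st h (i + 1)
      · exact kL _ _ e
      · rw [← e, ← hL, hF]

/-- Numerical code of a list of digits depending on the position. -/
def val (ψ : ℕ → ℕ → ℕ) (D : ℕ) : ℕ → List ℕ → ℕ
  | _, [] => 0
  | i, a :: w => ψ i a * D ^ w.length + val ψ D (i + 1) w

theorem val_lt (ψ : ℕ → ℕ → ℕ) (D : ℕ) : ∀ (w : List ℕ) (i : ℕ),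
    (∀ a ∈ w, ∀ j, ψ j a < D) → val ψ D i w < D ^ w.length
  | [], _, _ => by simp [val]
  | a :: w, i, h => by
    have h1 := val_lt ψ D w (i + 1) (fun b hb => h b (List.mem_cons_of_mem _ hb))
    have h2 := h a List.mem_cons_self i
    simp only [val, List.length_cons, pow_succ]
    nlinarith

theorem val_lt_val (ψ : ℕ → ℕ → ℕ) (D : ℕ) (a a' : ℕ) (w w' : List ℕ) (hl : w.length = w'.length)
    (hw : ∀ b ∈ w, ∀ j, ψ j b < D) :
    ∀ (pre : List ℕ) (i : ℕ), ψ (i + pre.length) a < ψ (i + pre.length) a' →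
      val ψ D i (pre ++ a :: w) < val ψ D i (pre ++ a' :: w')
  | [], i, h => by
    have h1 := val_lt ψ D w (i + 1) hw
    simp only [List.nil_append, val, List.length_nil, add_zero, ← hl] at h ⊢
    nlinarith
  | b :: pre, i, h => by
    have h1 := val_lt_val ψ D a a' w w' hl hw pre (i + 1)
      (by simpa [add_assoc, add_comm 1] using h)
    simp only [List.cons_append, val, List.length_append, List.length_cons, hl]
    omega

end Pool.Agent.Lib.MP_05aa0e_al
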