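import Pool.Agent.Lib.MP_05aa0e_al.Color

set_option autoImplicit false

namespace Pool.Agent.Lib.MP_05aa0e_al

open Finset

/-- Letters: ordinary letters in `L` blocks, and triples of special letters. -/
abbrev Ltr (L : ℕ) (N : Fin L → ℕ) (B : Type) : Type := (Σ j : Fin L, Fin (N j)) ⊕ (B × Option Bool)

section
variable {L : ℕ} {N : Fin L → ℕ} {B : Type} (jb : B → ℕ) (mb : B → ℕ → ℕ)

def lev : Ltr L N B → ℕ
  | .inl p => 2 * p.1.val
  | .inr p => 2 * jb p.1 - 1

def lo : Ltr L N B → Ltr L N B → ℕ
  | _, .inl p => p.1.val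
  | .inr _, .inr p => jb p.1 - 1
  | .inl a, .inr p => if p.2 = none ∨ (p.2 = some true ∧ st (mb p.1) a.2.val = false) then
      jb p.1 - 1 else jb p.1

def hi : Ltr L N B → Ltr L N B → ℕ
  | .inl p, _ => p.1.val
  | .inr p, .inr _ => jb p.1
  | .inr p, .inl b =>
      if p.2 = none ∨ (p.2 = some false ∧ (st (mb p.1) b.2.val = true ∨ b.2.val = 0)) then
        jb p.1 else jb p.1 - 1

def tail : Ltr L N B → Ltr L N B → Option (Ltr L N B × Ltr L N B)
  | .inr (β, none), .inl ⟨l, s⟩ =>
      if h : s.val + 1 < N l then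
        some (.inr (β, some (st (mb β) (s.val + 1))), .inl ⟨l, ⟨s.val + 1, h⟩⟩) else none
  | .inl ⟨j, i⟩, .inr (β, none) =>
      if h : i.val + 1 < N j then
        some (.inl ⟨j, ⟨i.val + 1, h⟩⟩, .inr (β, some (st (mb β) (i.val + 1)))) else none
  | _, _ => none

def Spec (p : Ltr L N B × Ltr L N B) : Prop := p.1.isRight = true ∨ p.2.isRight = true

def Diag (p : Ltr L N B × Ltr L N B) : Prop :=
  p.1.isLeft = true ∧ p.2.isLeft = true ∧ lev jb p.1 = lev jb p.2

def Conf (p q : Ltr L N B × Ltr L N B) : Prop :=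
  (lo jb mb p.1 p.2 ≤ hi jb mb q.1 q.2 ∧ lo jb mb q.1 q.2 ≤ hi jb mb p.1 p.2) ∨
    (Spec p ∧ ¬ Diag jb q) ∨ (Spec q ∧ ¬ Diag jb p)

def psi (L : ℕ) (i v : ℕ) : ℕ :=
  if v + 2 ≤ 2 * i then 2 * L + 2 else if v = 2 * i then 0 else if v + 1 = 2 * i then 1 else v + 2

theorem tail_some {a b a' b' : Ltr L N B} (h : tail mb a b = some (a', b')) :
    lev jb a' = lev jb a ∧ lev jb b' = lev jb b ∧ tail mb a' b' = none := by
  rcases a with ⟨j, i⟩ | ⟨β, _ | _⟩ <;> rcases b with ⟨l, s⟩ | ⟨γ, _ | _⟩ <;>
    simp only [tail, reduceCtorEq] at h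
  · split_ifs at h with h1
    simp only [Option.some.injEq, Prod.mk.injEq] at h
    obtain ⟨rfl, rfl⟩ := h
    simp [lev, tail]
  · split_ifs at h with h1
    simp only [Option.some.injEq, Prod.mk.injEq] at h
    obtain ⟨rfl, rfl⟩ := h
    simp [lev, tail]

variable (hj : ∀ β, 1 ≤ jb β ∧ jb β < L)
include hj

theorem lev_lt (a : Ltr L N B) : lev jb a + 2 ≤ 2 * L := by
  rcases a with ⟨j, i⟩ | ⟨β, u⟩
  · have := j.2; simp only [lev]; omega
  · have := hj β; simp only [lev]; omega

theorem psi_lt (a : Ltr L N B) (i : ℕ) : psi L i (lev jb a) < 2 * L + 3 := by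
  have := lev_lt jb hj a
  unfold psi; split_ifs <;> omega

theorem lev_hi (a b : Ltr L N B) :
    2 * hi jb mb a b ≤ lev jb a + 1 ∧ lev jb a ≤ 2 * hi jb mb a b + 1 ∧
      (a.isLeft = true → lev jb a = 2 * hi jb mb a b) := by
  rcases a with ⟨j, i⟩ | ⟨β, u⟩ <;> rcases b with ⟨l, s⟩ | ⟨γ, v⟩ <;>
    simp only [lev, hi, Sum.isLeft] <;> (try have := hj β) <;> (try split_ifs) <;> simp <;> omega

omit hj in
theorem diag_lo_hi {p : Ltr L N B × Ltr L N B} (h : Diag jb p) :
    lo jb mb p.1 p.2 = hi jb mb p.1 p.2 := by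
  obtain ⟨a, b⟩ := p
  rcases a with ⟨j, i⟩ | ⟨β, u⟩ <;> rcases b with ⟨l, s⟩ | ⟨γ, v⟩ <;>
    simp [Diag, lev, lo, hi] at h ⊢
  omega

theorem psi_move {p q : Ltr L N B × Ltr L N B} {i : ℕ} (h : ¬ Conf jb mb p q)
    (h1 : lo jb mb p.1 p.2 ≤ i) (h2 : i ≤ hi jb mb p.1 p.2)
    (h3 : lo jb mb q.1 q.2 ≤ hi jb mb q.1 q.2) :
    psi L i (lev jb p.1) < psi L i (lev jb q.1) := by
  have e1 := lev_hi jb mb hj p.1 p.2
  have e2 := lev_hi jb mb hj q.1 q.2
  have e3 := lev_lt jb hj p.1
  have e4 := lev_lt jb hj q.1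
  simp only [Conf, not_or, not_and, not_not] at h
  obtain ⟨c1, c2, c3⟩ := h
  by_cases hq : Spec q
  · have hd := c3 hq
    have e5 := diag_lo_hi jb mb hd
    have e6 := e1.2.2 hd.1
    unfold psi; split_ifs <;> omega
  · have e6 : lev jb q.1 = 2 * hi jb mb q.1 q.2 := e2.2.2 (by
      simp only [Spec, not_or] at hq
      rcases h : q.1 with _ | _ <;> simp [h] at hq ⊢)
    unfold psi; split_ifs <;> omega

end

section
variable {L : ℕ} {N : Fin L → ℕ} {B : Type} [Fintype B] [DecidableEq B] (jb : B → ℕ) (mb : B → ℕ → ℕ)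
  {A : Type*} [Ring A] (x : Ltr L N B → A)

def tv (a b : Ltr L N B) : A := (tail mb a b).elim 0 (fun p => x p.1 * x p.2)

def act : Finset (Ltr L N B × Ltr L N B) :=
  univ.filter (fun p => lo jb mb p.1 p.2 ≤ hi jb mb p.1 p.2)

def wv (w : List (Ltr L N B)) : ℕ := val (psi L) (2 * L + 3) 0 (w.map (lev jb))

theorem nilpotent_of_coloring (hj : ∀ β, 1 ≤ jb β ∧ jb β < L) (hm : ∀ β, Sturm (mb β))
    (c : Ltr L N B × Ltr L N B → ℕ)
    (hc : ∀ p ∈ act jb mb, ∀ q ∈ act jb mb, p ≠ q → c p = c q → ¬ Conf jb mb p q)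
    (hrel : ∀ p ∈ act jb mb,
      ∑ q ∈ (act jb mb).filter (fun q => c q = c p), (x q.1 * x q.2 - tv mb x q.1 q.2) = 0)
    (w : List (Ltr L N B)) (hw : w.length = L + 1) : (w.map x).prod = 0 := by
  have hb : ∀ w : List (Ltr L N B), wv jb w < (2 * L + 3) ^ w.length := fun w => by
    have := val_lt (psi L) (2 * L + 3) (w.map (lev jb)) 0 (by
      intro a ha j
      obtain ⟨b, -, rfl⟩ := List.mem_map.1 ha
      exact psi_lt jb hj b j)
    simpa [wv] using this
  induction hn : (2 * L + 3) ^ (L + 1) - wv jb w using Nat.strong_induction_on generalizing w with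
  | _ n ih =>
  have IH : ∀ w' : List (Ltr L N B), w'.length = L + 1 → wv jb w < wv jb w' →
      (w'.map x).prod = 0 := fun w' h1 h2 =>
    ih _ (by have := hb w'; rw [h1] at this; omega) w' h1 rfl
  -- the move rule
  have move : ∀ (pre post : List (Ltr L N B)) (a b : Ltr L N B),
      (pre ++ a :: b :: post).map (lev jb) = w.map (lev jb) →
      lo jb mb a b ≤ pre.length → pre.length ≤ hi jb mb a b →
      (pre.map x).prod * (x a * x b) * (post.map x).prod =
        (pre.map x).prod * tv mb x a b * (post.map x).prod := by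
    intro pre post a b hl h1 h2
    have hlen : pre.length + (post.length + 2) = L + 1 := by
      have := congrArg List.length hl
      simp only [List.length_map, List.length_append, List.length_cons] at this
      omega
    have hp : (a, b) ∈ act jb mb := by simp only [act, mem_filter, mem_univ, true_and]; omega
    have h0 := hrel (a, b) hp
    rw [← add_sum_erase _ _ (a := (a, b)) (by simp [hp])] at h0
    have hz : ∀ a' b' : Ltr L N B, psi L pre.length (lev jb a) < psi L pre.length (lev jb a') →
        (pre.map x).prod * (x a' * x b') * (post.map x).prod = 0 := by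
      intro a' b' hlt
      have := IH (pre ++ a' :: b' :: post) (by simp; omega) (by
        unfold wv
        rw [← hl]
        simp only [List.map_append, List.map_cons]
        refine val_lt_val _ _ _ _ _ _ (by simp) ?_ _ 0 (by simpa using hlt)
        intro v hv j
        rw [← List.map_cons] at hv
        obtain ⟨b, -, rfl⟩ := List.mem_map.1 hv
        exact psi_lt jb hj b j)
      simpa [mul_assoc] using this
    have h3 : (pre.map x).prod * (∑ q ∈ ((act jb mb).filter (fun q => c q = c (a, b))).erase (a, b),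
        (x q.1 * x q.2 - tv mb x q.1 q.2)) * (post.map x).prod = 0 := by
      rw [mul_sum, sum_mul]
      refine sum_eq_zero fun q hq => ?_
      simp only [mem_erase, mem_filter] at hq
      have hlt := psi_move jb mb hj (hc _ hp _ hq.2.1 (Ne.symm hq.1) hq.2.2.symm) h1 h2
        (by simpa [act] using hq.2.1)
      rw [mul_sub, sub_mul, hz _ _ hlt]
      unfold tv
      rcases ht : tail mb q.1 q.2 with _ | ⟨a', b'⟩
      · simp
      · have := tail_some jb mb ht
        simp only [Option.elim]
        rw [hz a' b' (by rw [this.1]; exact hlt)]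
        simp
    have h4 := congrArg (fun t => (pre.map x).prod * t * (post.map x).prod) h0
    simp only [mul_add, add_mul, h3, add_zero, mul_zero, zero_mul, mul_sub, sub_mul] at h4
    exact sub_eq_zero.1 h4
  -- full blocks
  have full : ∀ (pre post : List (Ltr L N B)) (a b : Ltr L N B), w = pre ++ a :: b :: post →
      (∀ a' b' : Ltr L N B, lev jb a' = lev jb a → lev jb b' = lev jb b →
        lo jb mb a' b' ≤ pre.length ∧ pre.length ≤ hi jb mb a' b') → (w.map x).prod = 0 := by
    intro pre post a b hw' hact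
    have h1 := move pre post a b (by rw [hw']) (hact a b rfl rfl).1 (hact a b rfl rfl).2
    have h2 : (pre.map x).prod * tv mb x a b * (post.map x).prod = 0 := by
      unfold tv
      rcases ht : tail mb a b with _ | ⟨a', b'⟩
      · simp
      · have := tail_some jb mb ht
        have h3 := move pre post a' b' (by simp [hw', this.1, this.2.1])
          (hact a' b' this.1 this.2.1).1 (hact a' b' this.1 this.2.1).2
        simp only [Option.elim]
        rw [h3]
        simp [tv, this.2.2]
    rw [hw']
    simpa [mul_assoc] using h1.trans h2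
  -- triples
  have triple : ∀ (pre post : List (Ltr L N B)) (j l : Fin L) (i : Fin (N j)) (s : Fin (N l))
      (β : B) (u : Option Bool), w = pre ++ .inl ⟨j, i⟩ :: .inr (β, u) :: .inl ⟨l, s⟩ :: post →
      jb β = pre.length + 1 → pre.length ≤ j → l ≤ pre.length + 1 → (w.map x).prod = 0 := by
    intro pre post j l i s β u hw' h1 h2 h3
    let Z : ℕ → Option Bool → ℕ → A := fun i u s => if h : i < N j ∧ s < N l then
      (pre.map x).prod * x (.inl ⟨j, ⟨i, h.1⟩⟩) * x (.inr (β, u)) * x (.inl ⟨l, ⟨s, h.2⟩⟩) *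
        (post.map x).prod else 0
    have hU : ∀ i s u, (u = none ∨ (u = some false ∧ (st (mb β) s = true ∨ s = 0))) →
        Z i u s = if u = none then Z i (some (st (mb β) (s + 1))) (s + 1) else 0 := by
      intro i s u hu
      by_cases h : i < N j ∧ s < N l
      · have := move (pre ++ [.inl ⟨j, ⟨i, h.1⟩⟩]) post (.inr (β, u)) (.inl ⟨l, ⟨s, h.2⟩⟩)
          (by simp [hw', lev]) (by simpa [lo] using h3) (by simp only [hi, if_pos hu]; simp [h1])
        simp only [List.map_append, List.map_cons, List.map_nil, List.prod_append, List.prod_cons,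
          List.prod_nil, mul_one] at this
        simp only [Z, dif_pos h]
        rw [mul_assoc _ (x (.inr (β, u))), this]
        cases u
        · by_cases h4 : s + 1 < N l <;> simp [tv, tail, h4, h.1, mul_assoc]
        · simp [tv, tail]
      · have h' : ¬ (i < N j ∧ s + 1 < N l) := fun h' => h ⟨h'.1, by omega⟩
        simp [Z, h, h']
    have hN : ∀ i s u, (u = none ∨ (u = some true ∧ st (mb β) i = false)) →
        Z i u s = if u = none then Z (i + 1) (some (st (mb β) (i + 1))) s else 0 := by
      intro i s u hu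
      by_cases h : i < N j ∧ s < N l
      · have := move pre (.inl ⟨l, ⟨s, h.2⟩⟩ :: post) (.inl ⟨j, ⟨i, h.1⟩⟩) (.inr (β, u))
          (by simp [hw', lev]) (by simp only [lo, if_pos hu]; simp [h1]) (by simpa [hi] using h2)
        simp only [List.map_cons, List.prod_cons] at this
        simp only [Z, dif_pos h]
        rw [mul_assoc _ _ (post.map x).prod, mul_assoc _ (x (.inl _)), this]
        cases u
        · by_cases h4 : i + 1 < N j <;> simp [tv, tail, h4, h.2, mul_assoc]
        · simp [tv, tail]
      · have h' : ¬ (i + 1 < N j ∧ s < N l) := fun h' => h ⟨by omega, h'.2⟩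
        simp [Z, h, h']
    have hF := chase (mb β) (hm β) (fun i s => Z i none s) (fun i u s => Z i (some u) s)
      (fun i s => by simpa using hN i s none (Or.inl rfl))
      (fun i s => by simpa using hU i s none (Or.inl rfl))
      (fun i s h => by simpa using hN i s (some true) (Or.inr ⟨rfl, h⟩))
      (fun i s h => by simpa using hU i s (some false) (Or.inr ⟨rfl, h⟩))
    have hZ : Z i u s = 0 := by
      cases u
      · exact hF.1 _ _
      · exact hF.2 _ _ _
    rw [hw']
    simpa [Z, mul_assoc] using hZ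
  -- scanning the word
  have scan : ∀ (post pre : List (Ltr L N B)) (a : Ltr L N B), w = pre ++ a :: post →
      2 * pre.length ≤ lev jb a + 1 →
      (lev jb a + 1 = 2 * pre.length → ∃ pre' j i, pre = pre' ++ [.inl ⟨j, i⟩] ∧
        pre'.length ≤ j.val) → (w.map x).prod = 0 := by
    intro post
    induction post with
    | nil =>
      intro pre a hw' h1 _
      have := lev_lt jb hj a
      have h2 := congrArg List.length hw'
      simp at h2; omega
    | cons b post ihp =>
      intro pre a hw' h1 h2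
      by_cases hb1 : 2 * (pre.length + 1) ≤ lev jb b
      · exact ihp (pre ++ [a]) b (by simp [hw']) (by simp; omega) (by simp; omega)
      rcases a with ⟨j, i⟩ | ⟨β, u⟩
      · by_cases hb2 : lev jb b + 1 = 2 * (pre.length + 1)
        · exact ihp (pre ++ [.inl ⟨j, i⟩]) b (by simp [hw']) (by simp; omega)
            (fun _ => ⟨pre, j, i, rfl, by simp only [lev] at h1; omega⟩)
        · refine full pre post _ b hw' fun a' b' e1 e2 => ?_
          rcases a' with ⟨j', i'⟩ | ⟨β', u'⟩ <;> rcases b' with ⟨l', s'⟩ | ⟨γ', v'⟩ <;>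
            simp only [lev, lo, hi] at e1 h1 ⊢ <;> rw [← e2] at hb1 hb2 <;>
            simp only [lev] at hb1 hb2 <;> (try have := hj β') <;> (try have := hj γ') <;>
            (try split_ifs) <;> omega
      · have := hj β
        rcases b with ⟨l, s⟩ | ⟨γ, v⟩
        · by_cases h3 : jb β = pre.length
          · obtain ⟨pre', j, i, rfl, h4⟩ := h2 (by simp only [lev]; omega)
            simp only [lev, List.length_append, List.length_singleton] at hb1 h3
            exact triple pre' post j l i s β u (by simp [hw']) h3 h4 (by omega)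
          · refine full pre post _ _ hw' fun a' b' e1 e2 => ?_
            clear h2 ihp
            rcases a' with ⟨j', i'⟩ | ⟨β', u'⟩ <;> rcases b' with ⟨l', s'⟩ | ⟨γ', v'⟩ <;>
              simp only [lev, lo, hi] at e1 e2 h1 hb1 ⊢ <;> (try have := hj β') <;>
              (try have := hj γ') <;> (try split_ifs) <;> omega
        · have := hj γ
          refine full pre post _ _ hw' fun a' b' e1 e2 => ?_
          rcases a' with ⟨j', i'⟩ | ⟨β', u'⟩ <;> rcases b' with ⟨l', s'⟩ | ⟨γ', v'⟩ <;>
            simp only [lev, lo, hi] at e1 e2 h1 hb1 ⊢ <;> (try have := hj β') <;>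
            (try have := hj γ') <;> (try split_ifs) <;> omega
  rcases w with _ | ⟨a, post⟩
  · simp at hw
  · exact scan post [] a rfl (by simp) (by simp)

end

end Pool.Agent.Lib.MP_05aa0e_al
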