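import Pool.Agent.Lib.MP_05aa0e_al.Core

set_option autoImplicit false

namespace Pool.Agent.Lib.MP_05aa0e_al

open Finset

/-- Some quadratic algebra with `n` generators and `d` relations is `k`-step nilpotent. -/
def Nil (K : Type*) [Field K] (n d k : ℕ) : Prop :=
  ∃ r : Fin d → Fin n → Fin n → K, ∀ w : Fin k → Fin n,
    RingQuot.mkAlgHom K (fun a b : FreeAlgebra K (Fin n) =>
        (∃ l, a = ∑ i, ∑ j, r l i j • (FreeAlgebra.ι K i * FreeAlgebra.ι K j)) ∧ b = 0)
      (List.ofFn (fun t => FreeAlgebra.ι K (w t))).prod = 0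

section
variable {L : ℕ} {N : Fin L → ℕ} {B : Type} [Fintype B] [DecidableEq B] (jb : B → ℕ) (mb : B → ℕ → ℕ)

theorem nil_of_coloring (K : Type*) [Field K] (hj : ∀ β, 1 ≤ jb β ∧ jb β < L) (hm : ∀ β, Sturm (mb β))
    {n d : ℕ} (e : Ltr L N B ≃ Fin n) (c : Ltr L N B × Ltr L N B → ℕ)
    (hd : ∀ p ∈ act jb mb, c p < d)
    (hc : ∀ p ∈ act jb mb, ∀ q ∈ act jb mb, p ≠ q → c p = c q → ¬ Conf jb mb p q) :
    Nil K n d (L + 1) := by
  let δ : Ltr L N B × Ltr L N B → Fin n → Fin n → K := fun p i j =>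
    if e p.1 = i ∧ e p.2 = j then 1 else 0
  have hδ : ∀ p, ∑ i, ∑ j, δ p i j • (FreeAlgebra.ι K i * FreeAlgebra.ι K j) =
      FreeAlgebra.ι K (e p.1) * FreeAlgebra.ι K (e p.2) := by
    intro p
    simp [δ, ite_and, ite_smul]
  let r : Fin d → Fin n → Fin n → K := fun l i j =>
    ∑ q ∈ (act jb mb).filter (fun q => c q = l),
      (δ q i j - (tail mb q.1 q.2).elim 0 (fun p => δ p i j))
  refine ⟨r, fun w => ?_⟩
  set π := RingQuot.mkAlgHom K (fun a b : FreeAlgebra K (Fin n) =>
        (∃ l, a = ∑ i, ∑ j, r l i j • (FreeAlgebra.ι K i * FreeAlgebra.ι K j)) ∧ b = 0) with hπ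
  have hr : ∀ l, ∑ i, ∑ j, r l i j • (FreeAlgebra.ι K i * FreeAlgebra.ι K j) =
      ∑ q ∈ (act jb mb).filter (fun q => c q = l),
        (FreeAlgebra.ι K (e q.1) * FreeAlgebra.ι K (e q.2) -
          tv mb (fun a => FreeAlgebra.ι K (e a)) q.1 q.2) := by
    intro l
    simp only [r, sum_smul]
    simp_rw [sum_comm (t := (act jb mb).filter (fun q => c q = l))]
    refine sum_congr rfl fun q _ => ?_
    simp only [sub_smul, sum_sub_distrib, hδ, tv]
    rcases tail mb q.1 q.2 with _ | p
    · simp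
    · simp [hδ]
  have := nilpotent_of_coloring jb mb (fun a => π (FreeAlgebra.ι K (e a))) hj hm c hc (by
    intro p hp
    have h1 : π (∑ i, ∑ j, r ⟨c p, hd p hp⟩ i j • (FreeAlgebra.ι K i * FreeAlgebra.ι K j)) = π 0 :=
      RingQuot.mkAlgHom_rel K ⟨⟨_, rfl⟩, rfl⟩
    rw [hr, map_zero, map_sum] at h1
    rw [← h1]
    refine sum_congr rfl fun q _ => ?_
    simp only [map_sub, map_mul, tv]
    rcases tail mb q.1 q.2 with _ | p <;> simp)
    (List.ofFn (fun t => e.symm (w t))) (by simp)
  rw [map_list_prod, List.map_ofFn]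
  rw [List.map_ofFn] at this
  simpa [Function.comp_def] using this

/-- Number of pairs whose interval contains the position `i`. -/
def load (N : Fin L → ℕ) (i : ℕ) : ℕ :=
  (univ.filter (fun p : Ltr L N B × Ltr L N B =>
    lo jb mb p.1 p.2 ≤ i ∧ i ≤ hi jb mb p.1 p.2)).card

instance : DecidablePred (Spec : Ltr L N B × Ltr L N B → Prop) := fun p => by
  unfold Spec; infer_instance

instance : DecidablePred (Diag jb : Ltr L N B × Ltr L N B → Prop) := fun p => by
  unfold Diag; infer_instance

theorem card_spec : (univ.filter (Spec : Ltr L N B × Ltr L N B → Prop)).card ≤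
    6 * Fintype.card B * Fintype.card (Ltr L N B) := by
  have h1 : (univ.filter (fun a : Ltr L N B => a.isRight = true)).card = 3 * Fintype.card B := by
    rw [card_filter, Fintype.sum_sum_type]
    simp [mul_comm]
  have h2 : univ.filter (Spec : Ltr L N B × Ltr L N B → Prop) ⊆
      (univ.filter (fun a : Ltr L N B => a.isRight = true)) ×ˢ univ ∪
        univ ×ˢ (univ.filter (fun a : Ltr L N B => a.isRight = true)) := by
    intro p hp
    simpa [Spec] using hp
  refine (card_le_card h2).trans ((card_union_le _ _).trans ?_)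
  rw [card_product, card_product, h1, card_univ]
  nlinarith

theorem exists_coloring_of_load (hL : 0 < L) (d : ℕ)
    (hS : ∀ i, 6 * Fintype.card B * Fintype.card (Ltr L N B) ≤ N i ^ 2)
    (hl : ∀ i < L, load jb mb N i ≤ d) :
    ∃ c : Ltr L N B × Ltr L N B → ℕ, (∀ p ∈ act jb mb, c p < d) ∧
      ∀ p ∈ act jb mb, ∀ q ∈ act jb mb, p ≠ q → c p = c q → ¬ Conf jb mb p q := by
  classical
  have hsym : ∀ p q : Ltr L N B × Ltr L N B, Conf jb mb p q → Conf jb mb q p := by
    intro p q h
    unfold Conf at h ⊢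
    tauto
  have main : ∀ i : Fin L, (univ.filter (Spec : Ltr L N B × Ltr L N B → Prop) ∪
      univ.filter (fun q : Ltr L N B × Ltr L N B => ¬ Spec q ∧ ¬ Diag jb q ∧
        lo jb mb q.1 q.2 ≤ i ∧ i ≤ hi jb mb q.1 q.2)).card ≤ d := by
    intro i
    refine (card_union_le _ _).trans (le_trans ?_ (hl i i.2))
    let D : Finset (Ltr L N B × Ltr L N B) := (univ : Finset (Fin (N i) × Fin (N i))).image
      (fun p => (.inl ⟨i, p.1⟩, .inl ⟨i, p.2⟩))
    have hD : D.card = N i ^ 2 := by
      rw [card_image_of_injective]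
      · simp [sq]
      · intro p q h
        simp only [Prod.mk.injEq, Sum.inl.injEq, Sigma.mk.injEq, heq_eq_eq, true_and] at h
        exact Prod.ext h.1 h.2
    refine le_trans (Nat.add_le_add_right ((card_spec.trans (hS i)).trans hD.ge) _) ?_
    rw [← card_union_of_disjoint]
    · refine card_le_card ?_
      intro q hq
      simp only [mem_union, mem_filter, mem_univ, true_and, D, mem_image] at hq ⊢
      rcases hq with ⟨p, rfl⟩ | hq
      · simp [lo, hi]
      · exact hq.2.2
    · rw [disjoint_left]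
      intro q hq hq'
      simp only [mem_filter, mem_univ, true_and, D, mem_image] at hq hq'
      obtain ⟨p, rfl⟩ := hq
      exact hq'.2.1 (by simp [Diag, lev])
  refine exists_coloring (Conf jb mb) hsym
    (fun p => if Spec p then 0 else if Diag jb p then L + 1 else 1 + lo jb mb p.1 p.2) d _ ?_
  intro p hp
  have hp' : lo jb mb p.1 p.2 ≤ hi jb mb p.1 p.2 := by simpa [act] using hp
  have key : ∀ T : Finset (Ltr L N B × Ltr L N B), p ∈ T → T.card ≤ d →
      ∀ U : Finset (Ltr L N B × Ltr L N B), (∀ q ∈ U, q ≠ p ∧ q ∈ T) → U.card < d := by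
    intro T hT hd U hU
    have : U ⊆ T.erase p := fun q hq => mem_erase.2 (hU q hq)
    have h1 := card_le_card this
    have h2 := card_erase_lt_of_mem hT
    omega
  have hlo : ∀ q : Ltr L N B × Ltr L N B, ¬ Spec q → lo jb mb q.1 q.2 < L := by
    rintro ⟨a, b⟩ hq
    rcases b with ⟨l, s⟩ | _
    · simp [lo]
    · simp [Spec] at hq
  by_cases h1 : Spec p
  · refine key _ (mem_union_left _ (by simp [h1])) (main ⟨0, hL⟩) _ ?_
    intro q hq
    simp only [mem_filter, h1, if_true] at hq
    refine ⟨hq.2.1, mem_union_left _ ?_⟩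
    by_contra h
    simp only [mem_filter, mem_univ, true_and] at h
    have := hq.2.2.2
    rw [if_neg h] at this
    split_ifs at this <;> omega
  by_cases h2 : Diag jb p
  · have h3 := diag_lo_hi jb mb h2
    refine key (univ.filter (fun q : Ltr L N B × Ltr L N B =>
      lo jb mb q.1 q.2 ≤ lo jb mb p.1 p.2 ∧ lo jb mb p.1 p.2 ≤ hi jb mb q.1 q.2))
      (by simp [hp']) (hl _ (hlo p h1)) _ ?_
    intro q hq
    simp only [mem_filter, Conf, h1, h2, false_and, not_true, and_false, or_false] at hq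
    refine ⟨hq.2.1, ?_⟩
    simp only [mem_filter, mem_univ, true_and]
    omega
  · refine key _ (mem_union_right _ (by simp [h1, h2, hp'])) (main ⟨_, hlo p h1⟩) _ ?_
    intro q hq
    simp only [mem_filter, h1, h2, if_false] at hq
    refine ⟨hq.2.1, ?_⟩
    by_cases h4 : Spec q
    · exact mem_union_left _ (by simp [h4])
    · have h5 := hq.2.2.2
      have h6 := hq.2.2.1
      have h7 := hlo p h1
      simp only [Conf, h1, h4, false_and, or_false] at h6
      rw [if_neg h4] at h5
      refine mem_union_right _ ?_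
      simp only [mem_filter, mem_univ, true_and]
      split_ifs at h5 with h8
      · omega
      · exact ⟨h4, h8, by omega, h6.1⟩

end

end Pool.Agent.Lib.MP_05aa0e_al
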