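import Pool.Agent.Lib.MP_05aa0e_al.ExDefs

set_option autoImplicit false

namespace Pool.Agent.Lib.MP_05aa0e_al.Ex

open Finset

namespace Sys

variable (S : Sys) {A : Type*} [Ring A] (x : ℕ → A)

abbrev R (q : ℕ) : Submodule ℤ A := RR x S.n q
abbrev AA (i : ℕ) : Submodule ℤ A := TT x S.n i (fun a => i = 0 ∨ 5 * i + 5 ≤ S.z a)
abbrev TK (i : ℕ) : Submodule ℤ A := TT x S.n i (fun a => i ≤ S.st a)

variable {S x}

theorem AA_le_TK (i : ℕ) : S.AA x i ≤ S.TK x i :=
  TT_mono fun a _ h => by unfold st; omega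

theorem full_I {a c : ℕ} (h : ¬ S.II (.inl (a, c))) : S.full x (.inl (a, c)) = x a * x c := by
  simp only [II, not_or] at h
  have h2 : ¬ S.yl a c := fun h' => h.2.1 h'.1
  simp [full, val, II, h.1, h.2.1, h.2.2, h2]

theorem use (hR : S.Rel x) {κ : Cmp} (hκ : S.Act κ) {q : ℕ} (h2 : q ≤ S.hi κ)
    {r : A} (hr : r ∈ S.R x q) {U : Submodule ℤ A} (hA : S.AA x (q + 1) ≤ U)
    (hE : ∀ κ', S.Val κ' → S.hi κ' < S.lo' κ → r * S.full x κ' ∈ U) :
    r * S.full x κ ∈ U := by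
  obtain ⟨s, hs, h0⟩ := hR κ hκ
  have h3 : r * S.full x κ = - ∑ κ' ∈ s, r * S.full x κ' := by
    rw [← mul_sum, eq_neg_iff_add_eq_zero, ← mul_add, h0, mul_zero]
  rw [h3]
  refine U.neg_mem (U.sum_mem fun κ' hκ' => ?_)
  obtain ⟨ha, hc⟩ := hs κ' hκ'
  by_cases h4 : S.hi κ' < S.lo' κ
  · exact hE κ' ha.1 h4
  have h5 : S.hi κ < S.lo' κ' := by
    by_contra h5
    exact hc (Or.inl ⟨by omega, by omega⟩)
  have h6 : ¬ S.II κ' := fun h => by simp [lo', h] at h5
  rcases κ' with ⟨a, c⟩ | p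
  · rw [full_I h6, ← mul_assoc]
    have h7 := ha.1
    simp only [II, not_or, Ord] at h6
    simp only [lo', II, not_or, Ord] at h5
    rw [if_neg (by tauto)] at h5
    simp only [lo, st] at h5
    exact hA (TT_mem (RR_mul hr h7.1) h7.2.1 (by omega))
  · exact absurd trivial h6

theorem not_rsv (hL : S.GoodL) {κ : Cmp} (h : S.II κ) : ¬ S.Rsv κ := by
  rintro ⟨κ', h1, h2, h3, rfl⟩
  obtain ⟨-, a2, -, -, a5⟩ := hL.hres κ' h1 h2 h3
  simp only [II, isX, isY, Ord, isU] at h a2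
  split_ifs at a5 <;> omega

theorem useII (hL : S.GoodL) (hR : S.Rel x) {κ : Cmp} (hv : S.Val κ) (h : S.II κ) {q : ℕ}
    (h2 : q ≤ S.hi κ) {r : A} (hr : r ∈ S.R x q) : r * S.full x κ ∈ S.AA x (q + 1) :=
  use hR ⟨hv, not_rsv hL h⟩ h2 hr le_rfl (fun κ' _ h' => by simp [lo', h] at h')

/-- A component of the second kind, modulo its reserved companion. -/
theorem useII' (hL : S.GoodL) (hR : S.Rel x) {κ : Cmp} (hv : S.Val κ) (h : S.II κ) {q : ℕ}
    (h2 : q ≤ S.hi κ) {r : A} (hr : r ∈ S.R x q) {U : Submodule ℤ A}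
    (hA : S.AA x (q + 1) ≤ U)
    (hB : 1 ≤ S.lo κ → ∀ r' ∈ S.R x (q + 1), ∀ b < S.n,
      S.z b = (if κ.isRight then 1 else 4) → r' * x b ∈ U) :
    r * S.val x κ ∈ U := by
  have h1 := hA (useII hL hR hv h h2 hr)
  by_cases h3 : 1 ≤ S.lo κ
  · obtain ⟨a1, -, -, a4, a5⟩ := hL.hres κ hv h h3
    have h4 := hB h3 _ (RR_mul hr a1) _ a4 a5
    simp only [full, h, h3, and_self, if_true] at h1
    have h5 := U.sub_mem h1 h4
    convert h5 using 1
    noncomm_ring
  · simpa [full, h3] using h1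

theorem pr_some {j : ℕ} {ν μ : ℕ × ℕ} (h : S.pr j ν = some μ) :
    (S.Nd j μ ∧ S.bid j μ = S.bid j ν ∧ S.pos j μ + S.dg j μ.1 = S.pos j ν) ∨
      ∃ p, S.tp j (S.bid j ν) = some p ∧ μ = (p.1, S.Y (j + 1) p.2) := by
  unfold pr at h
  split_ifs at h with hp
  · left
    obtain rfl := Option.some.inj h
    exact Classical.choose_spec hp
  · right
    obtain ⟨p, h1, h2⟩ := Option.map_eq_some_iff.1 h
    exact ⟨p, h1, h2.symm⟩

theorem pr_eq {j : ℕ} (hB : S.GoodB j) {ν μ : ℕ × ℕ} (h1 : S.Nd j μ)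
    (h2 : S.bid j μ = S.bid j ν) (h3 : S.pos j μ + S.dg j μ.1 = S.pos j ν) :
    S.pr j ν = some μ := by
  have hp : ∃ μ, S.Nd j μ ∧ S.bid j μ = S.bid j ν ∧ S.pos j μ + S.dg j μ.1 = S.pos j ν :=
    ⟨μ, h1, h2, h3⟩
  unfold pr
  rw [dif_pos hp]
  obtain ⟨a1, a2, a3⟩ := Classical.choose_spec hp
  rw [hB.c3 _ _ a1 h1 (a2.trans h2.symm) (a3.trans h3.symm)]

theorem pr_zero {j : ℕ} (hB : S.GoodB j) {ν : ℕ × ℕ} (h : S.pos j ν = 0) :
    S.pr j ν = (S.tp j (S.bid j ν)).map (fun p => (p.1, S.Y (j + 1) p.2)) := by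
  unfold pr
  rw [dif_neg]
  rintro ⟨μ, -, -, h3⟩
  have := hB.dg1 μ.1
  omega

theorem sY_mem' {j : ℕ} {F : Finset (ℕ × ℕ)} {r : A} {U : Submodule ℤ A}
    (h : ∀ p ∈ F, r * x (S.h j p.1) * x (S.Y j p.2) ∈ U) : r * S.sY x j F ∈ U := by
  unfold sY
  rw [mul_sum]
  refine U.sum_mem fun p hp => ?_
  rw [← mul_assoc]
  exact h p hp

theorem sY_mem (hL : S.GoodL) {j : ℕ} {F : Finset (ℕ × ℕ)} (hj : 1 ≤ j)
    (hF : ∀ p ∈ F, j < S.L ∧ p.1 < S.m j ∧ p.2 < S.N) {r : A} {U : Submodule ℤ A}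
    (h : ∀ a c, a < S.n → c < S.n → S.z c = 5 * j + 3 → r * x a * x c ∈ U) :
    r * S.sY x j F ∈ U := by
  refine sY_mem' fun p hp => ?_
  obtain ⟨a1, a2, a3⟩ := hF p hp
  obtain ⟨b1, b2, -⟩ := hL.hY j p.2 hj a1 a3
  exact h _ _ (hL.hh j p.1 hj a1 a2).1 b1 b2

theorem tl_mem {j : ℕ} {ν : ℕ × ℕ} {r : A} {U : Submodule ℤ A}
    (h1 : ∀ μ, S.Nd j μ → S.bid j μ = S.bid j ν → S.pos j μ + S.dg j μ.1 = S.pos j ν →
      r * x (S.Y j μ.1) * x μ.2 ∈ U)
    (h2 : ∀ p, S.tp j (S.bid j ν) = some p →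
      r * x (S.Y j p.1) * x (S.Y (j + 1) p.2) ∈ U) :
    r * S.tl x j ν ∈ U := by
  unfold tl
  rcases hp : S.pr j ν with _ | μ
  · simp
  · simp only [Option.elim, ← mul_assoc]
    rcases pr_some hp with h | ⟨p, h3, rfl⟩
    · exact h1 μ h.1 h.2.1 h.2.2
    · exact h2 p h3

theorem isX_spec (hL : S.GoodL) {a : ℕ} (ha : a < S.n) (h : S.isX a) :
    1 ≤ S.lev a ∧ S.lev a < S.L ∧ S.z a = 5 * S.lev a + 4 ∧ S.ix a < S.N ∧
      S.X (S.lev a) (S.ix a) = a := by
  have h1 := hL.zle a ha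
  unfold isX at h
  have h2 : S.z a = 5 * S.lev a + 4 := by unfold lev; omega
  have h3 : 1 ≤ S.lev a := by omega
  exact ⟨h3, by omega, h2, hL.hX' _ a h3 ha h2⟩

theorem isY_spec (hL : S.GoodL) {a : ℕ} (ha : a < S.n) (h : S.isY a) :
    1 ≤ S.st a ∧ S.st a < S.L ∧ S.z a = 5 * S.st a + 3 ∧ S.ix a < S.N ∧
      S.Y (S.st a) (S.ix a) = a := by
  have h1 := hL.zle a ha
  unfold isY at h
  have h2 : S.z a = 5 * S.st a + 3 := by unfold st; omega
  have h3 : 1 ≤ S.st a := by omega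
  exact ⟨h3, by omega, h2, hL.hY' _ a h3 ha h2⟩

def zlo (S : Sys) : Cmp → ℕ
  | .inl p => S.z p.2
  | .inr p => 5 * p.1 + 3

theorem val_mem (hL : S.GoodL) (hB : ∀ j, 1 ≤ j → j < S.L → S.GoodB j) {κ : Cmp} (hv : S.Val κ)
    {r : A} {U : Submodule ℤ A}
    (h : ∀ a c, a < S.n → c < S.n → S.zlo κ ≤ S.z c → S.z c ≤ 5 * S.hi κ + 9 →
      r * x a * x c ∈ U) : r * S.val x κ ∈ U := by
  rcases κ with ⟨a, b⟩ | ⟨j, i, u⟩
  · obtain ⟨ha, hb, hlo⟩ := hv
    simp only [lo, zlo] at ha hb hlo h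
    simp only [val, mul_add]
    refine U.add_mem (by rw [← mul_assoc]; exact h a b ha hb le_rfl (by unfold st at hlo; omega)) ?_
    by_cases hx : S.isX a
    · obtain ⟨a1, a2, a3, a4, a5⟩ := isX_spec hL ha hx
      have hy : ¬ S.yl a b := fun h' => by have := h'.1; unfold isX at hx; unfold isY at this; omega
      simp only [hi, hy, if_false] at hlo h
      have hb' : S.z b ≤ 5 * S.lev a + 7 := by unfold st at hlo; omega
      rw [if_pos hx, mul_sub]
      have hG := hB _ a1 a2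
      refine U.sub_mem ?_ ?_
      · exact sY_mem hL (by omega) (hG.fxv _) fun a' c h1 h2 h3 => by
          simpa using h a' c h1 h2 (by omega) (by omega)
      · exact tl_mem (fun μ h1 h2 h3 => by
          have h4 := hG.dg1 μ.1
          have h5 := hG.mono (S.ix a, b) μ ⟨a4, hb, hb'⟩ h1 h2 (by omega)
          simpa using h _ _ (hL.hY _ _ a1 a2 h1.1).1 h1.2.1 h5 (by have := h1.2.2; omega))
          (fun p hp => by
            obtain ⟨b1, b2, b3⟩ := hG.tpv _ p hp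
            obtain ⟨c1, c2, -⟩ := hL.hY (S.lev a + 1) p.2 (by omega) b1 b3
            simpa using h _ _ (hL.hY _ _ a1 a2 b2).1 c1 (by omega) (by omega))
    · rw [if_neg hx]
      split_ifs with hy
      · obtain ⟨a1, a2, a3, a4, a5⟩ := isY_spec hL ha hy.1
        simp only [hi, hy, if_true] at hlo h
        have hb' := hy.2.1.2.2
        exact sY_mem hL (by omega) ((hB _ a1 a2).fyv _) fun a' c h1 h2 h3 => by
          simpa using h a' c h1 h2 (by simp only at hb'; omega) (by omega)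
      · simp
  · obtain ⟨h1, h2, h3, h4, h5⟩ := hv
    simp only at h1 h2 h3 h4 h5
    simp only [zlo, hi] at h
    simp only [val, mul_sub, ← mul_assoc]
    obtain ⟨a1, a2, -⟩ := hL.hX j i h1 h2 h3
    obtain ⟨b1, b2, -⟩ := hL.hY j i h1 h2 h3
    exact U.sub_mem (h _ _ (hL.hh j u h1 h2 h5).1 b1 (by omega) (by omega))
      (h _ _ (hL.hh j _ h1 h2 (by omega)).1 a1 (by omega) (by omega))

/-- Words whose last but one letter is an ordinary high letter. -/
theorem avail (hL : S.GoodL) (hB : ∀ j, 1 ≤ j → j < S.L → S.GoodB j) (hR : S.Rel x)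
    {q c : ℕ} (hc : c < S.n) (hlow : S.st c ≤ q) {U : Submodule ℤ A}
    (hA : S.AA x (q + 1) ≤ U) (hT : S.z c = 4 ∨ 7 ≤ S.z c → S.TK x (q + 1) ≤ U)
    (h1 : 7 ≤ S.z c → ∀ r ∈ S.R x (q + 1), ∀ b < S.n, S.z b = 4 → r * x b ∈ U)
    (h2 : 12 ≤ S.z c → S.z c % 5 = 2 → ∀ r ∈ S.R x (q + 1), ∀ b < S.n,
      S.z b + 3 ≤ S.z c → r * x b ∈ U) :
    ∀ s ∈ S.AA x q, s * x c ∈ U := by
  refine TT_mul fun r hr a ha hP => ?_
  -- monomials whose first letter is a low letter of a pair of a higher level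
  have hy : ∀ a' b, a' < S.n → b < S.n → S.isY a' → q + 1 ≤ S.st a' → S.st b ≤ q →
      (1 ≤ S.st b → 7 ≤ S.z c) → r * x a' * x b ∈ U := by
    intro a' b ha' hb hy hq hb' hb''
    obtain ⟨a1, a2, a3, a4, a5⟩ := isY_spec hL ha' hy
    have hx : ¬ S.isX a' := by unfold isX; omega
    have hq' : q ≤ S.hi (.inl (a', b)) := by
      simp only [hi, lev]; split_ifs <;> omega
    have := useII' hL hR (κ := .inl (a', b)) ⟨ha', hb, by simp only [lo]; omega⟩
      (Or.inr (Or.inl hy)) hq' hr hA (fun h3 r' hr' b' hb1 hb2 => by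
        simpa using h1 (hb'' h3) r' hr' b' hb1 (by simpa using hb2))
    simp only [val, hx, if_false, mul_add] at this
    rw [mul_assoc]
    refine (U.add_mem_iff_left ?_).1 this
    split_ifs with h4
    · exact sY_mem hL (by omega) ((hB _ a1 a2).fyv _) fun a'' c' b1 b2 b3 => by
        simpa using hA (TT_mem (RR_mul hr b1) b2 (by omega))
    · simp
  have hq : q ≤ S.hi (.inl (a, c)) := by
    simp only [hi, lev, st]; split_ifs <;> omega
  have hv : S.Val (.inl (a, c)) := ⟨ha, hc, by simp only [lo]; omega⟩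
  by_cases hx : S.isX a
  · obtain ⟨a1, a2, a3, a4, a5⟩ := isX_spec hL ha hx
    have hG := hB _ a1 a2
    have hj : q + 1 ≤ S.lev a := by omega
    have hν : S.Nd (S.lev a) (S.ix a, c) := ⟨a4, hc, by unfold st at hlow; simp only; omega⟩
    have := useII' hL hR hv (Or.inl hx) hq hr hA (fun h3 r' hr' b' hb1 hb2 => by
      simp only [lo, st] at h3
      simpa using h1 (by omega) r' hr' b' hb1 (by simpa using hb2))
    simp only [val, hx, if_true, mul_add, mul_sub] at this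
    rw [mul_assoc]
    refine (U.add_mem_iff_left (U.sub_mem ?_ ?_)).1 this
    · exact sY_mem hL (by omega) (hG.fxv _) fun a'' c' b1 b2 b3 => by
        simpa using hA (TT_mem (RR_mul hr b1) b2 (by omega))
    · exact tl_mem (fun μ b1 b2 b3 => by
        have h4 := hG.dg1 μ.1
        have h5 := hG.mono _ μ hν b1 b2 (by omega)
        have h6 := hG.loc _ μ hν b1 b2
        simp only at h5 h6
        obtain ⟨c1, c2, -⟩ := hL.hY _ _ a1 a2 b1.1
        by_cases h7 : S.st μ.2 ≤ q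
        · exact hy _ _ c1 b1.2.1 (by unfold isY; omega) (by unfold st; omega) h7
            (by unfold st; omega)
        · exact hT (by unfold st at h7; omega) (TT_mem (RR_mul hr c1) b1.2.1 (by omega)))
        (fun p hp => by
          obtain ⟨b1, b2, b3⟩ := hG.tpv _ p hp
          obtain ⟨c1, c2, -⟩ := hL.hY (S.lev a + 1) p.2 (by omega) b1 b3
          simpa using hA (TT_mem (RR_mul hr (hL.hY _ _ a1 a2 b2).1) c1 (by omega)))
  by_cases hy' : S.isY a
  · exact hy a c ha hc hy' (by unfold isY at hy'; unfold st; omega) hlow (by unfold st; omega)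
  have hval : S.val x (.inl (a, c)) = x a * x c := by
    have : ¬ S.yl a c := fun h => hy' h.1
    simp [val, hx, this]
  by_cases hII : S.II (.inl (a, c))
  · have := useII' hL hR hv hII hq hr hA (fun h3 r' hr' b' hb1 hb2 => by
      simp only [lo, st] at h3
      simpa using h1 (by omega) r' hr' b' hb1 (by simpa using hb2))
    simpa [hval, mul_assoc] using this
  by_cases hrs : S.Rsv (.inl (a, c))
  · obtain ⟨κ, b1, b2, b3, b4⟩ := hrs
    obtain ⟨-, -, c3, -, c5⟩ := hL.hres κ b1 b2 b3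
    have e1 : S.res κ = (a, c) := (Sum.inl.inj b4).symm
    rw [e1] at c3 c5
    simp only at c3 c5
    have hlh : S.lo κ ≤ S.hi κ := by
      rcases κ with p | p
      · exact b1.2.2
      · exact le_rfl
    have hq2 : q + 1 ≤ S.lo κ := by unfold lev at c3; omega
    have d1 := hA (useII hL hR b1 b2 (q := q) (by omega) hr)
    simp only [full, b2, b3, and_self, if_true, e1, mul_add] at d1
    rw [mul_assoc]
    refine (U.add_mem_iff_right (val_mem hL hB b1 fun a' c' e2 e3 e4 _ => ?_)).1 d1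
    rcases κ with p | p
    · simp only [lo, zlo, st] at hq2 e4
      exact hT (Or.inl (by simpa using c5)) (TT_mem (RR_mul hr e2) e3 (by unfold st; omega))
    · simp only [lo, zlo] at hq2 e4
      exact hA (TT_mem (RR_mul hr e2) e3 (by omega))
  have := use hR ⟨hv, hrs⟩ hq hr hA (fun κ b1 b2 => by
    simp only [lo', hII, if_false, lo, st] at b2
    simp only [II, not_or, Ord] at hII
    have h12 : 12 ≤ S.z c := by omega
    have h3 := h2 h12 (by omega)
    unfold full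
    rw [mul_add]
    refine U.add_mem (val_mem hL hB b1 fun a' c' e2 e3 _ e5 =>
      h3 _ (RR_mul hr e2) _ e3 (by omega)) ?_
    split_ifs with h4
    · obtain ⟨c1, -, -, c4, c5⟩ := hL.hres κ b1 h4.1 h4.2
      rw [← mul_assoc]
      exact h3 _ (RR_mul hr c1) _ c4 (by split_ifs at c5 <;> omega)
    · simp)
  simpa [full_I hII, mul_assoc] using this

end Sys

end Pool.Agent.Lib.MP_05aa0e_al.Ex
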