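import Pool.Agent.Lib.MP_05aa0e_al.ExAlg1

set_option autoImplicit false

namespace Pool.Agent.Lib.MP_05aa0e_al.Ex

open Finset

/-- The elements whose product with `e` lies in `U`. -/
def cm {A : Type*} [Ring A] (U : Submodule ℤ A) (e : A) : Submodule ℤ A :=
  U.comap (LinearMap.mulRight ℤ e)

theorem mem_cm {A : Type*} [Ring A] {U : Submodule ℤ A} {e s : A} : s ∈ cm U e ↔ s * e ∈ U :=
  Iff.rfl

namespace Sys

variable (S : Sys) {A : Type*} [Ring A] (x : ℕ → A)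

/-- Words ending in a letter of zone one move up. -/
def SS (j : ℕ) : Prop := 2 ≤ j → ∀ r ∈ S.R x j, ∀ b < S.n, S.z b = 1 → r * x b ∈ S.AA x j

/-- The assumptions under which a block of level `p + 1` is analysed. -/
structure Ctx (p : ℕ) (bl : ℕ × ℕ × ℕ) (U : Submodule ℤ A) : Prop where
  hL : S.GoodL
  hR : S.Rel x
  hp : p + 1 < S.L
  hG : S.GoodB (p + 1)
  hS : S.SS x (p + 1)
  hA : S.AA x (p + 2) ≤ U
  hAv : ∀ μ, S.Nd (p + 1) μ → S.bid (p + 1) μ = bl → ∀ s ∈ S.AA x (p + 1), s * x μ.2 ∈ U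
  hB : ∀ μ, S.Nd (p + 1) μ → S.bid (p + 1) μ = bl → 8 ≤ S.z μ.2 →
    ∀ r ∈ S.R x (p + 2), ∀ b < S.n, S.z b = 4 → r * x b ∈ U

abbrev Zx (j : ℕ) (r : A) (ν : ℕ × ℕ) (u : ℕ) : A := r * x (S.h j u) * x (S.X j ν.1) * x ν.2
abbrev Zy (j : ℕ) (r : A) (ν : ℕ × ℕ) (u : ℕ) : A := r * x (S.h j u) * x (S.Y j ν.1) * x ν.2
abbrev Gx (j : ℕ) (r : A) (ν : ℕ × ℕ) (u : ℕ) : A := r * x (S.h j u) * S.sY x (j + 1) (S.fx j ν)
abbrev Gy (j : ℕ) (r : A) (ν : ℕ × ℕ) (u : ℕ) : A := r * x (S.h j u) * S.sY x (j + 1) (S.fy j ν)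
abbrev Gt (j : ℕ) (r : A) (t : ℕ × ℕ) (u : ℕ) : A :=
  r * x (S.h j u) * x (S.Y j t.1) * x (S.Y (j + 1) t.2)

variable {S x}

theorem Nstep (hL : S.GoodL) (hR : S.Rel x) {p : ℕ} (hp : p + 1 < S.L) (hS : S.SS x (p + 1))
    {r : A} (hr : r ∈ S.R x p) {i u : ℕ} (hi : i < S.N) (h1 : S.dg (p + 1) i ≤ u)
    (h2 : u < S.m (p + 1)) :
    r * x (S.h (p + 1) u) * x (S.Y (p + 1) i) -
      r * x (S.h (p + 1) (u - S.dg (p + 1) i)) * x (S.X (p + 1) i) ∈ S.AA x (p + 1) := by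
  have := useII' hL hR (κ := .inr (p + 1, i, u)) ⟨by simp, hp, hi, h1, h2⟩ trivial
    (q := p) (by simp [Sys.hi]) hr le_rfl (fun h3 r' hr' b hb hz =>
      hS (by simp only [lo] at h3; omega) r' hr' b hb (by simpa using hz))
  simpa [val, mul_sub, mul_assoc] using this

variable {p : ℕ} {bl : ℕ × ℕ × ℕ} {U : Submodule ℤ A}

theorem Ctx.hmul (C : S.Ctx x p bl U) {r : A} (hr : r ∈ S.R x p) {u : ℕ}
    (hu : u < S.m (p + 1)) : r * x (S.h (p + 1) u) ∈ S.R x (p + 1) :=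
  RR_mul hr (C.hL.hh _ u (by omega) C.hp hu).1

theorem Ctx.N (C : S.Ctx x p bl U) {r : A} (hr : r ∈ S.R x p) {ν : ℕ × ℕ}
    (hν : S.Nd (p + 1) ν) (hb : S.bid (p + 1) ν = bl) {u : ℕ}
    (h2 : u + S.dg (p + 1) ν.1 < S.m (p + 1)) :
    S.Zy x (p + 1) r ν (u + S.dg (p + 1) ν.1) ∈ U ↔ S.Zx x (p + 1) r ν u ∈ U := by
  have := C.hAv ν hν hb _ (Nstep C.hL C.hR C.hp C.hS hr hν.1 (Nat.le_add_left _ u) h2)
  rw [sub_mul, Nat.add_sub_cancel] at this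
  exact ⟨fun h => by simpa using U.sub_mem h this, fun h => by simpa using U.add_mem this h⟩

theorem Ctx.W (C : S.Ctx x p bl U) {r : A} (hr : r ∈ S.R x (p + 1)) {ν : ℕ × ℕ}
    (hν : S.Nd (p + 1) ν) (hb : S.bid (p + 1) ν = bl) :
    r * x (S.X (p + 1) ν.1) * x ν.2 + r * S.sY x (p + 1 + 1) (S.fx (p + 1) ν) -
      r * S.tl x (p + 1) ν ∈ U := by
  obtain ⟨a1, a2, a3⟩ := C.hL.hX (p + 1) ν.1 (by omega) C.hp hν.1
  have hx : S.isX (S.X (p + 1) ν.1) := by unfold isX; omega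
  have hy : ¬ S.yl (S.X (p + 1) ν.1) ν.2 := fun h => by have := h.1; unfold isY at this; omega
  have hl : S.lev (S.X (p + 1) ν.1) = p + 1 := by unfold lev; omega
  have h0 := hν.2.2
  have := useII' C.hL C.hR (κ := .inl (S.X (p + 1) ν.1, ν.2))
    ⟨a1, hν.2.1, by simp only [lo, hi, hy, if_false, hl, st]; omega⟩ (Or.inl hx)
    (q := p + 1) (by simp [hi, hy, hl]) hr C.hA (fun h3 r' hr' b hb' hz =>
      C.hB ν hν hb (by simp only [lo, st] at h3; omega) r' hr' b hb' (by simpa using hz))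
  simp only [val, hx, if_true, hl, a3, mul_add, mul_sub, ← mul_assoc] at this
  convert this using 1
  abel

theorem Ctx.Lr (C : S.Ctx x p bl U) {r : A} (hr : r ∈ S.R x (p + 1)) {ν : ℕ × ℕ}
    (hν : S.Nd (p + 1) ν) (hb : S.bid (p + 1) ν = bl) (hla : S.la (p + 1) ν) :
    r * x (S.Y (p + 1) ν.1) * x ν.2 + r * S.sY x (p + 1 + 1) (S.fy (p + 1) ν) ∈ U := by
  obtain ⟨a1, a2, a3⟩ := C.hL.hY (p + 1) ν.1 (by omega) C.hp hν.1
  have hx : ¬ S.isX (S.Y (p + 1) ν.1) := by unfold isX; omega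
  have hl : S.st (S.Y (p + 1) ν.1) = p + 1 := by unfold st; omega
  have hy0 : S.isY (S.Y (p + 1) ν.1) := by unfold isY; omega
  have hy : S.yl (S.Y (p + 1) ν.1) ν.2 := ⟨hy0, by rw [hl, a3]; exact hν, by rw [hl, a3]; exact hla⟩
  have h0 := hν.2.2
  have := useII' C.hL C.hR (κ := .inl (S.Y (p + 1) ν.1, ν.2))
    ⟨a1, hν.2.1, by simp only [lo, hi, hy, if_true, hl]; unfold st; omega⟩ (Or.inr (Or.inl hy0))
    (q := p + 1) (by simp [hi, hy, hl]) hr C.hA (fun h3 r' hr' b hb' hz =>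
      C.hB ν hν hb (by simp only [lo, st] at h3; omega) r' hr' b hb' (by simpa using hz))
  simpa only [val, hx, hy, if_true, if_false, hl, a3, mul_add, ← mul_assoc] using this

theorem tl_eq {j : ℕ} (hG : S.GoodB j) {ν μ : ℕ × ℕ} (h1 : S.Nd j μ)
    (h2 : S.bid j μ = S.bid j ν) (h3 : S.pos j μ + S.dg j μ.1 = S.pos j ν) :
    S.tl x j ν = x (S.Y j μ.1) * x μ.2 := by
  simp [tl, pr_eq hG h1 h2 h3]

/-- One step along a diagonal. -/
theorem Ctx.step (C : S.Ctx x p bl U) {r : A} (hr : r ∈ S.R x p) {ν μ : ℕ × ℕ}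
    (hν : S.Nd (p + 1) ν) (hb : S.bid (p + 1) ν = bl) (hμ : S.Nd (p + 1) μ)
    (hb' : S.bid (p + 1) μ = bl) (h3 : S.pos (p + 1) ν + S.dg (p + 1) ν.1 = S.pos (p + 1) μ)
    {u : ℕ} (h2 : u + S.dg (p + 1) μ.1 < S.m (p + 1)) (hg : S.Gx x (p + 1) r μ u ∈ U) :
    S.Zy x (p + 1) r μ (u + S.dg (p + 1) μ.1) ∈ U ↔ S.Zy x (p + 1) r ν u ∈ U := by
  rw [C.N hr hμ hb' h2]
  have := C.W (C.hmul hr (u := u) (by omega)) hμ hb'
  rw [tl_eq C.hG hν (hb.trans hb'.symm) h3, ← mul_assoc, add_sub_right_comm] at this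
  have h4 := (U.add_mem_iff_left hg).1 this
  exact ⟨fun h => by simpa using U.sub_mem h h4, fun h => by simpa using U.add_mem h4 h⟩

theorem Ctx.upT (C : S.Ctx x p bl U) {r : A} (hr : r ∈ S.R x p) (t : ℕ)
    (ht : ∀ q, S.tp (p + 1) bl = some q → S.Gt x (p + 1) r q t ∈ U) :
    ∀ (k : ℕ) (ν : ℕ × ℕ), S.Nd (p + 1) ν → S.bid (p + 1) ν = bl → S.pos (p + 1) ν = k →
      t + k < S.m (p + 1) →
      (∀ μ, S.Nd (p + 1) μ → S.bid (p + 1) μ = bl → S.pos (p + 1) μ < k →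
        S.Gx x (p + 1) r μ (t + S.pos (p + 1) μ) ∈ U) →
      r * x (S.h (p + 1) (t + k)) * S.tl x (p + 1) ν ∈ U := by
  intro k
  induction k using Nat.strong_induction_on with
  | _ k ih =>
  intro ν hν hb hk hu hg
  rcases Nat.eq_zero_or_pos k with rfl | h0
  · unfold tl
    rw [pr_zero C.hG hk, hb]
    rcases h : S.tp (p + 1) bl with _ | q
    · simp
    · simpa [← mul_assoc] using ht q h
  · obtain ⟨μ, h1, h2, h3⟩ := C.hG.c1 ν hν (by omega)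
    have h4 := C.hG.dg1 μ.1
    rw [tl_eq C.hG h1 h2 h3, ← mul_assoc,
      show t + k = t + S.pos (p + 1) μ + S.dg (p + 1) μ.1 by omega]
    refine (C.N hr h1 (h2.trans hb) (by omega)).2 ?_
    have h5 := C.W (C.hmul hr (u := t + S.pos (p + 1) μ) (by omega)) h1 (h2.trans hb)
    have h6 := ih _ (by omega) μ h1 (h2.trans hb) rfl (by omega)
      (fun μ' a1 a2 a3 => hg μ' a1 a2 (by omega))
    have h7 := hg μ h1 (h2.trans hb) (by omega)
    exact (U.add_mem_iff_left h7).1 ((U.sub_mem_iff_left h6).1 h5)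

theorem Ctx.up (C : S.Ctx x p bl U) {r : A} (hr : r ∈ S.R x p) (t : ℕ)
    (ht : ∀ q, S.tp (p + 1) bl = some q → S.Gt x (p + 1) r q t ∈ U) {ν : ℕ × ℕ}
    (hν : S.Nd (p + 1) ν) (hb : S.bid (p + 1) ν = bl)
    (hu : t + S.pos (p + 1) ν + S.dg (p + 1) ν.1 < S.m (p + 1))
    (hg : ∀ μ, S.Nd (p + 1) μ → S.bid (p + 1) μ = bl → S.pos (p + 1) μ ≤ S.pos (p + 1) ν →
        S.Gx x (p + 1) r μ (t + S.pos (p + 1) μ) ∈ U) :
    S.Zy x (p + 1) r ν (t + S.pos (p + 1) ν + S.dg (p + 1) ν.1) ∈ U := by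
  refine (C.N hr hν hb hu).2 ?_
  have h5 := C.W (C.hmul hr (u := t + S.pos (p + 1) ν) (by omega)) hν hb
  have h6 := C.upT hr t ht _ ν hν hb rfl (by omega) (fun μ a1 a2 a3 => hg μ a1 a2 a3.le)
  exact (U.add_mem_iff_left (hg ν hν hb le_rfl)).1 ((U.sub_mem_iff_left h6).1 h5)

theorem Ctx.down (C : S.Ctx x p bl U) {r : A} (hr : r ∈ S.R x p) (D : ℕ) (hD : D < S.m (p + 1))
    (hy : ∀ μ, S.Nd (p + 1) μ → S.bid (p + 1) μ = bl → S.la (p + 1) μ →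
      S.Gy x (p + 1) r μ D ∈ U) :
    ∀ (k : ℕ) (ν : ℕ × ℕ) (u : ℕ), S.Nd (p + 1) ν → S.bid (p + 1) ν = bl →
      S.pos (p + 1) ν + S.dg (p + 1) ν.1 + k = S.len (p + 1) bl → u + k = D →
      (∀ μ v, S.Nd (p + 1) μ → S.bid (p + 1) μ = bl → S.pos (p + 1) ν < S.pos (p + 1) μ →
        v + S.len (p + 1) bl = D + S.pos (p + 1) μ → S.Gx x (p + 1) r μ v ∈ U) →
      S.Zy x (p + 1) r ν u ∈ U := by
  intro k
  induction k using Nat.strong_induction_on with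
  | _ k ih =>
  intro ν u hν hb hk hu hg
  rcases Nat.eq_zero_or_pos k with rfl | h0
  · have hla : S.la (p + 1) ν := by unfold la; rw [hb]; omega
    obtain rfl : u = D := hu
    exact (U.add_mem_iff_left (hy ν hν hb hla)).1 (C.Lr (C.hmul hr hD) hν hb hla)
  · obtain ⟨μ, h1, h2, h3⟩ := C.hG.c2 ν hν (by rw [hb]; omega)
    have h4 := C.hG.dg1 μ.1
    have h4' := C.hG.dg1 ν.1
    have h5 := C.hG.c0 μ h1
    rw [h2, hb] at h5
    refine (C.step hr hν hb h1 (h2.trans hb) h3.symm (by omega)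
      (hg μ u h1 (h2.trans hb) (by omega) (by omega))).1 ?_
    exact ih (k - S.dg (p + 1) μ.1) (by omega) μ _ h1 (h2.trans hb) (by omega) (by omega)
      (fun μ' v a1 a2 a3 a4 => hg μ' v a1 a2 (by omega) a4)

/-- Non-surviving words of a block all of whose extra terms are in `U`. -/
theorem Ctx.plain (C : S.Ctx x p bl U) {r : A} (hr : r ∈ S.R x p)
    (ht : ∀ q u, u < S.m (p + 1) → S.tp (p + 1) bl = some q → S.Gt x (p + 1) r q u ∈ U)
    (hx : ∀ μ u, u < S.m (p + 1) → S.Nd (p + 1) μ → S.bid (p + 1) μ = bl →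
      S.Gx x (p + 1) r μ u ∈ U)
    (hy : ∀ μ u, u < S.m (p + 1) → S.Nd (p + 1) μ → S.bid (p + 1) μ = bl →
      S.Gy x (p + 1) r μ u ∈ U)
    {ν : ℕ × ℕ} (hν : S.Nd (p + 1) ν) (hb : S.bid (p + 1) ν = bl) {u : ℕ}
    (hu : u < S.m (p + 1)) (hn : S.NS (p + 1) ν.2 (u, ν.1)) : S.Zy x (p + 1) r ν u ∈ U := by
  have h0 := C.hG.c0 ν hν
  simp only [NS, Prod.mk.eta, hb] at hn h0
  rcases hn with hn | hn
  · obtain ⟨t, rfl⟩ : ∃ t, u = t + S.pos (p + 1) ν + S.dg (p + 1) ν.1 :=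
      ⟨u - (S.pos (p + 1) ν + S.dg (p + 1) ν.1), by omega⟩
    exact C.up hr t (fun q hq => ht q t (by omega) hq) hν hb hu
      (fun μ a1 a2 a3 => hx μ _ (by omega) a1 a2)
  · refine C.down hr (u + (S.len (p + 1) bl - (S.pos (p + 1) ν + S.dg (p + 1) ν.1))) (by omega)
      (fun μ a1 a2 _ => hy μ _ (by omega) a1 a2) _ ν u hν hb (by omega) rfl
      (fun μ v a1 a2 a3 a4 => hx μ v ?_ a1 a2)
    have h1 := C.hG.c0 μ a1
    rw [a2] at h1
    omega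

/-- Propagation along the diagonals of a deficit block. -/
theorem Ctx.diag (C : S.Ctx x p bl U) {r : A} (hr : r ∈ S.R x p)
    (hx : ∀ μ u, u < S.m (p + 1) → S.Nd (p + 1) μ → S.bid (p + 1) μ = bl →
      S.Gx x (p + 1) r μ u ∈ U)
    (hd : ∀ μ, S.Nd (p + 1) μ → S.bid (p + 1) μ = bl → S.dg (p + 1) μ.1 = 1)
    {i : ℕ} (hi : i + S.m (p + 1) ≤ S.len (p + 1) bl) {μ : ℕ × ℕ} (hμ : S.Nd (p + 1) μ)
    (hb : S.bid (p + 1) μ = bl) {v : ℕ} (hv : v < S.m (p + 1)) (h1 : S.pos (p + 1) μ = v + i)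
    (h2 : S.Zy x (p + 1) r μ v ∈ U) {ν : ℕ × ℕ} (hν : S.Nd (p + 1) ν)
    (hb' : S.bid (p + 1) ν = bl) {u : ℕ} (hu : u < S.m (p + 1))
    (h3 : S.pos (p + 1) ν = u + i) : S.Zy x (p + 1) r ν u ∈ U := by
  let F : ℕ → Prop := fun u => ∀ ν, S.Nd (p + 1) ν → S.bid (p + 1) ν = bl →
    S.pos (p + 1) ν = u + i → S.Zy x (p + 1) r ν u ∈ U
  have hF : ∀ u, u + 1 < S.m (p + 1) → (F (u + 1) ↔ F u) := by
    intro u hu
    constructor
    · intro h ν a1 a2 a3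
      have b0 := hd ν a1 a2
      obtain ⟨μ, b1, b2, b3⟩ := C.hG.c2 ν a1 (by rw [a2]; omega)
      have b4 := hd μ b1 (b2.trans a2)
      refine (C.step hr a1 a2 b1 (b2.trans a2) b3.symm (by omega)
        (hx μ u (by omega) b1 (b2.trans a2))).1 ?_
      rw [b4]
      exact h μ b1 (b2.trans a2) (by omega)
    · intro h ν a1 a2 a3
      have b0 := hd ν a1 a2
      obtain ⟨μ, b1, b2, b3⟩ := C.hG.c1 ν a1 (by omega)
      have b4 := hd μ b1 (b2.trans a2)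
      have := (C.step hr b1 (b2.trans a2) a1 a2 b3 (u := u) (by omega)
        (hx ν u (by omega) a1 a2)).2 (h μ b1 (b2.trans a2) (by omega))
      rwa [b0] at this
  have hF0 : ∀ u, u < S.m (p + 1) → (F u ↔ F 0) := by
    intro u
    induction u with
    | zero => exact fun _ => Iff.rfl
    | succ u ih => exact fun hu => (hF u hu).trans (ih (by omega))
  have hv' : F v := fun ν a1 a2 a3 => by
    have b0 := hd ν a1 a2
    have b1 := hd μ hμ hb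
    rw [C.hG.c3 ν μ a1 hμ (a2.trans hb.symm) (by omega)]
    exact h2
  exact (hF0 u hu).2 ((hF0 v hv).1 hv') ν hν hb' h3

/-- The relation along a diagonal which is killed from both ends. -/
theorem Ctx.syz (C : S.Ctx x p bl U) {r : A} (hr : r ∈ S.R x p) (t : ℕ)
    (hD : t + S.len (p + 1) bl < S.m (p + 1))
    (ht : ∀ q, S.tp (p + 1) bl = some q → S.Gt x (p + 1) r q t ∈ U) {γ : ℕ × ℕ}
    (hγ : S.Nd (p + 1) γ) (hb : S.bid (p + 1) γ = bl) :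
    ((∀ μ, S.Nd (p + 1) μ → S.bid (p + 1) μ = bl → μ ≠ γ →
        S.Gx x (p + 1) r μ (t + S.pos (p + 1) μ) ∈ U) →
      (∀ μ, S.Nd (p + 1) μ → S.bid (p + 1) μ = bl →
        S.Gy x (p + 1) r μ (t + S.len (p + 1) bl) ∈ U) →
      S.Gx x (p + 1) r γ (t + S.pos (p + 1) γ) ∈ U) ∧
    ((∀ μ, S.Nd (p + 1) μ → S.bid (p + 1) μ = bl →
        S.Gx x (p + 1) r μ (t + S.pos (p + 1) μ) ∈ U) → S.la (p + 1) γ →
      S.Gy x (p + 1) r γ (t + S.len (p + 1) bl) ∈ U) := by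
  have h0 := C.hG.c0 γ hγ
  rw [hb] at h0
  constructor
  · intro hx hy
    have h1 := C.upT hr t ht _ γ hγ hb rfl (by omega)
      (fun μ a1 a2 a3 => hx μ a1 a2 (by rintro rfl; omega))
    have h2 := C.down hr _ hD (fun μ a1 a2 _ => hy μ a1 a2)
      (S.len (p + 1) bl - (S.pos (p + 1) γ + S.dg (p + 1) γ.1)) γ
      (t + S.pos (p + 1) γ + S.dg (p + 1) γ.1) hγ hb (by omega) (by omega)
      (fun μ v a1 a2 a3 a4 => by
        rw [show v = t + S.pos (p + 1) μ by omega]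
        exact hx μ a1 a2 (by rintro rfl; omega))
    have h3 := (C.N hr hγ hb (by omega)).1 h2
    have h5 := C.W (C.hmul hr (u := t + S.pos (p + 1) γ) (by omega)) hγ hb
    exact (U.add_mem_iff_right h3).1 ((U.sub_mem_iff_left h1).1 h5)
  · intro hx hla
    have h1 := C.up hr t ht hγ hb (by omega) (fun μ a1 a2 _ => hx μ a1 a2)
    have h2 := C.Lr (C.hmul hr hD) hγ hb hla
    unfold la at hla
    rw [hb] at hla
    rw [add_assoc, hla] at h1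
    exact (U.add_mem_iff_right h1).1 h2

end Sys

end Pool.Agent.Lib.MP_05aa0e_al.Ex
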