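import Pool.Agent.Lib.MP_05aa0e_al.ExAlg2

set_option autoImplicit false

namespace Pool.Agent.Lib.MP_05aa0e_al.Ex

open Finset

namespace Sys

variable (S : Sys) {A : Type*} [Ring A] (x : ℕ → A)

/-- Reduction of words ending in a low letter of a pair. -/
def RY (p : ℕ) : Prop := ∀ r ∈ S.R x (p + 1), ∀ i < S.N, ∀ U : Submodule ℤ A,
  S.AA x (p + 1) ≤ U → (∀ r' ∈ S.R x p, ∀ u < S.m (p + 1), ∀ i' < S.N, (i = S.lp → i' = S.lp) →
    r' * x (S.h (p + 1) u) * x (S.Y (p + 1) i') ∈ U) → r * x (S.Y (p + 1) i) ∈ U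

variable {S x}

theorem avail0 (hL : S.GoodL) (hB : ∀ j, 1 ≤ j → j < S.L → S.GoodB j) (hR : S.Rel x)
    {q c : ℕ} (hc : c < S.n) (hz : S.z c ≤ 3) : ∀ s ∈ S.AA x q, s * x c ∈ S.AA x (q + 1) :=
  avail hL hB hR hc (by unfold st; omega) le_rfl (by omega) (by omega) (by omega)

theorem RY_zero (hL : S.GoodL) (h1 : 1 < S.L) : S.RY x 0 := by
  intro r hr i hi U _ hU
  refine TT_mul (fun r0 hr0 a ha _ => ?_) r (RR_le_TT hr)
  obtain ⟨u, hu, rfl⟩ := hL.hh' 1 a le_rfl h1 ha (Or.inl rfl)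
  exact hU r0 hr0 u hu i hi id

theorem RY_succ (hL : S.GoodL) (hB : ∀ j, 1 ≤ j → j < S.L → S.GoodB j) (hR : S.Rel x) {p : ℕ}
    (hp : p + 2 < S.L) (hP : S.R x (p + 2) ≤ S.TK x (p + 1)) (hS : S.SS x (p + 1))
    (hY : S.RY x p) : S.RY x (p + 1) := by
  intro r hr i hi U hA hU
  have hG := hB (p + 1) (by omega) (by omega)
  have hH : ∀ r0 ∈ S.R x (p + 1), ∀ a < S.n, 5 * (p + 2) ≤ S.z a + 1 →
      r0 * x a * x (S.Y (p + 2) i) ∈ U := fun r0 hr0 a ha hz => by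
    obtain ⟨u, hu, rfl⟩ := hL.hh' (p + 2) a (by omega) hp ha (Or.inr hz)
    exact hU r0 hr0 u hu i hi id
  have hAy : ∀ s ∈ S.AA x (p + 1), s * x (S.Y (p + 2) i) ∈ U :=
    TT_mul fun r0 hr0 a ha hz => hH r0 hr0 a ha (by omega)
  refine TT_mul (fun r0 hr0 a ha hz => ?_) r (hP hr)
  by_cases h1 : 5 * (p + 2) ≤ S.z a + 1
  · exact hH r0 hr0 a ha h1
  obtain ⟨h2, h3⟩ := hL.hY' (p + 1) a (by omega) ha (by unfold st at hz; omega)
  rw [← h3]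
  refine mem_cm.1 (hY r0 hr0 _ h2 _ (fun s hs => mem_cm.2 (hAy s hs))
    fun r' hr' u hu i' hi' _ => mem_cm.2 ?_)
  by_cases h4 : S.dg (p + 1) i' ≤ u
  · have h5 := hAy _ (Nstep hL hR (by omega) hS hr' hi' h4 hu)
    obtain ⟨a1, a2, -⟩ := hL.hX (p + 1) i' (by omega) (by omega) hi'
    have h6 := hH _ (RR_mul hr' (hL.hh (p + 1) (u - S.dg (p + 1) i') (by omega) (by omega)
      (by omega)).1) _ a1 (by omega)
    rw [sub_mul] at h5
    exact (U.sub_mem_iff_left h6).1 h5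
  obtain ⟨ν, b1, b2, b3, b4, b5⟩ := hG.sD i' i hp hi' hi
  have C : S.Ctx x p (S.bid (p + 1) ν) U :=
    ⟨hL, hR, by omega, hG, hS, hA,
      fun μ c1 c2 s hs => hA (avail0 hL hB hR c1.2.1 (by rw [(b5 μ c1 c2).1]; omega) s hs),
      fun μ c1 c2 c3 => by rw [(b5 μ c1 c2).1] at c3; omega⟩
  have hE : ∀ v < S.m (p + 1), ∀ F : Finset (ℕ × ℕ),
      (∀ q ∈ F, p + 1 + 1 < S.L ∧ q.1 < S.m (p + 1 + 1) ∧ q.2 < S.N) → (i = S.lp → F = ∅) →
      r' * x (S.h (p + 1) v) * S.sY x (p + 1 + 1) F ∈ U := by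
    intro v hv F hF hF'
    refine sY_mem' fun q hq => hU _ (C.hmul hr' hv) _ (hF q hq).2.1 _ (hF q hq).2.2 fun h => ?_
    rw [hF' h] at hq
    simp at hq
  have c0 := hG.c0 ν b1
  have d1 := C.down hr' (u + S.len (p + 1) (S.bid (p + 1) ν)) (by omega)
    (fun μ c1 c2 _ => hE _ (by omega) _ (hG.fyv μ) (fun h => ((b5 μ c1 c2).2 h).2))
    (S.len (p + 1) (S.bid (p + 1) ν) - S.dg (p + 1) ν.1) ν (u + S.dg (p + 1) ν.1) b1 rfl
    (by omega) (by omega) (fun μ v c1 c2 _ c4 => by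
      have c5 := hG.c0 μ c1
      rw [c2] at c5
      exact hE _ (by omega) _ (hG.fxv μ) (fun h => ((b5 μ c1 c2).2 h).1))
  have d2 := (C.N hr' b1 rfl (by omega)).1 d1
  have d3 := C.W (C.hmul hr' hu) b1 rfl
  have d4 := U.add_mem d2 (hE u hu _ (hG.fxv ν) (fun h => ((b5 ν b1 rfl).2 h).1))
  have d5 := (U.sub_mem_iff_right d4).1 d3
  simpa [tl, pr_zero hG b2, b3, ← mul_assoc] using d5

theorem sY_extract {j : ℕ} {F : Finset (ℕ × ℕ)} {r : A} {U : Submodule ℤ A} {p : ℕ × ℕ}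
    (hp : p ∈ F) (h0 : r * S.sY x j F ∈ U)
    (h : ∀ q ∈ F, q = p ∨ r * x (S.h j q.1) * x (S.Y j q.2) ∈ U) :
    r * x (S.h j p.1) * x (S.Y j p.2) ∈ U := by
  have h1 : r * S.sY x j (F.erase p) ∈ U :=
    sY_mem' fun q hq => (h q (mem_of_mem_erase hq)).resolve_left (ne_of_mem_erase hq)
  unfold sY at h0 h1
  rw [← add_sum_erase _ _ hp, mul_add, ← mul_assoc] at h0
  exact (U.add_mem_iff_left h1).1 h0

/-- All words `r h y c` lie in the target. -/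
theorem bulk (hL : S.GoodL) (hB : ∀ j, 1 ≤ j → j < S.L → S.GoodB j) (hR : S.Rel x) {p : ℕ}
    (hp : p + 1 < S.L) (hS : S.SS x (p + 1)) (hS' : S.SS x p)
    (hY : ∀ p', p = p' + 1 → S.RY x p') {U : Submodule ℤ A} (hT : S.TK x (p + 2) ≤ U) {ζ : ℕ}
    (hav : ∀ c < S.n, S.z c ≤ 5 * (p + 1) + 7 → S.z c ≤ ζ + 1 →
      ∀ s ∈ S.AA x (p + 1), s * x c ∈ U)
    (h4 : 7 ≤ ζ → ∀ r ∈ S.R x (p + 2), ∀ b < S.n, S.z b = 4 → r * x b ∈ U) :
    ∀ r ∈ S.R x p, ∀ ν, S.Nd (p + 1) ν → S.z ν.2 ≤ ζ → ∀ v < S.m (p + 1),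
      S.Zy x (p + 1) r ν v ∈ U := by
  have hG := hB (p + 1) (by omega) hp
  have hA : S.AA x (p + 2) ≤ U := (AA_le_TK _).trans hT
  have C : ∀ ν, S.Nd (p + 1) ν → S.z ν.2 ≤ ζ → S.Ctx x p (S.bid (p + 1) ν) U := fun ν h1 h2 =>
    ⟨hL, hR, hp, hG, hS, hA,
      fun μ c1 c2 => hav _ c1.2.1 c1.2.2 (by have := hG.loc ν μ h1 c1 c2; omega),
      fun μ c1 c2 c3 => h4 (by have := hG.loc ν μ h1 c1 c2; omega)⟩
  have hE : ∀ r ∈ S.R x (p + 1), ∀ F : Finset (ℕ × ℕ),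
      (∀ q ∈ F, p + 1 + 1 < S.L ∧ q.1 < S.m (p + 1 + 1) ∧ q.2 < S.N) →
      r * S.sY x (p + 1 + 1) F ∈ U := fun r hr F hF =>
    sY_mem hL (by omega) hF fun a c a1 a2 a3 =>
      hT (TT_mem (RR_mul hr a1) a2 (by unfold st; omega))
  have hm : ∀ r ∈ S.R x p, ∀ u < S.m (p + 1), r * x (S.h (p + 1) u) ∈ S.R x (p + 1) :=
    fun r hr u hu => RR_mul hr (hL.hh _ u (by omega) hp hu).1
  have hNS : ∀ r ∈ S.R x p, ∀ ν, S.Nd (p + 1) ν → S.z ν.2 ≤ ζ → ∀ v < S.m (p + 1),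
      S.NS (p + 1) ν.2 (v, ν.1) → S.Zy x (p + 1) r ν v ∈ U := fun r hr ν h1 h2 v hv hn =>
    (C ν h1 h2).plain hr (fun q u hu hq => by
        obtain ⟨b1, b2, b3⟩ := hG.tpv _ q hq
        obtain ⟨c1, c2, -⟩ := hL.hY (p + 1 + 1) q.2 (by omega) b1 b3
        exact hT (TT_mem (RR_mul (hm r hr u hu) (hL.hY _ _ (by omega) hp b2).1) c1
          (by unfold st; omega)))
      (fun μ u hu _ _ => hE _ (hm r hr u hu) _ (hG.fxv μ))
      (fun μ u hu _ _ => hE _ (hm r hr u hu) _ (hG.fyv μ)) h1 rfl hv hn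
  have red : ∀ r ∈ S.R x p, ∀ ν, S.Nd (p + 1) ν → S.z ν.2 ≤ ζ →
      (S.df (p + 1) (S.bid (p + 1) ν) → ∀ i < S.Q (p + 1), ∃ μ v, S.Nd (p + 1) μ ∧
        S.bid (p + 1) μ = S.bid (p + 1) ν ∧ v < S.m (p + 1) ∧ S.pos (p + 1) μ = v + i ∧
        S.Zy x (p + 1) r μ v ∈ U) → ∀ v < S.m (p + 1), S.Zy x (p + 1) r ν v ∈ U := by
    intro r hr ν h1 h2 h3 v hv
    by_cases hn : S.NS (p + 1) ν.2 (v, ν.1)
    · exact hNS r hr ν h1 h2 v hv hn
    simp only [NS, Prod.mk.eta, not_or, not_le, not_lt] at hn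
    have hd : S.df (p + 1) (S.bid (p + 1) ν) := by
      by_contra hd
      have := hG.lenle ν h1 hd
      omega
    obtain ⟨-, a2, a3⟩ := hG.dfb ν h1 hd
    have a4 := (a3 ν h1 rfl).1
    obtain ⟨μ, w, b1, b2, b3, b4, b5⟩ := h3 hd (S.pos (p + 1) ν - v) (by omega)
    exact (C ν h1 h2).diag hr (fun μ u hu _ _ => hE _ (hm r hr u hu) _ (hG.fxv μ))
      (fun μ c1 c2 => (a3 μ c1 c2).1) (by omega) b1 b2 b3 b4 b5 h1 rfl hv (by omega)
  rcases p with _ | p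
  · exact fun r hr ν h1 h2 => red r hr ν h1 h2 fun hd => by have := (hG.dfb ν h1 hd).1; omega
  have hG' := hB (p + 1) (by omega) (by omega)
  have hQ := hG.hQ
  have C' : ∀ (c : ℕ) (γ : ℕ × ℕ), c < S.n → S.z c ≤ 5 * (p + 1 + 1) + 7 → S.z c ≤ ζ →
      (∀ γ', S.Nd (p + 1) γ' → S.bid (p + 1) γ' = S.bid (p + 1) γ → S.z γ'.2 = 0) →
      S.Ctx x p (S.bid (p + 1) γ) (cm U (x c)) := fun c γ h1 h2 h3 h5 =>
    ⟨hL, hR, by omega, hG', hS', fun s hs => mem_cm.2 (hav c h1 h2 (by omega) s hs),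
      fun μ c1 c2 s hs => mem_cm.2 (hav c h1 h2 (by omega) _
        (avail0 hL hB hR c1.2.1 (by rw [h5 μ c1 c2]; omega) s hs)),
      fun μ c1 c2 c3 => by rw [h5 μ c1 c2] at c3; omega⟩
  have hNS' : ∀ r ∈ S.R x (p + 1), ∀ c, c < S.n → S.z c ≤ 5 * (p + 1 + 1) + 7 → S.z c ≤ ζ →
      ∀ q : ℕ × ℕ, q.1 < S.m (p + 1 + 1) → q.2 < S.N → S.NS (p + 1 + 1) c q →
      r * x (S.h (p + 1 + 1) q.1) * x (S.Y (p + 1 + 1) q.2) ∈ cm U (x c) :=
    fun r hr c h1 h2 h3 q h5 h6 h7 => mem_cm.2 (hNS r hr (q.2, c) ⟨h6, h1, h2⟩ h3 q.1 h5 h7)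
  have T1 : ∀ r ∈ S.R x p, ∀ u < S.m (p + 1), ∀ ν, S.Nd (p + 1 + 1) ν → S.z ν.2 ≤ ζ →
      ∀ v < S.m (p + 1 + 1), S.Zy x (p + 1 + 1) (r * x (S.h (p + 1) u)) ν v ∈ U := by
    intro r hr u hu ν h1 h2
    have hm' : ∀ u < S.m (p + 1), r * x (S.h (p + 1) u) ∈ S.R x (p + 1) :=
      fun u hu => RR_mul hr (hL.hh _ u (by omega) (by omega) hu).1
    refine red _ (hm' u hu) ν h1 h2 fun hd i hi => ?_
    obtain ⟨σ, hσ, hσ1, hσ2⟩ : ∃ σ ≤ S.J, (σ < S.J → σ * S.Q (p + 1) ≤ u ∧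
        u < σ * S.Q (p + 1) + S.Q (p + 1)) ∧ (σ = S.J → S.J * S.Q (p + 1) ≤ u) := by
      by_cases h3 : S.J * S.Q (p + 1) ≤ u
      · exact ⟨S.J, le_rfl, by omega, fun _ => h3⟩
      · have h5 : 0 < S.Q (p + 1) := by
          rcases Nat.eq_zero_or_pos (S.Q (p + 1)) with h | h
          · simp [h] at h3
          · exact h
        have h6 : u / S.Q (p + 1) < S.J := (Nat.div_lt_iff_lt_mul h5).2 (by omega)
        exact ⟨u / S.Q (p + 1), h6.le, fun _ => ⟨Nat.div_mul_le_self _ _,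
          Nat.lt_div_mul_add h5⟩, by omega⟩
    obtain ⟨μ, γ, a1, a2, a3, a4, a5, a6, a7, a8, a9⟩ := hG.anc ν h1 hd σ hσ i hi
    simp only [Nat.add_sub_cancel] at a4 a5 a6 a7 a8 a9
    have b1 : S.z μ.2 ≤ ζ := by rw [((hG.dfb ν h1 hd).2.2 μ a1 a2).2]; exact h2
    have b2 : σ * S.Q (p + 1 + 1) < S.m (p + 1 + 1) :=
      lt_of_le_of_lt (Nat.mul_le_mul_right _ hσ) hQ
    refine ⟨μ, _, a1, a2, b2, a3, ?_⟩
    have C1 := C' μ.2 γ a1.2.1 a1.2.2 b1 (fun γ' c1 c2 => (a9 γ' c1 c2).1)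
    have hN := fun w hw => hNS' _ (hm' w hw) μ.2 a1.2.1 a1.2.2 b1
    have ht : ∀ t < S.m (p + 1), ∀ q, S.tp (p + 1) (S.bid (p + 1) γ) = some q →
        S.Gt x (p + 1) r q t ∈ cm U (x μ.2) := by
      intro t ht q hq
      obtain ⟨c1, c2, c3⟩ := hG'.tpv _ q hq
      have c4 : S.Nd (p + 1 + 1) (q.2, μ.2) := ⟨c3, a1.2.1, a1.2.2⟩
      have c5 := RR_mul (hm' t ht) (hL.hY (p + 1) _ (by omega) (by omega) c2).1
      exact mem_cm.2 ((U.add_mem_iff_left (hE _ c5 _ (hG.fyv _))).1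
        ((C _ c4 b1).Lr c5 c4 rfl (a6 q hq)))
    have c0 : ∀ γ', S.Nd (p + 1) γ' → S.bid (p + 1) γ' = S.bid (p + 1) γ →
        S.pos (p + 1) γ' ≤ S.len (p + 1) (S.bid (p + 1) γ) := fun γ' c1 c2 => by
      have := hG'.c0 γ' c1
      rw [c2] at this
      omega
    rcases hσ.lt_or_eq with h3 | h3
    · obtain ⟨d1, d2⟩ := hσ1 h3
      obtain ⟨d3, d4⟩ := a7 h3
      have d5 := (C1.syz hr (u - σ * S.Q (p + 1)) (by omega) (ht _ (by omega)) a4 rfl).1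
        (fun γ' c1 c2 c3 => sY_mem' fun q hq =>
          hN _ (by have := c0 γ' c1 c2; omega) q (hG'.fxv _ q hq).2.1 (hG'.fxv _ q hq).2.2
            (((a9 γ' c1 c2).2.1 q hq).resolve_left fun h => c3 h.2.1))
        (fun γ' c1 c2 => sY_mem' fun q hq =>
          hN _ (by omega) q (hG'.fyv _ q hq).2.1 (hG'.fyv _ q hq).2.2
            (((a9 γ' c1 c2).2.2 q hq).resolve_left fun h => by omega))
      rw [d3, Nat.sub_add_cancel d1] at d5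
      exact mem_cm.1 (sY_extract d4 d5 fun q hq => ((a9 γ a4 rfl).2.1 q hq).imp (fun h => h.2.2)
        (hN u hu q (hG'.fxv _ q hq).2.1 (hG'.fxv _ q hq).2.2))
    · have d1 := hσ2 h3
      obtain ⟨d2, d3, d4⟩ := a8 h3
      have d0 := hG'.hQ'
      have d5 := (C1.syz hr (u - S.len (p + 1) (S.bid (p + 1) γ)) (by omega) (ht _ (by omega))
        a4 rfl).2 (fun γ' c1 c2 => sY_mem' fun q hq =>
          hN _ (by have := c0 γ' c1 c2; omega) q (hG'.fxv _ q hq).2.1 (hG'.fxv _ q hq).2.2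
            (((a9 γ' c1 c2).2.1 q hq).resolve_left fun h => by omega)) d2
      rw [Nat.sub_add_cancel (by omega)] at d5
      exact mem_cm.1 (sY_extract d4 d5 fun q hq => ((a9 γ a4 rfl).2.2 q hq).imp (fun h => h.2.2)
        (hN u hu q (hG'.fyv _ q hq).2.1 (hG'.fyv _ q hq).2.2))
  intro r hr ν h1 h2
  refine red r hr ν h1 h2 fun hd i hi => ?_
  obtain ⟨μ, γ, a1, a2, a3, a4, a5, a6, a7, a8, a9⟩ := hG.anc ν h1 hd S.J le_rfl i hi
  simp only [Nat.add_sub_cancel] at a4 a5 a6 a7 a8 a9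
  have b1 : S.z μ.2 ≤ ζ := by rw [((hG.dfb ν h1 hd).2.2 μ a1 a2).2]; exact h2
  refine ⟨μ, _, a1, a2, hQ, a3, ?_⟩
  have C1 := C' μ.2 γ a1.2.1 a1.2.2 b1 (fun γ' c1 c2 => (a9 γ' c1 c2).1)
  obtain ⟨d2, d3, d4⟩ := a8 trivial
  have e1 : r * x (S.Y (p + 1) γ.1) * x γ.2 ∈ cm U (x μ.2) := by
    refine mem_cm.1 (hY p rfl r hr _ a4.1 _ (fun s hs => mem_cm.2 (C1.hAv γ a4 rfl s hs))
      fun r' hr' u hu i' _ hi' => mem_cm.2 ?_)
    rw [hi' d3, ← d3]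
    refine (Submodule.add_mem_iff_left _ (sY_mem' fun q hq => ?_)).1
      (C1.Lr (C1.hmul hr' hu) a4 rfl d2)
    exact mem_cm.2 (T1 r' hr' u hu (q.2, μ.2) ⟨(hG'.fyv _ q hq).2.2, a1.2.1, a1.2.2⟩ b1 q.1
      (hG'.fyv _ q hq).2.1)
  have e2 := (Submodule.add_mem_iff_right _ e1).1 (C1.Lr hr a4 rfl d2)
  exact mem_cm.1 (sY_extract d4 e2 fun q hq => ((a9 γ a4 rfl).2.2 q hq).imp (fun h => h.2.2)
    (hNS' r hr μ.2 a1.2.1 a1.2.2 b1 q (hG'.fyv _ q hq).2.1 (hG'.fyv _ q hq).2.2))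

/-- Words of length `q + 2` ending in `c`. -/
theorem done_of (hL : S.GoodL) {q c : ℕ} (hP : S.R x (q + 1) ≤ S.TK x q) {U : Submodule ℤ A}
    (hav : ∀ s ∈ S.AA x q, s * x c ∈ U)
    (hx : 1 ≤ q → ∀ r ∈ S.R x q, ∀ i < S.N, r * x (S.X q i) * x c ∈ U)
    (hy : 1 ≤ q → ∀ r ∈ S.R x q, ∀ i < S.N, r * x (S.Y q i) * x c ∈ U) :
    ∀ r ∈ S.R x (q + 1), r * x c ∈ U := by
  intro r hr
  refine TT_mul (fun r0 hr0 a ha hz => ?_) r (hP hr)
  unfold st at hz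
  by_cases h1 : q = 0 ∨ 5 * q + 5 ≤ S.z a
  · exact hav _ (TT_mem hr0 ha h1)
  by_cases h2 : S.z a = 5 * q + 4
  · obtain ⟨a1, a2⟩ := hL.hX' q a (by omega) ha h2
    rw [← a2]
    exact hx (by omega) r0 hr0 _ a1
  · obtain ⟨a1, a2⟩ := hL.hY' q a (by omega) ha (by omega)
    rw [← a2]
    exact hy (by omega) r0 hr0 _ a1

theorem SS_succ (hL : S.GoodL) (hB : ∀ j, 1 ≤ j → j < S.L → S.GoodB j) (hR : S.Rel x) {p : ℕ}
    (hp : p + 1 < S.L) (hP : S.R x (p + 2) ≤ S.TK x (p + 1)) (hS : S.SS x (p + 1))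
    (hY : S.RY x p) : S.SS x (p + 2) := by
  intro _ r hr b hb hz
  have hG := hB (p + 1) (by omega) hp
  have C : ∀ ν, S.Nd (p + 1) ν → S.z ν.2 ≤ 2 → S.Ctx x p (S.bid (p + 1) ν) (S.AA x (p + 2)) :=
    fun ν h1 h2 => ⟨hL, hR, hp, hG, hS, le_rfl,
      fun μ c1 c2 => avail0 hL hB hR c1.2.1 (by have := hG.loc ν μ h1 c1 c2; omega),
      fun μ c1 c2 c3 => by have := hG.loc ν μ h1 c1 c2; omega⟩
  have hy : ∀ c < S.n, (S.z c = 1 ∨ S.z c = 2) → ∀ r ∈ S.R x (p + 1), ∀ i < S.N,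
      r * x (S.Y (p + 1) i) * x c ∈ S.AA x (p + 2) := by
    intro c hc hz r hr i hi
    refine mem_cm.1 (hY r hr i hi _ (fun s hs => mem_cm.2 (avail0 hL hB hR hc (by omega) s hs))
      fun r' hr' u hu i' hi' _ => mem_cm.2 ?_)
    have h1 : S.Nd (p + 1) (i', c) := ⟨hi', hc, by simp only; omega⟩
    obtain ⟨a1, a2, a3⟩ := hG.sB _ h1 hz
    have a4 := hG.lenle _ h1 a2
    exact (C _ h1 (by simp only; omega)).plain hr' (fun q u _ hq => by rw [a1] at hq; simp at hq)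
      (fun μ u _ c1 c2 => by simp [Gx, (a3 μ c1 c2).1, sY])
      (fun μ u _ c1 c2 => by simp [Gy, (a3 μ c1 c2).2, sY]) h1 rfl hu
      (by simp only [NS] at a4 ⊢; omega)
  refine done_of hL hP (avail0 hL hB hR hb (by omega)) (fun _ r hr i hi => ?_)
    (fun _ => hy b hb (Or.inl hz)) r hr
  have h1 : S.Nd (p + 1) (i, b) := ⟨hi, hb, by simp only; omega⟩
  obtain ⟨a1, a2, a3⟩ := hG.sB _ h1 (Or.inl hz)
  have h2 := (C _ h1 (by simp only; omega)).W hr h1 rfl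
  rw [(a3 _ h1 rfl).1] at h2
  simp only [sY, sum_empty, mul_zero, add_zero] at h2
  refine (Submodule.sub_mem_iff_left _ (tl_mem (fun μ c1 c2 c3 => ?_)
    (fun q hq => by rw [a1] at hq; simp at hq))).1 h2
  have c4 := hG.dg1 μ.1
  have c5 := hG.mono _ μ h1 c1 c2 (by omega)
  have c6 := hG.loc _ μ h1 c1 c2
  exact hy _ c1.2.1 (by simp only at c5 c6; omega) r hr _ c1.1

theorem P_succ (hL : S.GoodL) (hB : ∀ j, 1 ≤ j → j < S.L → S.GoodB j) (hR : S.Rel x) {q : ℕ}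
    (hq : q < S.L) (hP : S.R x (q + 1) ≤ S.TK x q) (hS : S.SS x q) (hS' : S.SS x (q - 1))
    (hY : ∀ p, p + 1 ≤ q → S.RY x p) : S.R x (q + 2) ≤ S.TK x (q + 1) := by
  have key : ∀ ζ, ∀ c < S.n, S.z c = ζ → S.z c ≤ 5 * q + 7 → ∀ r ∈ S.R x (q + 1),
      r * x c ∈ S.TK x (q + 1) := by
    intro ζ
    induction ζ using Nat.strong_induction_on with
    | _ ζ ih =>
    intro c hc hz hz'
    have hav : ∀ c' < S.n, S.z c' ≤ 5 * q + 7 → S.z c' ≤ ζ + 1 + 1 → ∀ s ∈ S.AA x q,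
        s * x c' ∈ S.TK x (q + 1) := fun c' h1 h2 h3 =>
      avail hL hB hR h1 (by unfold st; omega) (AA_le_TK _) (fun _ => le_rfl)
        (fun h r hr b hb hb' => ih 4 (by omega) b hb hb' (by omega) r hr)
        (fun _ _ r hr b hb hb' => ih (S.z b) (by omega) b hb rfl (by omega) r hr)
    have h4 : 7 ≤ ζ + 1 → ∀ r ∈ S.R x (q + 1), ∀ b < S.n, S.z b = 4 →
        r * x b ∈ S.TK x (q + 1) := fun h r hr b hb hb' =>
      ih 4 (by omega) b hb hb' (by omega) r hr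
    rcases q with _ | p
    · exact done_of hL hP (hav c hc hz' (by omega)) (by omega) (by omega)
    have hG := hB (p + 1) (by omega) hq
    have hb := bulk hL hB hR hq hS hS' (fun p' hp' => hY p' (by omega)) le_rfl hav h4
    have hy : ∀ c' < S.n, S.z c' ≤ 5 * (p + 1) + 7 → S.z c' ≤ ζ + 1 → ∀ r ∈ S.R x (p + 1),
        ∀ i < S.N, r * x (S.Y (p + 1) i) * x c' ∈ S.TK x (p + 1 + 1) := by
      intro c' h1 h2 h3 r hr i hi
      exact mem_cm.1 (hY p le_rfl r hr i hi _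
        (fun s hs => mem_cm.2 (hav c' h1 h2 (by omega) s hs))
        fun r' hr' u hu i' hi' _ => mem_cm.2 (hb r' hr' (i', c') ⟨hi', h1, h2⟩ h3 u hu))
    refine done_of hL hP (hav c hc hz' (by omega)) (fun _ r hr i hi => ?_)
      (fun _ => hy c hc hz' (by omega))
    have h1 : S.Nd (p + 1) (i, c) := ⟨hi, hc, hz'⟩
    have C : S.Ctx x p (S.bid (p + 1) (i, c)) (S.TK x (p + 1 + 1)) :=
      ⟨hL, hR, hq, hG, hS, AA_le_TK _,
        fun μ c1 c2 => hav _ c1.2.1 c1.2.2 (by have := hG.loc _ μ h1 c1 c2; simp only at this; omega),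
        fun μ c1 c2 c3 => h4 (by have := hG.loc _ μ h1 c1 c2; simp only at this; omega)⟩
    have h2 := C.W hr h1 rfl
    refine (Submodule.add_mem_iff_left _ (sY_mem hL (by omega) (hG.fxv _) fun a c a1 a2 a3 =>
      TT_mem (RR_mul hr a1) a2 (by unfold st; omega))).1
      ((Submodule.sub_mem_iff_left _ (tl_mem (fun μ c1 c2 c3 => ?_) (fun t ht => ?_))).1 h2)
    · have c6 := hG.loc _ μ h1 c1 c2
      exact hy _ c1.2.1 c1.2.2 (by simp only at c6; omega) r hr _ c1.1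
    · obtain ⟨b1, b2, b3⟩ := hG.tpv _ t ht
      obtain ⟨c1, c2, -⟩ := hL.hY (p + 1 + 1) t.2 (by omega) b1 b3
      exact TT_mem (RR_mul hr (hL.hY _ _ (by omega) hq b2).1) c1 (by unfold st; omega)
  refine RR_le_TT.trans (TT_le fun r hr c hc _ => ?_)
  by_cases h : S.z c ≤ 5 * q + 7
  · exact key _ c hc rfl h r hr
  · exact TT_mem hr hc (by unfold st; omega)

theorem nilp (hL : S.GoodL) (hB : ∀ j, 1 ≤ j → j < S.L → S.GoodB j) (hR : S.Rel x)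
    (h0 : 0 < S.L) (w : List ℕ) (hw : ∀ a ∈ w, a < S.n) (hl : w.length = S.L + 1) :
    (w.map x).prod = 0 := by
  have key : ∀ q ≤ S.L, ∀ i ≤ q, S.R x (i + 1) ≤ S.TK x i ∧ S.SS x i ∧
      (i + 1 < S.L → S.RY x i) := by
    intro q
    induction q with
    | zero =>
      intro _ i hi
      obtain rfl : i = 0 := by omega
      exact ⟨RR_le_TT.trans (TT_mono fun _ _ _ => Nat.zero_le _), fun h => by omega, RY_zero hL⟩
    | succ q ih =>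
      intro hq i hi
      have ih := ih (by omega)
      rcases hi.lt_or_eq with hi | rfl
      · exact ih i (by omega)
      have h1 := P_succ hL hB hR (q := q) hq (ih q le_rfl).1 (ih q le_rfl).2.1
        (ih (q - 1) (by omega)).2.1 (fun p hp => (ih p (by omega)).2.2 (by omega))
      have h2 : S.SS x (q + 1) := by
        rcases q with _ | p
        · exact fun h => by omega
        · exact SS_succ hL hB hR hq (ih _ le_rfl).1 (ih _ le_rfl).2.1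
            ((ih p (by omega)).2.2 hq)
      exact ⟨h1, h2, fun h => RY_succ hL hB hR h h1 h2 ((ih q le_rfl).2.2 (by omega))⟩
  have h1 := prod_mem_RR (x := x) w hw
  rw [hl] at h1
  have h2 : S.TK x S.L ≤ ⊥ := TT_le fun r _ a ha hz => by
    have := hL.zle a ha
    unfold st at hz
    omega
  exact h2 ((key _ le_rfl _ le_rfl).1 h1)

end Sys

end Pool.Agent.Lib.MP_05aa0e_al.Ex
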