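import Mathlib

set_option autoImplicit false

namespace Pool.Agent.Lib.MP_05aa0e_al.Ex

open Finset

/-- Every number up to the total is a subset sum. -/
def Comp (d : ℕ → ℕ) (I : Finset ℕ) : Prop := ∀ t ≤ ∑ i ∈ I, d i, ∃ I' ⊆ I, ∑ i ∈ I', d i = t

theorem Comp.insert {d : ℕ → ℕ} {I : Finset ℕ} (h : Comp d I) {a : ℕ} (ha : a ∉ I)
    (hd : d a ≤ ∑ i ∈ I, d i + 1) : Comp d (insert a I) := by
  intro t ht
  rw [sum_insert ha] at ht
  by_cases h1 : t ≤ ∑ i ∈ I, d i
  · obtain ⟨I', h2, h3⟩ := h t h1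
    exact ⟨I', h2.trans (subset_insert _ _), h3⟩
  · obtain ⟨I', h2, h3⟩ := h (t - d a) (by omega)
    exact ⟨Insert.insert a I', insert_subset_insert _ h2, by
      rw [sum_insert fun h => ha (h2 h)]; omega⟩

theorem Comp.union {d : ℕ → ℕ} {I : Finset ℕ} (h : Comp d I) (I' : Finset ℕ)
    (hd : ∀ a ∈ I', a ∉ I → d a ≤ ∑ i ∈ I, d i + 1) : Comp d (I' ∪ I) := by
  induction I' using Finset.induction_on with
  | empty => simpa using h
  | insert a I' _ ih =>
    have ih := ih fun b hb => hd b (mem_insert_of_mem hb)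
    rw [insert_union]
    by_cases ha : a ∈ I' ∪ I
    · rwa [insert_eq_of_mem ha]
    · exact ih.insert ha ((hd a (mem_insert_self _ _) fun h => ha (mem_union_right _ h)).trans
        (Nat.add_le_add_right (sum_le_sum_of_subset subset_union_right) 1))

theorem exists_binary : ∀ (K t : ℕ), K ≤ t → t < 2 ^ K → ∃ e : ℕ → ℕ, (∀ i, 1 ≤ e i) ∧
    ∑ i ∈ range K, e i = t ∧ ∀ i < K, e i ≤ ∑ i' ∈ range i, e i' + 1
  | 0, t, _, h => ⟨fun _ => 1, fun _ => le_rfl, by simp at h ⊢; omega, by simp⟩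
  | K + 1, t, h1, h2 => by
    have h3 : K < 2 ^ K := Nat.lt_two_pow_self
    obtain ⟨e, a1, a2, a3⟩ := exists_binary K (max K (t / 2)) (le_max_left _ _)
      (by rw [pow_succ] at h2; omega)
    have h4 : ∀ i ≤ K, ∑ i' ∈ range i, Function.update e K (t - max K (t / 2)) i' =
        ∑ i' ∈ range i, e i' := fun i hi => sum_congr rfl fun i' hi' =>
      Function.update_of_ne (by simp at hi'; omega) _ _
    refine ⟨Function.update e K (t - max K (t / 2)), fun i => ?_, ?_, fun i hi => ?_⟩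
    · by_cases h : i = K
      · rw [h, Function.update_self]; omega
      · rw [Function.update_of_ne h]; exact a1 i
    · rw [sum_range_succ, h4 K le_rfl, Function.update_self]; omega
    · rw [h4 i (by omega)]
      by_cases h : i = K
      · rw [h, Function.update_self]; omega
      · rw [Function.update_of_ne h]; exact a3 i (by omega)

theorem comp_Ico {d e : ℕ → ℕ} {o K : ℕ} (h : ∀ i < K, d (o + i) = e i)
    (he : ∀ i < K, e i ≤ ∑ i' ∈ range i, e i' + 1) :
    ∑ i ∈ Ico o (o + K), d i = ∑ i ∈ range K, e i ∧ Comp d (Ico o (o + K)) := by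
  induction K with
  | zero => simp [Comp]
  | succ K ih =>
    obtain ⟨h1, h2⟩ := ih (fun i hi => h i (by omega)) (fun i hi => he i (by omega))
    rw [← add_assoc, Nat.Ico_succ_right_eq_insert_Ico (by omega)]
    refine ⟨by rw [sum_insert (by simp), sum_range_succ, h1, h K (by omega), add_comm],
      h2.insert (by simp) ?_⟩
    rw [h K (by omega), h1]
    exact he K (by omega)

/-- The degrees of the pairs. -/
structure Deg (J Jb Q K N ρ : ℕ) (dg grp : ℕ → ℕ) : Prop where
  d1 : ∀ i, 1 ≤ dg i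
  d2 : ∀ i, dg i ≤ 2 * Q
  sum : ∑ i ∈ range N, dg i = ρ
  big : ∀ i < Jb, dg i = Q
  one : ∀ i, 2 * J + 2 * K ≤ i → dg i = 1
  g2 : ∀ i, grp i < 2
  gst : ∀ c < 2, grp (2 * J + 2 * K + c) = c
  tot : ∀ c < 2, 2 * ∑ i ∈ (range N).filter (fun i => grp i = c), dg i ≤ Jb * Q + 7 * Q + 2 * N
  comp : ∀ c < 2, ∀ I : Finset ℕ, (∀ i ∈ I, grp i = c) →
    (∀ i, 2 * J ≤ i → i < 2 * J + 2 * K → grp i = c → i ∈ I) → Q ≤ ∑ i ∈ I, dg i ∧ Comp dg I

theorem exists_deg (J Jb Q K N ρ t : ℕ) (hJb : Jb ≤ 2 * J) (hN : 2 * J + 2 * K ≤ N) (hK : K ≤ Q)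
    (hQ : 2 * Q ≤ 2 ^ K) (h1 : Q ≤ t) (h2 : t < 2 * Q)
    (hρ : ρ + Jb + 2 * K = Jb * Q + Q + t + N) : ∃ dg grp, Deg J Jb Q K N ρ dg grp := by
  obtain ⟨e0, a1, a2, a3⟩ := exists_binary K Q hK (by omega)
  obtain ⟨e1, b1, b2, b3⟩ := exists_binary K t (by omega) (by omega)
  have hle : ∀ (e : ℕ → ℕ) (i : ℕ), i < K → e i ≤ ∑ i' ∈ range K, e i' := fun e i hi =>
    single_le_sum (f := e) (fun _ _ => Nat.zero_le _) (mem_range.2 hi)
  let dg : ℕ → ℕ := fun i => if i < Jb then Q else if i < 2 * J then 1 else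
    if i < 2 * J + K then e0 (i - 2 * J) else if i < 2 * J + K + K then e1 (i - (2 * J + K)) else 1
  let grp : ℕ → ℕ := fun i => if i < Jb / 2 then 0 else if i < 2 * J then 1 else
    if i < 2 * J + K then 0 else if i < 2 * J + K + K then 1 else
    if i = 2 * J + 2 * K + 1 then 1 else 0
  obtain ⟨c1, c2⟩ := comp_Ico (d := dg) (o := 2 * J) (fun i hi => by
    simp only [dg]
    rw [if_neg (by omega), if_neg (by omega), if_pos (by omega), Nat.add_sub_cancel_left]) a3
  obtain ⟨c3, c4⟩ := comp_Ico (d := dg) (o := 2 * J + K) (fun i hi => by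
    simp only [dg]
    rw [if_neg (by omega), if_neg (by omega), if_neg (by omega), if_pos (by omega),
      Nat.add_sub_cancel_left]) b3
  have c5 : ∑ i ∈ Ico (2 * J) (2 * J + K + K), dg i = Q + t := by
    rw [← sum_Ico_consecutive _ (show 2 * J ≤ 2 * J + K by omega) (by omega), c1, c3, a2, b2]
  refine ⟨dg, grp, fun i => ?_, fun i => ?_, ?_, fun i hi => by simp [dg, hi], fun i hi => ?_,
    fun i => ?_, fun c hc => ?_, fun c hc => ?_, fun c hc I hI hI' => ?_⟩
  · simp only [dg]
    split_ifs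
    exacts [by omega, le_rfl, a1 _, b1 _, le_rfl]
  · simp only [dg]
    split_ifs
    · omega
    · omega
    · have := hle e0 (i - 2 * J) (by omega); omega
    · have := hle e1 (i - (2 * J + K)) (by omega); omega
    · omega
  · have d1 : ∑ i ∈ Ico 0 Jb, dg i = Jb * Q := by
      rw [sum_congr rfl (g := fun _ => Q) fun i hi => by simp only [dg]; rw [if_pos (mem_Ico.1 hi).2]]
      simp
    have d2 : ∑ i ∈ Ico Jb (2 * J), dg i = 2 * J - Jb := by
      rw [sum_congr rfl (g := fun _ => 1) fun i hi => by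
        have := mem_Ico.1 hi
        simp only [dg]; rw [if_neg (by omega), if_pos this.2]]
      simp
    have d3 : ∑ i ∈ Ico (2 * J + K + K) N, dg i = N - (2 * J + K + K) := by
      rw [sum_congr rfl (g := fun _ => 1) fun i hi => by
        have := mem_Ico.1 hi
        simp only [dg]
        rw [if_neg (by omega), if_neg (by omega), if_neg (by omega), if_neg (by omega)]]
      simp
    rw [range_eq_Ico, ← sum_Ico_consecutive _ (Nat.zero_le Jb) (by omega),
      ← sum_Ico_consecutive _ hJb (by omega),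
      ← sum_Ico_consecutive _ (show 2 * J ≤ 2 * J + K + K by omega) (by omega), d1, d2, d3, c5]
    omega
  · simp only [dg]
    rw [if_neg (by omega), if_neg (by omega), if_neg (by omega), if_neg (by omega)]
  · simp only [grp]
    split_ifs <;> omega
  · simp only [grp]
    split_ifs <;> omega
  · have d1 : ∑ i ∈ (range N).filter (fun i => grp i = c), dg i ≤
        ∑ i ∈ range N, ((if i ∈ Ico (c * (Jb / 2)) (c * (Jb / 2) + (Jb + 1) / 2) then Q else 0) +
          (if i ∈ Ico (2 * J) (2 * J + K + K) then dg i else 0) + 1) := by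
      rw [sum_filter]
      refine sum_le_sum fun i _ => ?_
      by_cases e1 : grp i = c
      swap
      · simp [e1]
      rw [if_pos e1]
      by_cases e2 : i < Jb
      · have e3 : i ∈ Ico (c * (Jb / 2)) (c * (Jb / 2) + (Jb + 1) / 2) := by
          simp only [grp, if_pos (show i < 2 * J by omega)] at e1
          rw [mem_Ico]
          split_ifs at e1 <;> rw [← e1] <;> omega
        simp only [dg, if_pos e2, if_pos e3]
        omega
      by_cases e3 : i ∈ Ico (2 * J) (2 * J + K + K)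
      · rw [if_pos e3]; omega
      · have e4 : dg i = 1 := by
          simp only [mem_Ico, dg] at e3 ⊢
          split_ifs <;> omega
        omega
    rw [sum_add_distrib, sum_add_distrib, sum_ite_mem, sum_ite_mem] at d1
    have d2 : ∑ i ∈ range N ∩ Ico (c * (Jb / 2)) (c * (Jb / 2) + (Jb + 1) / 2), Q ≤
        (Jb + 1) / 2 * Q := by
      rw [sum_const, smul_eq_mul]
      exact Nat.mul_le_mul_right _ ((card_le_card inter_subset_right).trans (by simp))
    have d3 : ∑ i ∈ range N ∩ Ico (2 * J) (2 * J + K + K), dg i ≤ Q + t :=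
      c5 ▸ sum_le_sum_of_subset inter_subset_right
    have d4 : 2 * ((Jb + 1) / 2 * Q) ≤ Jb * Q + Q := by
      rw [← mul_assoc, ← add_one_mul]
      exact Nat.mul_le_mul_right _ (by omega)
    simp only [sum_const, card_range, smul_eq_mul, mul_one] at d1 d2
    omega
  · have key : ∀ I0 : Finset ℕ, I0 ⊆ I → Comp dg I0 → Q ≤ ∑ i ∈ I0, dg i →
        (∀ a ∈ I, a ∉ I0 → dg a ≤ Q + 1) → Q ≤ ∑ i ∈ I, dg i ∧ Comp dg I := by
      intro I0 d1 d2 d3 d4
      refine ⟨d3.trans (sum_le_sum_of_subset d1), ?_⟩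
      have := d2.union I fun a d5 d6 => (d4 a d5 d6).trans (by omega)
      rwa [union_eq_left.2 d1] at this
    interval_cases c
    · refine key _ (fun i hi => ?_) c2 (by omega) fun a d1 d2 => ?_
      · have := mem_Ico.1 hi
        refine hI' i (by omega) (by omega) ?_
        simp only [grp]
        split_ifs <;> omega
      · have := hI a d1
        simp only [mem_Ico, grp, dg] at d2 this ⊢
        split_ifs at this ⊢ <;> omega
    · refine key _ (fun i hi => ?_) c4 (by omega) fun a d1 d2 => ?_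
      · have := mem_Ico.1 hi
        refine hI' i (by omega) (by omega) ?_
        simp only [grp]
        split_ifs <;> omega
      · have := hI a d1
        simp only [mem_Ico, grp, dg] at d2 this ⊢
        split_ifs at this ⊢ <;> omega

theorem exists_perm {α X Y : Type*} [DecidableEq α] [DecidableEq X] (cl : X → Y) (f g : α → X)
    (s : Finset α) (hf : Set.InjOn f s) (hg : Set.InjOn g s) (h : ∀ a ∈ s, cl (f a) = cl (g a)) :
    ∃ σ : Equiv.Perm X, (∀ a ∈ s, σ (f a) = g a) ∧ ∀ x, cl (σ x) = cl x := by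
  induction s using Finset.induction_on with
  | empty => exact ⟨1, by simp, by simp⟩
  | insert a s ha ih =>
    obtain ⟨σ, h1, h2⟩ := ih (hf.mono (by simp)) (hg.mono (by simp))
      (fun b hb => h b (mem_insert_of_mem hb))
    have h3 : cl (σ (f a)) = cl (g a) := (h2 _).trans (h a (mem_insert_self _ _))
    refine ⟨Equiv.swap (σ (f a)) (g a) * σ, fun b hb => ?_, fun x => ?_⟩
    · rcases mem_insert.1 hb with rfl | hb
      · simp
      · have h4 : b ≠ a := fun e => ha (e ▸ hb)
        rw [Equiv.Perm.mul_apply, Equiv.swap_apply_of_ne_of_ne, h1 b hb]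
        · exact fun e => h4 (hf (by simp [hb]) (by simp) (σ.injective e))
        · rw [h1 b hb]
          exact fun e => h4 (hg (by simp [hb]) (by simp) e)
    · rw [Equiv.Perm.mul_apply, ← h2 x, Equiv.swap_apply_def]
      split_ifs with h4 h5
      · rw [h4, h3]
      · rw [h5, h3]
      · rfl

theorem exists_enum {β : Type*} [Inhabited β] (s : Finset β) : ∃ e : ℕ → β,
    (∀ i < s.card, e i ∈ s) ∧ ∀ i < s.card, ∀ j < s.card, e i = e j → i = j := by
  refine ⟨fun i => if h : i < s.card then (s.equivFin.symm ⟨i, h⟩ : β) else default,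
    fun i hi => ?_, fun i hi j hj h => ?_⟩
  · simp [hi]
  · simp only [hi, hj, dif_pos] at h
    simpa using s.equivFin.symm.injective (Subtype.ext h)

theorem exists_index {β : Type*} (s : Finset β) : ∃ e : β → ℕ,
    (∀ a ∈ s, e a < s.card) ∧ ∀ a ∈ s, ∀ b ∈ s, e a = e b → a = b := by
  classical
  refine ⟨fun a => if h : a ∈ s then (s.equivFin ⟨a, h⟩ : ℕ) else 0,
    fun a ha => ?_, fun a ha b hb h => ?_⟩
  · simp [ha]
  · simp only [ha, hb, dif_pos] at h
    simpa using s.equivFin.injective (Fin.ext h)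

theorem exists_pieces (ns Q Mx : ℕ) (Av : ℕ → Finset ℕ)
    (h : Mx ≤ ∑ s ∈ range ns, (Av s).card / Q) : ∃ (src : ℕ → ℕ) (win : ℕ → ℕ → ℕ),
    (∀ κ < Mx, src κ < ns ∧ ∀ i < Q, win κ i ∈ Av (src κ)) ∧
    ∀ κ < Mx, ∀ κ' < Mx, ∀ i < Q, ∀ i' < Q, src κ = src κ' → win κ i = win κ' i' →
      κ = κ' ∧ i = i' := by
  obtain ⟨e, h1, h2⟩ := exists_enum ((range ns).sigma (fun s => range ((Av s).card / Q)))
  have h3 : Mx ≤ ((range ns).sigma (fun s => range ((Av s).card / Q))).card := by
    simpa [card_sigma] using h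
  choose E h4 h5 using fun s => exists_enum (Av s)
  have h6 : ∀ κ < Mx, (e κ).1 < ns ∧ ∀ i < Q, (e κ).2 * Q + i < (Av (e κ).1).card := by
    intro κ hκ
    have := h1 κ (by omega)
    simp only [mem_sigma, mem_range] at this
    refine ⟨this.1, fun i hi => ?_⟩
    have a1 := Nat.mul_le_mul_right Q (show (e κ).2 + 1 ≤ _ from this.2)
    have a2 := Nat.div_mul_le_self (Av (e κ).1).card Q
    rw [add_one_mul] at a1
    omega
  refine ⟨fun κ => (e κ).1, fun κ i => E (e κ).1 ((e κ).2 * Q + i),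
    fun κ hκ => ⟨(h6 κ hκ).1, fun i hi => h4 _ _ ((h6 κ hκ).2 i hi)⟩,
    fun κ hκ κ' hκ' i hi i' hi' a1 a2 => ?_⟩
  simp only at a1 a2
  have a3 := (h6 κ' hκ').2 i' hi'
  rw [← a1] at a2 a3
  have a4 := h5 _ _ ((h6 κ hκ).2 i hi) _ a3 a2
  have a5 : (e κ).2 = (e κ').2 := by
    have := congrArg (· / Q) a4
    simp only [mul_comm _ Q] at this
    rwa [Nat.mul_add_div (by omega), Nat.mul_add_div (by omega), Nat.div_eq_of_lt hi,
      Nat.div_eq_of_lt hi', add_zero, add_zero] at this
  rw [a5] at a4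
  exact ⟨h2 κ (by omega) κ' (by omega) (Sigma.ext a1 (heq_of_eq a5)), by omega⟩

end Pool.Agent.Lib.MP_05aa0e_al.Ex
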