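import Mathlib

set_option autoImplicit false

namespace Pool.Agent.Lib.MP_05aa0e_al.Ex

open Finset

section tiling
variable {α β : Type*} [DecidableEq α] [LinearOrder β] (M : Finset α) (key : α → β) (d : α → ℕ)

/-- Total degree of the slots before `s`. -/
def cum (s : α) : ℕ := ∑ s' ∈ M.filter (fun s' => key s' < key s), d s'

variable {M key d}

theorem cum_lt {s s' : α} (hs : s ∈ M) (h : key s < key s') :
    cum M key d s + d s ≤ cum M key d s' := by
  unfold cum
  rw [add_comm, ← sum_insert (by simp)]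
  refine sum_le_sum_of_subset fun a ha => ?_
  simp only [mem_insert, mem_filter] at ha ⊢
  rcases ha with rfl | ha
  · exact ⟨hs, h⟩
  · exact ⟨ha.1, ha.2.trans h⟩

theorem cum_le {s : α} (hs : s ∈ M) : cum M key d s + d s ≤ ∑ s' ∈ M, d s' := by
  unfold cum
  rw [add_comm, ← sum_insert (by simp)]
  refine sum_le_sum_of_subset fun a ha => ?_
  simp only [mem_insert, mem_filter] at ha
  rcases ha with rfl | ha
  · exact hs
  · exact ha.1

theorem cum_adj (hk : Set.InjOn key M) {s s' : α} (hs : s ∈ M) (h : key s < key s')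
    (h' : ∀ a ∈ M, key a < key s' → key a ≤ key s) :
    cum M key d s' = cum M key d s + d s := by
  unfold cum
  rw [add_comm, ← sum_insert (by simp)]
  refine sum_congr ?_ fun _ _ => rfl
  ext a
  simp only [mem_insert, mem_filter]
  constructor
  · rintro ⟨h1, h2⟩
    rcases (h' a h1 h2).lt_or_eq with h3 | h3
    · exact Or.inr ⟨h1, h3⟩
    · exact Or.inl (hk h1 hs h3)
  · rintro (rfl | ⟨h1, h2⟩)
    · exact ⟨hs, h⟩
    · exact ⟨h1, h2.trans h⟩

theorem cum_succ (hk : Set.InjOn key M) {s : α} (hs : s ∈ M)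
    (h : cum M key d s + d s < ∑ s' ∈ M, d s') :
    ∃ s' ∈ M, cum M key d s' = cum M key d s + d s := by
  have hne : (M.filter (fun a => key s < key a)).Nonempty := by
    by_contra hne
    simp only [not_nonempty_iff_eq_empty, filter_eq_empty_iff, not_lt] at hne
    refine absurd h (not_lt.2 ?_)
    unfold cum
    rw [add_comm, ← sum_insert (by simp)]
    refine sum_le_sum_of_subset fun a ha => ?_
    simp only [mem_insert, mem_filter]
    rcases (hne ha).lt_or_eq with h3 | h3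
    · exact Or.inr ⟨ha, h3⟩
    · exact Or.inl (hk ha hs h3)
  obtain ⟨s', h1, h2⟩ := exists_min_image _ key hne
  obtain ⟨h3, h4⟩ := mem_filter.1 h1
  refine ⟨s', h3, cum_adj hk hs h4 fun a ha h5 => ?_⟩
  by_contra h6
  exact absurd (h2 a (mem_filter.2 ⟨ha, not_le.1 h6⟩)) (not_le.2 h5)

theorem cum_pred (hk : Set.InjOn key M) {s : α} (h : 0 < cum M key d s) :
    ∃ s' ∈ M, cum M key d s' + d s' = cum M key d s := by
  have hne : (M.filter (fun a => key a < key s)).Nonempty := by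
    by_contra hne
    rw [not_nonempty_iff_eq_empty] at hne
    simp [cum, hne] at h
  obtain ⟨s', h1, h2⟩ := exists_max_image _ key hne
  obtain ⟨h3, h4⟩ := mem_filter.1 h1
  exact ⟨s', h3, (cum_adj hk h3 h4 fun a ha h5 => h2 a (mem_filter.2 ⟨ha, h5⟩)).symm⟩

end tiling

/-- Total degree of the groups before `γ`. -/
def gs (M : Finset (ℕ × ℕ)) (d g : ℕ × ℕ → ℕ) (γ : ℕ) : ℕ := ∑ s ∈ M.filter (fun s => g s < γ), d s

theorem gs_succ (M : Finset (ℕ × ℕ)) (d g : ℕ × ℕ → ℕ) (γ : ℕ) :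
    gs M d g (γ + 1) = gs M d g γ + ∑ s ∈ M.filter (fun s => g s = γ), d s := by
  unfold gs
  rw [← sum_union (by rw [disjoint_filter]; intro s _ h; omega), ← filter_or]
  exact sum_congr (filter_congr fun s _ => by omega) fun _ _ => rfl

theorem gs_mono (M : Finset (ℕ × ℕ)) (d g : ℕ × ℕ → ℕ) : Monotone (gs M d g) :=
  monotone_nat_of_le_succ fun γ => by rw [gs_succ]; omega

theorem gs_le (M : Finset (ℕ × ℕ)) (d g : ℕ × ℕ → ℕ) (γ : ℕ) : gs M d g γ ≤ ∑ s ∈ M, d s :=
  sum_le_sum_of_subset (filter_subset _ _)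

theorem exists_step {F : ℕ → ℕ} {t a b : ℕ} (h0 : F a ≤ t) (h1 : t < F b) (hab : a ≤ b) :
    ∃ γ, a ≤ γ ∧ γ < b ∧ F γ ≤ t ∧ t < F (γ + 1) := by
  induction b, hab using Nat.le_induction with
  | base => omega
  | succ b hab ih =>
    by_cases h : t < F b
    · obtain ⟨γ, h2, h3, h4⟩ := ih h
      exact ⟨γ, h2, by omega, h4⟩
    · exact ⟨b, hab, by omega, by omega, h1⟩

theorem exists_cum (M : Finset (ℕ × ℕ)) (d g : ℕ × ℕ → ℕ)
    (star : ℕ → ℕ × ℕ) (Cut : ℕ → ℕ) (hC : StrictMono Cut)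
    (hstar : ∀ γ t, gs M d g γ + t < gs M d g (γ + 1) → star γ ∈ M ∧ g (star γ) = γ ∧
      ∃ I ⊆ (M.filter (fun s => g s = γ)).erase (star γ), ∑ s ∈ I, d s = t)
    (hgap : ∀ b γ, Cut b + gs M d g (γ + 1) ≤ Cut (b + 1) + gs M d g γ) :
    ∃ cu : ℕ × ℕ → ℕ, (∀ s ∈ M, gs M d g (g s) ≤ cu s ∧ cu s + d s ≤ gs M d g (g s + 1)) ∧
      (∀ s ∈ M, cu s + d s < ∑ s' ∈ M, d s' → ∃ s' ∈ M, cu s' = cu s + d s) ∧
      (∀ s ∈ M, 0 < cu s → ∃ s' ∈ M, cu s' + d s' = cu s) ∧
      (∀ s ∈ M, ∀ s' ∈ M, s = s' ∨ cu s + d s ≤ cu s' ∨ cu s' + d s' ≤ cu s) ∧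
      ∀ b γ, gs M d g γ ≤ Cut b → Cut b < gs M d g (γ + 1) →
        star γ ∈ M ∧ cu (star γ) = Cut b := by
  classical
  have hI : ∀ γ, ∃ I ⊆ (M.filter (fun s => g s = γ)).erase (star γ),
      ∀ b, gs M d g γ ≤ Cut b → Cut b < gs M d g (γ + 1) → gs M d g γ + ∑ s ∈ I, d s = Cut b := by
    intro γ
    by_cases h : ∃ b, gs M d g γ ≤ Cut b ∧ Cut b < gs M d g (γ + 1)
    · obtain ⟨b, h1, h2⟩ := h
      obtain ⟨-, -, I, h3, h4⟩ := hstar γ (Cut b - gs M d g γ) (by omega)
      refine ⟨I, h3, fun b' h5 h6 => ?_⟩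
      have : b' = b := by
        rcases lt_trichotomy b' b with h | h | h
        · have := hgap b' γ
          have := hC.monotone (show b' + 1 ≤ b from h)
          omega
        · exact h
        · have := hgap b γ
          have := hC.monotone (show b + 1 ≤ b' from h)
          omega
      rw [this]; omega
    · exact ⟨∅, empty_subset _, fun b h1 h2 => absurd ⟨b, h1, h2⟩ h⟩
  choose I hI1 hI2 using hI
  let part : ℕ × ℕ → ℕ := fun s => if s ∈ I (g s) then 0 else if s = star (g s) then 1 else 2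
  let key : ℕ × ℕ → ℕ ×ₗ ℕ ×ₗ ℕ ×ₗ ℕ := fun s => toLex (g s, toLex (part s, toLex s))
  have hk : Set.InjOn key M := fun s _ s' _ h => by
    simpa [key] using congrArg (fun k => ofLex (ofLex (ofLex k).2).2) h
  have hkey : ∀ s s', key s < key s' ↔ g s < g s' ∨ g s = g s' ∧
      (part s < part s' ∨ part s = part s' ∧ toLex s < toLex s') := fun s s' => by
    simp only [key, Prod.Lex.toLex_lt_toLex]
  refine ⟨cum M key d, fun s hs => ⟨?_, ?_⟩, fun s hs => cum_succ hk hs,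
    fun s _ => cum_pred hk, fun s hs s' hs' => ?_, fun b γ h1 h2 => ?_⟩
  · refine sum_le_sum_of_subset fun a ha => ?_
    simp only [mem_filter, hkey] at ha ⊢
    exact ⟨ha.1, Or.inl ha.2⟩
  · unfold cum
    rw [add_comm, ← sum_insert (by simp)]
    refine sum_le_sum_of_subset fun a ha => ?_
    simp only [mem_insert, mem_filter, hkey] at ha ⊢
    rcases ha with rfl | ha
    · exact ⟨hs, by omega⟩
    · exact ⟨ha.1, by omega⟩
  · rcases lt_trichotomy (key s) (key s') with h | h | h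
    · exact Or.inr (Or.inl (cum_lt hs h))
    · exact Or.inl (hk hs hs' h)
    · exact Or.inr (Or.inr (cum_lt hs' h))
  · obtain ⟨a1, a2, -⟩ := hstar γ (Cut b - gs M d g γ) (by omega)
    refine ⟨a1, ?_⟩
    have a3 : star γ ∉ I γ := fun h => by simpa using hI1 γ h
    have a4 : part (star γ) = 1 := by simp [part, a2, a3]
    rw [← hI2 γ b h1 h2]
    unfold cum gs
    rw [← sum_union]
    · refine sum_congr ?_ fun _ _ => rfl
      ext a
      simp only [mem_filter, mem_union, hkey, a2, a4]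
      constructor
      · rintro ⟨b1, b2 | ⟨b2, b3 | ⟨b3, b4⟩⟩⟩
        · exact Or.inl ⟨b1, b2⟩
        · right
          by_contra b4
          simp only [part, b2, b4, if_false] at b3
          split_ifs at b3 <;> omega
        · have c2 : a = star γ := by
            by_contra c2
            simp only [part, b2, c2, if_false] at b3
            split_ifs at b3
            omega
          rw [c2] at b4; exact absurd b4 (lt_irrefl _)
      · rintro (⟨b1, b2⟩ | b1)
        · exact ⟨b1, Or.inl b2⟩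
        · have b2 := mem_filter.1 (mem_of_mem_erase (hI1 γ b1))
          exact ⟨b2.1, Or.inr ⟨b2.2, Or.inl (by simp [part, b2.2, b1])⟩⟩
    · rw [disjoint_left]
      intro a h3 h4
      have b2 := mem_filter.1 (mem_of_mem_erase (hI1 γ h4))
      have := (mem_filter.1 h3).2
      omega

/-- The output of the main chain construction. -/
structure Chain (M : Finset (ℕ × ℕ)) (d g : ℕ × ℕ → ℕ) (star : ℕ → ℕ × ℕ) (Cut : ℕ → ℕ)
    (blk pos : ℕ × ℕ → ℕ) (len : ℕ → ℕ) : Prop where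
  c0 : ∀ s ∈ M, pos s + d s ≤ len (blk s)
  c1 : ∀ s ∈ M, 0 < pos s → ∃ s' ∈ M, blk s' = blk s ∧ pos s' + d s' = pos s
  c2 : ∀ s ∈ M, pos s + d s < len (blk s) → ∃ s' ∈ M, blk s' = blk s ∧ pos s' = pos s + d s
  c3 : ∀ s ∈ M, ∀ s' ∈ M, blk s = blk s' → pos s + d s = pos s' + d s' → s = s'
  hlen : ∀ b, Cut b + len b ≤ Cut (b + 1)
  mono : ∀ s ∈ M, ∀ s' ∈ M, blk s' = blk s → pos s' < pos s → g s ≤ g s'
  lo : ∀ s ∈ M, Cut (blk s) < gs M d g (g s + 1)
  hi : ∀ s ∈ M, gs M d g (g s) < Cut (blk s + 1)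
  hst : ∀ b γ, gs M d g γ ≤ Cut b → Cut b < gs M d g (γ + 1) →
    star γ ∈ M ∧ blk (star γ) = b ∧ pos (star γ) + d (star γ) = len b

theorem exists_chain (M : Finset (ℕ × ℕ)) (d g : ℕ × ℕ → ℕ) (hd : ∀ s, 1 ≤ d s)
    (star : ℕ → ℕ × ℕ) (Cut : ℕ → ℕ) (hC0 : Cut 0 = 0) (hC : StrictMono Cut)
    (hstar : ∀ γ t, gs M d g γ + t < gs M d g (γ + 1) → star γ ∈ M ∧ g (star γ) = γ ∧
      ∃ I ⊆ (M.filter (fun s => g s = γ)).erase (star γ), ∑ s ∈ I, d s = t)
    (hgap : ∀ b γ, Cut b + gs M d g (γ + 1) ≤ Cut (b + 1) + gs M d g γ) :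
    ∃ blk pos len, Chain M d g star Cut blk pos len := by
  obtain ⟨cu, h1, h2, h3, h4, h5⟩ := exists_cum M d g star Cut hC hstar hgap
  set T := ∑ s ∈ M, d s with hT
  have hb : ∀ t, ∃ b, Cut b ≤ t ∧ t < Cut (b + 1) := fun t => by
    obtain ⟨b, -, -, h⟩ := exists_step (F := Cut) (t := t) (a := 0) (b := t + 1) (by omega)
      (hC.id_le (t + 1)) (by omega)
    exact ⟨b, h⟩
  choose bo hb1 hb2 using hb
  have hbo : ∀ t b, Cut b ≤ t → t < Cut (b + 1) → bo t = b := fun t b a1 a2 => by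
    have a3 := hC.lt_iff_lt.1 ((hb1 t).trans_lt a2)
    have a4 := hC.lt_iff_lt.1 (a1.trans_lt (hb2 t))
    omega
  have hcut : ∀ b, Cut b < T → ∃ s ∈ M, cu s = Cut b := fun b h => by
    have a1 : gs M d g (M.sup g + 1) = T := by
      unfold gs
      rw [filter_true_of_mem fun s hs => Nat.lt_succ_of_le (le_sup hs)]
    obtain ⟨γ, -, -, a2, a3⟩ := exists_step (F := gs M d g) (t := Cut b) (a := 0)
      (b := M.sup g + 1) (by simp [gs]) (by omega) (by omega)
    exact ⟨_, h5 b γ a2 a3⟩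
  have hT' : ∀ s ∈ M, cu s + d s ≤ T := fun s hs => (h1 s hs).2.trans (gs_le _ _ _ _)
  have hE : ∀ s ∈ M, cu s + d s ≤ Cut (bo (cu s) + 1) := fun s hs => by
    by_cases h : Cut (bo (cu s) + 1) < T
    · obtain ⟨s', a1, a2⟩ := hcut _ h
      have a3 := hb2 (cu s)
      have a4 := hd s'
      rcases h4 s hs s' a1 with rfl | a5 | a5 <;> omega
    · have := hT' s hs
      omega
  refine ⟨fun s => bo (cu s), fun s => min (Cut (bo (cu s) + 1)) T - (cu s + d s),
    fun b => min (Cut (b + 1)) T - Cut b, ?_, ?_, ?_, ?_, ?_, ?_, ?_, ?_, ?_⟩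
  · intro s hs
    have := hT' s hs
    have := hE s hs
    have := hb1 (cu s)
    omega
  · intro s hs h
    have a1 := hT' s hs
    have a2 := hE s hs
    have a3 := hb1 (cu s)
    obtain ⟨s', b1, b2⟩ := h2 s hs (by omega)
    have b3 : bo (cu s') = bo (cu s) := hbo _ _ (by omega) (by omega)
    have b4 := hT' s' b1
    have b5 := hE s' b1
    refine ⟨s', b1, b3, ?_⟩
    rw [b3] at b5 ⊢
    omega
  · intro s hs h
    have a1 := hT' s hs
    have a2 := hE s hs
    have a3 := hb1 (cu s)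
    have a4 := hb2 (cu s)
    obtain ⟨s', b1, b2⟩ := h3 s hs (by omega)
    have b0 := hd s'
    have b3 : bo (cu s') = bo (cu s) := by
      refine hbo _ _ ?_ (by omega)
      by_contra b4
      have b5 := hE s' b1
      have b6 := hC.lt_iff_lt.1 ((hb1 (cu s')).trans_lt (not_le.1 b4))
      have b7 := hC.monotone (show bo (cu s') + 1 ≤ bo (cu s) from b6)
      omega
    refine ⟨s', b1, b3, ?_⟩
    rw [b3]
    omega
  · intro s hs s' hs' a1 a2
    have b1 := hT' s hs
    have b2 := hE s hs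
    have b3 := hT' s' hs'
    have b4 := hE s' hs'
    have b5 := hd s
    have b6 := hd s'
    rw [a1] at a2 b2
    rcases h4 s hs s' hs' with h | h | h
    · exact h
    · omega
    · omega
  · intro b
    have := hC (show b < b + 1 by omega)
    omega
  · intro s hs s' hs' a1 a2
    by_contra h
    have b1 := h1 s hs
    have b2 := h1 s' hs'
    have b3 := gs_mono M d g (show g s' + 1 ≤ g s by omega)
    rw [a1] at a2
    omega
  · intro s hs
    have := h1 s hs
    have := hb1 (cu s)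
    have := hd s
    omega
  · intro s hs
    have := h1 s hs
    have := hb2 (cu s)
    omega
  · intro b γ a1 a2
    obtain ⟨b1, b2⟩ := h5 b γ a1 a2
    have b3 : bo (cu (star γ)) = b := hbo _ _ b2.ge (by rw [b2]; exact hC (by omega))
    have b4 := hT' _ b1
    have b5 := hE _ b1
    refine ⟨b1, b3, ?_⟩
    rw [b3] at b5 ⊢
    omega

section
variable {M : Finset (ℕ × ℕ)} {d g : ℕ × ℕ → ℕ} {star : ℕ → ℕ × ℕ} {Cut : ℕ → ℕ}
  {blk pos : ℕ × ℕ → ℕ} {len : ℕ → ℕ}

theorem Chain.top (H : Chain M d g star Cut blk pos len) (hd : ∀ s, 1 ≤ d s) {b γ : ℕ}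
    (h : Cut b < gs M d g γ) : ∃ s ∈ M, blk s = b ∧ pos s = 0 := by
  obtain ⟨γ', -, -, a2, a3⟩ := exists_step (F := gs M d g) (t := Cut b) (a := 0)
    (b := γ) (by simp [gs]) h (by omega)
  obtain ⟨a4, a5, -⟩ := H.hst b γ' a2 a3
  have key : ∀ k, ∀ s ∈ M, blk s = b → pos s = k → ∃ s ∈ M, blk s = b ∧ pos s = 0 := by
    intro k
    induction k using Nat.strong_induction_on with
    | _ k ih =>
    intro s hs h1 h2
    rcases Nat.eq_zero_or_pos k with rfl | h0
    · exact ⟨s, hs, h1, h2⟩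
    · obtain ⟨s', b1, b2, b3⟩ := H.c1 s hs (by omega)
      have := hd s'
      exact ih (pos s') (by omega) s' b1 (b2.trans h1) rfl
  exact key _ _ a4 a5 rfl

theorem Chain.cuts (H : Chain M d g star Cut blk pos len) (hC0 : Cut 0 = 0) (hC : StrictMono Cut)
    {m : ℕ} (hm : ∀ b, Cut (b + 1) ≤ Cut b + m) {γ0 γ1 : ℕ} (h01 : γ0 ≤ γ1) {X : ℕ}
    (hX : gs M d g γ0 + X * m ≤ gs M d g γ1) :
    X ≤ ((Ico γ0 γ1).filter (fun γ => star γ ∈ M ∧
      pos (star γ) + d (star γ) = len (blk (star γ)))).card := by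
  obtain ⟨b0, h1, h2⟩ : ∃ b0, gs M d g γ0 ≤ Cut b0 ∧ Cut b0 < gs M d g γ0 + m := by
    have h3 := hm 0
    have h4 := hC (show 0 < 0 + 1 by omega)
    rcases Nat.eq_zero_or_pos (gs M d g γ0) with h | h
    · exact ⟨0, by omega, by omega⟩
    · obtain ⟨b, -, -, a1, a2⟩ := exists_step (F := Cut) (t := gs M d g γ0 - 1) (a := 0)
        (b := gs M d g γ0) (by omega) (lt_of_lt_of_le (Nat.sub_lt h one_pos) (hC.id_le (gs M d g γ0)))
        (by omega)
      have := hm b
      exact ⟨b + 1, by omega, by omega⟩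
  have h3 : ∀ t, Cut (b0 + t) ≤ Cut b0 + t * m := fun t => by
    induction t with
    | zero => simp
    | succ t ih => have := hm (b0 + t); rw [← add_assoc, add_mul]; omega
  have h4 : ∀ t, ∃ γ, t < X → γ0 ≤ γ ∧ γ < γ1 ∧ gs M d g γ ≤ Cut (b0 + t) ∧
      Cut (b0 + t) < gs M d g (γ + 1) := fun t => by
    by_cases ht : t < X
    · have a1 := hC.monotone (show b0 ≤ b0 + t by omega)
      have a2 := h3 t
      have a3 : (t + 1) * m ≤ X * m := Nat.mul_le_mul_right _ ht
      obtain ⟨γ, h⟩ := exists_step (F := gs M d g) (t := Cut (b0 + t)) (a := γ0) (b := γ1)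
        (by omega) (by rw [add_mul] at a3; omega) h01
      exact ⟨γ, fun _ => h⟩
    · exact ⟨0, fun h => absurd h ht⟩
  choose γ hγ using h4
  rw [← card_range X]
  refine card_le_card_of_injOn γ (fun t ht => ?_) fun t ht t' ht' h => ?_
  · obtain ⟨a1, a2, a3, a4⟩ := hγ t (by simpa using ht)
    obtain ⟨b1, b2, b3⟩ := H.hst _ _ a3 a4
    simp [a1, a2, b1, b2, b3]
  · obtain ⟨a1, a2, a3, a4⟩ := hγ t (by simpa using ht)
    obtain ⟨a1', a2', a3', a4'⟩ := hγ t' (by simpa using ht')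
    have b1 := (H.hst _ _ a3 a4).2.1
    have b2 := (H.hst _ _ a3' a4').2.1
    rw [h] at b1
    omega

end

end Pool.Agent.Lib.MP_05aa0e_al.Ex
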