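import Pool.Agent.Lib.MP_05aa0e_al.ExAlg3

set_option autoImplicit false

namespace Pool.Agent.Lib.MP_05aa0e_al.Ex

open Finset

namespace Sys

variable (S : Sys)

def allC : Finset Cmp := (range S.n ×ˢ range S.n).disjSum (range S.L ×ˢ range S.N ×ˢ range S.n)

open Classical in
noncomputable def cII : ℕ := (S.allC.filter S.II).card

open Classical in
noncomputable def nla (q : ℕ) : ℕ :=
  ((range S.N ×ˢ range S.n).filter (fun ν => S.Nd q ν ∧ S.la q ν)).card

/-- Counting properties. -/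
structure GoodC (d : ℕ) : Prop where
  hm : ∀ j, 1 ≤ j → j < S.L → S.m j ≤ S.n
  rinj : ∀ κ κ', S.Val κ → S.II κ → 1 ≤ S.lo κ → S.Val κ' → S.II κ' → 1 ≤ S.lo κ' →
    S.res κ = S.res κ' → κ = κ'
  load : ∀ q < S.L, ((range S.n).filter (fun a => q ≤ S.lev a)).card *
      ((range S.n).filter (fun b => S.st b ≤ q)).card + (if 1 ≤ q then S.nla q else 0) +
      (if q + 1 < S.L then ∑ i ∈ range S.N, (S.m (q + 1) - S.dg (q + 1) i) else 0) ≤ d
  hII : ∀ q, 1 ≤ q → q < S.L → S.cII ≤ ((range S.n).filter (fun a => S.z a = 5 * q + 7)).card ^ 2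

variable {S}

theorem mem_allC {d : ℕ} (hC : S.GoodC d) {κ : Cmp} (h : S.Val κ) : κ ∈ S.allC := by
  rcases κ with ⟨a, b⟩ | ⟨j, i, u⟩
  · simpa [allC] using ⟨h.1, h.2.1⟩
  · obtain ⟨h1, h2, h3, h4, h5⟩ := h
    have := hC.hm j h1 h2
    simp only at h2 h3 h5
    simp only [allC, inr_mem_disjSum, mem_product, mem_range]
    omega

theorem lo_le_hi {κ : Cmp} (h : S.Val κ) : S.lo κ ≤ S.hi κ := by
  rcases κ with p | p
  · exact h.2.2
  · exact le_rfl

theorem lo_lt (hL : S.GoodL) (h0 : 0 < S.L) {κ : Cmp} (h : S.Val κ) : S.lo κ < S.L := by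
  rcases κ with p | p
  · have := hL.zle _ h.2.1
    simp only [lo, st]; omega
  · have := h.2.1
    simp only [lo]; omega

open Classical in
theorem card_load (hL : S.GoodL) {d : ℕ} (hC : S.GoodC d) {q : ℕ} (hq : q < S.L) :
    (S.allC.filter (fun κ => S.Val κ ∧ S.lo κ ≤ q ∧ q ≤ S.hi κ)).card ≤ d := by
  refine le_trans ?_ (hC.load q hq)
  let T1 : Finset Cmp := ((range S.n).filter (fun a => q ≤ S.lev a) ×ˢ
    (range S.n).filter (fun b => S.st b ≤ q)).image Sum.inl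
  let T2 : Finset Cmp := if 1 ≤ q then ((range S.N ×ˢ range S.n).filter
    (fun ν => S.Nd q ν ∧ S.la q ν)).image (fun ν => Sum.inl (S.Y q ν.1, ν.2)) else ∅
  let T3 : Finset Cmp := if q + 1 < S.L then ((range S.N).sigma
    (fun i => Ico (S.dg (q + 1) i) (S.m (q + 1)))).image (fun p => Sum.inr (q + 1, p.1, p.2)) else ∅
  have h1 : S.allC.filter (fun κ => S.Val κ ∧ S.lo κ ≤ q ∧ q ≤ S.hi κ) ⊆ T1 ∪ T2 ∪ T3 := by
    intro κ hκ
    obtain ⟨-, h1, h2, h3⟩ := mem_filter.1 hκ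
    rcases κ with ⟨a, b⟩ | ⟨j, i, u⟩
    · obtain ⟨ha, hb, -⟩ := h1
      simp only [lo, hi] at ha hb h2 h3
      by_cases h4 : q ≤ S.lev a
      · refine mem_union_left _ (mem_union_left _ (mem_image_of_mem _ ?_))
        simp [ha, hb, h2, h4]
      · have hy : S.yl a b := by
          by_contra hy
          rw [if_neg hy] at h3
          exact h4 h3
        rw [if_pos hy] at h3
        obtain ⟨a1, a2, a3, a4, a5⟩ := isY_spec hL ha hy.1
        have h5 : S.st a = q := by unfold lev at h4; omega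
        refine mem_union_left _ (mem_union_right _ ?_)
        simp only [T2, if_pos (show 1 ≤ q by omega)]
        refine mem_image.2 ⟨(S.ix a, b), ?_, by rw [← h5]; simp [a5]⟩
        rw [← h5]
        simp [a4, hb, hy.2.1, hy.2.2]
    · obtain ⟨b1, b2, b3, b4, b5⟩ := h1
      simp only [lo, hi] at b1 b2 b3 b4 b5 h2 h3
      obtain rfl : j = q + 1 := by omega
      refine mem_union_right _ ?_
      simp only [T3, if_pos b2]
      exact mem_image.2 ⟨⟨i, u⟩, by simp [b3, b4, b5], rfl⟩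
  refine (card_le_card h1).trans ((card_union_le _ _).trans (add_le_add
    ((card_union_le _ _).trans (add_le_add ?_ ?_)) ?_))
  · exact card_image_le.trans (by rw [card_product])
  · simp only [T2]
    split_ifs
    · exact card_image_le
    · simp
  · simp only [T3]
    split_ifs
    · exact card_image_le.trans (by simp [card_sigma])
    · simp

open Classical in
theorem card_merged (hL : S.GoodL) {d : ℕ} (hC : S.GoodC d) {q : ℕ} (hq : q < S.L) :
    (S.allC.filter (fun κ => S.Act κ ∧ S.lo' κ ≤ q ∧ q ≤ S.hi κ)).card ≤ d := by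
  refine le_trans (card_le_card_of_injOn
    (fun κ => if S.lo κ ≤ q then κ else Sum.inl (S.res κ)) ?_ ?_) (card_load hL hC hq)
  · intro κ hκ
    obtain ⟨h0, h1, h2, h3⟩ := mem_filter.1 (mem_coe.1 hκ)
    refine mem_coe.2 ?_
    by_cases h4 : S.lo κ ≤ q
    · simp only [h4, if_true]
      exact mem_filter.2 ⟨h0, h1.1, h4, h3⟩
    · simp only [h4, if_false]
      have h5 : S.II κ := by
        by_contra h5
        simp [lo', h5, h4] at h2
      obtain ⟨a1, a2, a3, a4, a5⟩ := hL.hres κ h1.1 h5 (by omega)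
      have h6 : ¬ S.yl (S.res κ).1 (S.res κ).2 := fun h => by
        have := h.1; unfold isY at this; unfold isU at a2; omega
      have h7 : S.lo (.inl (S.res κ)) = 0 := by simp only [lo, st]; split_ifs at a5 <;> omega
      have h8 : S.hi (.inl (S.res κ)) = S.lev (S.res κ).1 := by simp [hi, h6]
      have h9 : S.Val (.inl (S.res κ)) := ⟨a1, a4, by omega⟩
      exact mem_filter.2 ⟨mem_allC hC h9, h9, by omega, by omega⟩
  · have hII : ∀ κ, S.lo' κ ≤ q → ¬ S.lo κ ≤ q → S.II κ := fun κ h2 h4 => by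
      by_contra h5
      simp [lo', h5, h4] at h2
    intro κ hκ κ' hκ' h
    obtain ⟨h0, h1, h2, h3⟩ := mem_filter.1 (mem_coe.1 hκ)
    obtain ⟨h0', h1', h2', h3'⟩ := mem_filter.1 (mem_coe.1 hκ')
    simp only at h
    split_ifs at h with h4 h5 h5
    · exact h
    · exact absurd ⟨κ', h1'.1, hII κ' h2' h5, by omega, h⟩ h1.2
    · exact absurd ⟨κ, h1.1, hII κ h2 h4, by omega, h.symm⟩ h1'.2
    · exact hC.rinj κ κ' h1.1 (hII κ h2 h4) (by omega) h1'.1 (hII κ' h2' h5) (by omega)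
        (Sum.inl.inj h)

open Classical in
theorem card_mixed (hL : S.GoodL) {d : ℕ} (hC : S.GoodC d) {q : ℕ} (h1 : 1 ≤ q) (hq : q < S.L) :
    (S.allC.filter (fun κ => S.II κ ∨
      (S.Val κ ∧ ¬ S.Alw κ ∧ S.lo κ ≤ q ∧ q ≤ S.hi κ ∧ ¬ S.II κ))).card ≤ d := by
  refine le_trans ?_ (card_load hL hC hq)
  rw [filter_or]
  refine (card_union_le _ _).trans ((Nat.add_le_add_right (hC.hII q h1 hq) _).trans ?_)
  set T := (range S.n).filter (fun a => S.z a = 5 * q + 7)
  have h2 : T.card ^ 2 = ((T ×ˢ T).image (Sum.inl : ℕ × ℕ → Cmp)).card := by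
    rw [card_image_of_injective _ Sum.inl_injective, card_product, sq]
  have h3 : ∀ p ∈ T ×ˢ T, p.1 < S.n ∧ p.2 < S.n ∧ S.z p.1 = 5 * q + 7 ∧ S.z p.2 = 5 * q + 7 := by
    intro p hp
    simp only [T, mem_product, mem_filter, mem_range] at hp
    tauto
  rw [h2, ← card_union_of_disjoint]
  · refine card_le_card fun κ hκ => ?_
    rcases mem_union.1 hκ with h | h
    · obtain ⟨p, hp, rfl⟩ := mem_image.1 h
      obtain ⟨a1, a2, a3, a4⟩ := h3 p hp
      have h6 : ¬ S.yl p.1 p.2 := fun h => by have := h.1; unfold isY at this; omega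
      have h7 : S.lo (.inl p) = q := by simp only [lo, st]; omega
      have h8 : S.hi (.inl p) = q := by simp only [hi, h6, if_false, lev]; omega
      have h9 : S.Val (.inl p) := ⟨a1, a2, by omega⟩
      exact mem_filter.2 ⟨mem_allC hC h9, h9, by omega, by omega⟩
    · obtain ⟨a0, a1, a2, a3, a4, a5⟩ := mem_filter.1 h
      exact mem_filter.2 ⟨a0, a1, a3, a4⟩
  · rw [disjoint_left]
    intro κ h h'
    obtain ⟨p, hp, rfl⟩ := mem_image.1 h
    obtain ⟨a1, a2, a3, a4⟩ := h3 p hp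
    exact (mem_filter.1 h').2.2.1 ⟨by omega, by omega, by omega⟩

open Classical in
theorem exists_col (hL : S.GoodL) (h0 : 0 < S.L) {d : ℕ} (hC : S.GoodC d) :
    ∃ c : Cmp → ℕ, (∀ κ ∈ S.allC.filter S.Act, c κ < d) ∧
      ∀ κ ∈ S.allC.filter S.Act, ∀ κ' ∈ S.allC.filter S.Act, κ ≠ κ' → c κ = c κ' →
        ¬ S.Conf κ κ' := by
  refine exists_coloring S.Conf (fun p q h => by unfold Conf at h ⊢; tauto)
    (fun κ => if S.II κ then 0 else if S.Alw κ then S.L + 2 else 1 + S.lo κ) d _ ?_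
  intro κ hκ
  obtain ⟨a0, a1⟩ := mem_filter.1 hκ
  have key : ∀ T : Finset Cmp, κ ∈ T → T.card ≤ d →
      ∀ U : Finset Cmp, (∀ q ∈ U, q ≠ κ ∧ q ∈ T) → U.card < d := by
    intro T hT hd U hU
    have : U ⊆ T.erase κ := fun q hq => mem_erase.2 (hU q hq)
    have h1 := card_le_card this
    have h2 := card_erase_lt_of_mem hT
    omega
  have a2 := lo_le_hi a1.1
  have a3 := lo_lt hL h0 a1.1
  by_cases h1 : S.II κ
  · refine key _ (mem_filter.2 ⟨a0, a1, by simp [lo', h1], Nat.zero_le _⟩) (card_merged hL hC h0)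
      _ fun κ' hκ' => ?_
    simp only [mem_filter, h1, if_true] at hκ'
    obtain ⟨⟨b0, b1⟩, b2, -, b4⟩ := hκ'
    have h2 : S.II κ' := by
      by_contra h2
      rw [if_neg h2] at b4
      split_ifs at b4 <;> omega
    exact ⟨b2, mem_filter.2 ⟨b0, b1, by simp [lo', h2], Nat.zero_le _⟩⟩
  have a4 : S.lo' κ = S.lo κ := by simp [lo', h1]
  by_cases h2 : S.Alw κ
  · have a5 : S.hi κ = S.lo κ := by
      rcases κ with p | p
      · obtain ⟨c1, c2, c3⟩ := h2
        have h6 : ¬ S.yl p.1 p.2 := fun h => by have := h.1; unfold isY at this; omega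
        simp only [hi, h6, if_false, lev, lo, st]; omega
      · rfl
    refine key _ (mem_filter.2 ⟨a0, a1, a4.le, a2⟩) (card_merged hL hC a3) _ fun κ' hκ' => ?_
    simp only [mem_filter, Conf, h1, h2, false_and, not_true, and_false, or_false] at hκ'
    obtain ⟨⟨b0, b1⟩, b2, b3, -⟩ := hκ'
    exact ⟨b2, mem_filter.2 ⟨b0, b1, by omega, by omega⟩⟩
  have main : ∀ κ' ∈ (S.allC.filter S.Act).filter (fun κ' => κ' ≠ κ ∧ S.Conf κ κ' ∧
      (if S.II κ' then 0 else if S.Alw κ' then S.L + 2 else 1 + S.lo κ') ≤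
        if S.II κ then 0 else if S.Alw κ then S.L + 2 else 1 + S.lo κ),
      κ' ≠ κ ∧ κ' ∈ S.allC ∧ S.Act κ' ∧
        (S.II κ' ∨ (¬ S.Alw κ' ∧ S.lo κ' ≤ S.lo κ ∧ S.lo κ ≤ S.hi κ' ∧ ¬ S.II κ')) := by
    intro κ' hκ'
    simp only [mem_filter, Conf, h1, h2, false_and, if_false, false_or] at hκ'
    obtain ⟨⟨b0, b1⟩, b2, b3, b4⟩ := hκ'
    refine ⟨b2, b0, b1, ?_⟩
    by_cases h3 : S.II κ'
    · exact Or.inl h3
    · rw [if_neg h3] at b4
      simp only [h3, false_and, or_false] at b3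
      split_ifs at b4 with h4
      · omega
      · exact Or.inr ⟨h4, by omega, by omega, h3⟩
  rcases Nat.eq_zero_or_pos (S.lo κ) with h3 | h3
  · refine key _ (mem_filter.2 ⟨a0, a1, by omega, Nat.zero_le _⟩) (card_merged hL hC h0)
      _ fun κ' hκ' => ?_
    obtain ⟨b0, b1, b2, b3⟩ := main κ' hκ'
    refine ⟨b0, mem_filter.2 ⟨b1, b2, ?_, Nat.zero_le _⟩⟩
    unfold lo'
    split_ifs with h4
    · exact le_rfl
    · have := b3.resolve_left h4
      omega
  · refine key _ (mem_filter.2 ⟨a0, Or.inr ⟨a1.1, h2, le_rfl, a2, h1⟩⟩) (card_mixed hL hC h3 a3)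
      _ fun κ' hκ' => ?_
    obtain ⟨b0, b1, b2, b3⟩ := main κ' hκ'
    exact ⟨b0, mem_filter.2 ⟨b1, b3.imp id fun h => ⟨b2.1, h⟩⟩⟩

theorem map_full {A B : Type*} [Ring A] [Ring B] (f : A →+* B) (x : ℕ → A) (κ : Cmp) :
    f (S.full x κ) = S.full (fun a => f (x a)) κ := by
  have h1 : ∀ j F, f (S.sY x j F) = S.sY (fun a => f (x a)) j F := fun j F => by simp [sY]
  have h2 : ∀ j ν, f (S.tl x j ν) = S.tl (fun a => f (x a)) j ν := fun j ν => by
    unfold tl
    rcases S.pr j ν with _ | μ <;> simp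
  unfold full
  rcases κ with p | p <;> simp only [val, map_add, map_sub, map_mul] <;> split_ifs <;>
    simp [h1, h2]

theorem full_mem {A : Type*} [Ring A] (x : ℕ → A) (V : AddSubgroup A) (h : ∀ a b, x a * x b ∈ V)
    (κ : Cmp) : S.full x κ ∈ V := by
  have h1 : ∀ j F, S.sY x j F ∈ V := fun j F => V.sum_mem fun _ _ => h _ _
  have h2 : ∀ j ν, S.tl x j ν ∈ V := fun j ν => by
    unfold tl
    rcases S.pr j ν with _ | μ
    · exact V.zero_mem
    · exact h _ _
  unfold full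
  refine V.add_mem ?_ (by split_ifs; exacts [h _ _, V.zero_mem])
  rcases κ with p | p
  · refine V.add_mem (h _ _) ?_
    split_ifs
    exacts [V.sub_mem (h1 _ _) (h2 _ _), h1 _ _, V.zero_mem]
  · exact V.sub_mem (h _ _) (h _ _)

theorem nil_of_good (K : Type*) [Field K] (hL : S.GoodL) (hB : ∀ j, 1 ≤ j → j < S.L → S.GoodB j)
    (h0 : 0 < S.L) {d : ℕ} (hC : S.GoodC d) : Nil K S.n d (S.L + 1) := by
  classical
  obtain ⟨c, hc1, hc2⟩ := exists_col hL h0 hC
  let x : ℕ → FreeAlgebra K (Fin S.n) := fun a =>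
    if h : a < S.n then FreeAlgebra.ι K (⟨a, h⟩ : Fin S.n) else 0
  let V : AddSubgroup (FreeAlgebra K (Fin S.n)) :=
    { carrier := {s | ∃ r : Fin S.n → Fin S.n → K,
        s = ∑ i, ∑ j, r i j • (FreeAlgebra.ι K i * FreeAlgebra.ι K j)}
      zero_mem' := ⟨0, by simp⟩
      add_mem' := by
        rintro _ _ ⟨r, rfl⟩ ⟨r', rfl⟩
        exact ⟨r + r', by simp [add_smul, sum_add_distrib]⟩
      neg_mem' := by
        rintro _ ⟨r, rfl⟩
        exact ⟨-r, by simp⟩ }
  have hV : ∀ a b, x a * x b ∈ V := by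
    intro a b
    by_cases ha : a < S.n
    · by_cases hb : b < S.n
      · refine ⟨fun i j => if (⟨a, ha⟩ : Fin S.n) = i ∧ (⟨b, hb⟩ : Fin S.n) = j then 1 else 0, ?_⟩
        simp [x, ha, hb, ite_and, ite_smul]
      · simp [x, hb]
    · simp [x, ha]
  have hr : ∀ l : Fin d, ∃ r : Fin S.n → Fin S.n → K,
      ∑ κ ∈ (S.allC.filter S.Act).filter (fun κ => c κ = l), S.full x κ =
        ∑ i, ∑ j, r i j • (FreeAlgebra.ι K i * FreeAlgebra.ι K j) :=
    fun l => V.sum_mem fun κ _ => full_mem x V hV κ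
  choose r hr using hr
  refine ⟨r, fun w => ?_⟩
  set π := RingQuot.mkAlgHom K (fun a b : FreeAlgebra K (Fin S.n) =>
        (∃ l, a = ∑ i, ∑ j, r l i j • (FreeAlgebra.ι K i * FreeAlgebra.ι K j)) ∧ b = 0) with hπ
  have hR : S.Rel (fun a => π (x a)) := by
    intro κ hκ
    have h1 : κ ∈ S.allC.filter S.Act := mem_filter.2 ⟨mem_allC hC hκ.1, hκ⟩
    refine ⟨((S.allC.filter S.Act).filter (fun κ' => c κ' = c κ)).erase κ, fun κ' h => ?_, ?_⟩
    · obtain ⟨h2, h3⟩ := mem_erase.1 h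
      obtain ⟨h4, h5⟩ := mem_filter.1 h3
      exact ⟨(mem_filter.1 h4).2, hc2 κ h1 κ' h4 h2.symm h5.symm⟩
    · rw [add_sum_erase _ _ (mem_filter (p := fun κ' => c κ' = c κ).2 ⟨h1, rfl⟩)]
      have h2 : π (∑ i, ∑ j, r ⟨c κ, hc1 κ h1⟩ i j • (FreeAlgebra.ι K i * FreeAlgebra.ι K j)) =
          π 0 := RingQuot.mkAlgHom_rel K ⟨⟨_, rfl⟩, rfl⟩
      rw [← hr, map_zero, map_sum] at h2
      rw [← h2]
      exact sum_congr rfl fun κ' _ => (map_full π.toRingHom x κ').symm
  have := nilp hL hB hR h0 (List.ofFn (fun t => (w t).val))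
    (by simp only [List.mem_ofFn]; rintro _ ⟨t, rfl⟩; exact (w t).2) (by simp)
  rw [map_list_prod, List.map_ofFn]
  rw [List.map_ofFn] at this
  simpa [Function.comp_def, x] using this

end Sys

end Pool.Agent.Lib.MP_05aa0e_al.Ex
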