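import Pool.Agent.Lib.MP_05aa0e_al.Main

set_option autoImplicit false

namespace Pool.Agent.Lib.MP_05aa0e_al.Ex

open Finset

/-- Components of relations: monomials with tails, and chain relations. -/
abbrev Cmp : Type := (ℕ × ℕ) ⊕ (ℕ × ℕ × ℕ)

/-- Combinatorial data of the construction. -/
structure Sys where
  n : ℕ
  L : ℕ
  N : ℕ
  J : ℕ
  lp : ℕ
  z : ℕ → ℕ
  m : ℕ → ℕ
  Q : ℕ → ℕ
  h : ℕ → ℕ → ℕ
  X : ℕ → ℕ → ℕ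
  Y : ℕ → ℕ → ℕ
  ix : ℕ → ℕ
  dg : ℕ → ℕ → ℕ
  bid : ℕ → ℕ × ℕ → ℕ × ℕ × ℕ
  pos : ℕ → ℕ × ℕ → ℕ
  len : ℕ → ℕ × ℕ × ℕ → ℕ
  tp : ℕ → ℕ × ℕ × ℕ → Option (ℕ × ℕ)
  df : ℕ → ℕ × ℕ × ℕ → Prop
  fx : ℕ → ℕ × ℕ → Finset (ℕ × ℕ)
  fy : ℕ → ℕ × ℕ → Finset (ℕ × ℕ)
  res : Cmp → ℕ × ℕ

namespace Sys

variable (S : Sys)

def lev (a : ℕ) : ℕ := (S.z a - 4) / 5
def st (a : ℕ) : ℕ := (S.z a - 3) / 5
def isX (a : ℕ) : Prop := 9 ≤ S.z a ∧ S.z a % 5 = 4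
def isY (a : ℕ) : Prop := 8 ≤ S.z a ∧ S.z a % 5 = 3
def isU (a : ℕ) : Prop := S.z a = 6 ∨ (12 ≤ S.z a ∧ S.z a % 5 = 2)
def Ord (a : ℕ) : Prop := S.z a ≤ 6 ∨ (12 ≤ S.z a ∧ S.z a % 5 = 2)
def Nd (j : ℕ) (ν : ℕ × ℕ) : Prop := ν.1 < S.N ∧ ν.2 < S.n ∧ S.z ν.2 ≤ 5 * j + 7
def la (j : ℕ) (ν : ℕ × ℕ) : Prop := S.pos j ν + S.dg j ν.1 = S.len j (S.bid j ν)
def yl (a b : ℕ) : Prop := S.isY a ∧ S.Nd (S.st a) (S.ix a, b) ∧ S.la (S.st a) (S.ix a, b)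

open Classical in
noncomputable def pr (j : ℕ) (ν : ℕ × ℕ) : Option (ℕ × ℕ) :=
  if hp : ∃ μ, S.Nd j μ ∧ S.bid j μ = S.bid j ν ∧ S.pos j μ + S.dg j μ.1 = S.pos j ν then
    some (Classical.choose hp)
  else (S.tp j (S.bid j ν)).map (fun p => (p.1, S.Y (j + 1) p.2))

def lo : Cmp → ℕ
  | .inl p => S.st p.2
  | .inr p => p.1 - 1

open Classical in
noncomputable def hi : Cmp → ℕ
  | .inl p => if S.yl p.1 p.2 then S.st p.1 else S.lev p.1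
  | .inr p => p.1 - 1

def Val : Cmp → Prop
  | .inl p => p.1 < S.n ∧ p.2 < S.n ∧ S.lo (.inl p) ≤ S.hi (.inl p)
  | .inr p => 1 ≤ p.1 ∧ p.1 < S.L ∧ p.2.1 < S.N ∧ S.dg p.1 p.2.1 ≤ p.2.2 ∧ p.2.2 < S.m p.1

def II : Cmp → Prop
  | .inl p => S.isX p.1 ∨ S.isY p.1 ∨ ¬ S.Ord p.2
  | .inr _ => True

def Alw : Cmp → Prop
  | .inl p => S.z p.1 = S.z p.2 ∧ 12 ≤ S.z p.2 ∧ S.z p.2 % 5 = 2
  | .inr _ => False

def Rsv (κ : Cmp) : Prop := ∃ κ', S.Val κ' ∧ S.II κ' ∧ 1 ≤ S.lo κ' ∧ κ = .inl (S.res κ')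

def Act (κ : Cmp) : Prop := S.Val κ ∧ ¬ S.Rsv κ

open Classical in
noncomputable def lo' (κ : Cmp) : ℕ := if S.II κ then 0 else S.lo κ

def Conf (κ κ' : Cmp) : Prop :=
  (S.lo' κ ≤ S.hi κ' ∧ S.lo' κ' ≤ S.hi κ) ∨ (S.II κ ∧ ¬ S.Alw κ') ∨ (S.II κ' ∧ ¬ S.Alw κ)

/-- The word `p` followed by `c` is not a surviving class. -/
def NS (j c : ℕ) (p : ℕ × ℕ) : Prop :=
  S.pos j (p.2, c) + S.dg j p.2 ≤ p.1 ∨
    p.1 + S.len j (S.bid j (p.2, c)) < S.m j + S.pos j (p.2, c) + S.dg j p.2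

section values
variable {A : Type*} [Ring A] (x : ℕ → A)

def sY (j : ℕ) (F : Finset (ℕ × ℕ)) : A := ∑ p ∈ F, x (S.h j p.1) * x (S.Y j p.2)

noncomputable def tl (j : ℕ) (ν : ℕ × ℕ) : A :=
  (S.pr j ν).elim 0 (fun μ => x (S.Y j μ.1) * x μ.2)

open Classical in
noncomputable def val : Cmp → A
  | .inl p => x p.1 * x p.2 +
      if S.isX p.1 then
        S.sY x (S.lev p.1 + 1) (S.fx (S.lev p.1) (S.ix p.1, p.2)) - S.tl x (S.lev p.1) (S.ix p.1, p.2)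
      else if S.yl p.1 p.2 then S.sY x (S.st p.1 + 1) (S.fy (S.st p.1) (S.ix p.1, p.2)) else 0
  | .inr p => x (S.h p.1 p.2.2) * x (S.Y p.1 p.2.1) -
      x (S.h p.1 (p.2.2 - S.dg p.1 p.2.1)) * x (S.X p.1 p.2.1)

open Classical in
noncomputable def full (κ : Cmp) : A :=
  S.val x κ + if S.II κ ∧ 1 ≤ S.lo κ then x (S.res κ).1 * x (S.res κ).2 else 0

/-- The relations hold. -/
def Rel : Prop := ∀ κ, S.Act κ → ∃ s : Finset Cmp,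
  (∀ κ' ∈ s, S.Act κ' ∧ ¬ S.Conf κ κ') ∧ S.full x κ + ∑ κ' ∈ s, S.full x κ' = 0

end values

/-- Properties of letters. -/
structure GoodL : Prop where
  zle : ∀ a < S.n, S.z a ≤ 5 * S.L + 2
  hh : ∀ j u, 1 ≤ j → j < S.L → u < S.m j → S.h j u < S.n ∧ (j = 1 ∨ 5 * j ≤ S.z (S.h j u) + 1)
  hh' : ∀ j a, 1 ≤ j → j < S.L → a < S.n → (j = 1 ∨ 5 * j ≤ S.z a + 1) →
    ∃ u < S.m j, S.h j u = a
  hX : ∀ j i, 1 ≤ j → j < S.L → i < S.N →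
    S.X j i < S.n ∧ S.z (S.X j i) = 5 * j + 4 ∧ S.ix (S.X j i) = i
  hY : ∀ j i, 1 ≤ j → j < S.L → i < S.N →
    S.Y j i < S.n ∧ S.z (S.Y j i) = 5 * j + 3 ∧ S.ix (S.Y j i) = i
  hX' : ∀ j a, 1 ≤ j → a < S.n → S.z a = 5 * j + 4 → S.ix a < S.N ∧ S.X j (S.ix a) = a
  hY' : ∀ j a, 1 ≤ j → a < S.n → S.z a = 5 * j + 3 → S.ix a < S.N ∧ S.Y j (S.ix a) = a
  lpN : S.lp < S.N
  hres : ∀ κ, S.Val κ → S.II κ → 1 ≤ S.lo κ → (S.res κ).1 < S.n ∧ S.isU (S.res κ).1 ∧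
    S.lev (S.res κ).1 + 1 = S.lo κ ∧ (S.res κ).2 < S.n ∧
      S.z (S.res κ).2 = if κ.isRight then 1 else 4

/-- Properties of the blocks of level `j`. -/
structure GoodB (j : ℕ) : Prop where
  dg1 : ∀ i, 1 ≤ S.dg j i
  hQ : S.J * S.Q j < S.m j
  hQ' : S.m j ≤ S.J * S.Q j + S.Q j
  c0 : ∀ ν, S.Nd j ν → S.pos j ν + S.dg j ν.1 ≤ S.len j (S.bid j ν)
  c1 : ∀ ν, S.Nd j ν → 0 < S.pos j ν →
    ∃ μ, S.Nd j μ ∧ S.bid j μ = S.bid j ν ∧ S.pos j μ + S.dg j μ.1 = S.pos j ν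
  c2 : ∀ ν, S.Nd j ν → S.pos j ν + S.dg j ν.1 < S.len j (S.bid j ν) →
    ∃ μ, S.Nd j μ ∧ S.bid j μ = S.bid j ν ∧ S.pos j μ = S.pos j ν + S.dg j ν.1
  c3 : ∀ μ μ', S.Nd j μ → S.Nd j μ' → S.bid j μ = S.bid j μ' →
    S.pos j μ + S.dg j μ.1 = S.pos j μ' + S.dg j μ'.1 → μ = μ'
  loc : ∀ ν μ, S.Nd j ν → S.Nd j μ → S.bid j μ = S.bid j ν → S.z μ.2 ≤ S.z ν.2 + 1
  mono : ∀ ν μ, S.Nd j ν → S.Nd j μ → S.bid j μ = S.bid j ν → S.pos j μ < S.pos j ν →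
    S.z ν.2 ≤ S.z μ.2
  lenle : ∀ ν, S.Nd j ν → ¬ S.df j (S.bid j ν) → S.len j (S.bid j ν) ≤ S.m j
  tpv : ∀ B p, S.tp j B = some p → j + 1 < S.L ∧ p.1 < S.N ∧ p.2 < S.N
  fxv : ∀ ν, ∀ p ∈ S.fx j ν, j + 1 < S.L ∧ p.1 < S.m (j + 1) ∧ p.2 < S.N
  fyv : ∀ ν, ∀ p ∈ S.fy j ν, j + 1 < S.L ∧ p.1 < S.m (j + 1) ∧ p.2 < S.N
  sB : ∀ ν, S.Nd j ν → (S.z ν.2 = 1 ∨ S.z ν.2 = 2) → S.tp j (S.bid j ν) = none ∧
    ¬ S.df j (S.bid j ν) ∧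
      ∀ μ, S.Nd j μ → S.bid j μ = S.bid j ν → S.fx j μ = ∅ ∧ S.fy j μ = ∅
  sD : ∀ i i', j + 1 < S.L → i < S.N → i' < S.N → ∃ ν, S.Nd j ν ∧ S.pos j ν = 0 ∧
    S.tp j (S.bid j ν) = some (i, i') ∧ S.len j (S.bid j ν) + S.dg j i ≤ S.m j ∧
      ∀ μ, S.Nd j μ → S.bid j μ = S.bid j ν →
        S.z μ.2 = 0 ∧ (i' = S.lp → S.fx j μ = ∅ ∧ S.fy j μ = ∅)
  dfb : ∀ ν, S.Nd j ν → S.df j (S.bid j ν) → 2 ≤ j ∧ S.len j (S.bid j ν) = S.m j + S.Q j ∧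
    ∀ μ, S.Nd j μ → S.bid j μ = S.bid j ν → S.dg j μ.1 = 1 ∧ S.z μ.2 = S.z ν.2
  anc : ∀ ν, S.Nd j ν → S.df j (S.bid j ν) → ∀ σ ≤ S.J, ∀ i < S.Q j, ∃ μ γ : ℕ × ℕ,
    S.Nd j μ ∧ S.bid j μ = S.bid j ν ∧ S.pos j μ = σ * S.Q j + i ∧ S.Nd (j - 1) γ ∧
    S.len (j - 1) (S.bid (j - 1) γ) + S.Q (j - 1) = S.m (j - 1) ∧
    (∀ p, S.tp (j - 1) (S.bid (j - 1) γ) = some p → S.la j (p.2, μ.2)) ∧
    (σ < S.J → S.pos (j - 1) γ = σ * S.Q (j - 1) ∧ (σ * S.Q j, μ.1) ∈ S.fx (j - 1) γ) ∧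
    (σ = S.J → S.la (j - 1) γ ∧ γ.1 = S.lp ∧ (σ * S.Q j, μ.1) ∈ S.fy (j - 1) γ) ∧
    ∀ γ', S.Nd (j - 1) γ' → S.bid (j - 1) γ' = S.bid (j - 1) γ → S.z γ'.2 = 0 ∧
      (∀ p ∈ S.fx (j - 1) γ', (σ < S.J ∧ γ' = γ ∧ p = (σ * S.Q j, μ.1)) ∨ S.NS j μ.2 p) ∧
      (∀ p ∈ S.fy (j - 1) γ', (σ = S.J ∧ γ' = γ ∧ p = (σ * S.Q j, μ.1)) ∨ S.NS j μ.2 p)

end Sys

section sub
variable {A : Type*} [Ring A] (x : ℕ → A) (n : ℕ)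

/-- Span of the words of length `q`. -/
def RR (q : ℕ) : Submodule ℤ A := (Submodule.span ℤ (x '' {a | a < n})) ^ q

/-- Span of the words of length `q + 1` whose last letter is in `P`. -/
def TT (q : ℕ) (P : ℕ → Prop) : Submodule ℤ A :=
  Submodule.span ℤ {s | ∃ r ∈ RR x n q, ∃ a, a < n ∧ P a ∧ s = r * x a}

variable {x n}

theorem RR_mul {q : ℕ} {r : A} (hr : r ∈ RR x n q) {a : ℕ} (ha : a < n) :
    r * x a ∈ RR x n (q + 1) := by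
  unfold RR at hr ⊢
  rw [pow_succ]
  exact Submodule.mul_mem_mul hr (Submodule.subset_span ⟨a, ha, rfl⟩)

theorem TT_mem {q : ℕ} {P : ℕ → Prop} {r : A} (hr : r ∈ RR x n q) {a : ℕ} (ha : a < n)
    (hP : P a) : r * x a ∈ TT x n q P :=
  Submodule.subset_span ⟨r, hr, a, ha, hP, rfl⟩

theorem TT_mul {q : ℕ} {P : ℕ → Prop} {U : Submodule ℤ A} {e : A}
    (h : ∀ r ∈ RR x n q, ∀ a, a < n → P a → r * x a * e ∈ U) :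
    ∀ s ∈ TT x n q P, s * e ∈ U := by
  intro s hs
  induction hs using Submodule.span_induction with
  | mem s hs => obtain ⟨r, hr, a, ha, hP, rfl⟩ := hs; exact h r hr a ha hP
  | zero => simp
  | add a b _ _ ha hb => rw [add_mul]; exact U.add_mem ha hb
  | smul c a _ ha => rw [smul_mul_assoc]; exact U.smul_mem c ha

theorem TT_le {q : ℕ} {P : ℕ → Prop} {U : Submodule ℤ A}
    (h : ∀ r ∈ RR x n q, ∀ a, a < n → P a → r * x a ∈ U) : TT x n q P ≤ U := fun s hs => by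
  simpa using TT_mul (e := 1) (U := U) (by simpa using h) s hs

theorem TT_mono {q : ℕ} {P P' : ℕ → Prop} (h : ∀ a, a < n → P a → P' a) :
    TT x n q P ≤ TT x n q P' :=
  TT_le fun _ hr a ha hP => TT_mem hr ha (h a ha hP)

theorem TT_le_RR {q : ℕ} {P : ℕ → Prop} : TT x n q P ≤ RR x n (q + 1) :=
  TT_le fun _ hr _ ha _ => RR_mul hr ha

theorem RR_le_TT {q : ℕ} : RR x n (q + 1) ≤ TT x n q (fun _ => True) := by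
  unfold RR
  rw [pow_succ]
  refine Submodule.mul_le.2 fun r hr s hs => ?_
  induction hs using Submodule.span_induction with
  | mem s hs => obtain ⟨a, ha, rfl⟩ := hs; exact TT_mem hr ha trivial
  | zero => simp
  | add a b _ _ ha hb => rw [mul_add]; exact Submodule.add_mem _ ha hb
  | smul c a _ ha => rw [mul_smul_comm]; exact Submodule.smul_mem _ c ha

theorem prod_mem_RR (w : List ℕ) (hw : ∀ a ∈ w, a < n) : (w.map x).prod ∈ RR x n w.length := by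
  induction w using List.reverseRecOn with
  | nil => simp [RR, Submodule.one_le.1 le_rfl]
  | append_singleton w a ih =>
    rw [List.map_append, List.prod_append, List.length_append]
    simpa using RR_mul (ih fun b hb => hw b (by simp [hb])) (hw a (by simp))

end sub

end Pool.Agent.Lib.MP_05aa0e_al.Ex
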