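import Pool.Agent.Lib.MP_05aa0e_al.ExFinal
import Pool.Agent.Lib.MP_0447a2_lc.Weyl

set_option autoImplicit false

namespace Pool.Agent.Lib.MP_05aa0e_al.Ex

open Finset Filter Topology Pool.Agent.Lib.MP_0447a2_lc

theorem exists_indep {K V : Type*} [Field K] [AddCommGroup V] [Module K V] (d : ℕ) :
    ∀ r : Fin d → V, d ≤ Module.finrank K V → ∃ r' : Fin d → V, LinearIndependent K r' ∧
      ∀ l, r l ∈ Submodule.span K (Set.range r') := by
  induction d with
  | zero => exact fun r _ => ⟨r, linearIndependent_empty_type, fun l => l.elim0⟩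
  | succ d ih =>
    intro r h
    obtain ⟨r', h1, h2⟩ := ih (Fin.tail r) (by omega)
    have h3 : ∀ x, Submodule.span K (Set.range r') ≤
        Submodule.span K (Set.range (Fin.cons x r' : Fin (d + 1) → V)) := fun x =>
      Submodule.span_mono (by rw [Fin.range_cons]; exact Set.subset_insert _ _)
    by_cases h4 : r 0 ∈ Submodule.span K (Set.range r')
    · obtain ⟨x, hx⟩ := exists_linearIndependent_cons_of_lt_finrank h1 (Nat.lt_of_succ_le h)
      exact ⟨_, hx, Fin.cases (h3 x h4) fun l => h3 x (h2 l)⟩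
    · exact ⟨Fin.cons (r 0) r', h1.finCons h4,
        Fin.cases (Submodule.subset_span ⟨0, rfl⟩) fun l => h3 _ (h2 l)⟩

theorem nil_indep {K : Type*} [Field K] {n d k : ℕ} (h : Nil K n d k) (hd : d ≤ n ^ 2) :
    ∃ r : Fin d → Fin n → Fin n → K, LinearIndependent K r ∧ ∀ w : Fin k → Fin n,
      RingQuot.mkAlgHom K (fun a b : FreeAlgebra K (Fin n) =>
        (∃ l, a = ∑ i, ∑ j, r l i j • (FreeAlgebra.ι K i * FreeAlgebra.ι K j)) ∧ b = 0)
      (List.ofFn (fun t => FreeAlgebra.ι K (w t))).prod = 0 := by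
  obtain ⟨r, hr⟩ := h
  obtain ⟨r', h1, h2⟩ := exists_indep (K := K) d r (by simpa [Module.finrank_pi_fintype, sq] using hd)
  refine ⟨r', h1, fun w => ?_⟩
  set π := RingQuot.mkAlgHom K (fun a b : FreeAlgebra K (Fin n) =>
    (∃ l, a = ∑ i, ∑ j, r' l i j • (FreeAlgebra.ι K i * FreeAlgebra.ι K j)) ∧ b = 0) with hπ
  have h3 : ∀ s ∈ Submodule.span K (Set.range r'),
      π (∑ i, ∑ j, s i j • (FreeAlgebra.ι K i * FreeAlgebra.ι K j)) = 0 := by
    intro s hs
    induction hs using Submodule.span_induction with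
    | mem s hs =>
      obtain ⟨l, rfl⟩ := hs
      exact (RingQuot.mkAlgHom_rel K ⟨⟨l, rfl⟩, rfl⟩).trans (map_zero _)
    | zero => simp
    | add a b _ _ ha hb => simp only [Pi.add_apply, add_smul, sum_add_distrib, map_add, ha, hb,
        add_zero]
    | smul c a _ ha => simp only [Pi.smul_apply, smul_eq_mul, mul_smul, ← smul_sum, map_smul, ha,
        smul_zero]
  rw [← RingQuot.liftAlgHom_mkAlgHom_apply K π (s := fun a b : FreeAlgebra K (Fin n) =>
    (∃ l, a = ∑ i, ∑ j, r l i j • (FreeAlgebra.ι K i * FreeAlgebra.ι K j)) ∧ b = 0) (by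
      rintro _ _ ⟨⟨l, rfl⟩, rfl⟩
      rw [h3 _ (h2 l), map_zero]), hr w, map_zero]

theorem ee_add (s t : ℝ) : ee (s + t) = ee s * ee t := by
  unfold ee
  rw [← Complex.exp_add]
  push_cast
  ring_nf

theorem ee_geom {γ : ℝ} (hγ : Irrational γ) (c : ℝ) (N : ℕ) :
    ‖∑ n ∈ range N, ee (γ * n + c)‖ ≤ 2 / ‖ee γ - 1‖ := by
  have h1 : ee γ ≠ 1 := by
    unfold ee
    rw [Ne, Complex.exp_eq_one_iff]
    rintro ⟨m, hm⟩
    have h2 : (2 * Real.pi * Complex.I : ℂ) ≠ 0 := by simp [Real.pi_ne_zero]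
    have h3 : (γ : ℂ) = m := mul_left_cancel₀ h2 (hm.trans (mul_comm _ _))
    exact hγ.ne_int m (by exact_mod_cast h3)
  have h2 : ∀ n : ℕ, ee (γ * n + c) = ee γ ^ n * ee c := fun n => by
    rw [ee_add]
    unfold ee
    rw [← Complex.exp_nat_mul]
    push_cast
    ring_nf
  simp only [h2, ← sum_mul, geom_sum_eq h1, norm_mul, norm_ee, mul_one, norm_div]
  gcongr
  refine (norm_sub_le _ _).trans ?_
  rw [norm_pow, norm_ee]
  norm_num

theorem vdc (a : ℕ → ℂ) (ha : ∀ n, ‖a n‖ = 1) (M : ℕ → ℕ → ℝ)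
    (hM : ∀ j j', j ≠ j' → ∀ N, ‖∑ n ∈ range N, a (n + j) * (starRingEnd ℂ) (a (n + j'))‖ ≤ M j j') :
    Tendsto (fun N : ℕ => (∑ n ∈ range N, a n) / N) atTop (𝓝 0) := by
  rw [Metric.tendsto_atTop]
  intro ε hε
  obtain ⟨H, hH, hH0⟩ : ∃ H : ℕ, 8 ≤ ε ^ 2 * H ∧ 1 ≤ H :=
    (((tendsto_natCast_atTop_atTop.const_mul_atTop (pow_pos hε 2)).eventually_ge_atTop _).and
      (eventually_ge_atTop 1)).exists
  have hH' : (1 : ℝ) ≤ H := by exact_mod_cast hH0
  obtain ⟨N0, hN0⟩ := eventually_atTop.1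
    ((tendsto_natCast_atTop_atTop.eventually_ge_atTop
      (∑ j ∈ range H, ∑ j' ∈ range H, |M j j'|)).and
    ((tendsto_natCast_atTop_atTop.const_mul_atTop hε).eventually_gt_atTop (4 * (H : ℝ))))
  refine ⟨N0, fun N hN => ?_⟩
  obtain ⟨n1, n2⟩ := hN0 N hN
  have n0 : (0 : ℝ) < N := by
    by_contra h
    nlinarith [Nat.cast_nonneg (α := ℝ) N]
  have h1 : ∀ j, ‖∑ n ∈ range N, a n - ∑ n ∈ range N, a (n + j)‖ ≤ 2 * j := fun j => by
    have e1 := sum_range_add a N j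
    have e2 := sum_range_add a j N
    rw [add_comm j N, e1] at e2
    have e3 : ∑ n ∈ range N, a n - ∑ n ∈ range N, a (n + j) =
        ∑ n ∈ range j, a n - ∑ n ∈ range j, a (N + n) := by
      simp only [add_comm j] at e2
      linear_combination e2
    rw [e3]
    refine (norm_sub_le _ _).trans ((add_le_add (norm_sum_le _ _) (norm_sum_le _ _)).trans ?_)
    simp [ha, two_mul]
  let b : ℕ → ℂ := fun n => ∑ j ∈ range H, a (n + j)
  have h2 : ‖H * ∑ n ∈ range N, a n - ∑ n ∈ range N, b n‖ ≤ H * (2 * H) := by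
    have e1 : H * ∑ n ∈ range N, a n - ∑ n ∈ range N, b n =
        ∑ j ∈ range H, (∑ n ∈ range N, a n - ∑ n ∈ range N, a (n + j)) := by
      rw [sum_sub_distrib, sum_comm]; simp
    rw [e1]
    refine (norm_sum_le _ _).trans ((sum_le_sum (g := fun _ => 2 * (H : ℝ)) fun j hj =>
      (h1 j).trans ?_).trans (by simp))
    have : (j : ℝ) ≤ H := by exact_mod_cast (mem_range.1 hj).le
    linarith
  have h3 : ∑ n ∈ range N, ‖b n‖ ^ 2 ≤ H * N + N := by
    have e1 : ((∑ n ∈ range N, ‖b n‖ ^ 2 : ℝ) : ℂ) = ∑ j ∈ range H, ∑ j' ∈ range H,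
        ∑ n ∈ range N, a (n + j) * (starRingEnd ℂ) (a (n + j')) := by
      push_cast
      simp only [← Complex.mul_conj', b, map_sum, sum_mul_sum]
      rw [sum_comm]
      exact sum_congr rfl fun j _ => sum_comm
    have e2 := congrArg norm e1
    rw [Complex.norm_real, Real.norm_of_nonneg (by positivity)] at e2
    rw [e2]
    refine (norm_sum_le _ _).trans ((sum_le_sum (g := fun j => N + ∑ j' ∈ range H, |M j j'|)
      fun j hj => (norm_sum_le _ _).trans ?_).trans ?_)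
    · refine (sum_le_sum (g := fun j' => (if j = j' then (N : ℝ) else 0) + |M j j'|)
        fun j' _ => ?_).trans (by simp [sum_add_distrib, hj])
      split_ifs with h
      · refine le_add_of_le_of_nonneg ((norm_sum_le _ _).trans ?_) (abs_nonneg _)
        simp [ha]
      · rw [zero_add]; exact (hM j j' h N).trans (le_abs_self _)
    · rw [sum_add_distrib]
      simpa using n1
  have h4 : ‖∑ n ∈ range N, b n‖ ≤ ε / 2 * H * N := by
    refine (norm_sum_le _ _).trans (le_of_sq_le_sq ?_ (by positivity))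
    refine sq_sum_le_card_mul_sum_sq.trans ?_
    rw [card_range]
    have e1 := mul_le_mul_of_nonneg_left h3 n0.le
    have e2 := mul_le_mul_of_nonneg_right hH (show (0 : ℝ) ≤ H * N ^ 2 by positivity)
    have e3 := mul_le_mul_of_nonneg_right hH' (sq_nonneg (N : ℝ))
    linarith
  have h5 := (norm_le_norm_add_norm_sub' (H * ∑ n ∈ range N, a n) (∑ n ∈ range N, b n)).trans
    (add_le_add h4 h2)
  rw [norm_mul, Complex.norm_natCast] at h5
  rw [dist_zero_right, norm_div, Complex.norm_natCast, div_lt_iff₀ n0]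
  refine lt_of_mul_lt_mul_left (h5.trans_lt ?_) (show (0 : ℝ) ≤ H by positivity)
  nlinarith

theorem UD_sq {α : ℝ} (hα : Irrational α) : UD (fun n => (n : ℝ) ^ 2 * α) := by
  refine UD_of_weyl _ fun h hh => vdc _ (fun n => norm_ee _)
    (fun j j' => 2 / ‖ee ((2 * h * ((j : ℤ) - j') : ℤ) * α) - 1‖) fun j j' hj N => ?_
  refine le_trans (le_of_eq ?_) (ee_geom (hα.intCast_mul (mul_ne_zero (by omega) (by omega)))
    (h * ((j : ℝ) ^ 2 - j' ^ 2) * α) N)
  congr 1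
  refine sum_congr rfl fun n _ => ?_
  rw [conj_ee, ← ee_add]
  congr 1
  push_cast
  ring

theorem irr_phi {k : ℕ} (hk : k = 4 ∨ 6 ≤ k) :
    Irrational (1 / (4 * Real.cos (Real.pi / ((k : ℝ) + 1)) ^ 2)) := by
  have h1 : 3 < ((2 : ℚ) / (k + 1 : ℕ)).den := by
    have a1 := Rat.mul_den_eq_num ((2 : ℚ) / (k + 1 : ℕ))
    rw [div_mul_eq_mul_div, div_eq_iff (by positivity)] at a1
    have a2 : (2 : ℤ) * ((2 : ℚ) / (k + 1 : ℕ)).den = ((2 : ℚ) / (k + 1 : ℕ)).num * (k + 1 : ℕ) := by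
      exact_mod_cast a1
    have a3 := ((2 : ℚ) / (k + 1 : ℕ)).den_pos
    have a4 : 0 < ((2 : ℚ) / (k + 1 : ℕ)).num := Rat.num_pos.2 (by positivity)
    generalize ((2 : ℚ) / (k + 1 : ℕ)).num = p at a2 a4
    rcases hk with rfl | hk
    · omega
    · push_cast at a2
      nlinarith
  have h2 := irrational_cos_rat_mul_pi h1
  rw [one_div, Real.cos_sq, irrational_inv_iff]
  have h3 : 4 * (1 / 2 + Real.cos (2 * (Real.pi / ((k : ℝ) + 1))) / 2) =
      (2 : ℕ) + (2 : ℕ) * Real.cos (((2 : ℚ) / (k + 1 : ℕ) : ℚ) * Real.pi) := by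
    push_cast
    rw [show 2 * (Real.pi / ((k : ℝ) + 1)) = 2 / (k + 1) * Real.pi by ring]
    ring
  rw [h3]
  exact (h2.natCast_mul two_ne_zero).natCast_add 2

theorem density_one {α C : ℝ} (hα : Irrational α) (P : ℕ → Prop)
    (hP : ∀ n : ℕ, 1 ≤ n → (n : ℝ) ^ 2 * α + C * (n : ℝ) ^ (-(1 / 6 : ℝ)) ≤ ⌈(n : ℝ) ^ 2 * α⌉ → P n) :
    Tendsto (fun N : ℕ => (({n | n < N ∧ P n}.ncard : ℕ) : ℝ) / N) atTop (𝓝 1) := by
  rw [Metric.tendsto_atTop]
  intro ε hε
  obtain ⟨η, h1, h2, h3⟩ : ∃ η : ℝ, 0 < η ∧ η ≤ 1 ∧ η ≤ ε / 3 :=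
    ⟨min 1 (ε / 3), by positivity, min_le_left _ _, min_le_right _ _⟩
  have t1 : Tendsto (fun n : ℕ => C * (n : ℝ) ^ (-(1 / 6 : ℝ))) atTop (𝓝 (C * 0)) :=
    ((tendsto_rpow_neg_atTop (by norm_num)).comp tendsto_natCast_atTop_atTop).const_mul C
  obtain ⟨n0, hn0⟩ := eventually_atTop.1 ((t1.eventually (gt_mem_nhds (show C * 0 < η by simpa))).and
    (eventually_ge_atTop 1))
  obtain ⟨N0, hN0⟩ := eventually_atTop.1
    (((UD_sq hα 0 (1 - η) le_rfl (by linarith) (by linarith)).eventually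
      (lt_mem_nhds (show 1 - 2 * ε / 3 < 1 - η - 0 by linarith))).and
    ((tendsto_natCast_atTop_atTop.const_mul_atTop hε).eventually_gt_atTop (3 * (n0 : ℝ))))
  refine ⟨N0, fun N hN => ?_⟩
  obtain ⟨a1, a2⟩ := hN0 N hN
  have a0 : (0 : ℝ) < N := by
    by_contra h
    nlinarith [Nat.cast_nonneg (α := ℝ) N, Nat.cast_nonneg (α := ℝ) n0]
  have b1 : {n | n < N ∧ P n}.ncard ≤ N :=
    (Set.ncard_le_ncard (fun n hn => mem_coe.2 (mem_range.2 hn.1)) (range N).finite_toSet).trans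
      (by simp)
  have b2 : cnt (fun n => (n : ℝ) ^ 2 * α) 0 (1 - η) N ≤ {n | n < N ∧ P n}.ncard + n0 := by
    unfold cnt
    rw [← Set.ncard_coe_finset, ← card_range n0, ← Set.ncard_coe_finset]
    refine le_trans (Set.ncard_le_ncard (fun n hn => ?_)
      (((Set.finite_lt_nat N).subset fun n hn => hn.1).union (range n0).finite_toSet))
      (Set.ncard_union_le _ _)
    obtain ⟨c1, -, c2⟩ := mem_filter.1 (mem_coe.1 hn)
    by_cases c3 : n < n0
    · exact Or.inr (mem_coe.2 (mem_range.2 c3))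
    obtain ⟨c4, c5⟩ := hn0 n (by omega)
    refine Or.inl ⟨mem_range.1 c1, hP n c5 ?_⟩
    have c6 : Irrational ((n : ℝ) ^ 2 * α) := by
      exact_mod_cast hα.natCast_mul (show n ^ 2 ≠ 0 by positivity)
    rw [(Int.ceil_eq_floor_add_one_iff_notMem _).2 (fun ⟨m, hm⟩ => c6.ne_int m hm.symm)]
    push_cast
    linarith [Int.floor_add_fract ((n : ℝ) ^ 2 * α)]
  have b3 : (({n | n < N ∧ P n}.ncard : ℕ) : ℝ) ≤ N := by exact_mod_cast b1
  have b4 : (cnt (fun n => (n : ℝ) ^ 2 * α) 0 (1 - η) N : ℝ) ≤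
      ({n | n < N ∧ P n}.ncard : ℕ) + n0 := by exact_mod_cast b2
  rw [lt_div_iff₀ a0] at a1
  rw [Real.dist_eq, abs_sub_comm, abs_of_nonneg (sub_nonneg.2 ((div_le_one a0).2 b3)),
    sub_lt_comm, lt_div_iff₀ a0]
  linarith

theorem exact_density {k : ℕ} (hk : k = 4 ∨ 6 ≤ k) (P : ℕ → Prop)
    (hP : ∀ n : ℕ, (∀ (K : Type) [Field K], ∃ r : Fin ⌈(n : ℝ) ^ 2 /
        (4 * Real.cos (Real.pi / ((k : ℝ) + 1)) ^ 2)⌉₊ → Fin n → Fin n → K,
      LinearIndependent K r ∧ ∀ w : Fin k → Fin n,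
        RingQuot.mkAlgHom K (fun a b : FreeAlgebra K (Fin n) =>
          (∃ l, a = ∑ i, ∑ j, r l i j • (FreeAlgebra.ι K i * FreeAlgebra.ι K j)) ∧ b = 0)
        (List.ofFn (fun t => FreeAlgebra.ι K (w t))).prod = 0) → P n) :
    Tendsto (fun N : ℕ => (({n | n < N ∧ P n}.ncard : ℕ) : ℝ) / N) atTop (𝓝 1) := by
  obtain ⟨C, hC⟩ := power_error k (by omega)
  refine density_one (C := C) (irr_phi hk) P fun n hn h => hP n fun K _ => ?_
  have hk' : (2 : ℝ) ≤ k := by exact_mod_cast (show 2 ≤ k by omega)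
  have h1 : 1 / 2 ≤ Real.cos (Real.pi / ((k : ℝ) + 1)) := by
    rw [← Real.cos_pi_div_three]
    have := Real.pi_pos
    exact Real.cos_le_cos_of_nonneg_of_le_pi (by positivity) (by linarith)
      (div_le_div_of_nonneg_left this.le (by norm_num) (by linarith))
  refine nil_indep (hC K n _ hn ?_) (Nat.ceil_le.2 ?_)
  · rw [mul_one_div] at h
    rwa [natCast_ceil_eq_intCast_ceil (by positivity)]
  · push_cast
    exact div_le_self (by positivity) (by nlinarith)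

end Pool.Agent.Lib.MP_05aa0e_al.Ex
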