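import Pool.Agent.Lib.MP_05aa0e_al.ExNum3

set_option autoImplicit false

namespace Pool.Agent.Lib.MP_05aa0e_al.Ex

open Finset

theorem nil_J {L : ℕ} (hL : 2 ≤ L) (q : ℕ → ℝ) (φ : ℝ) (h0 : q 0 = 0) (h1 : q L = 1)
    (hq : ∀ l < L, q l < q (l + 1)) (hφ : ∀ l < L, (1 - q l) * q (l + 1) ≤ φ) {ε : ℝ}
    (hε : 0 < ε) {A J N : ℕ} (hA : ∀ l < L, 2 ≤ A * (q (l + 1) - q l)) (hJ : 20 ≤ J)
    (hJ' : 2 * A + 1 ≤ J) (hεJ : 10 * A + 10 * L + 4 ≤ ε * J) (F : Type) [Field F] (n d : ℕ)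
    (hN : N = 2 * J + 7 + L * (5 * A * (J + 1) * (J + 1)) + 2 * Nat.log 2 n)
    (hbig : A * (32 + 16 * L) * (J + 1) * J * N ^ 2 < n) (hd : (n : ℝ) ^ 2 * φ + ε ≤ d) :
    Nil F n d (L + 1) := by
  obtain ⟨W, hW⟩ : ∃ W, W = N * N * (J + 1) := ⟨_, rfl⟩
  have hb1 : A * ((32 + 16 * L) * W * J) < n := by rw [hW]; linarith
  have w1 : N ≤ W := by
    rw [hW, mul_assoc]; exact Nat.le_mul_of_pos_right _ (Nat.mul_pos (by omega) (by omega))
  have hb2 : 32 * (A * W) < n := by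
    have : 32 * W * 1 ≤ (32 + 16 * L) * W * J :=
      Nat.mul_le_mul (Nat.mul_le_mul_right _ (by omega)) (by omega)
    linarith [Nat.mul_le_mul_left A this]
  have hb3 : A ≤ A * W := Nat.le_mul_of_pos_right _ (by omega)
  have hq0 : ∀ l ≤ L, 0 ≤ q l := fun l hl => by
    induction l with
    | zero => exact h0.ge
    | succ l ih => exact (ih (by omega)).trans (hq l hl).le
  let G : ℕ → ℕ := fun j => if j = 0 then 0 else if j < L then ⌈q j * n + 1 / 2⌉₊ else n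
  have ht : ∀ j, 1 ≤ j → j < L → 1 / 2 ≤ G j - q j * n ∧ G j - q j * n ≤ 3 / 2 := fun j a1 a2 => by
    have b1 := Nat.le_ceil (q j * n + 1 / 2)
    have b2 := Nat.ceil_lt_add_one (show 0 ≤ q j * n + 1 / 2 by
      have := hq0 j a2.le; positivity)
    simp only [G, if_neg (show j ≠ 0 by omega), if_pos a2]
    constructor <;> linarith
  have G0 : G 0 = 0 := rfl
  have Gn : G L = n := by simp [G, show L ≠ 0 by omega]
  have ht' : ∀ j ≤ L, 0 ≤ G j - q j * n ∧ G j - q j * n ≤ 3 / 2 := fun j hj => by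
    rcases Nat.eq_zero_or_pos j with rfl | a1
    · norm_num [G0, h0]
    rcases hj.lt_or_eq with a2 | rfl
    · have := ht j a1 a2; constructor <;> linarith
    · norm_num [Gn, h1]
  have hgap : ∀ l < L, A * G l + 2 * n ≤ A * G (l + 1) + 2 * A := fun l hl => by
    have a1 := mul_le_mul_of_nonneg_left (ht' l hl.le).2 (Nat.cast_nonneg (α := ℝ) A)
    have a2 := mul_le_mul_of_nonneg_left (ht' (l + 1) hl).1 (Nat.cast_nonneg (α := ℝ) A)
    have a3 := mul_le_mul_of_nonneg_right (hA l hl) (Nat.cast_nonneg (α := ℝ) n)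
    have : (A : ℝ) * G l + 2 * n ≤ A * G (l + 1) + 2 * A := by
      linarith [Nat.cast_nonneg (α := ℝ) A]
    exact_mod_cast this
  have hgap' : ∀ l < L, G l + 9 * W ≤ G (l + 1) := fun l hl => by
    by_contra h
    have := Nat.mul_le_mul_left A (not_le.1 h).le
    linarith [hgap l hl]
  have hgap'' : ∀ l < L, ∀ u, G (l + 1) ≤ u + G l + 8 * W → n ≤ A * u := fun l hl u h => by
    have := Nat.mul_le_mul_left A h
    linarith [hgap l hl]
  let Y : Lay := ⟨n, L, N, W, G⟩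
  have H : Y.OK := ⟨hL, G0, Gn, w1, by have := hgap' 0 (by omega); simp only [Y, zero_add] at *; omega,
    fun β _ h => by have := hgap' β h; simp only [Y]; omega⟩
  have hG : ∀ j ≤ L, G j ≤ n := fun j hj => Lay.G_le H hj
  refine nil_of_lay F Y H J (Nat.log 2 n + 2) A d (fun j => G j - q j * n) ε hε.le hJ hJ' hεJ
    (by simp only [Y]; omega) hW ?_ (fun β hβ => hgap'' β hβ _ ?_) (fun j hj => hgap'' j hj _ ?_)
    hb1 (by simp [G0, h0]) (by simp [Y, Gn, h1]) ht fun l hl => ?_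
  · have := Nat.lt_pow_succ_log_self (show 1 < 2 by norm_num) n
    simp only [Y, pow_succ] at this ⊢
    omega
  · rcases Nat.eq_zero_or_pos β with rfl | h
    · rw [Lay.uz_zero]; simp only [Y, zero_add]; omega
    · have a1 := Lay.uz_pos H h hβ
      have a2 := hG (β + 1) hβ
      simp only [Lay.nl, Y] at a1 ⊢
      split_ifs at a1 <;> omega
  · have := hG (j + 1) hj
    simp only [Y]; omega
  · have a1 := mul_le_mul_of_nonneg_left (hφ l hl) (sq_nonneg (n : ℝ))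
    simp only [Y]
    rw [Nat.cast_sub (hG l hl.le)]
    linarith

theorem nil_sq (F : Type) [Field F] {L n d : ℕ} (hL : 0 < L) (h : (n : ℝ) ^ 2 ≤ d) :
    Nil F n d (L + 1) := by
  have h1 : (n : ℤ) * n ≤ d := by rw [← sq]; exact_mod_cast h
  refine nil_monomial F hL (fun i => if i = 0 then 0 else n) (by simp) (by simp [hL.ne']) ?_ ?_
  · intro l _; by_cases h : l = 0 <;> simp [h]
  · intro l _; by_cases h : l = 0 <;> simp [h, h1]

theorem nil_pow {L : ℕ} (hL : 2 ≤ L) (q : ℕ → ℝ) (φ : ℝ) (h0 : q 0 = 0) (h1 : q L = 1)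
    (hq : ∀ l < L, q l < q (l + 1)) (hφ : ∀ l < L, (1 - q l) * q (l + 1) ≤ φ) :
    ∃ C : ℕ, ∀ (F : Type) [Field F] (n d : ℕ) (ε : ℝ), 0 < ε → 0 < n → C ≤ ε ^ 6 * n →
      (n : ℝ) ^ 2 * φ + ε ≤ d → Nil F n d (L + 1) := by
  obtain ⟨A, hA1, hA⟩ : ∃ A : ℕ, 1 ≤ A ∧ ∀ l < L, 2 ≤ A * (q (l + 1) - q l) := by
    have : ∀ᶠ A : ℕ in Filter.atTop, ∀ l : Fin L, 2 ≤ A * (q (l + 1) - q l) :=
      Filter.eventually_all.2 fun l => (tendsto_natCast_atTop_atTop.atTop_mul_const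
        (sub_pos.2 (hq l l.2))).eventually_ge_atTop _
    obtain ⟨A, hA⟩ := ((Filter.eventually_ge_atTop 1).and this).exists
    exact ⟨A, hA.1, fun l hl => hA.2 ⟨l, hl⟩⟩
  obtain ⟨C0, hC0⟩ : ∃ C0, C0 = A * (32 + 16 * L) * 2 * (11 + 20 * (L * A)) ^ 2 := ⟨_, rfl⟩
  have c1 : 0 < C0 := by rw [hC0]; positivity
  obtain ⟨J0, hJ0⟩ : ∃ J0, J0 = 20 + (2 * A + 1) + C0 := ⟨_, rfl⟩
  refine ⟨(10 * A + 10 * L + 4) ^ 6 * (64 * C0) + (C0 * J0 ^ 6) ^ 13,
    fun F _ n d ε hε hn hC hd => ?_⟩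
  have hn' : (0 : ℝ) < n := by exact_mod_cast hn
  have hφ0 : 0 ≤ φ := by
    have a1 := hφ 0 (by omega)
    have a2 := hq 0 (by omega)
    rw [h0] at a1 a2
    linarith
  by_cases hs : n ≤ C0 * J0 ^ 6
  · refine nil_sq F (by omega) (le_trans ?_ (le_trans (le_add_of_nonneg_left (by positivity)) hd))
    refine le_of_pow_le_pow_left₀ (n := 6) (by norm_num) hε.le (le_of_mul_le_mul_right ?_ hn')
    refine le_trans ?_ hC
    have := (Nat.pow_le_pow_left hs 13).trans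
      (Nat.le_add_left _ ((10 * A + 10 * L + 4) ^ 6 * (64 * C0)))
    rw [← pow_mul, ← pow_succ]
    exact_mod_cast this
  obtain ⟨J, j1, -, j2, j3⟩ := exists_step (F := fun J => C0 * J ^ 6) (t := n - 1) (a := J0)
    (b := J0 + n) (by omega) (by
      have a1 : J0 + n ≤ (J0 + n) ^ 6 := Nat.le_self_pow (by norm_num) _
      have a2 : (J0 + n) ^ 6 ≤ C0 * (J0 + n) ^ 6 := Nat.le_mul_of_pos_left _ c1
      omega) (by omega)
  have j4 : n ≤ C0 * (J + 1) ^ 6 := by omega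
  have j5 : Nat.log 2 n ≤ J ^ 2 := by
    refine (Nat.log_lt_of_lt_pow hn.ne' (j4.trans_lt ?_)).le
    calc C0 * (J + 1) ^ 6 < 2 ^ J * (2 ^ J) ^ 6 := Nat.mul_lt_mul_of_lt_of_le
          (lt_of_le_of_lt (by omega) Nat.lt_two_pow_self)
          (Nat.pow_le_pow_left Nat.lt_two_pow_self 6) (by positivity)
      _ = 2 ^ (7 * J) := by ring
      _ ≤ 2 ^ (J ^ 2) := Nat.pow_le_pow_right (by norm_num)
          (by rw [sq]; exact Nat.mul_le_mul_right _ (by omega))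
  refine nil_J hL q φ h0 h1 hq hφ hε hA (J := J) (by omega) (by omega) ?_ F n d rfl ?_ hd
  · refine le_of_pow_le_pow_left₀ (n := 6) (by norm_num) (by positivity)
      (le_of_mul_le_mul_right ?_ (show (0 : ℝ) < 64 * C0 by positivity))
    have a1 : n ≤ J ^ 6 * (64 * C0) := by
      have := Nat.mul_le_mul_left C0 (Nat.pow_le_pow_left (show J + 1 ≤ 2 * J by omega) 6)
      linarith
    have a2 : (n : ℝ) ≤ J ^ 6 * (64 * C0) := by exact_mod_cast a1
    have a3 := mul_le_mul_of_nonneg_left a2 (pow_pos hε 6).le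
    push_cast at hC
    have a4 : (0 : ℝ) ≤ (C0 * J0 ^ 6) ^ 13 := by positivity
    linarith
  · have a1 : (J + 1) * (J + 1) ≤ (2 * J) * (2 * J) := Nat.mul_le_mul (by omega) (by omega)
    have a2 : 1 * J ≤ J * J := Nat.mul_le_mul_right _ (by omega)
    have a3 : 2 * J + 7 + L * (5 * A * (J + 1) * (J + 1)) + 2 * Nat.log 2 n ≤
        (11 + 20 * (L * A)) * J ^ 2 := by
      linarith [Nat.mul_le_mul_left (5 * (L * A)) a1, show 1 ≤ J by omega]
    calc _ ≤ A * (32 + 16 * L) * (2 * J) * J * ((11 + 20 * (L * A)) * J ^ 2) ^ 2 := by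
          gcongr; omega
      _ = C0 * J ^ 6 := by rw [hC0]; ring
      _ < n := by omega

theorem exists_thresholds {L : ℕ} (hL : 0 < L) : ∃ q : ℕ → ℝ, q 0 = 0 ∧ q L = 1 ∧
    (∀ l < L, q l < q (l + 1)) ∧ ∀ l < L, (1 - q l) * q (l + 1) =
      1 / (4 * Real.cos (Real.pi / (((L + 1 : ℕ) : ℝ) + 1)) ^ 2) := by
  have hL' : (1 : ℝ) ≤ L := by exact_mod_cast hL
  set θ : ℝ := Real.pi / (((L + 1 : ℕ) : ℝ) + 1) with hθ
  have hθ1 : θ * (L + 2) = Real.pi := by
    rw [hθ]; push_cast; field_simp; ring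
  have hθ0 : 0 < θ := by rw [hθ]; have := Real.pi_pos; positivity
  have hs : ∀ i : ℕ, i ≤ L → 0 < Real.sin ((i + 1) * θ) := fun i hi => by
    have : (i : ℝ) ≤ L := by exact_mod_cast hi
    exact Real.sin_pos_of_pos_of_lt_pi (by positivity) (by nlinarith)
  have hc : 0 < Real.cos θ := Real.cos_pos_of_mem_Ioo ⟨by linarith [Real.pi_pos], by nlinarith⟩
  have hs1 : 0 < Real.sin θ := by simpa using hs 0 (by omega)
  let q : ℕ → ℝ := fun i => Real.sin (i * θ) / (2 * Real.cos θ * Real.sin ((i + 1) * θ))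
  have key : ∀ l < L, 1 - q l =
      Real.sin ((l + 1 + 1) * θ) / (2 * Real.cos θ * Real.sin ((l + 1) * θ)) := by
    intro l hl
    have a1 := hs l hl.le
    have a2 : Real.sin ((l + 1 + 1) * θ) + Real.sin (l * θ) =
        2 * Real.cos θ * Real.sin ((l + 1) * θ) := by
      rw [show ((l : ℝ) + 1 + 1) * θ = (l + 1) * θ + θ by ring,
        show (l : ℝ) * θ = (l + 1) * θ - θ by ring, Real.sin_add, Real.sin_sub]
      ring
    simp only [q]
    rw [eq_div_iff (by positivity), sub_mul, div_mul_cancel₀ _ (by positivity)]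
    linarith
  have hφ : ∀ l < L, (1 - q l) * q (l + 1) = 1 / (4 * Real.cos θ ^ 2) := by
    intro l hl
    have a1 := hs l hl.le
    have a2 := hs (l + 1) hl
    rw [key l hl]
    simp only [q]
    push_cast at a2 ⊢
    field_simp
    ring
  have hq : ∀ l < L, q l < q (l + 1) := by
    intro l hl
    have a1 := hs l hl.le
    have a2 := hs (l + 1) hl
    push_cast at a2
    have a3 : 0 < 1 - q l := by rw [key l hl]; positivity
    have a4 : 1 / 4 < 1 / (4 * Real.cos θ ^ 2) := by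
      apply one_div_lt_one_div_of_lt (by positivity)
      nlinarith [Real.sin_sq_add_cos_sq θ]
    have a5 := hφ l hl
    by_contra hcon
    nlinarith [mul_le_mul_of_nonneg_left (not_lt.1 hcon) a3.le, sq_nonneg (q l - 1 / 2)]
  refine ⟨q, by simp [q], ?_, hq, hφ⟩
  have a1 : ((L : ℝ) + 1) * θ = Real.pi - θ := by linarith
  have a2 : (L : ℝ) * θ = Real.pi - 2 * θ := by linarith
  simp only [q]
  rw [a1, a2, Real.sin_pi_sub, Real.sin_pi_sub, Real.sin_two_mul]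
  field_simp

theorem power_error (k : ℕ) (hk : 2 ≤ k) :
    ∃ C : ℝ, ∀ (F : Type) [Field F] (n d : ℕ), 1 ≤ n →
      (n : ℝ) ^ 2 / (4 * Real.cos (Real.pi / ((k : ℝ) + 1)) ^ 2) + C * (n : ℝ) ^ (-(1 / 6 : ℝ)) ≤ d →
        Nil F n d k := by
  obtain ⟨L, rfl⟩ : ∃ L, k = L + 1 := ⟨k - 1, by omega⟩
  obtain ⟨q, h0, h1, h2, h3⟩ := exists_thresholds (show 0 < L by omega)
  rcases (show 1 ≤ L by omega).lt_or_eq with hL | rfl
  · obtain ⟨C, h⟩ := nil_pow hL q _ h0 h1 h2 (fun l hl => (h3 l hl).le)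
    refine ⟨C + 1, fun F _ n d hn hd => ?_⟩
    have hn' : (0 : ℝ) < n := by exact_mod_cast hn
    refine h F n d ((C + 1) * (n : ℝ) ^ (-(1 / 6 : ℝ))) (by positivity) hn ?_ (by rwa [mul_one_div])
    have a1 : ((n : ℝ) ^ (-(1 / 6 : ℝ))) ^ 6 * n = 1 := by
      rw [← Real.rpow_natCast, ← Real.rpow_mul hn'.le]
      norm_num [Real.rpow_neg_one, hn'.ne']
    rw [mul_pow, mul_assoc, a1, mul_one]
    exact le_trans (by linarith) (le_self_pow₀ (by linarith [Nat.cast_nonneg (α := ℝ) C])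
      (by norm_num))
  · refine ⟨0, fun F _ n d _ hd => nil_sq F one_pos ?_⟩
    have a1 := h3 0 one_pos
    rw [h0, zero_add, h1] at a1
    rw [div_eq_mul_one_div, ← a1] at hd
    linarith

end Pool.Agent.Lib.MP_05aa0e_al.Ex
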