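import Mathlib

set_option autoImplicit false

namespace Pool.Agent.Lib.MP_05aa0e_al.Ex

open Finset

/-- The arrangement of the letters in zones. -/
structure Lay where
  n : ℕ
  L : ℕ
  N : ℕ
  W : ℕ
  G : ℕ → ℕ

namespace Lay

variable (Y : Lay)

def zs (ζ : ℕ) : ℕ :=
  if ζ ≤ 6 then ζ * Y.W else if ζ = 7 then Y.G 1 - 2 * Y.N else if 5 * Y.L + 3 ≤ ζ then Y.n
  else Y.G ((ζ - 3) / 5) + (ζ - 3) % 5 * Y.N - Y.N

def z (a : ℕ) : ℕ := Nat.findGreatest (fun ζ => Y.zs ζ ≤ a) (5 * Y.L + 2)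

def zU (β : ℕ) : ℕ := max 6 (5 * β + 7 * min β 1)

def Us (β : ℕ) : ℕ := Y.zs (zU β)

def uz (β : ℕ) : ℕ := Y.zs (zU β + 1) - Y.zs (zU β)

def nl (j : ℕ) : ℕ := if j + 1 < Y.L then Y.G (j + 1) - Y.N else Y.n

structure OK : Prop where
  hL : 2 ≤ Y.L
  h0 : Y.G 0 = 0
  hn : Y.G Y.L = Y.n
  hW : Y.N ≤ Y.W
  h1 : 6 * Y.W + 3 * Y.N ≤ Y.G 1
  hG : ∀ β, 1 ≤ β → β < Y.L → Y.G β + 5 * Y.N ≤ Y.G (β + 1)

variable {Y}

theorem zs_lev {β c : ℕ} (h1 : 1 ≤ β) (h2 : β < Y.L) (hc : c < 5) :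
    Y.zs (5 * β + 3 + c) = Y.G β + c * Y.N - Y.N := by
  unfold zs
  rw [if_neg (by omega), if_neg (by omega), if_neg (by omega),
    show (5 * β + 3 + c - 3) / 5 = β by omega, show (5 * β + 3 + c - 3) % 5 = c by omega]

theorem zs_low {ζ : ℕ} (h : ζ ≤ 6) : Y.zs ζ = ζ * Y.W := if_pos h

theorem zs_7 : Y.zs 7 = Y.G 1 - 2 * Y.N := rfl

theorem zs_nl (H : Y.OK) {j : ℕ} (h : j < Y.L) : Y.zs (5 * j + 8) = Y.nl j := by
  unfold nl
  split_ifs with h1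
  · rw [show 5 * j + 8 = 5 * (j + 1) + 3 + 0 by ring, zs_lev (by omega) h1 (by omega)]
    simp
  · have := H.hL
    unfold zs
    rw [if_neg (by omega), if_neg (by omega), if_pos (by omega)]

theorem G_ge (H : Y.OK) {β : ℕ} (h1 : 1 ≤ β) : ∀ γ, β ≤ γ → γ ≤ Y.L → Y.G β ≤ Y.G γ := by
  intro γ h
  induction γ, h using Nat.le_induction with
  | base => simp
  | succ γ h ih => intro h'; have := H.hG γ (by omega) h'; have := ih (by omega); omega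

theorem G_le (H : Y.OK) {β : ℕ} (h : β ≤ Y.L) : Y.G β ≤ Y.n := by
  rcases Nat.eq_zero_or_pos β with rfl | h0
  · rw [H.h0]; omega
  · exact H.hn ▸ G_ge H h0 _ h le_rfl

theorem nl_ge (H : Y.OK) {β : ℕ} (h1 : 1 ≤ β) (h2 : β < Y.L) : Y.G β + 4 * Y.N ≤ Y.nl β := by
  have := H.hG β h1 h2
  have := G_le H (show β + 1 ≤ Y.L from h2)
  unfold nl
  split_ifs <;> omega

theorem zs_gap (H : Y.OK) {ζ : ℕ} (h : ζ ≤ 5 * Y.L + 2) : Y.zs ζ + Y.N ≤ Y.zs (ζ + 1) := by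
  have h1 := H.h1
  have h2 := H.hW
  have h3 := H.hL
  by_cases a1 : ζ ≤ 5
  · rw [zs_low (by omega), zs_low (by omega), add_one_mul]; omega
  by_cases a2 : ζ = 6
  · rw [a2, zs_low le_rfl, zs_7]; omega
  by_cases a3 : ζ = 7
  · rw [a3, zs_7, show 7 + 1 = 5 * 1 + 3 + 0 by rfl, zs_lev le_rfl (by omega) (by omega)]; omega
  obtain ⟨β, c, rfl, hc, b1, b2⟩ : ∃ β c, ζ = 5 * β + 3 + c ∧ c < 5 ∧ 1 ≤ β ∧ β < Y.L :=
    ⟨(ζ - 3) / 5, (ζ - 3) % 5, by omega, by omega, by omega, by omega⟩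
  have b3 := G_ge H le_rfl β b1 b2.le
  rw [zs_lev b1 b2 hc]
  by_cases a4 : c = 4
  · rw [a4, show 5 * β + 3 + 4 + 1 = 5 * β + 8 by ring, zs_nl H b2]
    have := nl_ge H b1 b2
    omega
  · rw [add_assoc, zs_lev b1 b2 (by omega), add_one_mul]; omega

theorem zs_mono (H : Y.OK) : Monotone Y.zs := monotone_nat_of_le_succ fun ζ => by
  by_cases h : ζ ≤ 5 * Y.L + 2
  · have := zs_gap H h; omega
  · have := H.hL
    unfold zs
    rw [if_neg (by omega), if_neg (by omega), if_pos (by omega), if_neg (by omega),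
      if_neg (by omega), if_pos (by omega)]

theorem z_le (a : ℕ) : Y.z a ≤ 5 * Y.L + 2 := Nat.findGreatest_le _

theorem le_z' (H : Y.OK) {a ζ : ℕ} (h : ζ ≤ 5 * Y.L + 2) : ζ ≤ Y.z a ↔ Y.zs ζ ≤ a :=
  ⟨fun h' => (zs_mono H h').trans (Nat.findGreatest_spec (P := fun ζ => Y.zs ζ ≤ a)
    (Nat.zero_le _) (by simp [zs])), fun h' => Nat.le_findGreatest h h'⟩

theorem le_z (H : Y.OK) {a : ℕ} (ha : a < Y.n) (ζ : ℕ) : ζ ≤ Y.z a ↔ Y.zs ζ ≤ a := by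
  by_cases h : ζ ≤ 5 * Y.L + 2
  · exact le_z' H h
  · have := H.hL
    refine iff_of_false (by have := z_le (Y := Y) a; omega) ?_
    unfold zs
    rw [if_neg (by omega), if_neg (by omega), if_pos (by omega)]
    omega

theorem zs_le (H : Y.OK) (ζ : ℕ) : Y.zs ζ ≤ Y.n := by
  refine (zs_mono H (Nat.le_add_right ζ (5 * Y.L + 8))).trans (le_of_eq ?_)
  unfold zs
  rw [if_neg (by omega), if_neg (by omega), if_pos (by omega)]

theorem z_eq (H : Y.OK) {a : ℕ} (ha : a < Y.n) (ζ : ℕ) :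
    Y.z a = ζ ↔ Y.zs ζ ≤ a ∧ a < Y.zs (ζ + 1) := by
  rw [← le_z H ha, ← not_le, ← le_z H ha]; omega

theorem z_mono (H : Y.OK) : Monotone Y.z := fun a _ h =>
  (le_z' H (z_le a)).2 (((le_z' H (z_le a)).1 le_rfl).trans h)

theorem z_zero (H : Y.OK) (l : ℕ) : Y.z l = 0 ↔ l < Y.W := by
  have := le_z' H (a := l) (ζ := 1) (by omega)
  rw [zs_low (by omega)] at this
  omega

theorem z_gap (H : Y.OK) {l l' : ℕ} (h : Y.z l + 2 ≤ Y.z l') : l + Y.N < l' := by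
  have h0 := z_le (Y := Y) l'
  have h1 := (le_z' H (by omega)).1 h
  have h2 := le_z' H (a := l) (ζ := Y.z l + 1) (by omega)
  have h3 := zs_gap H (ζ := Y.z l + 1) (by omega)
  rw [show Y.z l + 1 + 1 = Y.z l + 2 from rfl] at h3
  omega

theorem lt_nl (H : Y.OK) {j : ℕ} (h : j < Y.L) (a : ℕ) :
    a < Y.nl j ↔ a < Y.n ∧ Y.z a ≤ 5 * j + 7 := by
  have h1 := zs_le H (5 * j + 8)
  rw [← zs_nl H h]
  by_cases ha : a < Y.n
  · have := le_z H ha (5 * j + 8); omega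
  · omega

theorem z_X (H : Y.OK) {j : ℕ} (h1 : 1 ≤ j) (h2 : j < Y.L) {a : ℕ} (ha : a < Y.n) :
    Y.z a = 5 * j + 4 ↔ Y.G j ≤ a ∧ a < Y.G j + Y.N := by
  rw [z_eq H ha, show 5 * j + 4 = 5 * j + 3 + 1 by ring, zs_lev h1 h2 (by omega), add_assoc,
    zs_lev h1 h2 (by omega)]
  omega

theorem z_Y (H : Y.OK) {j : ℕ} (h1 : 1 ≤ j) (h2 : j < Y.L) {a : ℕ} (ha : a < Y.n) :
    Y.z a = 5 * j + 3 ↔ Y.G j ≤ a + Y.N ∧ a < Y.G j := by
  have := zs_lev (c := 0) h1 h2 (by omega)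
  rw [add_zero] at this
  rw [z_eq H ha, this, zs_lev h1 h2 (by omega)]
  omega

theorem z_H (H : Y.OK) {j : ℕ} (h2 : j < Y.L) {a : ℕ} (ha : a < Y.n) :
    (j = 0 ∨ 5 * j + 4 ≤ Y.z a) ↔ Y.G j ≤ a := by
  rcases Nat.eq_zero_or_pos j with rfl | h1
  · simp [H.h0]
  · rw [le_z H ha, show 5 * j + 4 = 5 * j + 3 + 1 by ring, zs_lev h1 h2 (by omega)]
    omega

theorem z_U (H : Y.OK) (β : ℕ) {t : ℕ} (ht : t < Y.uz β) :
    Y.Us β + t < Y.n ∧ Y.z (Y.Us β + t) = zU β := by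
  have h1 := zs_le H (zU β + 1)
  unfold uz at ht
  unfold Us
  exact ⟨by omega, (z_eq H (by omega) _).2 (by omega)⟩

theorem U_le (H : Y.OK) {β j : ℕ} (h : β ≤ j) (hj : j < Y.L) : Y.Us β + Y.uz β ≤ Y.nl j := by
  have h1 := zs_mono H (show zU β ≤ zU β + 1 by omega)
  have h2 := zs_mono H (show zU β + 1 ≤ 5 * j + 8 by unfold zU; omega)
  rw [← zs_nl H hj]
  unfold Us uz
  omega

theorem uz_zero : Y.uz 0 = Y.G 1 - 2 * Y.N - 6 * Y.W := rfl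

theorem uz_pos (H : Y.OK) {β : ℕ} (h1 : 1 ≤ β) (h2 : β < Y.L) :
    Y.uz β + Y.G β + 3 * Y.N = Y.nl β := by
  have h3 : zU β = 5 * β + 3 + 4 := by unfold zU; omega
  have h4 := nl_ge H h1 h2
  unfold uz
  rw [h3, zs_lev h1 h2 (by omega), show 5 * β + 3 + 4 + 1 = 5 * β + 8 by ring, zs_nl H h2]
  omega

theorem sum_uz (H : Y.OK) {j : ℕ} (h : j < Y.L) :
    ∑ β ∈ range (j + 1), Y.uz β + 6 * Y.W + Y.N + 4 * j * Y.N = Y.nl j := by
  have h1 := H.h1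
  induction j with
  | zero =>
    have := H.hL
    simp only [zero_add, range_one, sum_singleton, uz_zero, nl, if_pos (show 1 < Y.L by omega)]
    omega
  | succ j ih =>
    have a1 := ih (by omega)
    have a2 := uz_pos H (β := j + 1) (by omega) h
    have a3 := G_ge H le_rfl (j + 1) (by omega) h.le
    rw [nl, if_pos h] at a1
    rw [sum_range_succ, show 4 * (j + 1) * Y.N = 4 * j * Y.N + 4 * Y.N by ring]
    omega

theorem card_nonord (H : Y.OK) : ((range Y.n).filter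
    (fun a => ¬ (Y.z a ≤ 6 ∨ (12 ≤ Y.z a ∧ Y.z a % 5 = 2)))).card ≤ 5 * Y.L * Y.N := by
  have h1 : (range Y.n).filter (fun a => ¬ (Y.z a ≤ 6 ∨ (12 ≤ Y.z a ∧ Y.z a % 5 = 2))) ⊆
      (range Y.L).biUnion (fun β => Ico (Y.G β - 2 * Y.N) (Y.G β + 3 * Y.N)) := by
    intro a ha
    simp only [mem_filter, mem_range, mem_biUnion, mem_Ico] at ha ⊢
    obtain ⟨a1, a2⟩ := ha
    have a3 := (z_eq H a1 _).1 rfl
    have a4 := z_le (Y := Y) a
    have a5 := H.hL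
    by_cases a6 : Y.z a = 7
    · rw [a6, zs_7, show 7 + 1 = 5 * 1 + 3 + 0 by rfl, zs_lev le_rfl (by omega) (by omega)] at a3
      exact ⟨1, by omega, by omega⟩
    · obtain ⟨β, c, b0, hc, b1, b2⟩ : ∃ β c, Y.z a = 5 * β + 3 + c ∧ c < 4 ∧ 1 ≤ β ∧ β < Y.L :=
        ⟨(Y.z a - 3) / 5, (Y.z a - 3) % 5, by omega, by omega, by omega, by omega⟩
      rw [b0, zs_lev b1 b2 (by omega), add_assoc, zs_lev b1 b2 (by omega)] at a3
      have b3 : (c + 1) * Y.N ≤ 4 * Y.N := Nat.mul_le_mul_right _ hc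
      exact ⟨β, b2, by omega⟩
  refine (card_le_card h1).trans ((card_biUnion_le_card_mul _ _ (5 * Y.N) fun β _ => ?_).trans ?_)
  · rw [Nat.card_Ico]; omega
  · rw [card_range]; exact le_of_eq (by ring)

end Lay

end Pool.Agent.Lib.MP_05aa0e_al.Ex
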