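import Pool.Agent.Lib.MP_05aa0e_al.ExSlot2

set_option autoImplicit false

namespace Pool.Agent.Lib.MP_05aa0e_al.Ex

open Finset

namespace LP

/-- The block structure of a level together with its anchors. -/
structure Lvl (P : LP) (f' Jb' : ℕ) (dg : ℕ → ℕ) (bid : ℕ × ℕ → ℕ × ℕ × ℕ) (pos : ℕ × ℕ → ℕ)
    (len : ℕ × ℕ × ℕ → ℕ) (tp : ℕ × ℕ × ℕ → Option (ℕ × ℕ)) (sn : ℕ → ℕ → ℕ × ℕ)
    (ext : ℕ → ℕ → ℕ → Prop) : Prop where
  d1 : ∀ i, 1 ≤ dg i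
  d2 : ∀ i, dg i ≤ P.m
  dsum : ∑ i ∈ range P.N, dg i = P.ρ
  til : Til P.Nd (fun ν => dg ν.1) (fun ν => P.z ν.2) len bid pos
  lenle : ∀ ν, P.Nd ν → (bid ν).1 ≠ 2 → len (bid ν) ≤ P.m
  tpv : ∀ B p, tp B = some p → P.top ∧ p.1 < P.N ∧ p.2 < P.N
  sB : ∀ ν, P.Nd ν → (P.z ν.2 = 1 ∨ P.z ν.2 = 2) → tp (bid ν) = none ∧ (bid ν).1 = 0
  sD : P.top → ∀ i < P.N, ∀ i' < P.N, ∃ ν, P.Nd ν ∧ pos ν = 0 ∧ tp (bid ν) = some (i, i') ∧
    len (bid ν) + dg i ≤ P.m ∧ (i' = P.o3 + 2 → (bid ν).1 = 0) ∧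
    ∀ μ, P.Nd μ → bid μ = bid ν → P.z μ.2 = 0
  src : ∀ s < P.ns, len (1, s, 0) + P.Q = P.m ∧
    (∀ p, tp (1, s, 0) = some p → P.f ≤ s ∧ p.2 = P.o3 + (s - P.f) % 2) ∧
    (∀ μ, P.Nd μ → bid μ = (1, s, 0) → P.z μ.2 = 0) ∧
    ∀ σ ≤ P.J, P.Nd (sn s σ) ∧ bid (sn s σ) = (1, s, 0) ∧ (σ < P.J → pos (sn s σ) = σ * P.Q) ∧
      (σ = P.J → pos (sn s σ) + dg (sn s σ).1 = len (1, s, 0) ∧ (sn s σ).1 = P.o3 + 2)
  dfb : ∀ ν, P.Nd ν → (bid ν).1 = 2 → (∃ β, 0 < P.zz β) ∧ len (bid ν) = P.m + P.Q ∧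
    ∀ μ, P.Nd μ → bid μ = bid ν → dg μ.1 = 1 ∧ P.z μ.2 = P.z ν.2
  anc : ∀ ν, P.Nd ν → (bid ν).1 = 2 → ∀ σ ≤ P.J, ∀ i < P.Q, ∃ μ s, P.Nd μ ∧ bid μ = bid ν ∧
    pos μ = σ * P.Q + i ∧ s < f' + 2 * Jb' ∧ ext s σ μ.1 ∧
    (f' ≤ s → pos (P.o3 + (s - f') % 2, μ.2) + dg (P.o3 + (s - f') % 2) =
      len (bid (P.o3 + (s - f') % 2, μ.2))) ∧
    ∀ σ' a, ext s σ' a → (σ' = σ ∧ a = μ.1) ∨ pos (a, μ.2) + dg a ≤ σ' * P.Q ∨
      σ' * P.Q + len (bid (a, μ.2)) < P.m + pos (a, μ.2) + dg a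
  extv : ∀ s σ a, ext s σ a → a < P.N
  nla : ((range P.N ×ˢ range P.nl).filter (fun ν => pos ν + dg ν.1 = len (bid ν))).card ≤
    P.Bm + P.ns + ∑ β ∈ range P.nb, P.zz β

variable {P : LP}

theorem exists_level (H : P.LH) {dg grp : ℕ → ℕ} (hD : Deg P.J P.Jb P.Q P.K P.N P.ρ dg grp)
    (f' Jb' : ℕ) (hp : ∀ β < P.nb, P.zz β * (P.J + 1) ≤ P.Z ∧ (P.zz β = 0 ∨ ∃ X,
      X * P.m + P.zz β * (P.m + P.Q) ≤ P.uz β * P.ρ ∧
      P.zz β * (P.J + 1) + Jb' ≤ f' * (P.uz β / P.Q) + Jb' * (X / P.Q))) :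
    ∃ bid pos len tp sn ext, Lvl P f' Jb' dg bid pos len tp sn ext := by
  classical
  obtain ⟨bid, pos, len, tp, sn, dsl, S⟩ := exists_slot H hD
  let Av : ℕ → ℕ → Finset ℕ := fun β s => if s < f' then Ico (P.Us β) (P.Us β + P.uz β) else
    (Ico (P.Us β) (P.Us β + P.uz β)).filter (fun l => pos (P.o3 + (s - f') % 2, l) +
      dg (P.o3 + (s - f') % 2) = len (bid (P.o3 + (s - f') % 2, l)))
  have h1 : ∀ β, ∃ (src : ℕ → ℕ) (win : ℕ → ℕ → ℕ), β < P.nb →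
      (∀ κ < P.zz β * (P.J + 1), src κ < f' + 2 * Jb' ∧ ∀ i < P.Q, win κ i ∈ Av β (src κ)) ∧
      ∀ κ < P.zz β * (P.J + 1), ∀ κ' < P.zz β * (P.J + 1), ∀ i < P.Q, ∀ i' < P.Q,
        src κ = src κ' → win κ i = win κ' i' → κ = κ' ∧ i = i' := by
    intro β
    by_cases hβ : β < P.nb
    swap
    · exact ⟨id, fun _ _ => 0, fun h => absurd h hβ⟩
    obtain ⟨src, win, h⟩ := exists_pieces (f' + 2 * Jb') P.Q (P.zz β * (P.J + 1)) (Av β) (by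
      rcases (hp β hβ).2 with h | ⟨X, a1, a2⟩
      · simp [h]
      have a3 := S.cuts β hβ X a1
      let Cn : ℕ → ℕ := fun c => ((Ico (P.Us β) (P.Us β + P.uz β)).filter
        (fun l => pos (P.o3 + c, l) + dg (P.o3 + c) = len (bid (P.o3 + c, l)))).card
      have a4 : ∑ s ∈ range f', (Av β s).card / P.Q = f' * (P.uz β / P.Q) := by
        rw [sum_congr rfl (g := fun _ => P.uz β / P.Q) fun s hs => by simp [Av, mem_range.1 hs]]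
        simp
      have a5 : ∑ s ∈ range (2 * Jb'), (Av β (f' + s)).card / P.Q =
          Jb' * (Cn 0 / P.Q + Cn 1 / P.Q) := by
        rw [sum_congr rfl (g := fun s => Cn (s % 2) / P.Q) fun s _ => by simp [Av, Cn], mul_comm,
          sum_div_mod (fun _ c => Cn c / P.Q)]
        simp [sum_range_succ]
      have a6 : X / P.Q ≤ Cn 0 / P.Q + Cn 1 / P.Q + 1 := by
        refine (Nat.div_le_div_right (a3.trans (le_of_eq ?_))).trans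
          (Nat.add_div_le_div_add_div_add_one (Cn 0) (Cn 1) P.Q)
        simp [sum_range_succ, Cn]
      have a7 := Nat.mul_le_mul_left Jb' a6
      rw [sum_range_add, a4, a5]
      rw [mul_add_one] at a7
      omega)
    exact ⟨src, win, fun _ => h⟩
  choose src win hw using h1
  have hAv : ∀ β s l, l ∈ Av β s → P.Us β ≤ l ∧ l < P.Us β + P.uz β := fun β s l h => by
    simp only [Av] at h
    split_ifs at h
    · exact mem_Ico.1 h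
    · exact mem_Ico.1 (mem_filter.1 h).1
  have hPl : ∀ β < P.nb, ∀ κ < P.zz β * (P.J + 1), ∀ i < P.Q,
      P.Pl β (P.o3 + 3 + β * P.Z + κ, win β κ i) := fun β hβ κ hκ i hi => by
    have a1 := (hp β hβ).1
    have a2 := hAv _ _ _ (((hw β hβ).1 κ hκ).2 i hi)
    exact ⟨by simp only; omega, by simp only; omega, a2.1, a2.2⟩
  have hm1 := H.hm1
  have hdiv : ∀ β κ, κ < P.zz β * (P.J + 1) → κ / (P.J + 1) < P.zz β := fun β κ h =>
    Nat.div_lt_of_lt_mul (by rwa [mul_comm])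
  have hmod : ∀ κ i, i < P.Q → κ % (P.J + 1) * P.Q + i < P.m + P.Q := fun κ i hi => by
    have := mul_add_lt (Nat.mod_lt κ (show 0 < P.J + 1 by omega)) hi
    rw [add_one_mul] at this
    omega
  let cl : ℕ × ℕ → (ℕ × ℕ) ⊕ ℕ := fun ν =>
    if h : ∃ β < P.nb, P.Pl β ν then .inr (Classical.choose h) else .inl ν
  have hcl : ∀ β < P.nb, ∀ ν, P.Pl β ν → cl ν = .inr β := fun β hβ ν h => by
    have h1 : ∃ β < P.nb, P.Pl β ν := ⟨β, hβ, h⟩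
    simp only [cl, dif_pos h1]
    rw [(Classical.choose_spec h1).2.uniq h rfl]
  obtain ⟨π, hπ1, hπ2⟩ := exists_perm cl
    (fun a : ℕ × ℕ × ℕ => (P.o3 + 3 + a.1 * P.Z + a.2.1, win a.1 a.2.1 a.2.2))
    (fun a => dsl a.1 (a.2.1 / (P.J + 1)) (a.2.1 % (P.J + 1) * P.Q + a.2.2))
    ((range P.nb ×ˢ range P.Z ×ˢ range P.Q).filter (fun a => a.2.1 < P.zz a.1 * (P.J + 1)))
    (by
      rintro ⟨β, κ, i⟩ a ⟨β', κ', i'⟩ b h
      simp only [coe_filter, mem_product, mem_range, Set.mem_ofPred_eq, Prod.mk.injEq] at a b h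
      obtain rfl := (hPl β a.1.1 κ a.2 i a.1.2.2).uniq (hPl β' b.1.1 κ' b.2 i' b.1.2.2) h.1
      obtain rfl : κ = κ' := by omega
      rw [((hw β a.1.1).2 κ a.2 κ a.2 i a.1.2.2 i' b.1.2.2 rfl h.2).2])
    (by
      rintro ⟨β, κ, i⟩ a ⟨β', κ', i'⟩ b h
      simp only [coe_filter, mem_product, mem_range, Set.mem_ofPred_eq] at a b h
      obtain ⟨-, c1, c2⟩ := (S.hdsl β a.1.1 _ (hdiv β κ a.2)).2 _ (hmod κ i a.1.2.2)
      obtain ⟨-, d1, d2⟩ := (S.hdsl β' b.1.1 _ (hdiv β' κ' b.2)).2 _ (hmod κ' i' b.1.2.2)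
      rw [h, d1] at c1
      rw [h, d2] at c2
      simp only [Prod.mk.injEq, true_and] at c1
      obtain ⟨e1, e2⟩ := mul_add_inj b.1.2.2 a.1.2.2 c2
      rw [c1.1, e2, ← Nat.div_add_mod κ (P.J + 1), ← Nat.div_add_mod κ' (P.J + 1), c1.2, e1])
    (by
      rintro ⟨β, κ, i⟩ a
      simp only [mem_filter, mem_product, mem_range] at a
      rw [hcl β a.1.1 _ (hPl β a.1.1 κ a.2 i a.1.2.2),
        hcl β a.1.1 _ ((S.hdsl β a.1.1 _ (hdiv β κ a.2)).2 _ (hmod κ i a.1.2.2)).1])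
  have hπ3 : ∀ β < P.nb, ∀ κ < P.zz β * (P.J + 1), ∀ i < P.Q,
      π (P.o3 + 3 + β * P.Z + κ, win β κ i) =
        dsl β (κ / (P.J + 1)) (κ % (P.J + 1) * P.Q + i) := fun β hβ κ hκ i hi =>
    hπ1 (β, κ, i) (by
      simp only [mem_filter, mem_product, mem_range]
      exact ⟨⟨hβ, hκ.trans_le (hp β hβ).1, hi⟩, hκ⟩)
  have hπ4 : ∀ ν, π ν = ν ∨ ∃ β < P.nb, P.Pl β ν ∧ P.Pl β (π ν) := fun ν => by
    have h1 := hπ2 ν
    simp only [cl] at h1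
    split_ifs at h1 with a1 a2 a3
    · refine Or.inr ⟨_, (Classical.choose_spec a2).1, (Classical.choose_spec a2).2, ?_⟩
      rw [← Sum.inr.inj h1]
      exact (Classical.choose_spec a1).2
    · exact Or.inl (Sum.inl.inj h1)
  have hone : ∀ β ν, P.Pl β ν → dg ν.1 = 1 := fun β ν h =>
    hD.one _ (by have := h.1; unfold o3 at this; omega)
  have q1 : ∀ ν, P.Nd (π ν) ↔ P.Nd ν := fun ν => by
    rcases hπ4 ν with h | ⟨β, a1, a2, a3⟩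
    · rw [h]
    · exact iff_of_true (a3.z H a1).2 (a2.z H a1).2
  have q2 : ∀ ν, dg (π ν).1 = dg ν.1 := fun ν => by
    rcases hπ4 ν with h | ⟨β, a1, a2, a3⟩
    · rw [h]
    · rw [hone β _ a2, hone β _ a3]
  have q3 : ∀ ν, P.z (π ν).2 = P.z ν.2 := fun ν => by
    rcases hπ4 ν with h | ⟨β, a1, a2, a3⟩
    · rw [h]
    · rw [(a2.z H a1).1, (a3.z H a1).1]
  have q4 : ∀ ν, P.z ν.2 = 0 → π ν = ν := fun ν h => by
    rcases hπ4 ν with h | ⟨β, a1, a2, a3⟩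
    · exact h
    · have := (a2.z H a1).1; omega
  have q5 : ∀ s l, π (P.o3 + s % 2, l) = (P.o3 + s % 2, l) := fun s l => by
    rcases hπ4 (P.o3 + s % 2, l) with h | ⟨β, a1, a2, a3⟩
    · exact h
    · have := a2.1; simp only at this; omega
  have q6 : ∀ β ν, P.Pl β (π ν) → P.Pl β ν := fun β ν h => by
    rcases hπ4 ν with h' | ⟨β', a1, a2, a3⟩
    · rwa [h'] at h
    · rwa [h.uniq a3 rfl]
  have q7 : ∀ ν, P.Nd ν → (bid (π ν)).1 = 2 → ∃ β < P.nb, ∃ b < P.zz β, ∃ p < P.m + P.Q,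
      π ν = dsl β b p ∧ P.Pl β ν ∧ bid (π ν) = (2, β, b) ∧ pos (π ν) = p := fun ν a1 a2 => by
    obtain ⟨β, b1, b, b2, p, b3, b4⟩ := S.dfc _ ((q1 ν).2 a1) a2
    obtain ⟨c1, c2, c3⟩ := (S.hdsl β b1 b b2).2 p b3
    rw [← b4] at c1 c2 c3
    exact ⟨β, b1, b, b2, p, b3, b4, q6 β ν c1, c2, c3⟩
  refine ⟨fun ν => bid (π ν), fun ν => pos (π ν), len, tp, sn,
    fun s σ a => ∃ β < P.nb, ∃ κ < P.zz β * (P.J + 1), src β κ = s ∧ κ % (P.J + 1) = σ ∧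
      a = P.o3 + 3 + β * P.Z + κ, hD.d1, fun i => ?_, hD.sum, S.til.perm π q1 q2 q3,
    fun ν h => S.lenle _ ((q1 ν).2 h), S.tpv, fun ν h h' => S.sB _ ((q1 ν).2 h) (by rwa [q3]),
    fun ht i hi i' hi' => ?_, fun s hs => ?_, fun ν a1 a2 => ?_, fun ν a1 a2 σ hσ i hi => ?_,
    ?_, ?_⟩
  · have := hD.d2 i
    have := H.hcap
    omega
  · obtain ⟨ν, a1, a2, a3, a4, a5, a6⟩ := S.sD ht i hi i' hi'
    refine ⟨ν, ?_⟩
    rw [q4 ν (a6 ν a1 rfl)]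
    exact ⟨a1, a2, a3, a4, a5, fun μ b1 b2 => by rw [← q3]; exact a6 _ ((q1 μ).2 b1) b2⟩
  · obtain ⟨a1, a2, a3, a4⟩ := S.src s hs
    refine ⟨a1, a2, fun μ b1 b2 => by rw [← q3]; exact a3 _ ((q1 μ).2 b1) b2, fun σ hσ => ?_⟩
    rw [q4 _ (a3 _ (a4 σ hσ).1 (a4 σ hσ).2.1)]
    exact a4 σ hσ
  · obtain ⟨β, b1, b, b2, p, b3, b4, b5, b6, b7⟩ := q7 ν a1 a2
    refine ⟨⟨β, by omega⟩, by rw [b6]; exact (S.hdsl β b1 b b2).1, fun μ c1 c2 => ?_⟩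
    obtain ⟨β', d1, b', d2, p', d3, d4, d5, d6, d7⟩ := q7 μ c1 (by rw [c2]; exact a2)
    rw [b6, d6] at c2
    simp only [Prod.mk.injEq, true_and] at c2
    obtain ⟨rfl, rfl⟩ := c2
    exact ⟨hone _ _ d5, by rw [(b5.z H b1).1, (d5.z H b1).1]⟩
  · obtain ⟨β, b1, b, b2, p, b3, b4, b5, b6, b7⟩ := q7 ν a1 a2
    have c1 : b * (P.J + 1) + σ < P.zz β * (P.J + 1) := mul_add_lt b2 (by omega)
    have c2 : (b * (P.J + 1) + σ) / (P.J + 1) = b := by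
      rw [mul_comm, Nat.mul_add_div (by omega), Nat.div_eq_of_lt (by omega), add_zero]
    have c3 : (b * (P.J + 1) + σ) % (P.J + 1) = σ := by
      rw [mul_comm, Nat.mul_add_mod, Nat.mod_eq_of_lt (by omega)]
    set κ := b * (P.J + 1) + σ with hκ
    have c4 := hπ3 β b1 κ c1 i hi
    have c5 := hPl β b1 κ c1 i hi
    obtain ⟨-, c6, c7⟩ := (S.hdsl β b1 _ (hdiv β κ c1)).2 _ (hmod κ i hi)
    rw [← c4] at c6 c7
    rw [c2] at c6
    rw [c3] at c7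
    obtain ⟨c8, c9⟩ := (hw β b1).1 κ c1
    refine ⟨(P.o3 + 3 + β * P.Z + κ, win β κ i), src β κ, (c5.z H b1).2, c6.trans b6.symm, c7, c8,
      ⟨β, b1, κ, c1, rfl, c3, rfl⟩, fun h => ?_, ?_⟩
    · have := c9 i hi
      simp only [Av, if_neg (not_lt.2 h), mem_filter] at this
      rw [q5]
      exact this.2
    · rintro σ' a ⟨β', d1, κ', d2, d3, d4, rfl⟩
      have e1 : P.Nd (P.o3 + 3 + β' * P.Z + κ', win β κ i) :=
        ⟨((hPl β' d1 κ' d2 i hi).z H d1).2.1, (c5.z H b1).2.2⟩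
      have e2 := hone _ _ (hPl β' d1 κ' d2 i hi)
      simp only at e2 ⊢
      by_cases e3 : (bid (π (P.o3 + 3 + β' * P.Z + κ', win β κ i))).1 = 2
      swap
      · have := S.lenle _ ((q1 _).2 e1) e3
        omega
      obtain ⟨β'', g1, b'', g2, p'', g3, g4, g5, g6, g7⟩ := q7 _ e1 e3
      obtain rfl : β'' = β' := g5.uniq (hPl β' d1 κ' d2 i hi) rfl
      obtain rfl : β'' = β := by
        have k1 := (g5.z H g1).1
        have k2 := (c5.z H b1).1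
        simp only at k1 k2
        omega
      rw [g6, g7, (S.hdsl β'' g1 b'' g2).1, e2]
      by_contra k0
      have k1 : σ' < P.J + 1 := d4 ▸ Nat.mod_lt _ (by omega)
      have k2 : b'' * (P.J + 1) + σ' < P.zz β'' * (P.J + 1) := mul_add_lt g2 k1
      have k3 := hπ3 β'' g1 _ k2 (p'' - σ' * P.Q) (by omega)
      rw [mul_comm b'', Nat.mul_add_div (by omega), Nat.mul_add_mod, Nat.div_eq_of_lt k1,
        Nat.mod_eq_of_lt k1, add_zero, Nat.add_sub_cancel' (by omega), ← g4] at k3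
      have k4 := π.injective k3
      simp only [Prod.mk.injEq, add_right_inj] at k4
      rw [k4.1] at k4
      have k5 := ((hw β'' g1).2 κ' d2 κ c1 (p'' - σ' * P.Q) (by omega) i hi d3 k4.2).1
      exact k0 (Or.inl ⟨by rw [← d4, k5, c3], by rw [k5]⟩)
  · rintro s σ a ⟨β, d1, κ, d2, -, -, rfl⟩
    have h1 := H.hJQ
    have h2 := H.hJb
    have h3 := H.hJb'
    exact ((hPl β d1 κ d2 0 (by omega)).z H d1).2.1
  · refine le_trans (card_le_card_of_injOn π (fun ν h => ?_) π.injective.injOn) S.nla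
    simp only [coe_filter, mem_product, mem_range, Set.mem_ofPred_eq] at h ⊢
    exact ⟨(q1 ν).2 h.1, by rw [q2]; exact h.2⟩

end LP

end Pool.Agent.Lib.MP_05aa0e_al.Ex
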