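import Pool.Agent.Lib.MP_05aa0e_al.ExSlot

set_option autoImplicit false

namespace Pool.Agent.Lib.MP_05aa0e_al.Ex

open Finset

namespace LP

variable (P : LP)

def rigid (i i' : ℕ) : Prop := i < P.Jb ∧ (i' = P.o3 ∨ i' = P.o3 + 1)

def tb (b : ℕ) : Prop := P.top ∧ b < P.N * P.N ∧ ¬ P.rigid (b / P.N) (b % P.N)

open Classical in
noncomputable def loss (dg : ℕ → ℕ) (b : ℕ) : ℕ := if P.tb b then dg (b / P.N) else 0

noncomputable def Cut (dg : ℕ → ℕ) (b : ℕ) : ℕ := ∑ b' ∈ range b, (P.m - P.loss dg b')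

def star (γ : ℕ) : ℕ × ℕ := (P.o3 + γ % 2, γ / 2)

variable {P}

section
variable (H : P.LH) {dg grp : ℕ → ℕ} (hD : Deg P.J P.Jb P.Q P.K P.N P.ρ dg grp)
include H hD

theorem Cut_succ (b : ℕ) : P.Cut dg (b + 1) + P.loss dg b = P.Cut dg b + P.m ∧
    P.loss dg b ≤ 2 * P.Q := by
  have h1 : P.loss dg b ≤ 2 * P.Q := by
    unfold loss
    split_ifs
    exacts [hD.d2 _, Nat.zero_le _]
  have h2 := H.hcap
  unfold Cut
  rw [sum_range_succ]
  omega

theorem Cut_mono : StrictMono (P.Cut dg) := strictMono_nat_of_lt_succ fun b => by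
  have h1 := Cut_succ H hD b
  have h2 := H.hcap
  have h3 := H.hN
  omega

omit H hD in
theorem Cut_le (b : ℕ) : P.Cut dg b ≤ b * P.m := by
  unfold Cut
  exact (sum_le_sum fun _ _ => Nat.sub_le _ _).trans (by simp)

theorem Cut_ge (ht : P.top) {b : ℕ} (hb : P.N * P.N ≤ b) :
    b * P.m + P.Jb * (2 * P.Q) ≤ P.Cut dg b + P.N * P.ρ := by
  classical
  have h1 : P.Cut dg b + ∑ b' ∈ range b, P.loss dg b' = b * P.m := by
    unfold Cut
    rw [← sum_add_distrib, sum_congr rfl (g := fun _ => P.m) fun b' _ => by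
      have := (Cut_succ H hD b').2
      have := H.hcap
      omega]
    simp
  have h2 : ∑ b' ∈ range b, P.loss dg b' = ∑ i ∈ range P.N, ∑ i' ∈ range P.N,
      if P.rigid i i' then 0 else dg i := by
    rw [← sum_div_mod (fun i i' => if P.rigid i i' then 0 else dg i),
      ← sum_subset (range_subset_range.2 hb)]
    · refine sum_congr rfl fun b' hb' => ?_
      simp [loss, tb, ht, mem_range.1 hb']
    · intro b' _ hb'
      simp only [mem_range] at hb'
      simp [loss, tb, hb']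
  have h3 : ∀ i ∈ range P.N, (∑ i' ∈ range P.N, if P.rigid i i' then 0 else dg i) +
      (if i ∈ range P.Jb then 2 * P.Q else 0) ≤ P.N * dg i := by
    intro i _
    have a1 : (∑ i' ∈ range P.N, if P.rigid i i' then 0 else dg i) +
        (∑ i' ∈ range P.N, if P.rigid i i' then dg i else 0) = P.N * dg i := by
      rw [← sum_add_distrib, sum_congr rfl (g := fun _ => dg i) fun i' _ => by split_ifs <;> simp]
      simp
    split_ifs with a2
    · have a3 := mem_range.1 a2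
      have a4 := H.hN
      have a5 : ∑ i' ∈ ({P.o3, P.o3 + 1} : Finset ℕ), (if P.rigid i i' then dg i else 0) ≤
          ∑ i' ∈ range P.N, if P.rigid i i' then dg i else 0 :=
        sum_le_sum_of_subset fun a ha => by simp at ha ⊢; omega
      rw [sum_pair (by omega)] at a5
      simp only [rigid, a3, true_or, or_true, and_self, if_true, hD.big i a3] at a5 a1 ⊢
      omega
    · omega
  have h4 := sum_le_sum h3
  have h5 : range P.N ∩ range P.Jb = range P.Jb := by
    have := H.hN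
    have := H.hJb'
    rw [inter_eq_right, range_subset_range]
    unfold o3 at *
    omega
  rw [sum_add_distrib, ← mul_sum, hD.sum, sum_ite_mem, h5] at h4
  simp only [sum_const, card_range, smul_eq_mul] at h4
  omega

variable {M : Finset (ℕ × ℕ)} (hM : ∀ ν ∈ M, P.Nd ν)
  (hM' : ∀ ν, P.Nd ν → ν.1 ≠ 0 → ν.1 < P.o3 + 2 → ν ∈ M)

omit H in
theorem grp_eq (γ : ℕ) : M.filter (fun s => 2 * s.2 + grp s.1 = γ) =
    ((M.filter (fun s => 2 * s.2 + grp s.1 = γ)).image Prod.fst).image (fun i => (i, γ / 2)) := by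
  rw [image_image]
  refine (image_id.symm.trans (image_congr fun s hs => ?_))
  have h1 := (mem_filter.1 (mem_coe.1 hs)).2
  have h2 := hD.g2 s.1
  exact Prod.ext rfl (by simp only [id, Function.comp]; omega)

omit H hD in
theorem sum_line (I : Finset ℕ) (l : ℕ) :
    ∑ s ∈ I.image (fun i => (i, l)), dg s.1 = ∑ i ∈ I, dg i :=
  sum_image fun _ _ _ _ h => (Prod.mk.inj h).1

include hM hM'

omit hM in
theorem grp_comp {γ : ℕ} (hγ : γ / 2 < P.nl) : P.star γ ∈ M ∧
    2 * (P.star γ).2 + grp (P.star γ).1 = γ ∧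
    P.Q + 1 ≤ ∑ s ∈ M.filter (fun s => 2 * s.2 + grp s.1 = γ), dg s.1 ∧
    ∀ t < ∑ s ∈ M.filter (fun s => 2 * s.2 + grp s.1 = γ), dg s.1,
      ∃ I ⊆ (M.filter (fun s => 2 * s.2 + grp s.1 = γ)).erase (P.star γ), ∑ s ∈ I, dg s.1 = t := by
  have h1 := H.hN
  have h2 := H.hJb
  have h3 := H.hJb'
  have h4 : P.star γ ∈ M := hM' _ ⟨by simp only [star]; omega, hγ⟩
    (by simp only [star, o3]; omega) (by simp only [star]; omega)
  have h5 : 2 * (P.star γ).2 + grp (P.star γ).1 = γ := by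
    simp only [star, o3, hD.gst (γ % 2) (by omega)]; omega
  set I := (M.filter (fun s => 2 * s.2 + grp s.1 = γ)).image Prod.fst with hI
  have h6 : P.o3 + γ % 2 ∈ I := mem_image.2 ⟨_, mem_filter.2 ⟨h4, h5⟩, rfl⟩
  obtain ⟨h7, h8⟩ := hD.comp (γ % 2) (by omega) (I.erase (P.o3 + γ % 2)) (fun i hi => by
    obtain ⟨s, a1, rfl⟩ := mem_image.1 (mem_of_mem_erase hi)
    have a2 := (mem_filter.1 a1).2
    have a3 := hD.g2 s.1
    omega) (fun i a1 a2 a3 => mem_erase.2 ⟨by unfold o3; omega, mem_image.2 ⟨(i, γ / 2),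
      mem_filter.2 ⟨hM' _ ⟨by unfold o3 at h1; simp only; omega, hγ⟩ (by simp only; omega)
        (by unfold o3; simp only; omega), by simp only; omega⟩, rfl⟩⟩)
  have h9 : ∑ s ∈ M.filter (fun s => 2 * s.2 + grp s.1 = γ), dg s.1 =
      ∑ i ∈ I.erase (P.o3 + γ % 2), dg i + 1 := by
    rw [grp_eq hD γ, sum_line, ← hI, ← sum_erase_add _ _ h6, hD.one _ (by unfold o3; omega)]
  refine ⟨h4, h5, by omega, fun t ht => ?_⟩
  obtain ⟨I', a1, a2⟩ := h8 t (by omega)
  refine ⟨I'.image (fun i => (i, γ / 2)), fun s hs => ?_, by rw [sum_line, a2]⟩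
  obtain ⟨i, b1, rfl⟩ := mem_image.1 hs
  obtain ⟨b2, b3⟩ := mem_erase.1 (a1 b1)
  refine mem_erase.2 ⟨fun h => b2 (Prod.mk.inj h).1, ?_⟩
  rw [grp_eq hD γ]
  exact mem_image_of_mem _ b3

omit hM' in
theorem grp_le (γ : ℕ) :
    ∑ s ∈ M.filter (fun s => 2 * s.2 + grp s.1 = γ), dg s.1 + 2 * P.Q ≤ P.m := by
  have h1 := hD.tot (γ % 2) (by omega)
  have h2 := H.hcap
  have h3 : ∑ s ∈ M.filter (fun s => 2 * s.2 + grp s.1 = γ), dg s.1 ≤
      ∑ i ∈ (range P.N).filter (fun i => grp i = γ % 2), dg i := by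
    rw [grp_eq hD γ, sum_line]
    refine sum_le_sum_of_subset fun i hi => ?_
    obtain ⟨s, a1, rfl⟩ := mem_image.1 hi
    obtain ⟨a2, a3⟩ := mem_filter.1 a1
    have a4 := hD.g2 s.1
    exact mem_filter.2 ⟨mem_range.2 (hM s a2).1, by omega⟩
  omega

theorem main_chain : ∃ blk pos cl, Chain M (fun s => dg s.1) (fun s => 2 * s.2 + grp s.1) P.star
    (P.Cut dg) blk pos cl := by
  refine exists_chain M _ _ (fun s => hD.d1 _) _ _ (by simp [Cut]) (Cut_mono H hD)
    (fun γ t h => ?_) (fun b γ => ?_)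
  · rw [gs_succ] at h
    have h1 : γ / 2 < P.nl := by
      obtain ⟨s, hs⟩ := nonempty_of_sum_ne_zero
        (show ∑ s ∈ M.filter (fun s => 2 * s.2 + grp s.1 = γ), dg s.1 ≠ 0 by omega)
      obtain ⟨a1, a2⟩ := mem_filter.1 hs
      have := (hM s a1).2
      have := hD.g2 s.1
      omega
    obtain ⟨a1, a2, -, a3⟩ := grp_comp H hD hM' h1
    exact ⟨a1, a2, a3 t (by omega)⟩
  · have h1 := Cut_succ H hD b
    have h2 := grp_le H hD hM γ
    rw [gs_succ]
    omega

omit hM in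
theorem gs_ge {l k : ℕ} (h : l + k ≤ P.nl) :
    gs M (fun s => dg s.1) (fun s => 2 * s.2 + grp s.1) (2 * l) + k * (P.Q + 1) ≤
      gs M (fun s => dg s.1) (fun s => 2 * s.2 + grp s.1) (2 * (l + k)) := by
  induction k with
  | zero => simp
  | succ k ih =>
    have h1 := ih (by omega)
    have h2 := (grp_comp H hD hM' (γ := 2 * (l + k)) (by omega)).2.2.1
    rw [show 2 * (l + (k + 1)) = 2 * (l + k) + 1 + 1 by ring, gs_succ, gs_succ, add_one_mul]
    omega

end

end LP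

end Pool.Agent.Lib.MP_05aa0e_al.Ex
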