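import Mathlib

set_option autoImplicit false

namespace Pool.Agent.Lib.MP_05aa0e_al.Ex

theorem exists_seq {σ : Type*} (Inv : ℕ → σ → Prop) (Step : ℕ → σ → σ → Prop) (s0 : σ)
    (h0 : Inv 0 s0) (h : ∀ j s, Inv j s → ∃ s', Inv (j + 1) s' ∧ Step j s s') :
    ∃ F : ℕ → σ, F 0 = s0 ∧ ∀ j, Inv j (F j) ∧ Step j (F j) (F (j + 1)) := by
  choose g hg using h
  let F : ∀ j, {s // Inv j s} := fun j =>
    Nat.rec ⟨s0, h0⟩ (fun j s => ⟨g j s.1 s.2, (hg j s.1 s.2).1⟩) j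
  exact ⟨fun j => (F j).1, rfl, fun j => ⟨(F j).2, (hg j _ (F j).2).2⟩⟩

theorem step1 (m Q J K N : ℕ) (θ c : ℝ) (h1 : 1 / 2 ≤ θ) (h2 : θ ≤ 3 / 2) (h3 : 0 ≤ c) (h4 : c ≤ 4)
    (hm1 : J * Q < m) (hm2 : m ≤ J * Q + J) (hJ : 20 ≤ J) (hN : 2 * J + 2 * K + 3 ≤ N)
    (hQ : 4 * N ≤ Q) : ∃ ρ Jb t : ℕ, (ρ ≤ θ * m + c ∧ θ * m + c < ρ + 1) ∧ (1 ≤ Jb ∧ Jb ≤ 2 * J) ∧
      (Q ≤ t ∧ t < 2 * Q) ∧ ρ + Jb + 2 * K = Jb * Q + Q + t + N ∧
      Jb * Q + 11 * Q + 2 * N ≤ 2 * m ∧ θ * J - 4 ≤ Jb ∧ m ≤ 3 * ρ ∧ ρ ≤ 2 * m := by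
  have hm0 : (0 : ℝ) ≤ m := Nat.cast_nonneg m
  obtain ⟨ρ, a1, a2⟩ : ∃ ρ : ℕ, ρ ≤ θ * m + c ∧ θ * m + c < ρ + 1 :=
    ⟨⌊θ * m + c⌋₊, Nat.floor_le (by positivity), Nat.lt_floor_add_one _⟩
  have a3 : m < 2 * ρ + 2 := by
    have : (m : ℝ) < 2 * ρ + 2 := by linarith [mul_le_mul_of_nonneg_right h1 hm0]
    exact_mod_cast this
  have a4 : 2 * ρ ≤ 3 * m + 8 := by
    have : 2 * (ρ : ℝ) ≤ 3 * m + 8 := by linarith [mul_le_mul_of_nonneg_right h2 hm0]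
    exact_mod_cast this
  have a5 : 20 * Q ≤ J * Q := Nat.mul_le_mul_right _ hJ
  obtain ⟨Q', rfl⟩ : ∃ Q', Q = Q' + 1 := ⟨Q - 1, by omega⟩
  obtain ⟨a, ha⟩ : ∃ a, ρ + 2 * K = N + 2 * (Q' + 1) + a := ⟨ρ + 2 * K - (N + 2 * (Q' + 1)), by omega⟩
  have b1 := Nat.div_add_mod a Q'
  have b2 := Nat.mod_lt a (show 0 < Q' by omega)
  set Jb := a / Q' with hJb
  have b3 : Jb * (Q' + 1) = Q' * Jb + Jb := by ring
  have b4 : 1 ≤ Jb := (Nat.le_div_iff_mul_le (by omega)).2 (by omega)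
  have b6 : 8 * J ≤ J * Q' := by rw [mul_comm]; exact Nat.mul_le_mul_left _ (by omega)
  have b7 : J * (Q' + 1) = J * Q' + J := by ring
  have b5 : Jb ≤ 2 * J := Nat.div_le_of_le_mul (by rw [show Q' * (2 * J) = 2 * (J * Q') by ring]; omega)
  refine ⟨ρ, Jb, Q' + 1 + a % Q', ⟨a1, a2⟩, ⟨b4, b5⟩, ⟨by omega, by omega⟩, by omega, by omega, ?_,
    by omega, by omega⟩
  have c1 : ρ + 1 ≤ (Jb + 4) * (Q' + 1) := by rw [add_mul]; omega
  have c2 : (ρ : ℝ) + 1 ≤ (Jb + 4) * (Q' + 1 : ℕ) := by exact_mod_cast c1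
  have c3 : (J : ℝ) * (Q' + 1 : ℕ) ≤ m := by exact_mod_cast hm1.le
  have c4 : (0 : ℝ) < (Q' + 1 : ℕ) := by positivity
  have c5 : θ * J * (Q' + 1 : ℕ) ≤ (Jb + 4) * (Q' + 1 : ℕ) := by
    linarith [mul_le_mul_of_nonneg_left c3 (show 0 ≤ θ by linarith)]
  linarith [le_of_mul_le_mul_right c5 c4]

theorem step2 (n m Q J A u ρ f' Jb' : ℕ) (θ θ' κ' : ℝ) (h1 : 0 ≤ θ) (h2 : θ ≤ 3 / 2)
    (h3 : θ * θ' + κ' ≤ 4) (hm1 : J * Q < m) (hm2 : m ≤ J * Q + J) (hJ : 2 * A + 1 ≤ J)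
    (hJQ : J ≤ Q) (hA : n ≤ A * m) (hA' : n ≤ A * u) (hu : u ≤ n) (hm : m ≤ n)
    (hQ : 30 * A * (J + 1) ≤ Q) (hρ1 : θ * m < ρ + 1) (hρ2 : m ≤ 3 * ρ) (hρ3 : ρ ≤ 2 * m)
    (hf : f' ≤ J + 1) (hf' : κ' * J ≤ f') (hb : Jb' ≤ 2 * J) (hb' : θ' * J - 4 ≤ Jb') :
    ∃ zz : ℕ, zz ≤ 5 * A * (J + 1) ∧ zz * (m + Q) ≤ 5 * A * (J + 1) * (J + 1) * u ∧
      (zz = 0 ∨ ∃ X, X * m + zz * (m + Q) ≤ u * ρ ∧
        zz * (J + 1) + Jb' ≤ f' * (u / Q) + Jb' * (X / Q)) ∧ (f' = 0 → Jb' = 0 → zz = 0) ∧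
      (θ * θ' + κ') * u * (J + 1) ≤ zz * Q * (J + 1) + 10 * u + 10 * m := by
  set Zm := 5 * A * (J + 1) with hZm
  have q0 : 0 < Q := by omega
  have m0 : 0 < m := by omega
  have a1 : Q ≤ J * Q := Nat.le_mul_of_pos_left _ (by omega)
  have a2 : m ≤ (J + 1) * Q := by rw [add_one_mul]; omega
  have a3 : n ≤ A * (J + 1) * Q := hA.trans (by rw [mul_assoc]; exact Nat.mul_le_mul_left _ a2)
  have a4 : Q ≤ u := by
    by_contra h
    have b1 : A * u ≤ J * Q := Nat.mul_le_mul (by omega) (by omega)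
    omega
  have a5 : 6 * Zm ≤ Q := by rw [hZm]; linarith
  have a6 : Zm * (m + Q) ≤ u * ρ := by
    have b1 : Zm * (m + Q) ≤ Zm * (6 * ρ) := Nat.mul_le_mul_left _ (by omega)
    have b2 : 6 * Zm * ρ ≤ u * ρ := Nat.mul_le_mul_right _ (by omega)
    linarith
  set X := (u * ρ - Zm * (m + Q)) / m with hX
  have x1 : X * m + Zm * (m + Q) ≤ u * ρ := by
    have := Nat.div_mul_le_self (u * ρ - Zm * (m + Q)) m
    rw [← hX] at this
    omega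
  have x2 : u * ρ < X * m + m + Zm * (m + Q) := by
    have := Nat.lt_div_mul_add (a := u * ρ - Zm * (m + Q)) m0
    rw [← hX] at this
    omega
  have x3 : X ≤ 2 * u := by
    refine Nat.div_le_of_le_mul ((Nat.sub_le _ _).trans ?_)
    linarith [Nat.mul_le_mul_left u hρ3]
  set T := f' * (u / Q) + Jb' * (X / Q) with hT
  have t1 : u / Q ≤ A * (J + 1) := Nat.div_le_of_le_mul (by linarith)
  have t2 : X / Q ≤ 2 * (A * (J + 1)) := Nat.div_le_of_le_mul (by linarith)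
  have t3 : T ≤ (J + 1) * Zm := by
    have b1 := Nat.mul_le_mul hf t1
    have b2 := Nat.mul_le_mul hb t2
    rw [hT, hZm]
    linarith [Nat.zero_le (A * J)]
  set zz := (T - Jb') / (J + 1) with hzz
  have z1 : zz ≤ Zm := Nat.div_le_of_le_mul ((Nat.sub_le _ _).trans t3)
  have z2 : zz * (J + 1) ≤ T - Jb' := Nat.div_mul_le_self _ _
  have z3 : T - Jb' < zz * (J + 1) + (J + 1) := Nat.lt_div_mul_add (by omega)
  have z4 : zz * (m + Q) ≤ Zm * (m + Q) := Nat.mul_le_mul_right _ z1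
  refine ⟨zz, z1, ?_, ?_, fun e1 e2 => by simp [hzz, hT, e1, e2], ?_⟩
  · have b1 : m + Q ≤ (J + 1) * u := by
      have : 2 * (A * u) ≤ (J + 1) * u := by rw [← mul_assoc]; exact Nat.mul_le_mul_right _ (by omega)
      omega
    rw [mul_assoc Zm]
    exact z4.trans (Nat.mul_le_mul_left _ b1)
  · by_cases h : Jb' ≤ T
    · exact Or.inr ⟨X, by omega, by omega⟩
    · left
      rw [hzz, show T - Jb' = 0 by omega, Nat.zero_div]
  · have u1 : u ≤ u / Q * Q + Q := (Nat.lt_div_mul_add q0).le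
    have u2 : X ≤ X / Q * Q + Q := (Nat.lt_div_mul_add q0).le
    have u3 : u * ρ + u ≤ (X + Q) * m := by
      have b1 : Zm * (m + Q) ≤ Zm * (2 * m) := Nat.mul_le_mul_left _ (by omega)
      have b2 : A ≤ Zm := by rw [hZm]; linarith [Nat.zero_le (A * J)]
      have b3 : (A + 1 + 2 * Zm) * m ≤ Q * m := Nat.mul_le_mul_right _ (by omega)
      linarith
    have u4 : f' * u + Jb' * (X + Q) ≤ zz * Q * (J + 1) + 10 * m := by
      have b1 := Nat.mul_le_mul_left f' u1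
      have b2 := Nat.mul_le_mul_left Jb' u2
      have b3 : T * Q ≤ (zz * (J + 1) + (J + 1) + Jb') * Q := Nat.mul_le_mul_right _ (by omega)
      have b4 := Nat.mul_le_mul_right Q hf
      have b5 := Nat.mul_le_mul_right Q hb
      rw [hT] at b3
      linarith
    have r1 : (u : ℝ) * ρ + u ≤ (X + Q) * m := by exact_mod_cast u3
    have r2 : (f' : ℝ) * u + Jb' * (X + Q) ≤ zz * Q * (J + 1) + 10 * m := by exact_mod_cast u4
    have r3 : (0 : ℝ) ≤ u := Nat.cast_nonneg _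
    have r4 : (0 : ℝ) < m := by exact_mod_cast m0
    have r5 : θ * u ≤ X + Q := by
      refine le_of_mul_le_mul_right ?_ r4
      linarith [mul_le_mul_of_nonneg_left hρ1.le r3]
    have r6 : (0 : ℝ) ≤ Jb' := Nat.cast_nonneg _
    have r7 := mul_le_mul_of_nonneg_left r5 r6
    have r8 := mul_le_mul_of_nonneg_right hb' (mul_nonneg h1 r3)
    have r9 := mul_le_mul_of_nonneg_right hf' r3
    have r10 := mul_le_mul_of_nonneg_right h3 r3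
    have r11 := mul_le_mul_of_nonneg_right h2 r3
    linarith

theorem step3 (m V M : ℕ) (hm : 0 < m) (h : M * m ≤ V) :
    ∃ B R, B * m = V + R ∧ R < m ∧ M ≤ B := by
  have h1 := Nat.div_mul_le_self (V + m - 1) m
  have h2 := Nat.lt_div_mul_add (a := V + m - 1) hm
  exact ⟨(V + m - 1) / m, (V + m - 1) / m * m - V, by omega, by omega,
    (Nat.le_div_iff_mul_le hm).2 (by omega)⟩

end Pool.Agent.Lib.MP_05aa0e_al.Ex
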