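import Pool.Agent.Lib.MP_05aa0e_al.ExCol
import Pool.Agent.Lib.MP_05aa0e_al.ExLevel
import Pool.Agent.Lib.MP_05aa0e_al.ExLay

set_option autoImplicit false

namespace Pool.Agent.Lib.MP_05aa0e_al.Ex

open Finset

theorem Sys.cII_le (S : Sys) : S.cII ≤ 2 * ((range S.n).filter
    (fun a => ¬ (S.z a ≤ 6 ∨ (12 ≤ S.z a ∧ S.z a % 5 = 2)))).card * S.n + S.L * S.N * S.n := by
  classical
  set E := (range S.n).filter (fun a => ¬ (S.z a ≤ 6 ∨ (12 ≤ S.z a ∧ S.z a % 5 = 2))) with hE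
  have h1 : S.allC.filter S.II ⊆ (E ×ˢ range S.n ∪ range S.n ×ˢ E).disjSum
      (range S.L ×ˢ range S.N ×ˢ range S.n) := by
    intro κ h
    obtain ⟨h1, h2⟩ := mem_filter.1 h
    rcases κ with ⟨a, b⟩ | p
    · simp only [Sys.allC, inl_mem_disjSum, mem_product, mem_range, mem_union, hE, mem_filter,
        Sys.II, Sys.isX, Sys.isY, Sys.Ord] at h1 h2 ⊢
      omega
    · simpa [Sys.allC] using h1
  refine (card_le_card h1).trans ?_
  rw [card_disjSum]
  refine add_le_add ((card_union_le _ _).trans ?_) ?_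
  · simp only [card_product, card_range]; exact le_of_eq (by ring)
  · simp only [card_product, card_range]; exact le_of_eq (by ring)

/-- All numerical parameters. -/
structure Num extends Lay where
  J : ℕ
  K : ℕ
  Z : ℕ
  d : ℕ
  Q : ℕ → ℕ
  ρ : ℕ → ℕ
  Jb : ℕ → ℕ
  f : ℕ → ℕ
  Bm : ℕ → ℕ
  t : ℕ → ℕ
  zz : ℕ → ℕ → ℕ

namespace Num

variable (U : Num)

def m (j : ℕ) : ℕ := U.n - U.G (j - 1)
def ns (j : ℕ) : ℕ := if j + 1 < U.L then U.f j + 2 * U.Jb j else 0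
def sz (j : ℕ) : ℕ := ∑ β ∈ range (j + 1), U.zz j β

def lp (j : ℕ) : LP :=
  { N := U.N, J := U.J, K := U.K, W := U.W, Z := U.Z, m := U.m j, Q := U.Q j, ρ := U.ρ j,
    Jb := U.Jb j, f := U.f j, nl := U.nl j, nb := j + 1, ns := U.ns j, Bm := U.Bm j,
    top := j + 1 < U.L, z := U.z, Us := U.Us, uz := U.uz, zz := U.zz j }

/-- The numerical conditions for one level. -/
structure LevOK (j : ℕ) : Prop where
  hJb : 1 ≤ U.Jb j
  hJb' : U.Jb j ≤ 2 * U.J
  hm1 : U.J * U.Q j < U.m j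
  hm2 : U.m j ≤ U.J * U.Q j + U.J
  hJQ : U.J ≤ U.Q j
  hK : U.K ≤ U.Q j
  hK' : 2 * U.Q j ≤ 2 ^ U.K
  ht : U.Q j ≤ U.t j
  ht' : U.t j < 2 * U.Q j
  hρ : U.ρ j + U.Jb j + 2 * U.K = U.Jb j * U.Q j + U.Q j + U.t j + U.N
  hW1 : U.ns j * U.J ≤ U.W
  hW2 : U.N * U.N * U.m j ≤ U.W * U.Q j
  hcap : U.Jb j * U.Q j + 11 * U.Q j + 2 * U.N ≤ 2 * U.m j
  hBm : j + 1 < U.L → U.N * U.N ≤ U.Bm j ∧ U.ρ j * (U.nl j + U.N) + U.f j * U.Q j ≤
    (U.Bm j + U.ns j + U.sz j) * U.m j + U.sz j * U.Q j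
  hBm' : ¬ j + 1 < U.L → U.ρ j * U.nl j ≤ (U.Bm j + U.sz j) * U.m j + U.sz j * U.Q j
  zone : ∀ β ≤ j, U.zz j β * (U.m j + U.Q j) ≤ U.Z * U.uz β ∧ U.zz j β * (U.J + 1) ≤ U.Z ∧
    (U.zz j β = 0 ∨ ∃ X, X * U.m j + U.zz j β * (U.m j + U.Q j) ≤ U.uz β * U.ρ j ∧
      U.zz j β * (U.J + 1) + U.Jb (j - 1) ≤
        U.f (j - 1) * (U.uz β / U.Q j) + U.Jb (j - 1) * (X / U.Q j))

structure OK : Prop where
  lay : U.toLay.OK
  hN : 2 * U.J + 2 * U.K + 3 + U.L * U.Z ≤ U.N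
  lev : ∀ j, 1 ≤ j → j < U.L → U.LevOK j
  z1 : ∀ β, U.zz 1 β = 0
  load : ∀ q < U.L, (U.n - U.G q) * U.nl q + (if 1 ≤ q then U.Bm q + U.ns q + U.sz q else 0) +
    (if q + 1 < U.L then U.N * U.m (q + 1) else 0) ≤ U.d + if q + 1 < U.L then U.ρ (q + 1) else 0
  hII : ∀ β < U.L, 11 * U.L * U.N * U.n ≤ U.uz β * U.W ∧ 11 * U.L * U.N * U.n ≤ U.uz β ^ 2

variable {U}

theorem lh (H : U.OK) {j : ℕ} (h1 : 1 ≤ j) (h2 : j < U.L) : (U.lp j).LH := by
  have A := H.lev j h1 h2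
  have h3 := H.hN
  have h4 : (j + 1) * U.Z ≤ U.L * U.Z := Nat.mul_le_mul_right _ h2
  have h5 := Lay.nl_ge H.lay h1 h2
  have h6 := Lay.G_ge H.lay le_rfl j h1 h2.le
  have h7 := H.lay.h1
  exact ⟨A.hJb, A.hJb', A.hm1, A.hm2, A.hJQ, by simp only [lp, LP.o3]; omega,
    fun h => if_pos h, fun h => if_neg h, A.hW1, A.hW2, by simp only [lp]; omega, A.hcap,
    Lay.z_mono H.lay, Lay.z_zero H.lay, fun l l' _ h => Lay.z_gap H.lay h,
    fun β hβ => ⟨Lay.U_le H.lay (Nat.lt_succ_iff.1 hβ) h2, (A.zone β (Nat.lt_succ_iff.1 hβ)).1,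
      fun t ht => (Lay.z_U H.lay β ht).2⟩, A.hBm, A.hBm'⟩

theorem exists_lvl (H : U.OK) (j : ℕ) : ∃ dg bid pos len tp sn ext, 1 ≤ j → j < U.L →
    LP.Lvl (U.lp j) (U.f (j - 1)) (U.Jb (j - 1)) dg bid pos len tp sn ext := by
  by_cases h : 1 ≤ j ∧ j < U.L
  · have A := H.lev j h.1 h.2
    have h3 := H.hN
    obtain ⟨dg, grp, hD⟩ := exists_deg U.J (U.Jb j) (U.Q j) U.K U.N (U.ρ j) (U.t j) A.hJb'
      (by omega) A.hK A.hK' A.ht A.ht' A.hρ
    obtain ⟨bid, pos, len, tp, sn, ext, h'⟩ := LP.exists_level (lh H h.1 h.2) hD (U.f (j - 1))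
      (U.Jb (j - 1)) fun β hβ => (A.zone β (Nat.lt_succ_iff.1 hβ)).2
    exact ⟨dg, bid, pos, len, tp, sn, ext, fun _ _ => h'⟩
  · exact ⟨default, default, default, default, default, default, default,
      fun h1 h2 => absurd ⟨h1, h2⟩ h⟩

theorem nil_of_num (H : U.OK) (K : Type*) [Field K] : Nil K U.n U.d (U.L + 1) := by
  classical
  choose dg bid pos len tp sn ext hl using exists_lvl H
  have Y := H.lay
  have hL2 := Y.hL
  let ex : ℕ → ℕ × ℕ → Finset ℕ → Finset (ℕ × ℕ) := fun j ν T =>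
    ((range (U.ns j) ×ˢ T ×ˢ range U.N).filter (fun a => sn j a.1 a.2.1 = ν ∧
      ext (j + 1) a.1 a.2.1 a.2.2)).image (fun a => (a.2.1 * U.Q (j + 1), a.2.2))
  have mex : ∀ j ν T p, p ∈ ex j ν T ↔ ∃ s < U.ns j, ∃ σ ∈ T, ∃ a < U.N, sn j s σ = ν ∧
      ext (j + 1) s σ a ∧ p = (σ * U.Q (j + 1), a) := fun j ν T p => by
    simp only [ex, mem_image, mem_filter, mem_product, mem_range]
    constructor
    · rintro ⟨⟨s, σ, a⟩, ⟨⟨h1, h2, h3⟩, h4, h5⟩, rfl⟩
      exact ⟨s, h1, σ, h2, a, h3, h4, h5, rfl⟩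
    · rintro ⟨s, h1, σ, h2, a, h3, h4, h5, rfl⟩
      exact ⟨⟨s, σ, a⟩, ⟨⟨h1, h2, h3⟩, h4, h5⟩, rfl⟩
  let mk : (Cmp → ℕ × ℕ) → Sys := fun r =>
    { n := U.n, L := U.L, N := U.N, J := U.J, lp := 2 * U.J + 2 * U.K + 2, z := U.z, m := U.m,
      Q := U.Q, h := fun _ u => U.n - 1 - u, X := fun j i => U.G j + i,
      Y := fun j i => U.G j - 1 - i,
      ix := fun a => if U.z a % 5 = 4 then a - U.G ((U.z a - 4) / 5)
        else U.G ((U.z a - 3) / 5) - 1 - a,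
      dg := dg, bid := bid, pos := pos, len := len, tp := tp, df := fun _ B => B.1 = 2,
      fx := fun j ν => ex j ν (range U.J), fy := fun j ν => ex j ν {U.J}, res := r }
  have hNd : ∀ r j, j < U.L → ∀ ν, (mk r).Nd j ν ↔ (U.lp j).Nd ν := fun r j hj ν =>
    and_congr Iff.rfl (Lay.lt_nl Y hj ν.2).symm
  have hB : ∀ r j, 1 ≤ j → j < U.L → (mk r).GoodB j := by
    intro r j h1 h2
    have A := H.lev j h1 h2
    have V := hl j h1 h2
    have N := hNd r j h2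
    have hex : ∀ ν T, (∀ σ ∈ T, σ ≤ U.J) → ∀ p ∈ ex j ν T,
        (j + 1 < U.L ∧ p.1 < U.m (j + 1) ∧ p.2 < U.N) ∧ (bid j ν).1 = 1 := by
      intro ν T hT p hp
      obtain ⟨s, a1, σ, a2, a, a3, rfl, -, rfl⟩ := (mex _ _ _ _).1 hp
      have a4 : j + 1 < U.L := by
        by_contra a4
        simp [ns, a4] at a1
      exact ⟨⟨a4, (Nat.mul_le_mul_right _ (hT σ a2)).trans_lt (H.lev _ (by omega) a4).hm1, a3⟩,
        by rw [((V.src s a1).2.2.2 σ (hT σ a2)).2.1]⟩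
    have hx := fun ν => hex ν (range U.J) fun σ h => (mem_range.1 h).le
    have hy := fun ν => hex ν {U.J} fun σ h => (mem_singleton.1 h).le
    have hemp : ∀ μ, (bid j μ).1 = 0 → ex j μ (range U.J) = ∅ ∧ ex j μ {U.J} = ∅ := fun μ h =>
      ⟨eq_empty_of_forall_notMem fun p hp => by have := (hx μ p hp).2; omega,
        eq_empty_of_forall_notMem fun p hp => by have := (hy μ p hp).2; omega⟩
    refine ⟨V.d1, A.hm1, A.hm2.trans (Nat.add_le_add_left A.hJQ _),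
      fun ν a => V.til.c0 ν ((N ν).1 a), fun ν a b => ?_, fun ν a b => ?_,
      fun μ μ' a b => V.til.c3 μ μ' ((N _).1 a) ((N _).1 b),
      fun μ μ' a b => V.til.loc μ μ' ((N _).1 a) ((N _).1 b),
      fun μ μ' a b => V.til.mono μ μ' ((N _).1 a) ((N _).1 b),
      fun ν a => V.lenle ν ((N ν).1 a), V.tpv, fun ν p hp => (hx ν p hp).1,
      fun ν p hp => (hy ν p hp).1, fun ν a b => ?_, fun i i' a b c => ?_, fun ν a b => ?_,
      fun ν a b σ hσ i hi => ?_⟩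
    · obtain ⟨μ, c1, c2⟩ := V.til.c1 ν ((N ν).1 a) b
      exact ⟨μ, (N μ).2 c1, c2⟩
    · obtain ⟨μ, c1, c2⟩ := V.til.c2 ν ((N ν).1 a) b
      exact ⟨μ, (N μ).2 c1, c2⟩
    · obtain ⟨c1, c2⟩ := V.sB ν ((N ν).1 a) b
      exact ⟨c1, fun h => by have : (bid j ν).1 = 2 := h; omega,
        fun μ _ c3 => hemp μ ((congrArg Prod.fst c3).trans c2)⟩
    · obtain ⟨ν, c1, c2, c3, c4, c5, c6⟩ := V.sD a i b i' c
      exact ⟨ν, (N ν).2 c1, c2, c3, c4, fun μ d1 d2 => ⟨c6 μ ((N μ).1 d1) d2,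
        fun h => hemp μ ((congrArg Prod.fst d2).trans (c5 h))⟩⟩
    · obtain ⟨⟨β, c1⟩, c2, c3⟩ := V.dfb ν ((N ν).1 a) b
      refine ⟨?_, c2, fun μ d1 => c3 μ ((N μ).1 d1)⟩
      by_contra h
      obtain rfl : j = 1 := by omega
      exact absurd (H.z1 β) c1.ne'
    · obtain ⟨⟨β, c1⟩, -⟩ := V.dfb ν ((N ν).1 a) b
      obtain ⟨p, rfl, hp⟩ : ∃ p, j = p + 1 ∧ 1 ≤ p := by
        refine ⟨j - 1, by omega, ?_⟩
        by_contra h
        obtain rfl : j = 1 := by omega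
        exact absurd (H.z1 β) c1.ne'
      obtain ⟨μ, s, d1, d2, d3, d4, d5, d6, d7⟩ := V.anc ν ((N ν).1 a) b σ hσ i hi
      have V' := hl p hp (by omega)
      have N' := hNd r p (by omega)
      have d8 : s < U.ns p := by simpa [ns, h2] using d4
      obtain ⟨e1, e2, e3, e4⟩ := V'.src s d8
      obtain ⟨e5, e6, e7, e8⟩ := e4 σ hσ
      have e9 : ∀ γ' T, (∀ σ ∈ T, σ ≤ U.J) → bid p γ' = (1, s, 0) → ∀ q ∈ ex p γ' T,
          (σ ∈ T ∧ γ' = sn p s σ ∧ q = (σ * U.Q (p + 1), μ.1)) ∨ (mk r).NS (p + 1) μ.2 q := by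
        intro γ' T hT g1 q hq
        obtain ⟨s', a1, σ', a2, a', a3, rfl, a5, rfl⟩ := (mex _ _ _ _).1 hq
        rw [((V'.src s' a1).2.2.2 σ' (hT σ' a2)).2.1] at g1
        obtain rfl : s' = s := by simpa using g1
        exact (d7 σ' a' a5).imp (fun h => by rw [← h.1, h.2]; exact ⟨a2, rfl, rfl⟩) id
      refine ⟨μ, sn p s σ, (N μ).2 d1, d2, d3, (N' _).2 e5, ?_, fun q hq => ?_,
        fun h => ⟨e7 h, (mex _ _ _ _).2 ⟨s, d8, σ, mem_range.2 h, μ.1, d1.1, rfl, d5, rfl⟩⟩,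
        fun h => ⟨?_, (e8 h).2, (mex _ _ _ _).2 ⟨s, d8, σ, mem_singleton.2 h, μ.1, d1.1, rfl, d5,
          rfl⟩⟩, fun γ' g1 g2 => ⟨e3 γ' ((N' _).1 g1) (g2.trans e6), fun q hq => ?_,
          fun q hq => ?_⟩⟩
      · exact (congrArg (fun B => len p B + U.Q p) e6).trans e1
      · obtain ⟨g1, g2⟩ := e2 q ((congrArg (tp p) e6).symm.trans hq)
        have := d6 g1
        unfold Sys.la
        rw [g2]
        exact this
      · exact (e8 h).1.trans (congrArg (len p) e6).symm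
      · exact (e9 γ' _ (fun σ h => (mem_range.1 h).le) (g2.trans e6) q hq).imp
          (fun h => ⟨mem_range.1 h.1, h.2⟩) id
      · exact (e9 γ' _ (fun σ h => (mem_singleton.1 h).le) (g2.trans e6) q hq).imp
          (fun h => ⟨mem_singleton.1 h.1, h.2⟩) id
  have hc : ∀ r, (mk r).cII ≤ 11 * U.L * U.N * U.n := fun r => by
    refine (Sys.cII_le _).trans ((Nat.add_le_add_right (Nat.mul_le_mul_right _
      (Nat.mul_le_mul_left _ (Lay.card_nonord Y))) _).trans (le_of_eq ?_))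
    simp only [mk]; ring
  obtain ⟨e, he1, he2⟩ := exists_index ((mk default).allC.filter (mk default).II)
  have hm : ∀ j, U.m j ≤ U.n := fun j => Nat.sub_le _ _
  have hmem : ∀ κ, (mk default).Val κ → (mk default).II κ →
      κ ∈ (mk default).allC.filter (mk default).II := fun κ h h' => by
    refine mem_filter.2 ⟨?_, h'⟩
    rcases κ with ⟨a, b⟩ | ⟨j, i, u⟩
    · simpa [Sys.allC] using ⟨h.1, h.2.1⟩
    · simpa [Sys.allC] using ⟨h.2.1, h.2.2.1, h.2.2.2.2.trans_le (hm j)⟩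
  have hW : 0 < U.W := by have := Y.hW; have := H.hN; omega
  have hlo : ∀ κ, (mk default).Val κ → (mk default).lo κ < U.L := fun κ h => by
    rcases κ with p | p
    · have : U.z p.2 ≤ 5 * U.L + 2 := Lay.z_le _
      simp only [Sys.lo, Sys.st, mk]; omega
    · have : p.1 < U.L := h.2.1
      simp only [Sys.lo]; omega
  have he3 : ∀ κ, (mk default).Val κ → (mk default).II κ →
      e κ / U.W < U.uz ((mk default).lo κ - 1) := fun κ h h' => by
    have a1 := (he1 κ (hmem κ h h')).trans_le (hc default)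
    have a2 := (H.hII ((mk default).lo κ - 1) (by have := hlo κ h; omega)).1
    exact (Nat.div_lt_iff_lt_mul hW).2 (a1.trans_le a2)
  let r : Cmp → ℕ × ℕ := fun κ => (U.Us ((mk default).lo κ - 1) + e κ / U.W,
    (if κ.isRight then 1 else 4) * U.W + e κ % U.W)
  have hr2 : ∀ κ, (r κ).2 < U.n ∧ U.z (r κ).2 = if κ.isRight then 1 else 4 := fun κ => by
    have a1 := Nat.mod_lt (e κ) hW
    have a2 := Lay.zs_le Y 5
    rw [Lay.zs_low (by omega)] at a2
    have a3 : (r κ).2 < U.n := by simp only [r]; split_ifs <;> omega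
    refine ⟨a3, (Lay.z_eq Y a3 _).2 ?_⟩
    rw [Lay.zs_low (by split_ifs <;> omega), Lay.zs_low (by split_ifs <;> omega), add_one_mul]
    simp only [r]; omega
  have hL : (mk r).GoodL := by
    refine ⟨fun a _ => Lay.z_le a, fun j u h1 h2 h3 => ?_, fun j a h1 h2 h3 h4 => ?_,
      fun j i h1 h2 h3 => ?_, fun j i h1 h2 h3 => ?_, fun j a h1 h2 h3 => ?_,
      fun j a h1 h2 h3 => ?_, ?_, fun κ h1 h2 h3 => ?_⟩
    · simp only [mk, m] at h2 h3 ⊢
      have a1 := (Lay.z_H Y (j := j - 1) (by omega) (a := U.n - 1 - u) (by omega)).2 (by omega)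
      omega
    · simp only [mk, m] at h2 h3 h4 ⊢
      have a1 := (Lay.z_H Y (j := j - 1) (by omega) h3).1 (by omega)
      exact ⟨U.n - 1 - a, by omega, by omega⟩
    · simp only [mk] at h2 h3 ⊢
      have a1 := Y.hG j h1 h2
      have a2 := Lay.G_le Y (show j + 1 ≤ U.L from h2)
      have a3 := (Lay.z_X Y h1 h2 (a := U.G j + i) (by omega)).2 (by omega)
      refine ⟨by omega, a3, ?_⟩
      rw [a3, if_pos (by omega), show (5 * j + 4 - 4) / 5 = j by omega]; omega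
    · simp only [mk] at h2 h3 ⊢
      have a1 := Lay.G_ge Y le_rfl j h1 h2.le
      have a2 := Lay.G_le Y h2.le
      have a4 := Y.h1
      have a3 := (Lay.z_Y Y h1 h2 (a := U.G j - 1 - i) (by omega)).2 (by omega)
      refine ⟨by omega, a3, ?_⟩
      rw [a3, if_neg (by omega), show (5 * j + 3 - 3) / 5 = j by omega]; omega
    · simp only [mk] at h2 h3 ⊢
      have a1 := Lay.z_le (Y := U.toLay) a
      have a3 := (Lay.z_X Y h1 (by omega) h2).1 h3
      rw [h3, if_pos (by omega), show (5 * j + 4 - 4) / 5 = j by omega]; omega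
    · simp only [mk] at h2 h3 ⊢
      have a1 := Lay.z_le (Y := U.toLay) a
      have a3 := (Lay.z_Y Y h1 (by omega) h2).1 h3
      rw [h3, if_neg (by omega), show (5 * j + 3 - 3) / 5 = j by omega]; omega
    · have := H.hN
      simp only [mk]; omega
    · obtain ⟨a1, a2⟩ := Lay.z_U Y _ (he3 κ h1 h2)
      have h3' : 1 ≤ (mk default).lo κ := h3
      have a3 : U.z (r κ).1 = Lay.zU ((mk default).lo κ - 1) := a2
      refine ⟨a1, ?_, ?_, hr2 κ⟩
      · change U.z (r κ).1 = 6 ∨ (12 ≤ U.z (r κ).1 ∧ U.z (r κ).1 % 5 = 2)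
        rw [a3]; unfold Lay.zU; omega
      · change (U.z (r κ).1 - 4) / 5 + 1 = (mk default).lo κ
        rw [a3]; unfold Lay.zU; omega
  refine Sys.nil_of_good (S := mk r) K hL (hB r) (by simp only [mk]; omega)
    ⟨fun j _ _ => hm j, fun κ κ' a1 a2 a3 b1 b2 b3 h => ?_, fun q hq => ?_, fun q h1 h2 => ?_⟩
  · refine he2 κ (hmem κ a1 a2) κ' (hmem κ' b1 b2) ?_
    have c1 := (hL.hres κ a1 a2 a3).2.2.1
    have c2 := (hL.hres κ' b1 b2 b3).2.2.1
    rw [h, c2] at c1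
    have c3 : (mk default).lo κ' = (mk default).lo κ := c1
    have c4 : r κ = r κ' := h
    simp only [r, c3, Prod.mk.injEq, add_right_inj] at c4
    rw [← Nat.div_add_mod (e κ) U.W, ← Nat.div_add_mod (e κ') U.W, c4.1,
      (mul_add_inj (Nat.mod_lt _ hW) (Nat.mod_lt _ hW) c4.2).2]
  · have hq' : q < U.L := hq
    have a1 : ((range U.n).filter (fun a => q ≤ (mk r).lev a)).card ≤ U.n - U.G q := by
      rw [← Nat.card_Ico]
      refine card_le_card fun a ha => ?_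
      simp only [mem_filter, mem_range, Sys.lev, mk, mem_Ico] at ha ⊢
      exact ⟨(Lay.z_H Y hq' ha.1).1 (by omega), ha.1⟩
    have a2 : ((range U.n).filter (fun a => (mk r).st a ≤ q)).card ≤ U.nl q := by
      rw [← card_range (U.nl q)]
      refine card_le_card fun a ha => ?_
      simp only [mem_filter, mem_range, Sys.st, mk] at ha ⊢
      exact (Lay.lt_nl Y hq' a).2 ⟨ha.1, by omega⟩
    have a3 : (if 1 ≤ q then (mk r).nla q else 0) ≤
        if 1 ≤ q then U.Bm q + U.ns q + U.sz q else 0 := by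
      split_ifs with h
      · refine le_trans (card_le_card fun ν hν => ?_) (hl q h hq').nla
        obtain ⟨-, b1, b2⟩ := mem_filter.1 hν
        exact mem_filter.2 ⟨by simpa [LP.Nd] using (hNd r q hq' ν).1 b1, b2⟩
      · rfl
    have a4 : (if q + 1 < U.L then ∑ i ∈ range U.N, (U.m (q + 1) - dg (q + 1) i) else 0) +
        (if q + 1 < U.L then U.ρ (q + 1) else 0) =
        if q + 1 < U.L then U.N * U.m (q + 1) else 0 := by
      split_ifs with h
      · have V := hl (q + 1) (by omega) h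
        have b1 : ∑ i ∈ range U.N, dg (q + 1) i = U.ρ (q + 1) := V.dsum
        rw [← b1, ← sum_add_distrib, sum_congr rfl (g := fun _ => U.m (q + 1)) fun i _ =>
          Nat.sub_add_cancel (V.d2 i)]
        simp
      · rfl
    have a5 := H.load q hq'
    have a6 := Nat.mul_le_mul a1 a2
    change ((range U.n).filter (fun a => q ≤ (mk r).lev a)).card *
      ((range U.n).filter (fun a => (mk r).st a ≤ q)).card + (if 1 ≤ q then (mk r).nla q else 0) +
      (if q + 1 < U.L then ∑ i ∈ range U.N, (U.m (q + 1) - dg (q + 1) i) else 0) ≤ U.d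
    omega
  · refine (hc r).trans ((H.hII q h2).2.trans (Nat.pow_le_pow_left ?_ 2))
    rw [← card_range (U.uz q)]
    refine card_le_card_of_injOn (fun t => U.Us q + t) (fun t ht => ?_) fun a _ b _ h => by
      simpa using h
    obtain ⟨a1, a2⟩ := Lay.z_U Y q (mem_range.1 (mem_coe.1 ht))
    refine mem_coe.2 (mem_filter.2 ⟨mem_range.2 a1, a2.trans ?_⟩)
    unfold Lay.zU; omega

end Num

end Pool.Agent.Lib.MP_05aa0e_al.Ex
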