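import Pool.Agent.Lib.MP_05aa0e_al.ExNum1
import Pool.Agent.Lib.MP_05aa0e_al.ExSys

set_option autoImplicit false

namespace Pool.Agent.Lib.MP_05aa0e_al.Ex

open Finset

theorem step4 (m Q J A L n G W su z ρ B R : ℕ) (θ c ε : ℝ) (h3 : 0 ≤ c) (h4 : c ≤ 4) (hε : 0 ≤ ε)
    (hm1 : J * Q < m) (hJ : 1 ≤ J) (hεJ : 10 * A + 10 * L + 4 ≤ ε * J) (hA : n ≤ A * m)
    (hQ : (32 + 16 * L) * W ≤ Q) (hsu : su ≤ n) (hG : G ≤ su + (8 + 4 * L) * W)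
    (hρ : ρ ≤ θ * m + c) (hz : c * su * (J + 1) ≤ z * Q * (J + 1) + 10 * su + L * (10 * m))
    (hB : B * m + z * Q = ρ * G + R) : (B : ℝ) * m + Q ≤ θ * G * m + ε * m + R := by
  have a1 : 4 * G ≤ 4 * su + Q := by linarith
  have a2 : Q * (J + 1) ≤ 2 * m := by
    have : Q ≤ J * Q := Nat.le_mul_of_pos_left _ hJ
    linarith
  have r1 : 4 * (G : ℝ) ≤ 4 * su + Q := by exact_mod_cast a1
  have r2 : (Q : ℝ) * (J + 1) ≤ 2 * m := by exact_mod_cast a2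
  have r3 : (B : ℝ) * m + z * Q = ρ * G + R := by exact_mod_cast hB
  have r4 : (su : ℝ) ≤ A * m := by exact_mod_cast hsu.trans hA
  have r5 : (0 : ℝ) ≤ G := Nat.cast_nonneg _
  have r6 : (0 : ℝ) ≤ m := Nat.cast_nonneg _
  have r7 : (0 : ℝ) ≤ Q := Nat.cast_nonneg _
  have r8 : (0 : ℝ) < J + 1 := by positivity
  have r9 : c * G ≤ c * su + Q := by
    linarith [mul_le_mul_of_nonneg_left r1 h3, mul_le_mul_of_nonneg_right h4 r7]
  have r10 : (B : ℝ) * m + z * Q ≤ θ * G * m + c * su + Q + R := by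
    linarith [mul_le_mul_of_nonneg_right hρ r5]
  refine le_of_mul_le_mul_right ?_ r8
  linarith [mul_le_mul_of_nonneg_right r10 r8.le, mul_le_mul_of_nonneg_right hεJ r6,
    mul_nonneg hε r6]

theorem stepAll (n m Q J K N W A L G nb f' Jb' : ℕ) (u : ℕ → ℕ) (top : Prop) [Decidable top]
    (θ θ' κ' ε : ℝ) (h1 : 1 / 2 ≤ θ) (h2 : θ ≤ 3 / 2) (h1' : 0 ≤ θ') (h2' : θ' ≤ 3 / 2)
    (k1 : 0 ≤ κ') (k2 : κ' ≤ 1) (hε : 0 ≤ ε) (hm1 : J * Q < m) (hm2 : m ≤ J * Q + J)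
    (hJ : 20 ≤ J) (hJ' : 2 * A + 1 ≤ J) (hεJ : 10 * A + 10 * L + 4 ≤ ε * J)
    (hN : 2 * J + 2 * K + 3 + L * (5 * A * (J + 1) * (J + 1)) ≤ N) (hW : W = N * N * (J + 1))
    (hQ : (32 + 16 * L) * W ≤ Q) (hA : n ≤ A * m) (hm : m ≤ n)
    (hu : ∀ β < nb, n ≤ A * u β) (hnb : 1 ≤ nb) (hnb' : nb ≤ L) (hGn : G ≤ n)
    (hG : ∑ β ∈ range nb, u β ≤ G) (hG' : G ≤ ∑ β ∈ range nb, u β + (8 + 4 * L) * W)
    (hf : f' ≤ J + 1) (hf' : κ' * J ≤ f') (hb : Jb' ≤ 2 * J) (hb' : θ' * J - 4 ≤ Jb') :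
    ∃ (ρ Jb t f Bm : ℕ) (zz : ℕ → ℕ) (κ : ℝ), θ * m + (θ * θ' + κ') < ρ + 1 ∧
      (1 ≤ Jb ∧ Jb ≤ 2 * J) ∧ (Q ≤ t ∧ t < 2 * Q) ∧ ρ + Jb + 2 * K = Jb * Q + Q + t + N ∧
      Jb * Q + 11 * Q + 2 * N ≤ 2 * m ∧ θ * J - 4 ≤ Jb ∧ f ≤ J + 1 ∧ (0 ≤ κ ∧ κ ≤ 1) ∧
      κ * J ≤ f ∧ N * N ≤ Bm ∧
      (top → ρ * G + f * Q ≤ (Bm + (f + 2 * Jb) + ∑ β ∈ range nb, zz β) * m +
        (∑ β ∈ range nb, zz β) * Q ∧
        ((Bm + (f + 2 * Jb) + ∑ β ∈ range nb, zz β : ℕ) : ℝ) ≤ θ * G + κ + ε) ∧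
      (¬ top → ρ * G ≤ (Bm + ∑ β ∈ range nb, zz β) * m + (∑ β ∈ range nb, zz β) * Q ∧
        ((Bm + ∑ β ∈ range nb, zz β : ℕ) : ℝ) < θ * G + ε + 1) ∧
      (f' = 0 → Jb' = 0 → ∀ β, zz β = 0) ∧
      ∀ β < nb, zz β * (m + Q) ≤ 5 * A * (J + 1) * (J + 1) * u β ∧
        zz β * (J + 1) ≤ 5 * A * (J + 1) * (J + 1) ∧
        (zz β = 0 ∨ ∃ X, X * m + zz β * (m + Q) ≤ u β * ρ ∧
          zz β * (J + 1) + Jb' ≤ f' * (u β / Q) + Jb' * (X / Q)) := by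
  have c0 : 0 ≤ θ * θ' := mul_nonneg (by linarith) h1'
  have c1 : θ * θ' + κ' ≤ 4 := by nlinarith
  have w1 : N * N ≤ W := hW ▸ Nat.le_mul_of_pos_right _ (by omega)
  have w2 : 5 * N ≤ N * N := Nat.mul_le_mul_right _ (by omega)
  have w3 : 32 * W ≤ Q := le_trans (Nat.mul_le_mul_right _ (by omega)) hQ
  have w4 : L * (5 * A * (J + 1)) ≤ N := by
    have := Nat.mul_le_mul_left L (Nat.le_mul_of_pos_right (5 * A * (J + 1)) (show 0 < J + 1 by omega))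
    omega
  have w5 : 5 * A * (J + 1) ≤ N := (Nat.le_mul_of_pos_left _ (by omega)).trans w4
  obtain ⟨ρ, Jb, t, ⟨a1, a2⟩, a3, a4, a5, a6, a7, a8, a9⟩ := step1 m Q J K N θ (θ * θ' + κ') h1 h2
    (by linarith) c1 hm1 hm2 hJ (by omega) (by omega)
  have hun : ∀ β < nb, u β ≤ n := fun β hβ =>
    ((single_le_sum (f := u) (fun _ _ => Nat.zero_le _) (mem_range.2 hβ)).trans hG).trans hGn
  have hz : ∀ β, ∃ zz : ℕ, (f' = 0 → Jb' = 0 → zz = 0) ∧ (β < nb → zz ≤ 5 * A * (J + 1) ∧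
      zz * (m + Q) ≤ 5 * A * (J + 1) * (J + 1) * u β ∧
      (zz = 0 ∨ ∃ X, X * m + zz * (m + Q) ≤ u β * ρ ∧
        zz * (J + 1) + Jb' ≤ f' * (u β / Q) + Jb' * (X / Q)) ∧
      (θ * θ' + κ') * u β * (J + 1) ≤ zz * Q * (J + 1) + 10 * u β + 10 * m) := fun β => by
    by_cases hβ : β < nb
    · obtain ⟨zz, b1, b2, b3, b4, b5⟩ := step2 n m Q J A (u β) ρ f' Jb' θ θ' κ' (by linarith) h2 c1
        hm1 hm2 hJ' (by omega) hA (hu β hβ) (hun β hβ) hm (by linarith) (by linarith) a8 a9 hf hf'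
        hb hb'
      exact ⟨zz, b4, fun _ => ⟨b1, b2, b3, b5⟩⟩
    · exact ⟨0, fun _ _ => rfl, fun h => absurd h hβ⟩
  choose zz hz0 hz using hz
  set z := ∑ β ∈ range nb, zz β with hzd
  have z1 : z ≤ N := by
    refine le_trans (sum_le_sum fun β hβ => (hz β (mem_range.1 hβ)).1) ?_
    rw [sum_const, card_range, smul_eq_mul]
    exact (Nat.mul_le_mul_right _ hnb').trans w4
  have z2 : (θ * θ' + κ') * (∑ β ∈ range nb, u β : ℕ) * (J + 1) ≤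
      z * Q * (J + 1) + 10 * (∑ β ∈ range nb, u β : ℕ) + L * (10 * m) := by
    have b1 := sum_le_sum fun β hβ => (hz β (mem_range.1 hβ)).2.2.2
    simp only [sum_add_distrib, ← sum_mul, ← mul_sum, sum_const, card_range, nsmul_eq_mul] at b1
    have b2 : (nb : ℝ) * (10 * m) ≤ L * (10 * m) :=
      mul_le_mul_of_nonneg_right (by exact_mod_cast hnb') (by positivity)
    rw [hzd]
    push_cast
    linarith
  have q1 : Q ≤ J * Q := Nat.le_mul_of_pos_left _ (by omega)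
  have q2 : Q ≤ G := by
    by_contra h
    have b0 := (single_le_sum (f := u) (fun _ _ => Nat.zero_le _) (mem_range.2 hnb)).trans hG
    have b1 : A * u 0 ≤ J * Q := Nat.mul_le_mul (by omega) (by omega)
    have b2 := hu 0 hnb
    omega
  have q3 : (N * N + (5 * J + 1) + z) * m + z * Q ≤ ρ * G := by
    have b1 : z * Q ≤ z * m := Nat.mul_le_mul_left _ (by omega)
    have b2 : (N * N + (5 * J + 1) + z + z) * m ≤ (2 * W) * (3 * ρ) :=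
      Nat.mul_le_mul (by omega) a8
    have b3 : ρ * (6 * W) ≤ ρ * G := Nat.mul_le_mul_left _ (by omega)
    linarith
  obtain ⟨B, R, b1, b2, b3⟩ := step3 m (ρ * G - z * Q) (N * N + (5 * J + 1) + z) (by omega)
    (by omega)
  have b4 : B * m + z * Q = ρ * G + R := by omega
  have b5 := step4 m Q J A L n G W _ z ρ B R θ _ ε (by linarith) c1 hε hm1 (by omega) hεJ hA hQ
    (hG.trans hGn) hG' a1 z2 b4
  have m0 : (0 : ℝ) < m := by exact_mod_cast (show 0 < m by omega)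
  have hzz := fun β hβ => And.intro (hz β hβ).2.1
    (And.intro (Nat.mul_le_mul_right (J + 1) (hz β hβ).1) (hz β hβ).2.2.1)
  by_cases ht : top
  · have d1 := Nat.div_mul_le_self R Q
    have d2 : R < R / Q * Q + Q := Nat.lt_div_mul_add (by omega)
    have d3 : R / Q ≤ J + 1 := Nat.div_le_of_le_mul (by linarith [show J ≤ Q by omega])
    have d4 : B - (R / Q + 2 * Jb) - z + (R / Q + 2 * Jb) + z = B := by omega
    have e1 : ((R / Q : ℕ) : ℝ) * Q ≤ m := by exact_mod_cast d1.trans b2.le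
    have e2 : (R : ℝ) ≤ (R / Q : ℕ) * Q + Q := by exact_mod_cast d2.le
    have e3 : (J : ℝ) * Q ≤ m := by exact_mod_cast hm1.le
    refine ⟨ρ, Jb, t, R / Q, B - (R / Q + 2 * Jb) - z, zz, (R / Q : ℕ) * Q / m, a2, a3, a4, a5, a6,
      a7, d3, ⟨by positivity, (div_le_one m0).2 e1⟩, ?_, by omega, fun _ => ⟨?_, ?_⟩,
      fun h => absurd ht h, fun e1 e2 β => hz0 β e1 e2, hzz⟩
    · rw [div_mul_eq_mul_div, div_le_iff₀ m0]
      linarith [mul_le_mul_of_nonneg_left e3 (Nat.cast_nonneg (α := ℝ) (R / Q))]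
    · rw [d4, ← hzd]; omega
    · rw [d4]
      refine le_of_mul_le_mul_right ?_ m0
      rw [add_mul, add_mul, div_mul_cancel₀ _ m0.ne']
      linarith
  · have d4 : B - z + z = B := by omega
    have e1 : (R : ℝ) < m := by exact_mod_cast b2
    refine ⟨ρ, Jb, t, 0, B - z, zz, 0, a2, a3, a4, a5, a6, a7, by omega, ⟨le_rfl, zero_le_one⟩,
      by simp, by omega, fun h => absurd h ht, fun _ => ⟨?_, ?_⟩, fun e1 e2 β => hz0 β e1 e2, hzz⟩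
    · rw [d4, ← hzd]; omega
    · rw [d4]
      refine lt_of_mul_lt_mul_right ?_ m0.le
      linarith [Nat.cast_nonneg (α := ℝ) Q]

end Pool.Agent.Lib.MP_05aa0e_al.Ex
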