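import Pool.Agent.Lib.MP_05aa0e_al.ExNum2

set_option autoImplicit false

namespace Pool.Agent.Lib.MP_05aa0e_al.Ex

open Finset

/-- The numbers chosen at one level. -/
structure St where
  ρ : ℕ
  Jb : ℕ
  t : ℕ
  f : ℕ
  Bm : ℕ
  zz : ℕ → ℕ
  κ : ℝ

theorem nil_of_lay (F : Type*) [Field F] (Y : Lay) (H : Y.OK) (J K A d : ℕ) (θ : ℕ → ℝ) (ε : ℝ)
    (hε : 0 ≤ ε) (hJ : 20 ≤ J) (hJ' : 2 * A + 1 ≤ J) (hεJ : 10 * A + 10 * Y.L + 4 ≤ ε * J)
    (hN : 2 * J + 2 * K + 3 + Y.L * (5 * A * (J + 1) * (J + 1)) ≤ Y.N)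
    (hW : Y.W = Y.N * Y.N * (J + 1)) (hK : 2 * Y.n ≤ 2 ^ K)
    (hu : ∀ β < Y.L, Y.n ≤ A * Y.uz β) (hm : ∀ j < Y.L, Y.n ≤ A * (Y.n - Y.G j))
    (hn : A * ((32 + 16 * Y.L) * Y.W * J) < Y.n) (t0 : θ 0 = 0) (tL : θ Y.L = 0)
    (ht : ∀ j, 1 ≤ j → j < Y.L → 1 / 2 ≤ θ j ∧ θ j ≤ 3 / 2)
    (hd : ∀ q < Y.L, ((Y.n - Y.G q : ℕ) + θ q) * (Y.G (q + 1) - θ (q + 1)) + ε ≤ d) :
    Nil F Y.n d (Y.L + 1) := by
  let mk : (ℕ → St) → Num := fun S =>
    { toLay := Y, J := J, K := K, Z := 5 * A * (J + 1) * (J + 1), d := d,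
      Q := fun j => (Y.n - Y.G (j - 1) - 1) / J, ρ := fun j => (S j).ρ, Jb := fun j => (S j).Jb,
      f := fun j => (S j).f, Bm := fun j => (S j).Bm, t := fun j => (S j).t,
      zz := fun j => (S j).zz }
  have hL := H.hL
  have hQ : ∀ j < Y.L, (32 + 16 * Y.L) * Y.W ≤ (Y.n - Y.G j - 1) / J ∧
      J * ((Y.n - Y.G j - 1) / J) < Y.n - Y.G j ∧
      Y.n - Y.G j ≤ J * ((Y.n - Y.G j - 1) / J) + J := fun j hj => by
    have a1 := lt_of_mul_lt_mul_left (hn.trans_le (hm j hj)) (Nat.zero_le _)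
    have a2 := Nat.div_add_mod (Y.n - Y.G j - 1) J
    have a3 := Nat.mod_lt (Y.n - Y.G j - 1) (show 0 < J by omega)
    exact ⟨(Nat.le_div_iff_mul_le (by omega)).2 (by omega), by omega, by omega⟩
  have w1 : Y.N * Y.N ≤ Y.W := hW ▸ Nat.le_mul_of_pos_right _ (by omega)
  have w2 : 5 * Y.N ≤ Y.N * Y.N := Nat.mul_le_mul_right _ (by omega)
  have w3 : 32 * Y.W ≤ (32 + 16 * Y.L) * Y.W := Nat.mul_le_mul_right _ (by omega)
  have hnl : ∀ j < Y.L, (j + 1 < Y.L → Y.nl j + Y.N = Y.G (j + 1)) ∧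
      (¬ j + 1 < Y.L → Y.nl j = Y.G (j + 1)) := fun j hj => by
    have a1 := Lay.G_ge H le_rfl (j + 1) (by omega) hj
    have a2 := H.h1
    refine ⟨fun h => ?_, fun h => ?_⟩
    · rw [Lay.nl, if_pos h]; omega
    · rw [Lay.nl, if_neg h, show j + 1 = Y.L by omega, H.hn]
  obtain ⟨S, hS0, hS⟩ := exists_seq (fun j (s : St) => j < Y.L → s.f ≤ J + 1 ∧ (0 ≤ s.κ ∧ s.κ ≤ 1) ∧
      s.κ * J ≤ s.f ∧ s.Jb ≤ 2 * J ∧ θ j * J - 4 ≤ s.Jb ∧ (1 ≤ j →
      (j + 1 < Y.L → ((s.Bm + (s.f + 2 * s.Jb) + ∑ β ∈ range (j + 1), s.zz β : ℕ) : ℝ) ≤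
        θ j * Y.G (j + 1) + s.κ + ε) ∧
      (¬ j + 1 < Y.L → ((s.Bm + ∑ β ∈ range (j + 1), s.zz β : ℕ) : ℝ) <
        θ j * Y.G (j + 1) + ε + 1)))
    (fun j s s' => j + 1 < Y.L →
      θ (j + 1) * (Y.n - Y.G j : ℕ) + (θ (j + 1) * θ j + s.κ) < s'.ρ + 1 ∧
      (s.f = 0 → s.Jb = 0 → ∀ β, s'.zz β = 0) ∧
      ∀ S : ℕ → St, S j = s → S (j + 1) = s' → (mk S).LevOK (j + 1))
    ⟨0, 0, 0, 0, 0, fun _ => 0, 0⟩ (fun _ => by simp [t0]) (by
      intro j s hs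
      by_cases hj : j + 1 < Y.L
      swap
      · exact ⟨s, fun h => absurd h hj, fun h => absurd h hj⟩
      obtain ⟨i1, i2, i3, i4, i5, -⟩ := hs (by omega)
      obtain ⟨q1, q2, q3⟩ := hQ j (by omega)
      obtain ⟨n1, n2⟩ := hnl (j + 1) hj
      have s1 := Lay.sum_uz H hj
      have s2 : 4 * (j + 1) * Y.N ≤ 4 * Y.L * Y.W := Nat.mul_le_mul (by omega) H.hW
      have s3 : Y.nl (j + 1) ≤ Y.G (j + 1 + 1) ∧ Y.G (j + 1 + 1) ≤ Y.nl (j + 1) + Y.N := by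
        by_cases h : j + 1 + 1 < Y.L
        · have := n1 h; omega
        · have := n2 h; omega
      have s4 : 0 ≤ θ j ∧ θ j ≤ 3 / 2 := by
        rcases Nat.eq_zero_or_pos j with rfl | h
        · rw [t0]; norm_num
        · have := ht j h (by omega); constructor <;> linarith
      obtain ⟨ρ, Jb, t, f, Bm, zz, κ, a1, a2, a3, a4, a5, a6, a7, a8, a9, a10, a11, a12, a13, a14⟩ :=
        stepAll Y.n (Y.n - Y.G j) ((Y.n - Y.G j - 1) / J) J K Y.N Y.W A Y.L (Y.G (j + 1 + 1))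
          (j + 1 + 1) s.f s.Jb Y.uz (j + 1 + 1 < Y.L) (θ (j + 1)) (θ j) s.κ ε
          (ht _ (by omega) hj).1 (ht _ (by omega) hj).2 s4.1 s4.2 i2.1 i2.2 hε q2 q3 hJ hJ' hεJ hN
          hW q1 (hm j (by omega)) (Nat.sub_le _ _) (fun β h => hu β (by omega)) (by omega) hj
          (Lay.G_le H hj) (by omega) (by rw [add_mul]; have := H.hW; omega) i1 i3 i4 i5
      refine ⟨⟨ρ, Jb, t, f, Bm, zz, κ⟩, fun _ => ⟨a7, a8, a9, a2.2, a6,
        fun _ => ⟨fun h => (a11 h).2, fun h => (a12 h).2⟩⟩, fun _ => ⟨a1, a13, fun S e1 e2 => ?_⟩⟩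
      have q4 : (Y.n - Y.G j - 1) / J ≤ Y.n := (Nat.div_le_self _ _).trans (by omega)
      constructor <;> simp only [mk, Num.m, Num.ns, Num.sz, Nat.add_sub_cancel, e1, e2]
      · exact a2.1
      · exact a2.2
      · exact q2
      · exact q3
      · omega
      · omega
      · omega
      · exact a3.1
      · exact a3.2
      · exact a4
      · have b1 : (if j + 1 + 1 < Y.L then f + 2 * Jb else 0) ≤ Y.N * Y.N := by
          split_ifs <;> omega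
        exact hW ▸ Nat.mul_le_mul b1 (by omega)
      · rw [hW, mul_assoc (Y.N * Y.N), add_one_mul]
        exact Nat.mul_le_mul_left _ (by omega)
      · exact a5
      · intro h
        rw [if_pos h, n1 h]
        exact ⟨a10, (a11 h).1⟩
      · intro h
        rw [n2 h]
        exact (a12 h).1
      · exact fun β hβ => a14 β (by omega))
  have hf0 : (S 0).f = 0 ∧ (S 0).Jb = 0 ∧ (S 0).κ = 0 := by simp [hS0]
  refine Num.nil_of_num (U := mk S) ⟨H, hN, fun j h1 h2 => ?_,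
    ((hS 0).2 (by omega)).2.1 hf0.1 hf0.2.1, fun q hq => ?_, fun β hβ => ?_⟩ F
  · obtain ⟨j, rfl⟩ : ∃ p, j = p + 1 := ⟨j - 1, by omega⟩
    exact ((hS j).2 h2).2.2 S rfl rfl
  · have hq' : q < Y.L := hq
    obtain ⟨n1, n2⟩ := hnl q hq'
    have d1 := hd q hq'
    have i1 := ((hS q).1 hq').2.2.2.2.2
    simp only [mk, Num.m, Num.ns, Num.sz, Nat.add_sub_cancel]
    rw [← Nat.lt_succ_iff, ← Nat.cast_lt (α := ℝ)]
    by_cases h : q + 1 < Y.L
    · have e1 := ((hS q).2 h).1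
      have e2 : (Y.nl q : ℝ) + Y.N = Y.G (q + 1) := by exact_mod_cast n1 h
      have e3 : ((if 1 ≤ q then (S q).Bm + ((S q).f + 2 * (S q).Jb) +
          ∑ β ∈ range (q + 1), (S q).zz β else 0 : ℕ) : ℝ) ≤ θ q * Y.G (q + 1) + (S q).κ + ε := by
        split_ifs with h1
        · exact (i1 h1).1 h
        · obtain rfl : q = 0 := by omega
          simpa [t0, hf0.2.2] using hε
      simp only [h, if_true, Nat.succ_eq_add_one]
      rw [Nat.cast_add, Nat.cast_add, Nat.cast_mul, Nat.cast_mul, Nat.cast_add _ 1,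
        Nat.cast_add d, Nat.cast_one]
      rw [← e2] at d1 e3
      linarith
    · have e2 : (Y.nl q : ℝ) = Y.G (q + 1) := by exact_mod_cast n2 h
      have e3 := (i1 (by omega)).2 h
      have e4 : θ (q + 1) = 0 := by rw [show q + 1 = Y.L by omega, tL]
      simp only [h, if_false, Nat.succ_eq_add_one, if_pos (show 1 ≤ q by omega), add_zero]
      rw [Nat.cast_add, Nat.cast_mul, Nat.cast_add _ 1, Nat.cast_one, e2]
      rw [e4] at d1
      linarith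
  · have b1 := hu β hβ
    obtain ⟨q1, q2, -⟩ := hQ 0 (by omega)
    have b2 : Y.W ≤ Y.uz β := by
      by_contra h
      have : A * Y.uz β ≤ J * ((Y.n - Y.G 0 - 1) / J) := Nat.mul_le_mul (by omega) (by omega)
      omega
    have b3 : 11 * Y.L * Y.N * A ≤ Y.W := by
      have c1 : Y.L * (5 * A * 1 * 3) ≤ Y.L * (5 * A * (J + 1) * (J + 1)) :=
        Nat.mul_le_mul_left _ (Nat.mul_le_mul (Nat.mul_le_mul_left _ (by omega)) (by omega))
      have c2 : Y.N * (11 * (Y.L * A)) ≤ Y.N * Y.N := Nat.mul_le_mul_left _ (by linarith)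
      linarith
    have b4 : 11 * Y.L * Y.N * Y.n ≤ Y.uz β * Y.W := by
      have c1 := Nat.mul_le_mul_left (11 * Y.L * Y.N) b1
      have c2 := Nat.mul_le_mul_left (Y.uz β) b3
      linarith
    exact ⟨b4, b4.trans (by rw [sq]; exact Nat.mul_le_mul_left _ b2)⟩

end Pool.Agent.Lib.MP_05aa0e_al.Ex
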