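import Pool.Agent.Lib.MP_05aa0e_al.ExTil

set_option autoImplicit false

namespace Pool.Agent.Lib.MP_05aa0e_al.Ex

open Finset

/-- Parameters of one level. -/
structure LP where
  N : ℕ
  J : ℕ
  K : ℕ
  W : ℕ
  Z : ℕ
  m : ℕ
  Q : ℕ
  ρ : ℕ
  Jb : ℕ
  f : ℕ
  nl : ℕ
  nb : ℕ
  ns : ℕ
  Bm : ℕ
  top : Prop
  z : ℕ → ℕ
  Us : ℕ → ℕ
  uz : ℕ → ℕ
  zz : ℕ → ℕ

namespace LP

variable (P : LP)

def o3 : ℕ := 2 * P.J + 2 * P.K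
def Nd (ν : ℕ × ℕ) : Prop := ν.1 < P.N ∧ ν.2 < P.nl
def Pl (β : ℕ) (ν : ℕ × ℕ) : Prop :=
  P.o3 + 3 + β * P.Z ≤ ν.1 ∧ ν.1 < P.o3 + 3 + β * P.Z + P.Z ∧ P.Us β ≤ ν.2 ∧ ν.2 < P.Us β + P.uz β

/-- Numerical hypotheses on the parameters of a level. -/
structure LH : Prop where
  hJb : 1 ≤ P.Jb
  hJb' : P.Jb ≤ 2 * P.J
  hm1 : P.J * P.Q < P.m
  hm2 : P.m ≤ P.J * P.Q + P.J
  hJQ : P.J ≤ P.Q
  hN : P.o3 + 3 + P.nb * P.Z ≤ P.N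
  hns : P.top → P.ns = P.f + 2 * P.Jb
  hns' : ¬ P.top → P.ns = 0
  hW1 : P.ns * P.J ≤ P.W
  hW2 : P.N * P.N * P.m ≤ P.W * P.Q
  hW3 : P.W ≤ P.nl
  hcap : P.Jb * P.Q + 11 * P.Q + 2 * P.N ≤ 2 * P.m
  zmono : Monotone P.z
  z0 : ∀ l, P.z l = 0 ↔ l < P.W
  gap : ∀ l l', l' < P.nl → P.z l + 2 ≤ P.z l' → l + P.N < l'
  hU : ∀ β < P.nb, P.Us β + P.uz β ≤ P.nl ∧ P.zz β * (P.m + P.Q) ≤ P.Z * P.uz β ∧
    ∀ t < P.uz β, P.z (P.Us β + t) = max 6 (5 * β + 7 * min β 1)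
  hBm : P.top → P.N * P.N ≤ P.Bm ∧ P.ρ * (P.nl + P.N) + P.f * P.Q ≤
    (P.Bm + P.ns + ∑ β ∈ range P.nb, P.zz β) * P.m + (∑ β ∈ range P.nb, P.zz β) * P.Q
  hBm' : ¬ P.top → P.ρ * P.nl ≤
    (P.Bm + ∑ β ∈ range P.nb, P.zz β) * P.m + (∑ β ∈ range P.nb, P.zz β) * P.Q

def Bs : Finset (ℕ × ℕ × ℕ) := (range P.ns).image (fun s => (1, s, 0)) ∪
  ((range P.nb).sigma (fun β => range (P.zz β))).image (fun p => (2, p.1, p.2))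

def cnt (B : ℕ × ℕ × ℕ) : ℕ := if B.1 = 1 then P.J - 1 + (P.m - P.J * P.Q) else P.m + P.Q

def nd (E : ℕ → ℕ → ℕ × ℕ) (B : ℕ × ℕ × ℕ) (k : ℕ) : ℕ × ℕ :=
  if B.1 = 1 then
    if k < P.J - 1 then (0, B.2.1 * P.J + k) else (P.o3 + 2, B.2.1 * P.J + (k - (P.J - 1)))
  else E B.2.1 (B.2.2 * (P.m + P.Q) + k)

def ps (B : ℕ × ℕ × ℕ) (k : ℕ) : ℕ :=
  if B.1 = 1 then (if k < P.J - 1 then k * P.Q else (P.J - 1) * P.Q + (k - (P.J - 1))) else k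

def len (cl : ℕ → ℕ) (B : ℕ × ℕ × ℕ) : ℕ :=
  if B.1 = 1 then P.m - P.Q else if B.1 = 2 then P.m + P.Q else cl B.2.1

variable {P}

theorem mem_Bs {B : ℕ × ℕ × ℕ} : B ∈ P.Bs ↔
    (∃ s < P.ns, B = (1, s, 0)) ∨ ∃ β < P.nb, ∃ b < P.zz β, B = (2, β, b) := by
  simp only [Bs, mem_union, mem_image, mem_range, mem_sigma, Sigma.exists]
  constructor
  · rintro (⟨s, h, rfl⟩ | ⟨β, b, h, rfl⟩)
    · exact Or.inl ⟨s, h, rfl⟩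
    · exact Or.inr ⟨β, h.1, b, h.2, rfl⟩
  · rintro (⟨s, h, rfl⟩ | ⟨β, h, b, h', rfl⟩)
    · exact Or.inl ⟨s, h, rfl⟩
    · exact Or.inr ⟨β, b, ⟨h, h'⟩, rfl⟩

theorem Pl.uniq {β β' : ℕ} {ν μ : ℕ × ℕ} (h : P.Pl β ν) (h' : P.Pl β' μ) (e : ν.1 = μ.1) :
    β = β' := by
  obtain ⟨a1, a2, -⟩ := h
  obtain ⟨b1, b2, -⟩ := h'
  exact (mul_add_inj (N := P.Z) (b := ν.1 - (P.o3 + 3 + β * P.Z))
    (b' := ν.1 - (P.o3 + 3 + β' * P.Z)) (by omega) (by omega) (by omega)).1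

theorem Pl.z (H : P.LH) {β : ℕ} (hβ : β < P.nb) {ν : ℕ × ℕ} (h : P.Pl β ν) :
    P.z ν.2 = max 6 (5 * β + 7 * min β 1) ∧ P.Nd ν := by
  obtain ⟨a1, a2, a3, a4⟩ := h
  obtain ⟨b1, -, b3⟩ := H.hU β hβ
  have b4 := b3 (ν.2 - P.Us β) (by omega)
  rw [Nat.add_sub_cancel' a3] at b4
  have b5 := Nat.mul_le_mul_right P.Z (show β + 1 ≤ P.nb from hβ)
  have b6 := H.hN
  rw [add_one_mul] at b5
  exact ⟨b4, by omega, by omega⟩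

theorem exists_E (H : P.LH) : ∃ E : ℕ → ℕ → ℕ × ℕ, ∀ β < P.nb,
    (∀ e < P.zz β * (P.m + P.Q), P.Pl β (E β e)) ∧
    ∀ e < P.zz β * (P.m + P.Q), ∀ e' < P.zz β * (P.m + P.Q), E β e = E β e' → e = e' := by
  choose E h1 h2 using fun β => exists_enum
    (Ico (P.o3 + 3 + β * P.Z) (P.o3 + 3 + β * P.Z + P.Z) ×ˢ Ico (P.Us β) (P.Us β + P.uz β))
  simp only [card_product, Nat.card_Ico, Nat.add_sub_cancel_left] at h1 h2
  refine ⟨E, fun β hβ => ⟨fun e he => ?_, fun e he e' he' => ?_⟩⟩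
  · have := h1 β e (he.trans_le (H.hU β hβ).2.1)
    simp only [mem_product, mem_Ico] at this
    exact ⟨this.1.1, this.1.2, this.2⟩
  · exact h2 β e (he.trans_le (H.hU β hβ).2.1) e' (he'.trans_le (H.hU β hβ).2.1)

theorem LH.J1 (H : P.LH) : ∃ J r, P.J = J + 1 ∧ P.m = J * P.Q + P.Q + r ∧ 1 ≤ r ∧ r ≤ J + 1 := by
  have h1 := H.hJb
  have h2 := H.hJb'
  have h3 := H.hm1
  have h4 := H.hm2
  obtain ⟨J, hJ⟩ : ∃ J, P.J = J + 1 := ⟨P.J - 1, by omega⟩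
  rw [hJ, add_one_mul] at h3 h4
  exact ⟨J, P.m - (J * P.Q + P.Q), hJ, by omega, by omega, by omega⟩

section
variable (H : P.LH) {dg grp : ℕ → ℕ} (hD : Deg P.J P.Jb P.Q P.K P.N P.ρ dg grp)
  {E : ℕ → ℕ → ℕ × ℕ} (hE : ∀ β < P.nb,
    (∀ e < P.zz β * (P.m + P.Q), P.Pl β (E β e)) ∧
    ∀ e < P.zz β * (P.m + P.Q), ∀ e' < P.zz β * (P.m + P.Q), E β e = E β e' → e = e')
include H

theorem nd_src {s k : ℕ} (hs : s < P.ns) (hk : k < P.cnt (1, s, 0)) :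
    ∃ t < P.J, (P.nd E (1, s, 0) k).2 = s * P.J + t ∧ s * P.J + t < P.W ∧
      (((P.nd E (1, s, 0) k).1 = 0 ∧ k = t ∧ k + 1 < P.J) ∨
        ((P.nd E (1, s, 0) k).1 = P.o3 + 2 ∧ k + 1 = t + P.J)) := by
  obtain ⟨J, r, h1, h2, h3, h4⟩ := H.J1
  have h5 : ∀ t < P.J, s * P.J + t < P.W := fun t ht => (mul_add_lt hs ht).trans_le H.hW1
  simp only [cnt, if_true, h1, add_one_mul] at hk
  by_cases h : k < P.J - 1
  · exact ⟨k, by omega, by simp [nd, h], h5 _ (by omega), Or.inl ⟨by simp [nd, h], rfl, by omega⟩⟩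
  · exact ⟨k - (P.J - 1), by omega, by simp [nd, h], h5 _ (by omega),
      Or.inr ⟨by simp [nd, h], by omega⟩⟩

include hE

omit H in
theorem nd_pool {β b k : ℕ} (hβ : β < P.nb) (hb : b < P.zz β) (hk : k < P.m + P.Q) :
    P.Pl β (P.nd E (2, β, b) k) := (hE β hβ).1 _ (mul_add_lt hb hk)

include hD

theorem idx (cl : ℕ → ℕ) : Idx (fun ν => dg ν.1) (fun ν => P.z ν.2) (P.len cl) P.Bs P.cnt
    (P.nd E) P.ps := by
  obtain ⟨J, r, h1, h2, h3, h4⟩ := H.J1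
  refine ⟨fun B hB B' hB' k hk k' hk' h => ?_, fun B _ => ?_, fun B hB k hk => ?_,
    fun B hB => ?_, fun B hB k hk k' hk' => ?_⟩
  · rcases mem_Bs.1 hB with ⟨s, a1, rfl⟩ | ⟨β, a1, b, a2, rfl⟩ <;>
      rcases mem_Bs.1 hB' with ⟨s', b1, rfl⟩ | ⟨β', b1, b', b2, rfl⟩
    · obtain ⟨t, c1, c2, -, c3⟩ := nd_src (E := E) H a1 hk
      obtain ⟨t', d1, d2, -, d3⟩ := nd_src (E := E) H b1 hk'
      rw [h] at c2 c3
      obtain ⟨rfl, rfl⟩ := mul_add_inj c1 d1 (c2.symm.trans d2)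
      exact ⟨rfl, by omega⟩
    · obtain ⟨t, c1, c2, -, c3⟩ := nd_src (E := E) H a1 hk
      have := (nd_pool hE b1 b2 hk').1
      rw [← h] at this
      omega
    · obtain ⟨t, c1, c2, -, c3⟩ := nd_src (E := E) H b1 hk'
      have := (nd_pool hE a1 a2 hk).1
      rw [h] at this
      omega
    · obtain rfl := (nd_pool hE a1 a2 hk).uniq (nd_pool hE b1 b2 hk') (by rw [h])
      obtain ⟨rfl, rfl⟩ := mul_add_inj (N := P.m + P.Q) hk hk'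
        ((hE β a1).2 _ (mul_add_lt a2 hk) _ (mul_add_lt b2 hk') h)
      exact ⟨rfl, rfl⟩
  · unfold ps
    split_ifs with a1 a2
    · simp
    · simp [show P.J - 1 = 0 by omega]
    · rfl
  · rcases mem_Bs.1 hB with ⟨s, a1, rfl⟩ | ⟨β, a1, b, a2, rfl⟩
    · obtain ⟨t, c1, c2, -, c3 | c3⟩ := nd_src (E := E) H a1 hk
      · simp only [c3.1, hD.big 0 H.hJb, ps, if_true, if_pos (show k < P.J - 1 by omega)]
        split_ifs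
        · rw [add_one_mul]
        · rw [show P.J - 1 = k + 1 by omega, add_one_mul]; omega
      · simp only [c3.1, hD.one (P.o3 + 2) (by unfold o3; omega), ps, if_true,
          if_neg (show ¬ k < P.J - 1 by omega), if_neg (show ¬ k + 1 < P.J - 1 by omega)]
        omega
    · have := (nd_pool hE a1 a2 hk).1
      simp only [hD.one (P.nd E (2, β, b) k).1 (by unfold o3 at this; omega)]
      rfl
  · rcases mem_Bs.1 hB with ⟨s, a1, rfl⟩ | ⟨β, a1, b, a2, rfl⟩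
    · simp only [ps, cnt, len, if_true, h1, add_one_mul, Nat.add_sub_cancel]
      rw [if_neg (by omega)]
      omega
    · rfl
  · rcases mem_Bs.1 hB with ⟨s, a1, rfl⟩ | ⟨β, a1, b, a2, rfl⟩
    · obtain ⟨t, c1, c2, c3, -⟩ := nd_src (E := E) H a1 hk
      obtain ⟨t', d1, d2, d3, -⟩ := nd_src (E := E) H a1 hk'
      simp only [c2, d2, (H.z0 _).2 c3, (H.z0 _).2 d3]
    · simp only [((nd_pool hE a1 a2 hk).z H a1).1, ((nd_pool hE a1 a2 hk').z H a1).1]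

omit hD in
theorem spn_nd {ν : ℕ × ℕ} (h : ν ∈ spn P.Bs P.cnt (P.nd E)) :
    P.Nd ν ∧ (ν.1 = 0 ∨ P.o3 + 2 ≤ ν.1) := by
  obtain ⟨B, hB, k, hk, rfl⟩ := mem_spn.1 h
  have h1 := H.hN
  have h2 := H.hW3
  rcases mem_Bs.1 hB with ⟨s, a1, rfl⟩ | ⟨β, a1, b, a2, rfl⟩
  · obtain ⟨t, c1, c2, c3, c4⟩ := nd_src (E := E) H a1 hk
    exact ⟨⟨by omega, by omega⟩, by omega⟩
  · have := nd_pool hE a1 a2 hk
    exact ⟨(this.z H a1).2, Or.inr (by have := this.1; omega)⟩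

end

end LP

end Pool.Agent.Lib.MP_05aa0e_al.Ex
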