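import Pool.Agent.Lib.MP_05aa0e_al.ExMainCh

set_option autoImplicit false

namespace Pool.Agent.Lib.MP_05aa0e_al.Ex

open Finset

namespace LP

/-- The block structure of a level. -/
structure Slot (P : LP) (dg : ℕ → ℕ) (bid : ℕ × ℕ → ℕ × ℕ × ℕ) (pos : ℕ × ℕ → ℕ)
    (len : ℕ × ℕ × ℕ → ℕ) (tp : ℕ × ℕ × ℕ → Option (ℕ × ℕ)) (sn : ℕ → ℕ → ℕ × ℕ)
    (dsl : ℕ → ℕ → ℕ → ℕ × ℕ) : Prop where
  til : Til P.Nd (fun ν => dg ν.1) (fun ν => P.z ν.2) len bid pos
  lenle : ∀ ν, P.Nd ν → (bid ν).1 ≠ 2 → len (bid ν) ≤ P.m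
  tpv : ∀ B p, tp B = some p → P.top ∧ p.1 < P.N ∧ p.2 < P.N
  sB : ∀ ν, P.Nd ν → (P.z ν.2 = 1 ∨ P.z ν.2 = 2) → tp (bid ν) = none ∧ (bid ν).1 = 0
  sD : P.top → ∀ i < P.N, ∀ i' < P.N, ∃ ν, P.Nd ν ∧ pos ν = 0 ∧ tp (bid ν) = some (i, i') ∧
    len (bid ν) + dg i ≤ P.m ∧ (i' = P.o3 + 2 → (bid ν).1 = 0) ∧
    ∀ μ, P.Nd μ → bid μ = bid ν → P.z μ.2 = 0
  src : ∀ s < P.ns, len (1, s, 0) + P.Q = P.m ∧
    (∀ p, tp (1, s, 0) = some p → P.f ≤ s ∧ p.2 = P.o3 + (s - P.f) % 2) ∧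
    (∀ μ, P.Nd μ → bid μ = (1, s, 0) → P.z μ.2 = 0) ∧
    ∀ σ ≤ P.J, P.Nd (sn s σ) ∧ bid (sn s σ) = (1, s, 0) ∧ (σ < P.J → pos (sn s σ) = σ * P.Q) ∧
      (σ = P.J → pos (sn s σ) + dg (sn s σ).1 = len (1, s, 0) ∧ (sn s σ).1 = P.o3 + 2)
  dfc : ∀ ν, P.Nd ν → (bid ν).1 = 2 → ∃ β < P.nb, ∃ b < P.zz β, ∃ p < P.m + P.Q, ν = dsl β b p
  hdsl : ∀ β < P.nb, ∀ b < P.zz β, len (2, β, b) = P.m + P.Q ∧ ∀ p < P.m + P.Q,
    P.Pl β (dsl β b p) ∧ bid (dsl β b p) = (2, β, b) ∧ pos (dsl β b p) = p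
  nla : ((range P.N ×ˢ range P.nl).filter (fun ν => pos ν + dg ν.1 = len (bid ν))).card ≤
    P.Bm + P.ns + ∑ β ∈ range P.nb, P.zz β
  cuts : ∀ β < P.nb, ∀ X, X * P.m + P.zz β * (P.m + P.Q) ≤ P.uz β * P.ρ →
    X ≤ ∑ c ∈ range 2, ((Ico (P.Us β) (P.Us β + P.uz β)).filter
      (fun l => pos (P.o3 + c, l) + dg (P.o3 + c) = len (bid (P.o3 + c, l)))).card

variable {P : LP}

theorem card_Bs : P.Bs.card ≤ P.ns + ∑ β ∈ range P.nb, P.zz β :=
  (card_union_le _ _).trans (add_le_add (card_image_le.trans (by simp))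
    (card_image_le.trans (by simp [card_sigma])))

theorem sum_Bs (cl : ℕ → ℕ) : ∑ B ∈ P.Bs, P.len cl B =
    P.ns * (P.m - P.Q) + (∑ β ∈ range P.nb, P.zz β) * (P.m + P.Q) := by
  unfold Bs
  rw [sum_union, sum_image, sum_image]
  · simp [len, card_sigma]
  · rintro ⟨β, b⟩ _ ⟨β', b'⟩ _ h
    simp only [Prod.mk.injEq, true_and] at h
    obtain ⟨rfl, rfl⟩ := h
    rfl
  · intro s _ s' _ h
    simpa using h
  · simp [disjoint_left]

theorem exists_slot (H : P.LH) {dg grp : ℕ → ℕ} (hD : Deg P.J P.Jb P.Q P.K P.N P.ρ dg grp) :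
    ∃ bid pos len tp sn dsl, Slot P dg bid pos len tp sn dsl := by
  classical
  obtain ⟨E, hE⟩ := exists_E H
  set Sp := spn P.Bs P.cnt (P.nd E) with hSp
  set M := (range P.N ×ˢ range P.nl) \ Sp with hMd
  have mM : ∀ ν, ν ∈ M ↔ P.Nd ν ∧ ν ∉ Sp := fun ν => by simp [hMd, Nd]
  have hM : ∀ ν ∈ M, P.Nd ν := fun ν h => ((mM ν).1 h).1
  have hM' : ∀ ν, P.Nd ν → ν.1 ≠ 0 → ν.1 < P.o3 + 2 → ν ∈ M := fun ν h1 h2 h3 =>
    (mM ν).2 ⟨h1, fun h => by have := (spn_nd H hE h).2; omega⟩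
  obtain ⟨blk, pm, cl, C⟩ := main_chain H hD hM hM'
  have hI := idx H hD hE cl
  obtain ⟨bS, pS, T1, hS⟩ := hI.til (fun ν => hD.d1 _)
  set S := gs M (fun s => dg s.1) (fun s => 2 * s.2 + grp s.1) with hSd
  have Smono : Monotone S := gs_mono _ _ _
  obtain ⟨J, r, j1, j2, j3, j4⟩ := H.J1
  have hN := H.hN
  have hCm := Cut_mono H hD
  let bid : ℕ × ℕ → ℕ × ℕ × ℕ := fun ν => if ν ∈ Sp then bS ν else (0, blk ν, 0)
  let pos : ℕ × ℕ → ℕ := fun ν => if ν ∈ Sp then pS ν else pm ν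
  let tp : ℕ × ℕ × ℕ → Option (ℕ × ℕ) := fun B =>
    if B.1 = 1 then (if P.f ≤ B.2.1 ∧ B.2.1 < P.ns then
      some ((B.2.1 - P.f) / 2, P.o3 + (B.2.1 - P.f) % 2) else none)
    else if B.1 = 0 ∧ P.tb B.2.1 then some (B.2.1 / P.N, B.2.1 % P.N) else none
  have bM : ∀ ν ∈ M, bid ν = (0, blk ν, 0) ∧ pos ν = pm ν := fun ν h => by
    simp [bid, pos, ((mM ν).1 h).2]
  have bN : ∀ B ∈ P.Bs, ∀ k < P.cnt B, P.Nd (P.nd E B k) ∧ bid (P.nd E B k) = B ∧
      pos (P.nd E B k) = P.ps B k := fun B h1 k h2 => by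
    have h3 : P.nd E B k ∈ Sp := mem_spn.2 ⟨B, h1, k, h2, rfl⟩
    simp only [bid, pos, h3, if_true]
    exact ⟨(spn_nd H hE h3).1, hS B h1 k h2⟩
  have cls : ∀ ν, P.Nd ν → (ν ∈ M ∧ bid ν = (0, blk ν, 0) ∧ pos ν = pm ν) ∨
      (∃ s < P.ns, ∃ k < P.cnt (1, s, 0), ν = P.nd E (1, s, 0) k ∧ bid ν = (1, s, 0) ∧
        P.z ν.2 = 0) ∨
      ∃ β < P.nb, ∃ b < P.zz β, ∃ k < P.m + P.Q, ν = P.nd E (2, β, b) k ∧ bid ν = (2, β, b) := by
    intro ν h
    by_cases h1 : ν ∈ Sp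
    · obtain ⟨B, hB, k, hk, rfl⟩ := mem_spn.1 h1
      have h2 := (bN B hB k hk).2.1
      rcases mem_Bs.1 hB with ⟨s, a1, rfl⟩ | ⟨β, a1, b, a2, rfl⟩
      · obtain ⟨t, c1, c2, c3, -⟩ := nd_src (E := E) H a1 hk
        exact Or.inr (Or.inl ⟨s, a1, k, hk, rfl, h2, by rw [c2]; exact (H.z0 _).2 c3⟩)
      · exact Or.inr (Or.inr ⟨β, a1, b, a2, k, hk, rfl, h2⟩)
    · exact Or.inl ⟨(mM ν).2 ⟨h, h1⟩, bM ν ((mM ν).2 ⟨h, h1⟩)⟩
  have lenM : ∀ b, P.len cl (0, b, 0) = cl b := fun b => rfl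
  have hcl : ∀ b, cl b + P.loss dg b ≤ P.m := fun b => by
    have := C.hlen b
    have := (Cut_succ H hD b).1
    omega
  have z0M : ∀ ν ∈ M, blk ν < P.N * P.N → P.z ν.2 = 0 := fun ν h1 h2 => by
    rw [H.z0]
    by_contra h3
    have a1 := C.hi ν h1
    have a2 := hCm.monotone (show blk ν + 1 ≤ P.N * P.N from h2)
    have a3 := Cut_le (P := P) (dg := dg) (P.N * P.N)
    have a4 := gs_ge H hD hM' (l := 0) (k := P.W) (by simpa using H.hW3)
    have a5 := Smono (show 2 * (0 + P.W) ≤ 2 * ν.2 + grp ν.1 by omega)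
    have a6 := H.hW2
    rw [mul_add] at a4
    simp only [← hSd] at a1 a4
    omega
  have T0 : Til (· ∈ M) (fun ν => dg ν.1) (fun ν => P.z ν.2) (P.len cl)
      (fun ν => (0, blk ν, 0)) pm := by
    refine ⟨C.c0, fun ν a b => ?_, fun ν a b => ?_, fun μ μ' a b c e => ?_,
      fun ν μ a b c => ?_, fun ν μ a b c e => ?_⟩
    · obtain ⟨μ, h1, h2, h3⟩ := C.c1 ν a b
      exact ⟨μ, h1, by rw [h2], h3⟩
    · obtain ⟨μ, h1, h2, h3⟩ := C.c2 ν a b
      exact ⟨μ, h1, by rw [h2], h3⟩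
    · exact C.c3 μ a μ' b (by simpa using c) e
    · by_contra h
      have c' : blk μ = blk ν := by simpa using c
      have a1 := H.gap ν.2 μ.2 (hM μ b).2 (by omega)
      have a2 := C.hi μ b
      have a3 := C.lo ν a
      have a4 := (Cut_succ H hD (blk ν)).1
      have a5 := gs_ge H hD hM' (l := ν.2 + 1) (k := P.N) (by have := (hM μ b).2; omega)
      have a6 := Smono (show 2 * (ν.2 + 1 + P.N) ≤ 2 * μ.2 + grp μ.1 by omega)
      have a7 := Smono (show 2 * ν.2 + grp ν.1 + 1 ≤ 2 * (ν.2 + 1) by have := hD.g2 ν.1; omega)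
      have a8 : (J + 1) * (P.Q + 1) ≤ P.N * (P.Q + 1) :=
        Nat.mul_le_mul_right _ (by unfold o3 at hN; omega)
      rw [c'] at a2
      simp only [← hSd] at a2 a3 a5
      rw [add_one_mul, mul_add_one] at a8
      omega
    · have := C.mono ν a μ b (by simpa using c) e
      have := hD.g2 μ.1
      exact H.zmono (by omega)
  have til : Til P.Nd (fun ν => dg ν.1) (fun ν => P.z ν.2) (P.len cl) bid pos := by
    refine (T0.congr bM).union (T1.congr (bid' := bid) (pos' := pos)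
      fun ν h => by simp [bid, pos, hSp, h]) (fun ν μ h1 h2 h3 => ?_)
      (fun ν => ⟨fun h => ?_, fun h => h.elim (hM ν) fun h => (spn_nd H hE h).1⟩)
    · obtain ⟨B, hB, k, hk, rfl⟩ := mem_spn.1 h2
      rw [(bM ν h1).1, (bN B hB k hk).2.1] at h3
      rcases mem_Bs.1 hB with ⟨s, a1, rfl⟩ | ⟨β, a1, b, a2, rfl⟩ <;> simp at h3
    · by_cases h1 : ν ∈ Sp
      · exact Or.inr h1
      · exact Or.inl ((mM ν).2 ⟨h, h1⟩)
  have hB1 : ∀ s < P.ns, ((1, s, 0) : ℕ × ℕ × ℕ) ∈ P.Bs := fun s h => mem_Bs.2 (Or.inl ⟨s, h, rfl⟩)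
  have z0S : ∀ s μ, P.Nd μ → bid μ = (1, s, 0) → P.z μ.2 = 0 := fun s μ h1 h2 => by
    rcases cls μ h1 with ⟨-, a, -⟩ | ⟨s', -, k, -, -, -, a⟩ | ⟨β, -, b, -, k, -, -, a⟩
    · rw [a] at h2; simp at h2
    · exact a
    · rw [a] at h2; simp at h2
  have cnt1 : ∀ s, P.cnt (1, s, 0) = J + r := fun s => by
    simp only [cnt, if_true, j1, add_one_mul]; omega
  have hT : ∑ ν ∈ M, dg ν.1 + (P.ns * (P.m - P.Q) + (∑ β ∈ range P.nb, P.zz β) * (P.m + P.Q)) =
      P.nl * P.ρ := by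
    rw [← sum_Bs cl, ← hI.sum subset_rfl, hMd, sum_sdiff fun ν h => by
      have := (spn_nd H hE h).1
      simpa [Nd] using this, sum_product_right]
    simp [hD.sum]
  refine ⟨bid, pos, P.len cl, tp, fun s σ => P.nd E (1, s, 0) (if σ < P.J then σ else J + r - 1),
    fun β b p => P.nd E (2, β, b) p, til, fun ν h1 h2 => ?_, fun B p h => ?_, fun ν h1 h2 => ?_,
    fun ht i hi i' hi' => ?_, fun s hs => ⟨?_, fun p h => ?_, z0S s, fun σ hσ => ?_⟩,
    fun ν h1 h2 => ?_, fun β h1 b h2 => ⟨rfl, fun p hp => ⟨nd_pool hE h1 h2 hp, ?_⟩⟩, ?_,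
    fun β hβ X hX => ?_⟩
  · rcases cls ν h1 with ⟨-, a, -⟩ | ⟨s', -, k, -, -, a, -⟩ | ⟨β, -, b, -, k, -, -, a⟩
    · have := hcl (blk ν)
      rw [a, lenM]; omega
    · rw [a]; exact Nat.sub_le _ _
    · rw [a] at h2; simp at h2
  · simp only [tp] at h
    split_ifs at h with a1 a2 a3
    · obtain rfl := Option.some.inj h
      have a3 : P.top := by
        by_contra a3
        have := H.hns' a3
        omega
      have a4 := H.hns a3
      have a5 := H.hJb'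
      refine ⟨a3, ?_, ?_⟩ <;> unfold o3 at * <;> simp only <;> omega
    · obtain rfl := Option.some.inj h
      exact ⟨a3.2.1, Nat.div_lt_of_lt_mul a3.2.2.1, Nat.mod_lt _ (by omega)⟩
  · rcases cls ν h1 with ⟨a0, a, -⟩ | ⟨s', -, k, -, -, -, a⟩ | ⟨β, a1, b, a2, k, a3, a4, a⟩
    · have a1 : ¬ P.tb (blk ν) := fun h => by have := z0M ν a0 h.2.1; omega
      rw [a]; simp [tp, a1]
    · omega
    · have := ((nd_pool hE a1 a2 a3).z H a1).1
      rw [← a4] at this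
      omega
  · by_cases hr : P.rigid i i'
    · obtain ⟨r1, r2⟩ := hr
      have a1 := H.hns ht
      have a2 : P.f + 2 * i + (i' - P.o3) < P.ns := by omega
      obtain ⟨b1, b2, b3⟩ := bN _ (hB1 _ a2) 0 (by rw [cnt1]; omega)
      refine ⟨_, b1, b3.trans (hI.p0 _ (hB1 _ a2)), ?_, ?_, by omega,
        fun μ c1 c2 => z0S _ μ c1 (c2.trans b2)⟩
      · rw [b2]
        simp only [tp, if_true, a2, and_true, if_pos (show P.f ≤ P.f + 2 * i + (i' - P.o3) by omega)]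
        congr 2 <;> omega
      · rw [b2, hD.big i r1]
        simp only [len, if_true]; omega
    · have a1 : i * P.N + i' < P.N * P.N := mul_add_lt hi hi'
      have a2 : (i * P.N + i') / P.N = i := by
        rw [mul_comm, Nat.mul_add_div (by omega), Nat.div_eq_of_lt hi', add_zero]
      have a3 : (i * P.N + i') % P.N = i' := by
        rw [mul_comm, Nat.mul_add_mod, Nat.mod_eq_of_lt hi']
      have a4 : P.tb (i * P.N + i') := ⟨ht, a1, by rwa [a2, a3]⟩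
      have a5 := hCm a1
      have a6 := Cut_le (P := P) (dg := dg) (P.N * P.N)
      have a7 := gs_ge H hD hM' (l := 0) (k := P.W) (by simpa using H.hW3)
      have a8 := H.hW2
      rw [mul_add_one] at a7
      obtain ⟨ν, b1, b2, b3⟩ := C.top (fun s => hD.d1 _) (b := i * P.N + i')
        (γ := 2 * (0 + P.W)) (by omega)
      obtain ⟨b4, b5⟩ := bM ν b1
      have b6 := hcl (i * P.N + i')
      simp only [loss, a4, if_true, a2] at b6
      refine ⟨ν, hM ν b1, b5.trans b3, ?_, by rw [b4, lenM, b2]; exact b6, fun _ => by rw [b4],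
        fun μ c1 c2 => ?_⟩
      · rw [b4, b2]; simp [tp, a4, a2, a3]
      · rw [b4] at c2
        rcases cls μ c1 with ⟨a0, a, -⟩ | ⟨s', -, k, -, -, -, a⟩ | ⟨β, -, b, -, k, -, -, a⟩
        · rw [a] at c2
          exact z0M μ a0 (by simp only [Prod.mk.injEq] at c2; omega)
        · exact a
        · rw [a] at c2; simp at c2
  · simp only [len, if_true]; omega
  · simp only [tp, if_true] at h
    split_ifs at h with a1
    obtain rfl := Option.some.inj h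
    exact ⟨a1.1, rfl⟩
  · have a1 : (if σ < P.J then σ else J + r - 1) < P.cnt (1, s, 0) := by
      rw [cnt1]; split_ifs <;> omega
    obtain ⟨b1, b2, b3⟩ := bN _ (hB1 _ hs) _ a1
    refine ⟨b1, b2, fun h => ?_, fun h => ⟨?_, ?_⟩⟩
    · rw [b3]
      simp only [ps, if_true, if_pos h]
      split_ifs
      · rfl
      · rw [show P.J - 1 = σ by omega]; omega
    · rw [b3, ← hI.ps1 _ (hB1 _ hs) _ a1, ← hI.pe _ (hB1 _ hs), cnt1, if_neg (by omega)]
      congr 1; omega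
    · obtain ⟨t, c1, -, -, c4⟩ := nd_src (E := E) H hs a1
      rw [if_neg (show ¬ σ < P.J by omega)] at c4 ⊢
      omega
  · rcases cls ν h1 with ⟨-, a, -⟩ | ⟨s', -, k, -, -, a, -⟩ | ⟨β, a1, b, a2, k, a3, a4, -⟩
    · rw [a] at h2; simp at h2
    · rw [a] at h2; simp at h2
    · exact ⟨β, a1, b, a2, k, a3, a4⟩
  · exact (bN _ (mem_Bs.2 (Or.inr ⟨β, h1, b, h2, rfl⟩)) p hp).2
  · have a1 : ∑ ν ∈ M, dg ν.1 ≤ P.Cut dg P.Bm := by
      have b0 : P.ns * (P.m - P.Q) + P.ns * P.Q = P.ns * P.m := by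
        rw [← mul_add, Nat.sub_add_cancel (by omega)]
      by_cases ht : P.top
      · obtain ⟨b1, b2⟩ := H.hBm ht
        have b3 := Cut_ge H hD ht b1
        have b4 : P.ns * P.Q = P.f * P.Q + P.Jb * (2 * P.Q) := by rw [H.hns ht]; ring
        rw [mul_add, add_mul, add_mul, mul_comm P.ρ, mul_comm P.ρ] at b2
        rw [mul_add] at hT
        omega
      · have b2 := H.hBm' ht
        have b3 : P.Cut dg P.Bm = P.Bm * P.m := by simp [Cut, loss, tb, ht]
        rw [add_mul, mul_comm P.ρ] at b2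
        rw [mul_add] at hT
        omega
    refine le_trans (card_le_card_of_injOn (t := (range P.Bm).image (fun b => (0, b, 0)) ∪ P.Bs)
      bid (fun ν h => ?_) fun ν h μ h' e => ?_) ((card_union_le _ _).trans ?_)
    · simp only [coe_filter, mem_product, mem_range, Set.mem_ofPred_eq] at h
      rcases cls ν h.1 with ⟨a0, a, -⟩ | ⟨s', a2, k, -, -, a, -⟩ | ⟨β, a2, b, a3, k, -, -, a⟩
      · have b1 := C.lo ν a0
        have b2 := gs_le M (fun s => dg s.1) (fun s => 2 * s.2 + grp s.1) (2 * ν.2 + grp ν.1 + 1)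
        have b3 := hCm.lt_iff_lt.1 (b1.trans_le (b2.trans a1))
        rw [a]; simp [b3]
      · rw [a]; simp [hB1 _ a2]
      · rw [a]; exact mem_coe.2 (mem_union_right _ (mem_Bs.2 (Or.inr ⟨β, a2, b, a3, rfl⟩)))
    · simp only [coe_filter, mem_product, mem_range, Set.mem_ofPred_eq] at h h'
      exact til.c3 ν μ h.1 h'.1 e (by rw [h.2, h'.2, e])
    · have := card_Bs (P := P)
      have b1 : ((range P.Bm).image (fun b => ((0, b, 0) : ℕ × ℕ × ℕ))).card ≤ P.Bm :=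
        card_image_le.trans (by simp)
      omega
  · obtain ⟨u1, u2, u3⟩ := H.hU β hβ
    have a1 : S (2 * P.Us β) + P.uz β * P.ρ ≤
        S (2 * (P.Us β + P.uz β)) + P.zz β * (P.m + P.Q) := by
      have b1 : ((range (P.zz β)).image (fun b => ((2, β, b) : ℕ × ℕ × ℕ))) ⊆ P.Bs := fun B h => by
        obtain ⟨b, h1, rfl⟩ := mem_image.1 h
        exact mem_Bs.2 (Or.inr ⟨β, hβ, b, mem_range.1 h1, rfl⟩)
      have b2 := hI.sum b1
      rw [sum_image (fun _ _ _ _ h => by simpa using h)] at b2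
      simp only [len, sum_const, card_range, smul_eq_mul] at b2
      have b3 : P.uz β * P.ρ = ∑ ν ∈ range P.N ×ˢ Ico (P.Us β) (P.Us β + P.uz β), dg ν.1 := by
        rw [sum_product_right]; simp [hD.sum]
      simp only [OfNat.ofNat_ne_one, if_false, if_true] at b2
      rw [← b2, b3, hSd]
      unfold gs
      rw [← sum_union, ← sum_union_inter]
      · refine le_trans (sum_le_sum_of_subset fun ν h => ?_) (Nat.le_add_right _ _)
        simp only [mem_union, mem_filter, mem_product, mem_range, mem_Ico] at h ⊢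
        have g2 := hD.g2 ν.1
        rcases h with h | h
        · exact Or.inl ⟨h.1, by omega⟩
        · rcases cls ν ⟨h.1, by omega⟩ with ⟨a0, -⟩ | ⟨s', -, k, -, -, -, a⟩ |
            ⟨β', a2, b, a3, k, a4, a5, -⟩
          · exact Or.inl ⟨a0, by omega⟩
          · have := u3 (ν.2 - P.Us β) (by omega)
            rw [Nat.add_sub_cancel' h.2.1] at this
            omega
          · have c1 := u3 (ν.2 - P.Us β) (by omega)
            rw [Nat.add_sub_cancel' h.2.1] at c1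
            have c2 := ((nd_pool hE a2 a3 a4).z H a2).1
            rw [← a5] at c2
            obtain rfl : β' = β := by omega
            exact Or.inr (mem_spn.2 ⟨_, mem_image_of_mem _ (mem_range.2 a3), k, a4, a5.symm⟩)
      · rw [disjoint_left]
        intro ν h1 h2
        simp only [mem_filter, mem_product, mem_range, mem_Ico] at h1 h2
        omega
    have a2 := C.cuts (by simp [Cut]) hCm (m := P.m)
      (fun b => by have := (Cut_succ H hD b).1; omega) (γ0 := 2 * P.Us β)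
      (γ1 := 2 * (P.Us β + P.uz β)) (by omega) (X := X) (by simp only [← hSd]; omega)
    refine a2.trans ?_
    rw [← card_sigma]
    refine card_le_card_of_injOn (fun γ => ⟨γ % 2, γ / 2⟩) (fun γ h => ?_) fun γ _ γ' _ h => ?_
    · simp only [coe_filter, mem_Ico, Set.mem_ofPred_eq] at h
      obtain ⟨b1, b2, b3⟩ := h
      obtain ⟨b4, b5⟩ := bM _ b2
      simp only [star] at b3 b4 b5
      simp only [coe_sigma, Set.mem_sigma_iff, coe_range, Set.mem_Iio, coe_filter, mem_Ico,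
        Set.mem_ofPred_eq, b4, b5, lenM]
      exact ⟨by omega, by omega, b3⟩
    · simp only [Sigma.mk.injEq, heq_eq_eq] at h
      omega

end LP

end Pool.Agent.Lib.MP_05aa0e_al.Ex
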