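import Pool.Agent.Lib.MP_05aa0e_al.ExChain
import Pool.Agent.Lib.MP_05aa0e_al.ExAux

set_option autoImplicit false

namespace Pool.Agent.Lib.MP_05aa0e_al.Ex

open Finset

/-- The nodes in `P` are arranged in blocks. -/
structure Til (P : ℕ × ℕ → Prop) (d z : ℕ × ℕ → ℕ) (len : ℕ × ℕ × ℕ → ℕ)
    (bid : ℕ × ℕ → ℕ × ℕ × ℕ) (pos : ℕ × ℕ → ℕ) : Prop where
  c0 : ∀ ν, P ν → pos ν + d ν ≤ len (bid ν)
  c1 : ∀ ν, P ν → 0 < pos ν → ∃ μ, P μ ∧ bid μ = bid ν ∧ pos μ + d μ = pos ν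
  c2 : ∀ ν, P ν → pos ν + d ν < len (bid ν) → ∃ μ, P μ ∧ bid μ = bid ν ∧ pos μ = pos ν + d ν
  c3 : ∀ μ μ', P μ → P μ' → bid μ = bid μ' → pos μ + d μ = pos μ' + d μ' → μ = μ'
  loc : ∀ ν μ, P ν → P μ → bid μ = bid ν → z μ ≤ z ν + 1
  mono : ∀ ν μ, P ν → P μ → bid μ = bid ν → pos μ < pos ν → z ν ≤ z μ

section
variable {P P' : ℕ × ℕ → Prop} {d z : ℕ × ℕ → ℕ} {len : ℕ × ℕ × ℕ → ℕ}
  {bid bid' : ℕ × ℕ → ℕ × ℕ × ℕ} {pos pos' : ℕ × ℕ → ℕ}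

theorem Til.congr (H : Til P d z len bid pos) (h : ∀ ν, P ν → bid' ν = bid ν ∧ pos' ν = pos ν) :
    Til P d z len bid' pos' := by
  refine ⟨fun ν a => ?_, fun ν a b => ?_, fun ν a b => ?_, fun μ μ' a b c e => ?_,
    fun ν μ a b c => ?_, fun ν μ a b c e => ?_⟩
  · rw [(h ν a).1, (h ν a).2]; exact H.c0 ν a
  · rw [(h ν a).2] at b
    obtain ⟨μ, h1, h2, h3⟩ := H.c1 ν a b
    exact ⟨μ, h1, by rw [(h ν a).1, (h μ h1).1, h2], by rw [(h ν a).2, (h μ h1).2, h3]⟩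
  · rw [(h ν a).1, (h ν a).2] at b
    obtain ⟨μ, h1, h2, h3⟩ := H.c2 ν a b
    exact ⟨μ, h1, by rw [(h ν a).1, (h μ h1).1, h2], by rw [(h ν a).2, (h μ h1).2, h3]⟩
  · rw [(h μ a).1, (h μ' b).1] at c
    rw [(h μ a).2, (h μ' b).2] at e
    exact H.c3 μ μ' a b c e
  · rw [(h ν a).1, (h μ b).1] at c
    exact H.loc ν μ a b c
  · rw [(h ν a).1, (h μ b).1] at c
    rw [(h ν a).2, (h μ b).2] at e
    exact H.mono ν μ a b c e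

theorem Til.union (H : Til P d z len bid pos) (H' : Til P' d z len bid pos)
    (h : ∀ ν μ, P ν → P' μ → bid ν ≠ bid μ) {P'' : ℕ × ℕ → Prop} (hP : ∀ ν, P'' ν ↔ P ν ∨ P' ν) :
    Til P'' d z len bid pos := by
  refine ⟨fun ν a => ?_, fun ν a b => ?_, fun ν a b => ?_, fun μ μ' a b c e => ?_,
    fun ν μ a b c => ?_, fun ν μ a b c e => ?_⟩
  · exact ((hP ν).1 a).elim (H.c0 ν) (H'.c0 ν)
  · rcases (hP ν).1 a with a | a
    · obtain ⟨μ, h1, h2⟩ := H.c1 ν a b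
      exact ⟨μ, (hP μ).2 (Or.inl h1), h2⟩
    · obtain ⟨μ, h1, h2⟩ := H'.c1 ν a b
      exact ⟨μ, (hP μ).2 (Or.inr h1), h2⟩
  · rcases (hP ν).1 a with a | a
    · obtain ⟨μ, h1, h2⟩ := H.c2 ν a b
      exact ⟨μ, (hP μ).2 (Or.inl h1), h2⟩
    · obtain ⟨μ, h1, h2⟩ := H'.c2 ν a b
      exact ⟨μ, (hP μ).2 (Or.inr h1), h2⟩
  · rcases (hP μ).1 a with a | a <;> rcases (hP μ').1 b with b | b
    exacts [H.c3 _ _ a b c e, absurd c (h _ _ a b), absurd c.symm (h _ _ b a), H'.c3 _ _ a b c e]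
  · rcases (hP ν).1 a with a | a <;> rcases (hP μ).1 b with b | b
    exacts [H.loc _ _ a b c, absurd c.symm (h _ _ a b), absurd c (h _ _ b a), H'.loc _ _ a b c]
  · rcases (hP ν).1 a with a | a <;> rcases (hP μ).1 b with b | b
    exacts [H.mono _ _ a b c e, absurd c.symm (h _ _ a b), absurd c (h _ _ b a),
      H'.mono _ _ a b c e]

theorem Til.perm (H : Til P d z len bid pos) (π : Equiv.Perm (ℕ × ℕ)) (h1 : ∀ ν, P (π ν) ↔ P ν)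
    (h2 : ∀ ν, d (π ν) = d ν) (h3 : ∀ ν, z (π ν) = z ν) :
    Til P d z len (fun ν => bid (π ν)) (fun ν => pos (π ν)) := by
  refine ⟨fun ν a => ?_, fun ν a b => ?_, fun ν a b => ?_, fun μ μ' a b c e => ?_,
    fun ν μ a b c => ?_, fun ν μ a b c e => ?_⟩
  · rw [← h2]; exact H.c0 _ ((h1 ν).2 a)
  · obtain ⟨μ, b1, b2, b3⟩ := H.c1 _ ((h1 ν).2 a) b
    obtain ⟨μ, rfl⟩ := π.surjective μ
    exact ⟨μ, (h1 μ).1 b1, b2, by rw [← h2]; exact b3⟩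
  · rw [← h2] at b
    obtain ⟨μ, b1, b2, b3⟩ := H.c2 _ ((h1 ν).2 a) b
    obtain ⟨μ, rfl⟩ := π.surjective μ
    exact ⟨μ, (h1 μ).1 b1, b2, by rw [← h2]; exact b3⟩
  · rw [← h2 μ, ← h2 μ'] at e
    exact π.injective (H.c3 _ _ ((h1 μ).2 a) ((h1 μ').2 b) c e)
  · rw [← h3 ν, ← h3 μ]; exact H.loc _ _ ((h1 ν).2 a) ((h1 μ).2 b) c
  · rw [← h3 ν, ← h3 μ]; exact H.mono _ _ ((h1 ν).2 a) ((h1 μ).2 b) c e

/-- Explicitly listed blocks. -/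
structure Idx (d z : ℕ × ℕ → ℕ) (len : ℕ × ℕ × ℕ → ℕ) (Bs : Finset (ℕ × ℕ × ℕ))
    (cnt : ℕ × ℕ × ℕ → ℕ) (nd : ℕ × ℕ × ℕ → ℕ → ℕ × ℕ) (ps : ℕ × ℕ × ℕ → ℕ → ℕ) : Prop where
  inj : ∀ B ∈ Bs, ∀ B' ∈ Bs, ∀ k < cnt B, ∀ k' < cnt B', nd B k = nd B' k' → B = B' ∧ k = k'
  p0 : ∀ B ∈ Bs, ps B 0 = 0
  ps1 : ∀ B ∈ Bs, ∀ k < cnt B, ps B (k + 1) = ps B k + d (nd B k)
  pe : ∀ B ∈ Bs, ps B (cnt B) = len B
  zc : ∀ B ∈ Bs, ∀ k < cnt B, ∀ k' < cnt B, z (nd B k) = z (nd B k')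

/-- The nodes of explicitly listed blocks. -/
def spn (Bs : Finset (ℕ × ℕ × ℕ)) (cnt : ℕ × ℕ × ℕ → ℕ) (nd : ℕ × ℕ × ℕ → ℕ → ℕ × ℕ) :
    Finset (ℕ × ℕ) := (Bs.sigma (fun B => range (cnt B))).image (fun p => nd p.1 p.2)

variable {Bs : Finset (ℕ × ℕ × ℕ)} {cnt : ℕ × ℕ × ℕ → ℕ} {nd : ℕ × ℕ × ℕ → ℕ → ℕ × ℕ}
  {ps : ℕ × ℕ × ℕ → ℕ → ℕ}

theorem mem_spn {ν : ℕ × ℕ} : ν ∈ spn Bs cnt nd ↔ ∃ B ∈ Bs, ∃ k < cnt B, nd B k = ν := by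
  simp [spn, and_assoc]

theorem Idx.sum (H : Idx d z len Bs cnt nd ps) {Bs' : Finset (ℕ × ℕ × ℕ)} (h : Bs' ⊆ Bs) :
    ∑ ν ∈ spn Bs' cnt nd, d ν = ∑ B ∈ Bs', len B := by
  unfold spn
  rw [sum_image, sum_sigma]
  · refine sum_congr rfl fun B hB => ?_
    have key : ∀ k ≤ cnt B, ∑ i ∈ range k, d (nd B i) = ps B k := by
      intro k
      induction k with
      | zero => simp [H.p0 B (h hB)]
      | succ k ih => intro hk; rw [sum_range_succ, ih (by omega), H.ps1 B (h hB) k hk]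
    rw [key _ le_rfl, H.pe B (h hB)]
  · rintro ⟨B, k⟩ h1 ⟨B', k'⟩ h2 h3
    simp only [coe_sigma, Set.mem_sigma_iff, mem_coe, coe_range, Set.mem_Iio] at h1 h2
    obtain ⟨rfl, rfl⟩ := H.inj B (h h1.1) B' (h h2.1) k h1.2 k' h2.2 h3
    rfl

theorem Idx.til (H : Idx d z len Bs cnt nd ps) (hd : ∀ ν, 1 ≤ d ν) : ∃ bid pos,
    Til (· ∈ spn Bs cnt nd) d z len bid pos ∧
      ∀ B ∈ Bs, ∀ k < cnt B, bid (nd B k) = B ∧ pos (nd B k) = ps B k := by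
  have h1 : ∀ ν, ∃ p : (ℕ × ℕ × ℕ) × ℕ, ∀ B ∈ Bs, ∀ k < cnt B, nd B k = ν → p = (B, k) := by
    intro ν
    by_cases h : ν ∈ spn Bs cnt nd
    · obtain ⟨B, a1, k, a2, a3⟩ := mem_spn.1 h
      refine ⟨(B, k), fun B' b1 k' b2 b3 => ?_⟩
      obtain ⟨rfl, rfl⟩ := H.inj B a1 B' b1 k a2 k' b2 (a3.trans b3.symm)
      rfl
    · exact ⟨default, fun B b1 k b2 b3 => absurd (mem_spn.2 ⟨B, b1, k, b2, b3⟩) h⟩
  choose dec hdec using h1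
  have h2 : ∀ B ∈ Bs, ∀ k < cnt B, (dec (nd B k)).1 = B ∧
      ps (dec (nd B k)).1 (dec (nd B k)).2 = ps B k := fun B a1 k a2 => by
    rw [hdec _ B a1 k a2 rfl]; exact ⟨rfl, rfl⟩
  have h3 : ∀ B ∈ Bs, ∀ k' ≤ cnt B, ∀ k < k', ps B k < ps B k' := by
    intro B hB k'
    induction k' with
    | zero => simp
    | succ k' ih =>
      intro a1 k a2
      have a3 := H.ps1 B hB k' a1
      have a4 := hd (nd B k')
      rcases (Nat.lt_succ_iff.1 a2).lt_or_eq with a5 | rfl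
      · have := ih (by omega) k a5; omega
      · omega
  refine ⟨fun ν => (dec ν).1, fun ν => ps (dec ν).1 (dec ν).2, ⟨fun ν a => ?_, fun ν a b => ?_,
    fun ν a b => ?_, fun μ μ' a b c e => ?_, fun ν μ a b c => ?_, fun ν μ a b c e => ?_⟩, h2⟩
  · obtain ⟨B, a1, k, a2, rfl⟩ := mem_spn.1 a
    rw [(h2 B a1 k a2).2, (h2 B a1 k a2).1, ← H.ps1 B a1 k a2, ← H.pe B a1]
    rcases (Nat.succ_le_of_lt a2).lt_or_eq with h | h
    · exact (h3 B a1 _ le_rfl _ h).le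
    · rw [← h]
  · obtain ⟨B, a1, k, a2, rfl⟩ := mem_spn.1 a
    rw [(h2 B a1 k a2).2] at b
    rcases k with _ | k
    · rw [H.p0 B a1] at b; omega
    · refine ⟨nd B k, mem_spn.2 ⟨B, a1, k, by omega, rfl⟩, ?_, ?_⟩
      · rw [(h2 B a1 k (by omega)).1, (h2 B a1 _ a2).1]
      · rw [(h2 B a1 k (by omega)).2, (h2 B a1 _ a2).2, H.ps1 B a1 k (by omega)]
  · obtain ⟨B, a1, k, a2, rfl⟩ := mem_spn.1 a
    rw [(h2 B a1 k a2).2, (h2 B a1 k a2).1, ← H.ps1 B a1 k a2, ← H.pe B a1] at b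
    have a3 : k + 1 < cnt B := by
      by_contra a3
      rw [show k + 1 = cnt B by omega] at b
      omega
    refine ⟨nd B (k + 1), mem_spn.2 ⟨B, a1, k + 1, a3, rfl⟩, ?_, ?_⟩
    · rw [(h2 B a1 k a2).1, (h2 B a1 _ a3).1]
    · rw [(h2 B a1 k a2).2, (h2 B a1 _ a3).2, H.ps1 B a1 k a2]
  · obtain ⟨B, a1, k, a2, rfl⟩ := mem_spn.1 a
    obtain ⟨B', b1, k', b2, rfl⟩ := mem_spn.1 b
    rw [(h2 B a1 k a2).1, (h2 B' b1 k' b2).1] at c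
    subst c
    rw [(h2 B a1 k a2).2, (h2 B b1 k' b2).2, ← H.ps1 B a1 k a2, ← H.ps1 B a1 k' b2] at e
    rcases lt_trichotomy k k' with h | h | h
    · have := h3 B a1 (k' + 1) b2 (k + 1) (by omega); omega
    · rw [h]
    · have := h3 B a1 (k + 1) a2 (k' + 1) (by omega); omega
  · obtain ⟨B, a1, k, a2, rfl⟩ := mem_spn.1 a
    obtain ⟨B', b1, k', b2, rfl⟩ := mem_spn.1 b
    rw [(h2 B a1 k a2).1, (h2 B' b1 k' b2).1] at c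
    subst c
    rw [H.zc _ a1 k a2 k' b2]; omega
  · obtain ⟨B, a1, k, a2, rfl⟩ := mem_spn.1 a
    obtain ⟨B', b1, k', b2, rfl⟩ := mem_spn.1 b
    rw [(h2 B a1 k a2).1, (h2 B' b1 k' b2).1] at c
    subst c
    rw [H.zc _ a1 k a2 k' b2]

end

theorem sum_div_mod (F : ℕ → ℕ → ℕ) (N a : ℕ) :
    ∑ b ∈ range (a * N), F (b / N) (b % N) = ∑ i ∈ range a, ∑ i' ∈ range N, F i i' := by
  induction a with
  | zero => simp
  | succ a ih =>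
    rw [add_one_mul, sum_range_add, ih, sum_range_succ]
    congr 1
    refine sum_congr rfl fun i hi => ?_
    have := mem_range.1 hi
    rw [mul_comm, Nat.mul_add_div (by omega), Nat.mul_add_mod, Nat.div_eq_of_lt this,
      Nat.mod_eq_of_lt this, add_zero]

theorem mul_add_inj {N a b a' b' : ℕ} (hb : b < N) (hb' : b' < N) (h : a * N + b = a' * N + b') :
    a = a' ∧ b = b' := by
  have h1 := congrArg (· / N) h
  have h2 := congrArg (· % N) h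
  simp only [mul_comm _ N] at h1 h2
  rw [Nat.mul_add_div (by omega), Nat.mul_add_div (by omega), Nat.div_eq_of_lt hb,
    Nat.div_eq_of_lt hb'] at h1
  rw [Nat.mul_add_mod, Nat.mul_add_mod, Nat.mod_eq_of_lt hb, Nat.mod_eq_of_lt hb'] at h2
  exact ⟨by omega, h2⟩

theorem mul_add_lt {N a b c : ℕ} (ha : a < c) (hb : b < N) : a * N + b < c * N := by
  have := Nat.mul_le_mul_right N (show a + 1 ≤ c from ha)
  rw [add_one_mul] at this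
  omega

end Pool.Agent.Lib.MP_05aa0e_al.Ex
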