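import Pool.Agent.Lib.MP_05aa0e_al.Count

set_option autoImplicit false

namespace Pool.Agent.Lib.MP_05aa0e_al

open Finset

theorem sturm_floor {ρ : ℝ} (h0 : 0 ≤ ρ) (h1 : ρ < 1) : Sturm (fun i => ⌊(i : ℝ) * ρ⌋₊) := by
  refine ⟨by simp, by simpa [Nat.floor_eq_zero] using h1, fun a b => ?_⟩
  have ha : 0 ≤ (a : ℝ) * ρ := by positivity
  have hb : 0 ≤ (b : ℝ) * ρ := by positivity
  simp only [Nat.cast_add, add_mul]
  have a1 := Nat.floor_le ha
  have b1 := Nat.floor_le hb
  have a2 := Nat.lt_floor_add_one ((a : ℝ) * ρ)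
  have b2 := Nat.lt_floor_add_one ((b : ℝ) * ρ)
  refine ⟨Nat.le_floor (by push_cast; linarith), Nat.lt_succ_iff.1 ?_⟩
  rw [Nat.floor_lt (by linarith)]
  push_cast; linarith

theorem count_true {h : ℕ → ℕ} (hh : Sturm h) (N : ℕ) :
    ∑ s : Fin N, (if st h s.val = true then (1 : ℝ) else 0) = h N := by
  rw [Fin.sum_univ_eq_sum_range (fun s => if st h s = true then (1 : ℝ) else 0)]
  induction N with
  | zero => simp [hh.1]
  | succ N ih =>
    rw [sum_range_succ, ih]
    rcases hh.step N with ⟨e1, e2⟩ | ⟨e1, e2⟩ <;> simp [e1, e2]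

theorem count_false {h : ℕ → ℕ} (hh : Sturm h) (N : ℕ) :
    ∑ s : Fin N, (if st h s.val = false then (1 : ℝ) else 0) = N - h N := by
  rw [Fin.sum_univ_eq_sum_range (fun s => if st h s = false then (1 : ℝ) else 0)]
  induction N with
  | zero => simp [hh.1]
  | succ N ih =>
    rw [sum_range_succ, ih]
    rcases hh.step N with ⟨e1, e2⟩ | ⟨e1, e2⟩
    · simp [e1, e2]; ring
    · simp [e1, e2]

theorem count_true' {h : ℕ → ℕ} (hh : Sturm h) (N : ℕ) :
    ∑ s : Fin N, (if st h s.val = true ∨ s.val = 0 then (1 : ℝ) else 0) ≤ h N + 1 := by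
  have h1 : ∑ s : Fin N, (if s.val = 0 then (1 : ℝ) else 0) ≤ 1 := by
    rw [Fin.sum_univ_eq_sum_range (fun s => if s = 0 then (1 : ℝ) else 0), sum_ite_eq']
    split_ifs <;> norm_num
  rw [← count_true hh N]
  refine le_trans ?_ (add_le_add_right h1 _)
  rw [← sum_add_distrib]
  refine sum_le_sum fun s _ => ?_
  split_ifs <;> first | tauto | norm_num

section
variable {L : ℕ} (N : Fin L → ℕ) {B : Type} [Fintype B] [DecidableEq B] (jb : B → ℕ) (ρ : B → ℝ)

/-- Cumulative weights. -/
noncomputable def cum (i : ℕ) : ℝ :=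
  ∑ l : Fin L, (if l.val < i then (N l : ℝ) else 0) +
    ∑ β, (if jb β < i then (3 : ℝ) else if jb β = i then 2 - ρ β else 0)

omit [DecidableEq B] in
theorem load_le (hj : ∀ β, 1 ≤ jb β) (hρ : ∀ β, 0 ≤ ρ β ∧ ρ β < 1) (i : ℕ) :
    (load jb (fun β i => ⌊(i : ℝ) * ρ β⌋₊) N i : ℝ) ≤
      (Fintype.card (Ltr L N B) - cum N jb ρ i) * cum N jb ρ (i + 1) +
      9 * (Fintype.card B : ℝ) ^ 2 + 2 * L * Fintype.card B := by
  set mb : B → ℕ → ℕ := fun β i => ⌊(i : ℝ) * ρ β⌋₊ with hmb
  have hm : ∀ β, Sturm (mb β) := fun β => sturm_floor (hρ β).1 (hρ β).2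
  have hfl : ∀ β (n : ℕ), (mb β n : ℝ) ≤ n * ρ β ∧ n * ρ β < mb β n + 1 := fun β n =>
    ⟨Nat.floor_le (mul_nonneg (Nat.cast_nonneg _) (hρ β).1), Nat.lt_floor_add_one _⟩
  let ind : Ltr L N B → Ltr L N B → ℝ := fun a b =>
    if lo jb mb a b ≤ i ∧ i ≤ hi jb mb a b then 1 else 0
  have h0 : (load jb mb N i : ℝ) = ∑ a, ∑ b, ind a b := by
    unfold load
    rw [card_filter, Fintype.sum_prod_type]
    simp [ind]
  set P : ℝ := ∑ j : Fin L, if i ≤ j.val then (N j : ℝ) else 0 with hP
  set Q : ℝ := ∑ j : Fin L, if j.val ≤ i then (N j : ℝ) else 0 with hQ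
  let fw : B → ℝ := fun β => if i < jb β then 3 else if jb β = i then 1 + ρ β else 0
  let gw : B → ℝ := fun β => if jb β ≤ i then 3 else if jb β = i + 1 then 2 - ρ β else 0
  have hfw : ∀ β, 0 ≤ fw β := fun β => by
    have := hρ β
    simp only [fw]; split_ifs <;> linarith
  have hgw : ∀ β, 0 ≤ gw β := fun β => by
    have := hρ β
    simp only [gw]; split_ifs <;> linarith
  have e1 : Fintype.card (Ltr L N B) - cum N jb ρ i = P + ∑ β, fw β := by
    have c1 : (Fintype.card (Ltr L N B) : ℝ) = ∑ j, (N j : ℝ) + ∑ β : B, (3 : ℝ) := by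
      simp [Fintype.card_sigma]
    have c2 : ∑ j, (N j : ℝ) = ∑ l : Fin L, (if l.val < i then (N l : ℝ) else 0) + P := by
      rw [hP, ← sum_add_distrib]
      refine sum_congr rfl fun j _ => ?_
      split_ifs <;> first | omega | simp
    have c3 : ∑ β : B, (3 : ℝ) = ∑ β, (if jb β < i then (3 : ℝ) else
        if jb β = i then 2 - ρ β else 0) + ∑ β, fw β := by
      rw [← sum_add_distrib]
      refine sum_congr rfl fun j _ => ?_
      simp only [fw]
      split_ifs <;> first | omega | ring
    unfold cum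
    linarith
  have e2 : cum N jb ρ (i + 1) = Q + ∑ β, gw β := by
    simp only [cum, hQ, gw, Nat.lt_succ_iff]
  have p1 : ∑ a : (Σ j : Fin L, Fin (N j)), ∑ b : (Σ j : Fin L, Fin (N j)),
      ind (.inl a) (.inl b) = P * Q := by
    rw [hP, hQ, sum_mul_sum, Fintype.sum_sigma]
    refine sum_congr rfl fun j _ => ?_
    simp only [Fintype.sum_sigma, ind, lo, hi]
    rw [sum_comm]
    refine sum_congr rfl fun l _ => ?_
    by_cases h1 : i ≤ j.val <;> by_cases h2 : l.val ≤ i <;> simp [h1, h2]
  have p2 : ∀ β, ∑ u : Option Bool, ∑ b : (Σ j : Fin L, Fin (N j)), ind (.inr (β, u)) (.inl b) ≤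
      fw β * Q + L := by
    intro β
    have : ∀ l : Fin L, ∑ u : Option Bool, ∑ s : Fin (N l), ind (.inr (β, u)) (.inl ⟨l, s⟩) ≤
        fw β * (if l.val ≤ i then (N l : ℝ) else 0) + 1 := by
      intro l
      have h3 := hj β
      have h4 := count_true' (hm β) (N l)
      have h7 := hfl β (N l)
      simp only [Fintype.sum_option, Fintype.sum_bool, ind, lo, hi, fw, true_or, if_true,
        reduceCtorEq, false_or, true_and, Option.some.injEq, Bool.true_eq_false, false_and,
        if_false]
      by_cases h1 : l.val ≤ i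
      · rcases lt_trichotomy i (jb β) with h2 | h2 | h2
        · have h5 : ∀ s : Fin (N l), i ≤ if st (mb β) s.val = true ∨ s.val = 0 then jb β
              else jb β - 1 := fun s => by
            split_ifs <;> omega
          have h6 : i ≤ jb β - 1 := by omega
          simp only [h5]
          simp [h1, h2, h2.le, h6]
          linarith
        · have h5 : ∀ s : Fin (N l), (i ≤ if st (mb β) s.val = true ∨ s.val = 0 then jb β
              else jb β - 1) ↔ (st (mb β) s.val = true ∨ s.val = 0) := fun s => by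
            split_ifs with h6
            · simp only [h6, iff_true]; omega
            · simp only [h6, iff_false]; omega
          have h6 : ¬ i ≤ jb β - 1 := by omega
          simp only [h5, h6]
          simp only [h1, true_and, ← h2, le_refl, if_true, lt_irrefl, if_false, sum_const,
            card_univ, Fintype.card_fin, nsmul_eq_mul, mul_one, mul_zero]
          linarith
        · have h5 : ∀ s : Fin (N l), ¬ i ≤ if st (mb β) s.val = true ∨ s.val = 0 then jb β
              else jb β - 1 := fun s => by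
            split_ifs <;> omega
          have h6 : ¬ i ≤ jb β - 1 := by omega
          simp only [h5]
          simp [h6, h2.not_ge, h2.le.not_gt, h2.ne]
      · simp [h1]
    calc _ = ∑ l : Fin L, ∑ u : Option Bool, ∑ s : Fin (N l), ind (.inr (β, u)) (.inl ⟨l, s⟩) := by
          simp only [Fintype.sum_sigma]; rw [sum_comm]
      _ ≤ _ := sum_le_sum fun l _ => this l
      _ = _ := by rw [sum_add_distrib, ← mul_sum]; simp [hQ]
  have p3 : ∀ β, ∑ u : Option Bool, ∑ a : (Σ j : Fin L, Fin (N j)), ind (.inl a) (.inr (β, u)) ≤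
      P * gw β + L := by
    intro β
    have : ∀ l : Fin L, ∑ u : Option Bool, ∑ s : Fin (N l), ind (.inl ⟨l, s⟩) (.inr (β, u)) ≤
        (if i ≤ l.val then (N l : ℝ) else 0) * gw β + 1 := by
      intro l
      have h3 := hj β
      have h4 := count_false (hm β) (N l)
      have h7 := hfl β (N l)
      simp only [Fintype.sum_option, Fintype.sum_bool, ind, lo, hi, gw, true_or, if_true,
        reduceCtorEq, false_or, true_and, Option.some.injEq, Bool.false_eq_true, false_and,
        if_false]
      by_cases h1 : i ≤ l.val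
      · rcases lt_trichotomy (jb β) (i + 1) with h2 | h2 | h2
        · have h5 : ∀ s : Fin (N l), (if st (mb β) s.val = false then jb β - 1 else jb β) ≤ i :=
            fun s => by split_ifs <;> omega
          have h6 : jb β ≤ i := by omega
          have h8 : jb β - 1 ≤ i := by omega
          simp only [h5, h8]
          simp [h1, h6]
          linarith
        · have h5 : ∀ s : Fin (N l), ((if st (mb β) s.val = false then jb β - 1 else jb β) ≤ i) ↔
              st (mb β) s.val = false := fun s => by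
            split_ifs with h6
            · simp only [h6, iff_true]; omega
            · exact iff_of_false (by omega) h6
          have h6 : ¬ jb β ≤ i := by omega
          have h8 : jb β - 1 ≤ i := by omega
          simp only [h5, h8]
          simp only [h1, and_true, h6, if_false, if_true,
            if_pos h2, sum_const, card_univ, Fintype.card_fin, nsmul_eq_mul, mul_one]
          linarith
        · have h5 : ∀ s : Fin (N l), ¬ (if st (mb β) s.val = false then jb β - 1 else jb β) ≤ i :=
            fun s => by split_ifs <;> omega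
          have h6 : ¬ jb β ≤ i := by omega
          have h8 : ¬ jb β - 1 ≤ i := by omega
          simp only [h5, h8]
          simp [h6, h2.ne']
      · simp [h1]
    calc _ = ∑ l : Fin L, ∑ u : Option Bool, ∑ s : Fin (N l), ind (.inl ⟨l, s⟩) (.inr (β, u)) := by
          simp only [Fintype.sum_sigma]; rw [sum_comm]
      _ ≤ _ := sum_le_sum fun l _ => this l
      _ = _ := by rw [sum_add_distrib, ← sum_mul]; simp [hP]
  have p4 : ∑ a : B × Option Bool, ∑ b : B × Option Bool, ind (.inr a) (.inr b) ≤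
      9 * (Fintype.card B : ℝ) ^ 2 := by
    calc _ ≤ ∑ a : B × Option Bool, ∑ b : B × Option Bool, (1 : ℝ) :=
          sum_le_sum fun a _ => sum_le_sum fun b _ => by simp only [ind]; split_ifs <;> norm_num
      _ = _ := by simp; ring
  have q2 : ∑ a : B × Option Bool, ∑ b : (Σ j : Fin L, Fin (N j)), ind (.inr a) (.inl b) ≤
      (∑ β, fw β) * Q + L * Fintype.card B := by
    rw [Fintype.sum_prod_type]
    refine (sum_le_sum fun β _ => p2 β).trans (le_of_eq ?_)
    rw [sum_add_distrib, ← sum_mul]; simp [mul_comm]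
  have q3 : ∑ a : (Σ j : Fin L, Fin (N j)), ∑ b : B × Option Bool, ind (.inl a) (.inr b) ≤
      P * (∑ β, gw β) + L * Fintype.card B := by
    rw [sum_comm, Fintype.sum_prod_type]
    refine (sum_le_sum fun β _ => p3 β).trans (le_of_eq ?_)
    rw [sum_add_distrib, ← mul_sum]; simp [mul_comm]
  have q5 : 0 ≤ (∑ β, fw β) * ∑ β, gw β :=
    mul_nonneg (sum_nonneg fun β _ => hfw β) (sum_nonneg fun β _ => hgw β)
  rw [h0, e1, e2, Fintype.sum_sum_type]
  simp only [Fintype.sum_sum_type, sum_add_distrib]
  rw [p1]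
  nlinarith

theorem nil_of_cum (K : Type*) [Field K] (hL : 0 < L) (hj : ∀ β, 1 ≤ jb β ∧ jb β < L)
    (hρ : ∀ β, 0 ≤ ρ β ∧ ρ β < 1) {n d : ℕ} (hn : ∑ j, N j + 3 * Fintype.card B = n)
    (hS : ∀ i, 6 * Fintype.card B * n ≤ N i ^ 2)
    (hT : ∀ i < L, (n - cum N jb ρ i) * cum N jb ρ (i + 1) +
      9 * (Fintype.card B : ℝ) ^ 2 + 2 * L * Fintype.card B < d + 1) : Nil K n d (L + 1) := by
  have hc : Fintype.card (Ltr L N B) = n := by
    rw [← hn]; simp [Fintype.card_sigma, mul_comm]
  set mb : B → ℕ → ℕ := fun β i => ⌊(i : ℝ) * ρ β⌋₊ with hmb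
  have hm : ∀ β, Sturm (mb β) := fun β => sturm_floor (hρ β).1 (hρ β).2
  obtain ⟨c, h1, h2⟩ := exists_coloring_of_load jb mb (N := N) hL d (by rw [hc]; exact hS) (by
    intro i hi
    have h3 := load_le N jb ρ (fun β => (hj β).1) hρ i
    rw [hc] at h3
    have : (load jb mb N i : ℝ) < d + 1 := h3.trans_lt (hT i hi)
    have : load jb mb N i < d + 1 := by exact_mod_cast this
    omega)
  exact nil_of_coloring jb mb K hj hm (Fintype.equivFinOfCardEq hc) c h1 h2

end

end Pool.Agent.Lib.MP_05aa0e_al
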