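import Pool.Agent.Lib.MP_05aa0e_al.Load

set_option autoImplicit false

namespace Pool.Agent.Lib.MP_05aa0e_al

open Finset

theorem tele (L : ℕ) (M : ℕ → ℤ) (hM : ∀ l < L, M l ≤ M (l + 1)) (i : ℕ) (hi : i ≤ L) :
    ∑ l : Fin L, (if l.val < i then (((M (l + 1) - M l).toNat : ℕ) : ℝ) else 0) = M i - M 0 := by
  rw [Fin.sum_univ_eq_sum_range
    (fun l => if l < i then (((M (l + 1) - M l).toNat : ℕ) : ℝ) else 0), ← sum_filter]
  have : (range L).filter (fun l => l < i) = range i := by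
    ext l; simp only [mem_filter, mem_range]; omega
  rw [this, ← sum_range_sub (fun l => (M l : ℝ))]
  refine sum_congr rfl fun l hl => ?_
  have h1 := Int.toNat_of_nonneg (sub_nonneg.2 (hM l (by simp at hl; omega)))
  exact_mod_cast h1

theorem nil_monomial (K : Type*) [Field K] {L n d : ℕ} (hL : 0 < L) (M : ℕ → ℤ)
    (h0 : M 0 = 0) (h1 : M L = n) (hM : ∀ l < L, M l ≤ M (l + 1))
    (hd : ∀ l < L, (n - M l) * M (l + 1) ≤ d) : Nil K n d (L + 1) := by
  have hc : ∀ i ≤ L, cum (fun l : Fin L => (M (l + 1) - M l).toNat) (B := Fin 0)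
      (fun _ => 0) (fun _ => 0) i = M i := fun i hi => by
    simp [cum, tele L M hM i hi, h0]
  refine nil_of_cum (fun l : Fin L => (M (l + 1) - M l).toNat) (B := Fin 0)
    (fun _ => 0) (fun _ => 0) K hL (fun β => β.elim0) (fun β => β.elim0) ?_ (by simp) ?_
  · have := tele L M hM L le_rfl
    simp only [Fin.is_lt, if_true, h0, h1] at this
    simp only [Fintype.card_fin, mul_zero, add_zero]
    have h2 : ((∑ j : Fin L, (M (j + 1) - M j).toNat : ℕ) : ℝ) = n := by
      push_cast; simpa using this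
    exact_mod_cast h2
  · intro i hi
    rw [hc i hi.le, hc (i + 1) hi]
    have : (((n - M i) * M (i + 1) : ℤ) : ℝ) ≤ (d : ℤ) := by exact_mod_cast hd i hi
    push_cast at this
    simp only [Fintype.card_fin, Nat.cast_zero]
    linarith

theorem sum_levels (g : ℕ → ℝ) (i m : ℕ) :
    ∑ β ∈ range m, (if β + 1 < i then (3 : ℝ) else if β + 1 = i then g (β + 1) else 0) =
      if i = 0 then 0 else if i ≤ m then 3 * (i - 1) + g i else 3 * m := by
  induction m with
  | zero => split_ifs <;> first | omega | simp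
  | succ m ih =>
    rw [sum_range_succ, ih]
    split_ifs <;> first | omega | skip
    all_goals (subst_vars; push_cast; ring)

theorem nil_of_thresholds {L : ℕ} (hL : 0 < L) (q : ℕ → ℝ) (φ : ℝ) (h0 : q 0 = 0) (h1 : q L = 1)
    (hq : ∀ l < L, q l < q (l + 1)) (hφ : ∀ l < L, (1 - q l) * q (l + 1) ≤ φ) :
    ∃ C : ℕ, ∀ (K : Type) [Field K] (n : ℕ), Nil K n (⌈(n : ℝ) ^ 2 * φ⌉₊ + C) (L + 1) := by
  have ev : ∀ᶠ n : ℕ in Filter.atTop, ∀ l : Fin L,
      8 ≤ (q (l + 1) - q l) * n ∧ 24 * L ≤ (q (l + 1) - q l) ^ 2 * n := by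
    refine Filter.eventually_all.2 fun l => ?_
    have hp : 0 < q (l + 1) - q l := sub_pos.2 (hq l l.2)
    exact ((tendsto_natCast_atTop_atTop.const_mul_atTop hp).eventually_ge_atTop _).and
      ((tendsto_natCast_atTop_atTop.const_mul_atTop (pow_pos hp 2)).eventually_ge_atTop _)
  obtain ⟨n₀, hn₀⟩ := Filter.eventually_atTop.1 ev
  refine ⟨n₀ ^ 2 + 11 * L ^ 2, fun K _ n => ?_⟩
  by_cases hn : n < n₀
  · refine nil_monomial K hL (fun i => if i = 0 then 0 else n) (by simp) (by simp [hL.ne']) ?_ ?_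
    · intro l _; by_cases h : l = 0 <;> simp [h]
    · intro l _
      have : n ^ 2 ≤ n₀ ^ 2 := Nat.pow_le_pow_left hn.le 2
      have h2 : (n : ℤ) ^ 2 ≤ (n₀ : ℤ) ^ 2 := by exact_mod_cast this
      by_cases h : l = 0 <;> simp [h] <;> nlinarith [sq_nonneg (L : ℤ), sq_nonneg (n₀ : ℤ)]
  have hn' := hn₀ n (by omega)
  let M : ℕ → ℤ := fun i => ⌈q i * n⌉ -
    if i = 0 then (0 : ℤ) else if i < L then 3 * (i : ℤ) - 1 else 3 * (L : ℤ) - 3
  let g : ℕ → ℝ := fun i => ⌈q i * n⌉ - q i * n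
  have hgap : ∀ l : Fin L, (q (l + 1) - q l) * n - 4 ≤ (M (l + 1) : ℝ) - M l := by
    intro l
    have a1 := Int.le_ceil (q (l + 1) * n)
    have a2 := Int.ceil_lt_add_one (q l * n)
    have a3 : ((if l.val + 1 = 0 then 0 else if l.val + 1 < L then 3 * ((l.val + 1 : ℕ) : ℤ) - 1
        else 3 * L - 3 : ℤ)) - (if l.val = 0 then 0 else if l.val < L then 3 * (l.val : ℤ) - 1
        else 3 * L - 3 : ℤ) ≤ 3 := by
      have := l.2
      split_ifs <;> omega
    have a4 := (Int.cast_le (R := ℝ)).2 a3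
    simp only [M]
    push_cast at a4 ⊢
    linarith
  have hM : ∀ l < L, M l ≤ M (l + 1) := fun l hl => by
    have a1 := hgap ⟨l, hl⟩
    have a2 := (hn' ⟨l, hl⟩).1
    have : (M l : ℝ) ≤ M (l + 1) := by simp only at a1 a2; linarith
    exact_mod_cast this
  have hc : ∀ i ≤ L, cum (fun l : Fin L => (M (l + 1) - M l).toNat) (B := Fin (L - 1))
      (fun β => β.val + 1) (fun β => g (β.val + 1)) i = q i * n := fun i hi => by
    unfold cum
    rw [tele L M hM i hi, Fin.sum_univ_eq_sum_range (fun β => if β + 1 < i then (3 : ℝ) else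
      if β + 1 = i then 2 - g (β + 1) else 0), sum_levels (fun i => 2 - g i)]
    simp only [M, g, h0]
    by_cases e0 : i = 0
    · simp [e0, h0]
    · by_cases e1 : i < L
      · have e2 : i ≤ L - 1 := by omega
        simp [e0, e1, e2]; ring
      · have e2 : i = L := by omega
        have e3 : ¬ L ≤ L - 1 := by omega
        simp [e2, e3, h1, hL.ne', Nat.cast_sub hL]; ring
  refine nil_of_cum (fun l : Fin L => (M (l + 1) - M l).toNat) (B := Fin (L - 1))
    (fun β => β.val + 1) (fun β => g (β.val + 1)) K hL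
    (fun β => ⟨by omega, by have := β.2; omega⟩)
    (fun β => ⟨sub_nonneg.2 (Int.le_ceil _), by
      have := Int.ceil_lt_add_one (q (β.val + 1) * n); simp only [g]; linarith⟩) ?_ ?_ ?_
  · have := tele L M hM L le_rfl
    simp only [Fin.is_lt, if_true] at this
    have h2 : ((∑ j : Fin L, (M (j + 1) - M j).toNat + 3 * Fintype.card (Fin (L - 1)) : ℕ) : ℝ)
        = n := by
      push_cast; rw [this]
      simp [M, h0, h1, hL.ne', Nat.cast_sub hL]; ring
    exact_mod_cast h2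
  · intro l
    have a1 := hgap l
    obtain ⟨a2, a3⟩ := hn' l
    have a4 : (((M (l + 1) - M l).toNat : ℕ) : ℝ) = M (l + 1) - M l := by
      exact_mod_cast Int.toNat_of_nonneg (sub_nonneg.2 (hM l l.2))
    have a5 : (((L - 1 : ℕ)) : ℝ) ≤ L := by exact_mod_cast Nat.sub_le L 1
    have a6 : (0 : ℝ) ≤ n := Nat.cast_nonneg n
    have a7 : ((q (l + 1) - q l) * n / 2) ^ 2 ≤ ((M (l + 1) : ℝ) - M l) ^ 2 :=
      pow_le_pow_left₀ (by linarith) (by linarith) 2
    have : (6 : ℝ) * ((L - 1 : ℕ) : ℝ) * n ≤ (((M (l + 1) - M l).toNat : ℕ) : ℝ) ^ 2 := by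
      rw [a4]
      nlinarith [mul_le_mul_of_nonneg_right a3 a6, mul_le_mul_of_nonneg_right a5 a6]
    simp only [Fintype.card_fin]
    exact_mod_cast this
  · intro i hi
    rw [hc i hi.le, hc (i + 1) hi]
    have a1 := mul_le_mul_of_nonneg_left (hφ i hi) (sq_nonneg (n : ℝ))
    have a2 := Nat.le_ceil ((n : ℝ) ^ 2 * φ)
    have a5 : (((L - 1 : ℕ)) : ℝ) ≤ L := by exact_mod_cast Nat.sub_le L 1
    have a6 : (0 : ℝ) ≤ ((L - 1 : ℕ) : ℝ) := Nat.cast_nonneg _
    have a7 : (0 : ℝ) ≤ L := Nat.cast_nonneg _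
    simp only [Fintype.card_fin]
    push_cast
    nlinarith [sq_nonneg (n₀ : ℝ), mul_le_mul a5 a5 a6 a7, mul_le_mul_of_nonneg_left a5 a7]

theorem bounded_error (k : ℕ) (hk : 2 ≤ k) :
    ∃ C : ℕ, ∀ (K : Type) [Field K] (n : ℕ),
      Nil K n (⌈(n : ℝ) ^ 2 / (4 * Real.cos (Real.pi / ((k : ℝ) + 1)) ^ 2)⌉₊ + C) k := by
  obtain ⟨L, rfl⟩ : ∃ L, k = L + 1 := ⟨k - 1, by omega⟩
  have hL : 0 < L := by omega
  have hL' : (1 : ℝ) ≤ L := by exact_mod_cast hL
  set θ : ℝ := Real.pi / (((L + 1 : ℕ) : ℝ) + 1) with hθ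
  have hθ1 : θ * (L + 2) = Real.pi := by
    rw [hθ]; push_cast; field_simp; ring
  have hθ0 : 0 < θ := by rw [hθ]; have := Real.pi_pos; positivity
  have hs : ∀ i : ℕ, i ≤ L → 0 < Real.sin ((i + 1) * θ) := fun i hi => by
    have : (i : ℝ) ≤ L := by exact_mod_cast hi
    exact Real.sin_pos_of_pos_of_lt_pi (by positivity) (by nlinarith)
  have hc : 0 < Real.cos θ := Real.cos_pos_of_mem_Ioo ⟨by linarith [Real.pi_pos], by nlinarith⟩
  have hs1 : 0 < Real.sin θ := by simpa using hs 0 (by omega)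
  let q : ℕ → ℝ := fun i => Real.sin (i * θ) / (2 * Real.cos θ * Real.sin ((i + 1) * θ))
  have key : ∀ l < L, 1 - q l =
      Real.sin ((l + 1 + 1) * θ) / (2 * Real.cos θ * Real.sin ((l + 1) * θ)) := by
    intro l hl
    have a1 := hs l hl.le
    have a2 : Real.sin ((l + 1 + 1) * θ) + Real.sin (l * θ) =
        2 * Real.cos θ * Real.sin ((l + 1) * θ) := by
      rw [show ((l : ℝ) + 1 + 1) * θ = (l + 1) * θ + θ by ring,
        show (l : ℝ) * θ = (l + 1) * θ - θ by ring, Real.sin_add, Real.sin_sub]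
      ring
    simp only [q]
    rw [eq_div_iff (by positivity), sub_mul, div_mul_cancel₀ _ (by positivity)]
    linarith
  have hφ : ∀ l < L, (1 - q l) * q (l + 1) = 1 / (4 * Real.cos θ ^ 2) := by
    intro l hl
    have a1 := hs l hl.le
    have a2 := hs (l + 1) hl
    rw [key l hl]
    simp only [q]
    push_cast at a2 ⊢
    field_simp
    ring
  have hq : ∀ l < L, q l < q (l + 1) := by
    intro l hl
    have a1 := hs l hl.le
    have a2 := hs (l + 1) hl
    push_cast at a2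
    have a3 : 0 < 1 - q l := by rw [key l hl]; positivity
    have a4 : 1 / 4 < 1 / (4 * Real.cos θ ^ 2) := by
      apply one_div_lt_one_div_of_lt (by positivity)
      nlinarith [Real.sin_sq_add_cos_sq θ]
    have a5 := hφ l hl
    by_contra hcon
    nlinarith [mul_le_mul_of_nonneg_left (not_lt.1 hcon) a3.le, sq_nonneg (q l - 1 / 2)]
  obtain ⟨C, hC⟩ := nil_of_thresholds hL q _ (by simp [q]) (by
    have a1 : ((L : ℝ) + 1) * θ = Real.pi - θ := by linarith
    have a2 : (L : ℝ) * θ = Real.pi - 2 * θ := by linarith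
    simp only [q]
    rw [a1, a2, Real.sin_pi_sub, Real.sin_pi_sub, Real.sin_two_mul]
    field_simp) hq (fun l hl => (hφ l hl).le)
  exact ⟨C, fun K _ n => by simpa [div_eq_mul_inv] using hC K n⟩

theorem pell_seven (K : Type) [Field K] (P H : ℕ) (h : H ^ 2 + 1 = 2 * P ^ 2) :
    Nil K (2 * P)
      ⌈((2 * P : ℕ) : ℝ) ^ 2 / (4 * Real.cos (Real.pi / (((7 : ℕ) : ℝ) + 1)) ^ 2)⌉₊ 7 := by
  have hz : (H : ℤ) ^ 2 + 1 = 2 * (P : ℤ) ^ 2 := by exact_mod_cast h
  have hr : (H : ℝ) ^ 2 + 1 = 2 * (P : ℝ) ^ 2 := by exact_mod_cast h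
  have hP : 1 ≤ (P : ℤ) := by nlinarith
  have h1 : (P : ℤ) ≤ H := by nlinarith
  have h2 : 2 * (H : ℤ) ≤ 3 * P := by nlinarith
  have h3 : 4 * (P : ℤ) ≤ 3 * H ∨ (P = 1 ∧ H = 1) := by
    by_cases hP1 : P = 1
    · right; subst hP1; exact ⟨rfl, by nlinarith⟩
    · left
      have : 3 ≤ (P : ℤ) := by
        by_contra hc
        have : P = 2 := by omega
        subst this
        have : H = 2 ∨ H = 3 := by omega
        rcases this with rfl | rfl <;> omega
      nlinarith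
  set d := ⌈((2 * P : ℕ) : ℝ) ^ 2 / (4 * Real.cos (Real.pi / (((7 : ℕ) : ℝ) + 1)) ^ 2)⌉₊ with hd
  have hd1 : 2 * (P : ℤ) * (2 * P - H) ≤ d := by
    have s2 : Real.sqrt 2 ^ 2 = 2 := Real.sq_sqrt (by norm_num)
    have s0 : 1 < Real.sqrt 2 := by nlinarith [Real.sqrt_nonneg 2]
    have e1 : 4 * Real.cos (Real.pi / (((7 : ℕ) : ℝ) + 1)) ^ 2 = 2 + Real.sqrt 2 := by
      rw [Real.cos_sq, show 2 * (Real.pi / (((7 : ℕ) : ℝ) + 1)) = Real.pi / 4 by push_cast; ring,
        Real.cos_pi_div_four]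
      ring
    have e2 := Nat.le_ceil (((2 * P : ℕ) : ℝ) ^ 2 /
      (4 * Real.cos (Real.pi / (((7 : ℕ) : ℝ) + 1)) ^ 2))
    rw [← hd, e1, div_le_iff₀ (by linarith)] at e2
    have hP' : (1 : ℝ) ≤ P := by exact_mod_cast hP
    have h1' : (P : ℝ) ≤ H := by exact_mod_cast h1
    have e3 : (2 * (P : ℝ) * (2 * P - H) - 1) * (2 + Real.sqrt 2) < (2 * P) ^ 2 := by
      set s := Real.sqrt 2
      have f1 : (s * P - H) * (s * P + H) = 1 := by nlinarith
      have f2 : 2 * P < s * P + H := by nlinarith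
      have f3 : 0 < s * P - H := by
        by_contra hc
        nlinarith
      have f4 : 2 * P * (s * P - H) < 1 := by nlinarith
      have f5 : (2 * (P : ℝ) * (2 * P - H) - 1) * (2 + s) - (2 * P) ^ 2 =
          (2 * P * (s * P - H) - 1) * (2 + s) + 2 * P ^ 2 * (2 - s ^ 2) := by ring
      nlinarith
    have e4 : (2 * (P : ℝ) * (2 * P - H) - 1) < d := by
      push_cast at e2
      by_contra hc
      nlinarith
    have e5 : (2 * (P : ℤ) * (2 * P - H) - 1) < d := by exact_mod_cast e4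
    omega
  rcases h3 with h3 | ⟨rfl, rfl⟩
  · refine nil_monomial K (L := 6) (by norm_num)
      (fun i => [0, 2 * (P : ℤ) - H, 2 * H - 2 * P, P, 4 * P - 2 * H, H].getD i (2 * P))
      rfl (by simp) ?_ ?_
    · intro l hl
      interval_cases l <;> simp <;> linarith
    · intro l hl
      interval_cases l <;> simp <;> nlinarith
  · refine nil_monomial K (L := 6) (by norm_num)
      (fun i => [0, 1].getD i 2) rfl (by simp) ?_ ?_
    · intro l hl
      interval_cases l <;> simp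
    · intro l hl
      interval_cases l <;> simp <;> omega

end Pool.Agent.Lib.MP_05aa0e_al
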